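import Pool.Agent.Lib.MP_2795bc_gt.SOL.Geo

/-!
# MP_2795bc_gt: assembly, with the regularity of the metric in the charts
-/

open scoped Manifold ContDiff Topology Quaternion
open Bundle

noncomputable section

namespace Pool.Agent.Lib.MP_2795bc_gt.SOL

/-- The answer to Q1, with the regularity of the metric in the charts. -/
def TargetS : Prop :=
  ∃ (M : Type) (_ : TopologicalSpace M) (_ : ChartedSpace (Eu 7) M) (_ : IsManifold (𝓡 7) ∞ M),
    CompactSpace M ∧ T2Space M ∧ ConnectedSpace M ∧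
    ∃ (g : ContMDiffRiemannianMetric (𝓡 7) ∞ (Eu 7) (fun x : M => TangentSpace (𝓡 7) x))
      (V : VecField 7 M),
      ContMDiff (𝓡 7) (𝓡 7).tangent ∞ (fun x => (⟨x, V x⟩ : TangentBundle (𝓡 7) M)) ∧
      IsRicciSoliton g.inner V 1 ∧ ¬ IsEinstein g.inner ∧ ¬ LocKahler g.inner ∧
      ¬ LocDecomposable g.inner ∧
      ∀ p : M, (extChartAt (𝓡 7) p).target = Set.univ ∧
        IsMetricOn (coordMetric g.inner p) Set.univ

/-- the answer from the geometric modules, with the regularity of the metric -/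
theorem targetS_of (hODE : StODE) (hChart : StChart) (hTan : StTan) (hTop : StTop) (hGm : StGm)
    (hGlue : StGlue) (hLoc : StLoc) (hNE : StNonEin) (hComm : StComm) (hNat : StNat) : TargetS := by
  obtain ⟨f, hf⟩ := hODE
  have hCh := hChart
  obtain ⟨c1, c2, c3, c4, c5, c6, c7⟩ := hChart
  obtain ⟨M, iT, iC, iM, hcpt, hT2, hconn, g, X, j, hX, hj, hp⟩ :=
    hGlue 7 WW MS Ix Phi cc Os (Bm f) (VW f) c1 c2 c3 c4 c5 c6 c7 hTop.1 hTop.2
      (fun e => (hGm f hf e).1)
      (fun w _ u v => by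
        simp only [Bm, ContinuousLinearMap.add_apply, ContinuousLinearMap.smul_apply, b0, b1, b2,
          b3, ContinuousLinearMap.bilinearComp_apply, innerSL_apply_apply]
        rw [real_inner_comm (ContinuousLinearMap.fst ℝ HH (ℝ × HH × HH) u), real_inner_comm (prx u),
          real_inner_comm (prp u), real_inner_comm (prz u)])
      (fun e t u hu => (hGm f hf e).2.2.1 t u hu)
      (fun e => (hGm f hf e).2.2.2) (fun e t => (hTan f e t).1)
  have hm : ∀ p : M, ∃ e : Ix, (extChartAt (𝓡 7) p).target = Set.univ ∧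
      coordMetric g.inner p = Gm f e ∧ coordField X p = Vm f e ∧
      Phi e (extChartAt (𝓡 7) p p) = j p := by
    intro p
    obtain ⟨e, h1, h2, h3, h4⟩ := hp p
    exact ⟨e, h1, funext h2, funext h3, h4 p (mem_extChartAt_source p)⟩
  have hne : Nonempty M := hconn.toNonempty
  refine ⟨M, iT, iC, iM, hcpt, hT2, hconn, g, X, hX, ?_, ?_, ?_, ?_, ?_⟩
  · intro p y _ u v
    obtain ⟨e, -, h2, h3, -⟩ := hm p
    rw [h2, h3, one_mul]
    exact hLoc f hf e y u v
  · rintro ⟨c, hc⟩
    obtain ⟨p⟩ := hne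
    obtain ⟨e, h1, h2, h3, -⟩ := hm p
    refine hNE f hf e c (fun t u v => ?_)
    have := hc p t (by rw [h1]; trivial) u v
    rw [h2] at this
    exact this
  · intro hK
    obtain ⟨p⟩ := hne
    obtain ⟨U, -, hpU, -, J, -, hJ⟩ := hK p
    exact no_J 7 (by decide) (J (extChartAt (𝓡 7) p p)) (hJ _ hpU).1
  · -- a point with `x = 0`
    let t0 : Eu 7 := WithLp.toLp 2 ![1, 0, 0, 0, 0, 0, 0]
    have hx : (Phi (true, true, true) t0).2.1 = 0 := by
      simp [Phi, Te, Phi0, eta2, sgn, t0]
    obtain ⟨p, hpj⟩ : ∃ p, j p = Phi (true, true, true) t0 := by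
      have : Phi (true, true, true) t0 ∈ Set.range j := by rw [hj]; exact (c1 _ _).1
      exact this
    obtain ⟨e, h1, h2, h3, h4⟩ := hm p
    refine not_dec hNat g.inner p h1 ?_ ?_
    · rw [h2]
      exact ⟨isOpen_univ, (hGm f hf e).1.contDiffOn, fun y _ =>
        ⟨(hGm f hf e).2.1 y, (hGm f hf e).2.2.1 y⟩⟩
    · rw [h2]
      intro Pr hPr
      refine hComm f hf e _ ?_ Pr hPr
      rw [h4, hpj, hx]
  · intro p
    obtain ⟨e, h1, h2, -, -⟩ := hm p
    refine ⟨h1, ?_⟩
    rw [h2]
    exact ⟨isOpen_univ, (hGm f hf e).1.contDiffOn, fun y _ =>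
      ⟨(hGm f hf e).2.1 y, (hGm f hf e).2.2.1 y⟩⟩

/-- the answer follows from the analytic theorem, with the regularity -/
theorem targetS_of_ODE (h : StODE) : TargetS := by
  have hChart : StChart := stChart stChA stChB stChC stChD
  have hTan : StTan := stTan hChart
  have hTop : StTop := stTop hChart
  have hGm : StGm := stGm hChart hTan
  have hGlue : StGlue := stGlue stGlueM stGlueMet stGlueVec
  have hReg : StReg := stReg stRegS stRegL
  have hFRM : StFRM := stFRM hReg (stCovF hReg) (stRiemF hReg)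
  have hNat : StNat := stNat stNatA stNatB
  have hFe : StFe := stFe hChart hTan
  have hBB : StBB := stBB hChart
  have hAB : StAB := stAB
  have hDAB : StDAB := stDAB hAB
  have hE : StE := stE hAB hDAB
  have hAt : StAt0 := stAt0 hAB hDAB
  have hQ : StQReg := stQReg hAB
  have hCurv : StCurv := stCurv hChart hGm hFe hBB stFrame hAB hQ stKos hFRM
  have hLoc : StLoc := stLoc hGm hReg hFe stLie hCurv stTabOff stTabDiag hE hAB hQ
  have hNE : StNonEin := stNonEin hCurv hLoc stLie hAB hAt hGm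
  have hComm : StComm := stComm hCurv stTabMix hAt hReg hGm
  exact targetS_of h hChart hTan hTop hGm hGlue hLoc hNE hComm hNat

end Pool.Agent.Lib.MP_2795bc_gt.SOL
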