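import Pool.Agent.Lib.MP_2795bc_gt.SOL.AStmts

/-!
# MP_2795bc_gt: calculus of the values of the power series
-/

open PowerSeries
open scoped ContDiff

noncomputable section

namespace Pool.Agent.Lib.MP_2795bc_gt.SOL

open WS

namespace EvAux

theorem pow_bound {y : ℝ} (hy : |y| ≤ 3 / 2) (n : ℕ) : ‖y ^ n‖ ≤ 1 * (3 / 2 : ℝ) ^ n := by
  rw [norm_pow, Real.norm_eq_abs, one_mul]
  exact pow_le_pow_left₀ (abs_nonneg _) hy n

/-- evaluation at `y` as a continuous linear functional -/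
def evL (y : ℝ) (hy : |y| ≤ 3 / 2) : WS →L[ℝ] ℝ := ofCol (fun n => y ^ n) 1 (pow_bound hy)

theorem evL_apply (y : ℝ) (hy : |y| ≤ 3 / 2) (f : WS) : evL y hy f = ev f y := rfl

theorem evL_x_pow (y : ℝ) (hy : |y| ≤ 3 / 2) (n : ℕ) : evL y hy (x ^ n) = y ^ n :=
  ofCol_x_pow _ _ _ n

theorem abs_le_of_mem {y : ℝ} (hy : y ∈ Jv) : |y| ≤ 3 / 2 :=
  abs_le.2 ⟨by linarith [hy.1], hy.2.le⟩

/-- multiplication by `f` -/
def mulL (f : WS) : WS →L[ℝ] WS := LinearMap.mkContinuous
  { toFun := fun g => f * g, map_add' := fun _ _ => mul_add _ _ _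
    map_smul' := fun r g => by simp } ‖f‖ (fun g => norm_mul_le' f g)

theorem mulL_apply (f g : WS) : mulL f g = f * g := rfl

theorem evL_mul_x_pow (y : ℝ) (hy : |y| ≤ 3 / 2) (m : ℕ) (f : WS) :
    evL y hy (x ^ m * f) = y ^ m * evL y hy f := by
  have h : (evL y hy).comp (mulL (x ^ m)) = (y ^ m) • evL y hy := by
    apply ext_x_pow
    intro n
    change evL y hy (x ^ m * x ^ n) = y ^ m * evL y hy (x ^ n)
    rw [← pow_add, evL_x_pow, evL_x_pow, pow_add]
  exact congrArg (fun T : WS →L[ℝ] ℝ => T f) h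

theorem evL_mul (y : ℝ) (hy : |y| ≤ 3 / 2) (f g : WS) :
    evL y hy (f * g) = evL y hy f * evL y hy g := by
  have h : (evL y hy).comp (mulL f) = (evL y hy f) • evL y hy := by
    apply ext_x_pow
    intro n
    change evL y hy (f * x ^ n) = evL y hy f * evL y hy (x ^ n)
    rw [mul_comm, evL_mul_x_pow, evL_x_pow, mul_comm]
  exact congrArg (fun T : WS →L[ℝ] ℝ => T g) h

theorem ev_comp (T : WS →L[ℝ] WS) (f : WS) (y : ℝ) (hy : |y| ≤ 3 / 2) :
    ev (T f) y = ∑' n, cf f n * ev (T (x ^ n)) y := by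
  have h := ((evL y hy).comp T).hasSum (hasSum_x_pow f)
  simp only [map_smul] at h
  exact h.tsum_eq.symm

theorem contDiff (f : WS) : ContDiffOn ℝ ∞ (ev f) Jv := by
  set p := FormalMultilinearSeries.ofScalars ℝ (cf f) with hp
  have hr : ((3 / 2 : NNReal) : ENNReal) ≤ p.radius := by
    apply FormalMultilinearSeries.le_radius_of_summable
    have h := cf_summable f
    refine h.congr fun n => ?_
    rw [hp, FormalMultilinearSeries.ofScalars_norm, Real.norm_eq_abs]
    norm_num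
  have hpos : 0 < p.radius := lt_of_lt_of_le (by norm_num) hr
  have h1 := p.hasFPowerSeriesOnBall hpos
  have h2 : AnalyticOnNhd ℝ p.sum Jv := by
    refine h1.analyticOnNhd.mono fun y hy => ?_
    have h3 : ‖y‖ < 3 / 2 := by
      rw [Real.norm_eq_abs]
      exact abs_lt.2 ⟨by linarith [hy.1], hy.2⟩
    refine lt_of_lt_of_le ?_ hr
    rw [edist_zero_right]
    have h4 : ‖y‖₊ < 3 / 2 := by
      rw [← NNReal.coe_lt_coe]
      simpa using h3
    exact_mod_cast h4
  have h5 : p.sum = ev f := by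
    funext y
    change (∑' n, p n fun _ => y) = ∑' n, cf f n * y ^ n
    refine tsum_congr fun n => ?_
    rw [hp, FormalMultilinearSeries.ofScalars_apply_eq]
    rfl
  rw [← h5]
  exact (h2.contDiffOn (isOpen_Ioo.uniqueDiffOn)).of_le le_top

theorem isPre : IsPreconnected Jv := (convex_Ioo _ _).isPreconnected

theorem zero_mem : (0 : ℝ) ∈ Jv := by constructor <;> norm_num

theorem coef_bound (f : WS) {y : ℝ} (hy : |y| ≤ 3 / 2) (n : ℕ) :
    ‖cf f n * y ^ n‖ ≤ |cf f n| * (3 / 2 : ℝ) ^ n := by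
  rw [norm_mul, Real.norm_eq_abs, norm_pow, Real.norm_eq_abs]
  exact mul_le_mul_of_nonneg_left (pow_le_pow_left₀ (abs_nonneg _) hy n) (abs_nonneg _)

theorem ev_summable (f : WS) {y : ℝ} (hy : |y| ≤ 3 / 2) : Summable fun n => cf f n * y ^ n :=
  Summable.of_norm_bounded (cf_summable f) (coef_bound f hy)

theorem deriv_I (f : WS) {y : ℝ} (hy : y ∈ Jv) : HasDerivAt (ev (I f)) (ev f y) y := by
  have h := hasDerivAt_tsum_of_isPreconnected (𝕜 := ℝ) (F := ℝ) (t := Jv)
    (u := fun n => |cf f n| * (3 / 2 : ℝ) ^ n)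
    (g := fun n z => cf f n * (1 / (n + 1 : ℝ) * z ^ (n + 1)))
    (g' := fun n z => cf f n * z ^ n) (y₀ := 0) (y := y) (cf_summable f) isOpen_Ioo isPre
    (fun n z _ => by
      have h1 := ((hasDerivAt_pow (n + 1) z).const_mul (1 / (n + 1 : ℝ))).const_mul (cf f n)
      have h2 : (n + 1 : ℝ) ≠ 0 := by positivity
      have h3 : cf f n * z ^ n =
          cf f n * (1 / (n + 1 : ℝ) * (((n + 1 : ℕ) : ℝ) * z ^ (n + 1 - 1))) := by
        rw [Nat.add_sub_cancel]
        push_cast
        field_simp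
      rw [h3]
      exact h1)
    (fun n z hz => coef_bound f (abs_le_of_mem hz) n) zero_mem
    (by simp) hy
  refine h.congr_of_eventuallyEq ?_
  filter_upwards [isOpen_Ioo.mem_nhds hy] with z hz
  rw [ev_comp I f z (abs_le_of_mem hz)]
  refine tsum_congr fun n => ?_
  rw [I_x_pow, ← evL_apply z (abs_le_of_mem hz), map_smul, evL_x_pow, smul_eq_mul]

/-- the sum in the columns of `D` -/
theorem sum_id (z : ℝ) (n : ℕ) :
    (1 - z ^ 2) * (∑ k ∈ Finset.range n, if (n - k) % 2 = 1 then z ^ k else 0) =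
      (if n % 2 = 0 then z else 1) - z ^ (n + 1) := by
  induction n using Nat.strong_induction_on with
  | _ n ih =>
    match n, ih with
    | 0, _ => simp
    | 1, _ => norm_num [Finset.sum_range_succ]
    | n + 2, ih =>
      have h1 := ih n (by omega)
      rw [Finset.sum_range_succ, Finset.sum_range_succ]
      have h2 : ∀ k ∈ Finset.range n, (if (n + 2 - k) % 2 = 1 then z ^ k else 0)
          = if (n - k) % 2 = 1 then z ^ k else 0 := by
        intro k hk
        have hk' : k < n := Finset.mem_range.mp hk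
        have : (n + 2 - k) % 2 = (n - k) % 2 := by omega
        rw [this]
      rw [Finset.sum_congr rfl h2]
      have h3 : (n + 2 - n) % 2 = 0 := by omega
      have h4 : (n + 2 - (n + 1)) % 2 = 1 := by omega
      have h5 : (n + 2) % 2 = n % 2 := by omega
      rw [h3, h4, h5]
      simp only [zero_ne_one, if_false, add_zero, if_true]
      linear_combination h1

theorem ev_dcol (z : ℝ) (hz : |z| ≤ 3 / 2) (n : ℕ) :
    (1 - z ^ 2) * ev (dcol n) z =
      1 / (n + 1 : ℝ) * (z ^ (n + 1) - if n % 2 = 0 then z else 1) := by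
  have h1 : ev (dcol n) z = -(1 / (n + 1 : ℝ)) *
      ∑ k ∈ Finset.range n, if (n - k) % 2 = 1 then z ^ k else 0 := by
    rw [← evL_apply z hz, dcol, map_smul, map_sum, smul_eq_mul]
    congr 1
    refine Finset.sum_congr rfl fun k _ => ?_
    split_ifs
    · exact evL_x_pow _ _ _
    · exact map_zero _
  rw [h1]
  linear_combination (-(1 / (n + 1 : ℝ))) * sum_id z n

theorem mu_eq (f : WS) : mu f = ∑' n, cf f n * (if n % 2 = 0 then 1 / (n + 1 : ℝ) else 0) := rfl

theorem abs_summable (f : WS) : Summable fun n => |cf f n| := by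
  refine Summable.of_nonneg_of_le (fun n => abs_nonneg _) (fun n => ?_) (cf_summable f)
  have h1 : (1 : ℝ) ≤ (3 / 2) ^ n := one_le_pow₀ (by norm_num)
  nlinarith [abs_nonneg (cf f n)]

theorem mu_summable (f : WS) :
    Summable fun n => cf f n * (if n % 2 = 0 then 1 / (n + 1 : ℝ) else 0) := by
  refine Summable.of_norm_bounded (abs_summable f) fun n => ?_
  rw [norm_mul, Real.norm_eq_abs]
  have h2 : ‖(if n % 2 = 0 then 1 / (n + 1 : ℝ) else 0)‖ ≤ 1 := by
    split_ifs
    · rw [Real.norm_of_nonneg (by positivity), div_le_one (by positivity)]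
      linarith [(Nat.cast_nonneg n : (0 : ℝ) ≤ n)]
    · simp
  nlinarith [abs_nonneg (cf f n)]

theorem deriv_D (f : WS) {y : ℝ} (hy : y ∈ Jv) :
    HasDerivAt (fun y => (1 - y ^ 2) * ev (D f) y) (ev f y - mu f) y := by
  have hc : ∀ n : ℕ, ‖(if n % 2 = 0 then 1 / (n + 1 : ℝ) else 0)‖ ≤ 1 := by
    intro n
    split_ifs
    · rw [Real.norm_of_nonneg (by positivity), div_le_one (by positivity)]
      linarith [(Nat.cast_nonneg n : (0 : ℝ) ≤ n)]
    · simp
  have h := hasDerivAt_tsum_of_isPreconnected (𝕜 := ℝ) (F := ℝ) (t := Jv)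
    (u := fun n => 2 * (|cf f n| * (3 / 2 : ℝ) ^ n))
    (g := fun n z => cf f n * (1 / (n + 1 : ℝ) * (z ^ (n + 1) - if n % 2 = 0 then z else 1)))
    (g' := fun n z => cf f n * z ^ n - cf f n * (if n % 2 = 0 then 1 / (n + 1 : ℝ) else 0))
    (y₀ := 0) (y := y) ((cf_summable f).mul_left 2) isOpen_Ioo isPre
    (fun n z _ => by
      have h2 : (n + 1 : ℝ) ≠ 0 := by positivity
      by_cases hn : n % 2 = 0
      · simp only [hn, if_true]
        have h1 := (((hasDerivAt_pow (n + 1) z).sub (hasDerivAt_id z)).const_mul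
          (1 / (n + 1 : ℝ))).const_mul (cf f n)
        have h3 : cf f n * z ^ n - cf f n * (1 / (n + 1 : ℝ)) =
            cf f n * (1 / (n + 1 : ℝ) * (((n + 1 : ℕ) : ℝ) * z ^ (n + 1 - 1) - 1)) := by
          rw [Nat.add_sub_cancel]
          push_cast
          field_simp
        rw [h3]
        exact h1
      · simp only [hn, if_false]
        have h1 := (((hasDerivAt_pow (n + 1) z).sub (hasDerivAt_const z (1 : ℝ))).const_mul
          (1 / (n + 1 : ℝ))).const_mul (cf f n)
        have h3 : cf f n * z ^ n - cf f n * 0 =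
            cf f n * (1 / (n + 1 : ℝ) * (((n + 1 : ℕ) : ℝ) * z ^ (n + 1 - 1) - 0)) := by
          rw [Nat.add_sub_cancel]
          push_cast
          field_simp
          ring
        rw [h3]
        exact h1)
    (fun n z hz => by
      have h1 := coef_bound f (abs_le_of_mem hz) n
      have h2 : ‖cf f n * (if n % 2 = 0 then 1 / (n + 1 : ℝ) else 0)‖ ≤
          |cf f n| * (3 / 2 : ℝ) ^ n := by
        rw [norm_mul, Real.norm_eq_abs]
        have h3 : (1 : ℝ) ≤ (3 / 2) ^ n := one_le_pow₀ (by norm_num)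
        exact mul_le_mul_of_nonneg_left ((hc n).trans h3) (abs_nonneg _)
      have h4 := norm_sub_le (cf f n * z ^ n) (cf f n * (if n % 2 = 0 then 1 / (n + 1 : ℝ) else 0))
      linarith) zero_mem
    (by
      refine Summable.of_norm_bounded (abs_summable f) fun n => ?_
      rw [norm_mul, Real.norm_eq_abs]
      have h1 : ‖1 / (n + 1 : ℝ) * ((0 : ℝ) ^ (n + 1) - if n % 2 = 0 then 0 else 1)‖ ≤ 1 := by
        rw [zero_pow (Nat.succ_ne_zero n), norm_mul, Real.norm_of_nonneg (by positivity)]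
        have h2 : ‖(0 : ℝ) - if n % 2 = 0 then 0 else 1‖ ≤ 1 := by
          split_ifs <;> norm_num
        have h3 : 1 / (n + 1 : ℝ) ≤ 1 := by
          rw [div_le_one (by positivity)]
          linarith [(Nat.cast_nonneg n : (0 : ℝ) ≤ n)]
        have h4 : (0 : ℝ) ≤ 1 / (n + 1 : ℝ) := by positivity
        calc 1 / (n + 1 : ℝ) * ‖(0 : ℝ) - if n % 2 = 0 then 0 else 1‖ ≤ 1 * 1 :=
              mul_le_mul h3 h2 (norm_nonneg _) zero_le_one
          _ = 1 := one_mul 1
      calc |cf f n| * _ ≤ |cf f n| * 1 := mul_le_mul_of_nonneg_left h1 (abs_nonneg _)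
        _ = |cf f n| := mul_one _) hy
  have he : (∑' n, (cf f n * y ^ n - cf f n * (if n % 2 = 0 then 1 / (n + 1 : ℝ) else 0))) =
      ev f y - mu f := by
    rw [(ev_summable f (abs_le_of_mem hy)).tsum_sub (mu_summable f), mu_eq]
    rfl
  rw [he] at h
  refine h.congr_of_eventuallyEq ?_
  filter_upwards [isOpen_Ioo.mem_nhds hy] with z hz
  rw [ev_comp D f z (abs_le_of_mem hz), ← tsum_mul_left]
  refine tsum_congr fun n => ?_
  rw [D_x_pow, ← ev_dcol z (abs_le_of_mem hz)]
  ring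

theorem ev_zero (f : WS) : ev f 0 = cf f 0 := by
  rw [ev, tsum_eq_single 0]
  · simp
  · intro n hn
    rw [zero_pow hn, mul_zero]

theorem ev_bound (f : WS) (y : ℝ) (hy : |y| ≤ 1) :
    |ev f y - cf f 0| ≤ 2 / 3 * (‖f‖ - |cf f 0|) := by
  have hy' : |y| ≤ 3 / 2 := hy.trans (by norm_num)
  have h1 : ev f y - cf f 0 = ∑' n, cf f (n + 1) * y ^ (n + 1) := by
    rw [ev, (ev_summable f hy').tsum_eq_zero_add]
    simp
  have h2 : ‖f‖ - |cf f 0| = ∑' n, |cf f (n + 1)| * (3 / 2 : ℝ) ^ (n + 1) := by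
    rw [norm_def, (cf_summable f).tsum_eq_zero_add]
    simp
  rw [h1, h2, ← tsum_mul_left, ← Real.norm_eq_abs]
  have hs : Summable fun n => 2 / 3 * (|cf f (n + 1)| * (3 / 2 : ℝ) ^ (n + 1)) :=
    ((summable_nat_add_iff 1).2 (cf_summable f)).mul_left _
  refine tsum_of_norm_bounded hs.hasSum fun n => ?_
  rw [norm_mul, Real.norm_eq_abs, norm_pow, Real.norm_eq_abs]
  have h3 : |y| ^ (n + 1) ≤ 1 := pow_le_one₀ (abs_nonneg _) hy
  have h4 : (1 : ℝ) ≤ (3 / 2) ^ n := one_le_pow₀ (by norm_num)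
  have h5 : 2 / 3 * (3 / 2 : ℝ) ^ (n + 1) = (3 / 2) ^ n := by rw [pow_succ]; ring
  calc |cf f (n + 1)| * |y| ^ (n + 1) ≤ |cf f (n + 1)| * (3 / 2) ^ n :=
        mul_le_mul_of_nonneg_left (h3.trans h4) (abs_nonneg _)
    _ = 2 / 3 * (|cf f (n + 1)| * (3 / 2 : ℝ) ^ (n + 1)) := by rw [← h5]; ring

end EvAux

open EvAux

theorem stEv : StEv := by
  refine ⟨contDiff, fun y hy => ?_, ev_zero, ev_bound⟩
  have hy' := abs_le_of_mem hy
  refine ⟨fun f g => evL_mul y hy' f g, fun f g => map_add (evL y hy') f g,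
    fun r f => map_smul (evL y hy') r f, ?_, ?_, fun f => deriv_I f hy, fun f => deriv_D f hy⟩
  · have := evL_x_pow y hy' 0
    rw [pow_zero, pow_zero] at this
    exact this
  · have := evL_x_pow y hy' 1
    rw [pow_one, pow_one] at this
    exact this

end Pool.Agent.Lib.MP_2795bc_gt.SOL
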