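import Pool.Agent.Lib.MP_2795bc_gt.SOL.AStmts

/-!
# MP_2795bc_gt: the Taylor expansion of the equation
-/

open PowerSeries

noncomputable section

namespace Pool.Agent.Lib.MP_2795bc_gt.SOL

open WS

namespace ExpAux

/-- one eighth -/
def q8 : WS := algebraMap ℝ WS (1 / 8)

theorem smul_q (k : ℤ) (r : ℝ) (hr : r = k * (1 / 8)) (f : WS) : r • f = (k : WS) * q8 * f := by
  rw [Algebra.smul_def, hr, map_mul, map_intCast]
  rfl

theorem asm_add (h h' : X7) (g g' g'' : Fin 7 → WS) (r : ℝ) :
    asm (h + h') (fun k => g k + g' k + g'' k) r = asm h g r + asm h' g' 0 + asm 0 g'' 0 := by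
  apply PiLp.ext
  intro k
  fin_cases k
  · simp [asm]; abel
  · simp [asm]; abel
  · simp [asm]; abel
  · simp [asm]; module
  · simp [asm]; module
  · simp [asm]; module
  · simp [asm]; module

theorem g_add (Z h : X7) (k : Fin 7) :
    gF (Z + h) k = gF Z k + (∑ i, pM Z k i * h i) + qF h k := by
  have a1 := smul_q 2 (1 / 4) (by norm_num)
  have a2 := smul_q 4 (1 / 2) (by norm_num)
  have a3 := smul_q 1 (1 / 8) (by norm_num)
  have a4 := smul_q 6 (3 / 4) (by norm_num)
  have a5 := smul_q (-12) (-(3 / 2)) (by norm_num)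
  have a6 := smul_q (-2) (-(1 / 4)) (by norm_num)
  have e : ∀ i, (Z + h) i = Z i + h i := fun i => rfl
  have hq : (8 : WS) * q8 = 1 := by
    have h1 : (8 : WS) = algebraMap ℝ WS 8 := (map_ofNat (algebraMap ℝ WS) 8).symm
    rw [h1, q8, ← map_mul]
    norm_num
  fin_cases k <;>
    simp only [gF, pM, qF, Fin.sum_univ_seven, e, a1, a2, a3, a4, a5, a6] <;>
    simp
  · ring
  · ring
  · ring
  · linear_combination (-(SG * Z 1 * h 1)) * hq
  · ring
  · ring
  · ring

end ExpAux

theorem stExp : StExp := by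
  intro Z h
  unfold FF blk QF
  rw [← ExpAux.asm_add]
  congr 1
  funext k
  exact ExpAux.g_add Z h k

end Pool.Agent.Lib.MP_2795bc_gt.SOL
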