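import Pool.Agent.Lib.MP_2795bc_gt.SOL.AStmts

/-!
# MP_2795bc_gt: from a zero of `FF` to the seven functions
-/

set_option autoImplicit false

open PowerSeries
open scoped ContDiff

noncomputable section

namespace Pool.Agent.Lib.MP_2795bc_gt.SOL

open WS

namespace FinAux

/-- evaluation at `y` as a homomorphism -/
def evA (hEv : StEv) (y : ℝ) (hy : y ∈ Jv) : WS →ₐ[ℝ] ℝ :=
  AlgHom.ofLinearMap
    { toFun := fun f => ev f y
      map_add' := (hEv.2.1 y hy).2.1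
      map_smul' := fun r f => (hEv.2.1 y hy).2.2.1 r f }
    (hEv.2.1 y hy).2.2.2.1 (hEv.2.1 y hy).1

section

variable (hEv : StEv) (y : ℝ) (hy : y ∈ Jv)

theorem evA_apply (f : WS) : evA hEv y hy f = ev f y := rfl

theorem evA_x : evA hEv y hy x = y := (hEv.2.1 y hy).2.2.2.2.1

theorem evA_PG : evA hEv y hy PG = 1 - y ^ 2 := by
  unfold PG
  rw [map_sub, map_one, map_pow, evA_x]

theorem evA_KG : evA hEv y hy KG = kap y := by
  unfold KG kap
  rw [map_sub, map_smul, map_smul, map_one, map_pow, evA_x]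
  simp only [smul_eq_mul]
  ring

theorem evA_SG : evA hEv y hy SG = sp y := by
  unfold SG sp
  rw [map_add, map_one, map_mul, evA_PG, evA_KG]

end

theorem J_cf (f : WS) : cf (J f) 0 = 0 := by
  rw [J_apply, cf_sub, cf_smul, cf_one]
  simp

theorem I_cf (f : WS) : cf (I f) 0 = 0 := by
  have h : (cfL 0).comp I = 0 := by
    refine ext_x_pow fun n => ?_
    rw [ContinuousLinearMap.comp_apply, I_x_pow, cfL_apply, cf_smul, cf_x_pow]
    rw [if_neg (by omega), mul_zero]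
    rfl
  have h2 : ((cfL 0).comp I) f = (0 : WS →L[ℝ] ℝ) f := by rw [h]
  exact h2

theorem split {f g : WS} {r : ℝ} (h : J f - I g + r • (1 : WS) = 0) : r = 0 ∧ J f = I g := by
  have h1 : cf (J f - I g + r • (1 : WS)) 0 = 0 := by rw [h]; rfl
  rw [cf_add, cf_sub, J_cf, I_cf, cf_smul, cf_one] at h1
  have h2 : r = 0 := by simpa using h1
  refine ⟨h2, ?_⟩
  rw [h2, zero_smul, add_zero] at h
  exact sub_eq_zero.mp h

theorem isOpen_Jv : IsOpen Jv := isOpen_Ioo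

theorem hasDeriv_of_int (hEv : StEv) {f g : WS} (h : J f = I g) {y : ℝ} (hy : y ∈ Jv) :
    HasDerivAt (ev f) (ev g y) y := by
  have h1 : f = I g + cf f 0 • (1 : WS) := by
    rw [← h, J_apply]
    abel
  have h2 : HasDerivAt (fun z => ev (I g) z + cf f 0) (ev g y) y :=
    ((hEv.2.1 y hy).2.2.2.2.2.1 g).add_const _
  refine h2.congr_of_eventuallyEq ?_
  filter_upwards [isOpen_Jv.mem_nhds hy] with z hz
  have h3 : evA hEv z hz f = evA hEv z hz (I g + cf f 0 • (1 : WS)) := by rw [← h1]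
  rw [map_add, map_smul, map_one, smul_eq_mul, mul_one] at h3
  exact h3

theorem ode_of_D (hEv : StEv) {f g : WS} (h : f = D g) (hm : mu g = 0) {y : ℝ} (hy : y ∈ Jv) :
    (1 - y ^ 2) * deriv (ev f) y - 2 * y * ev f y = ev g y := by
  have h1 := (hEv.2.1 y hy).2.2.2.2.2.2 g
  rw [← h, hm, sub_zero] at h1
  have hd : DifferentiableAt ℝ (ev f) y :=
    ((hEv.1 f).differentiableOn (by simp)).differentiableAt (isOpen_Jv.mem_nhds hy)
  have h2 : HasDerivAt (fun z : ℝ => 1 - z ^ 2) (-(2 * y)) y := by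
    have := (hasDerivAt_pow 2 y).const_sub 1
    simpa using this
  have h3 := h2.mul hd.hasDerivAt
  have h4 := h1.unique h3
  rw [h4]
  ring

theorem norm_comp (u Z : X7) (h : ‖u - Z‖ ≤ 2 / 10 ^ 6) (i : Fin 7) :
    ‖u i - Z i‖ ≤ 2 / 10 ^ 6 := by
  have h1 : ‖(u - Z) i‖ ≤ ‖u - Z‖ := PiLp.norm_apply_le (u - Z) i
  exact h1.trans h

theorem cf_comp (u Z : X7) (h : ‖u - Z‖ ≤ 2 / 10 ^ 6) (i : Fin 7) :
    |cf (u i) 0 - cf (Z i) 0| ≤ 2 / 10 ^ 6 := by
  have h1 := abs_cf_le (u i - Z i) 0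
  rw [pow_zero, mul_one, cf_sub] at h1
  exact h1.trans (norm_comp u Z h i)

theorem norm_le (u Z : X7) (h : ‖u - Z‖ ≤ 2 / 10 ^ 6) (i : Fin 7) :
    ‖u i‖ ≤ ‖Z i‖ + 2 / 10 ^ 6 := by
  have h1 : ‖u i‖ ≤ ‖Z i‖ + ‖u i - Z i‖ := by
    have := norm_add_le (Z i) (u i - Z i)
    rwa [add_sub_cancel] at this
  linarith [norm_comp u Z h i]

end FinAux

open FinAux in
theorem stFin : StEv → StFin := by
  intro hEv u Z hFF hu z0 z1 z2 z3 z4 z5 z6 n4 n5 n6
  have c0 : (FF u) 0 = 0 := by rw [hFF]; rfl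
  have c1 : (FF u) 1 = 0 := by rw [hFF]; rfl
  have c2 : (FF u) 2 = 0 := by rw [hFF]; rfl
  have c3 : (FF u) 3 = 0 := by rw [hFF]; rfl
  have c4 : (FF u) 4 = 0 := by rw [hFF]; rfl
  have c5 : (FF u) 5 = 0 := by rw [hFF]; rfl
  have c6 : (FF u) 6 = 0 := by rw [hFF]; rfl
  have e0 : u 0 = D (gF u 0) := sub_eq_zero.mp c0
  have e1 : u 1 = D (gF u 1) := sub_eq_zero.mp c1
  have e2 : u 2 = D (gF u 2) := sub_eq_zero.mp c2
  obtain ⟨r3, e3⟩ := split (f := u 3) (g := gF u 3) (r := cf (u 0) 0 - 3 / 25) c3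
  obtain ⟨r4, e4⟩ := split (f := u 4) (g := gF u 4) (r := mu (gF u 1)) c4
  obtain ⟨r5, e5⟩ := split (f := u 5) (g := gF u 5) (r := mu (gF u 0)) c5
  obtain ⟨r6, e6⟩ := split (f := u 6) (g := gF u 6) (r := mu (gF u 2)) c6
  refine ⟨⟨hEv.1 _, hEv.1 _, hEv.1 _, hEv.1 _, hEv.1 _, hEv.1 _, hEv.1 _⟩, ?_, ?_, ?_⟩
  · intro y hy
    have d0 := ode_of_D hEv e0 r5 hy
    have d1 := ode_of_D hEv e1 r4 hy
    have d2 := ode_of_D hEv e2 r6 hy
    have d3 := (hasDeriv_of_int hEv e3 hy).deriv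
    have d4 := (hasDeriv_of_int hEv e4 hy).deriv
    have d5 := (hasDeriv_of_int hEv e5 hy).deriv
    have d6 := (hasDeriv_of_int hEv e6 hy).deriv
    have hx : ev x y = y := evA_x hEv y hy
    have hP : ev PG y = 1 - y ^ 2 := evA_PG hEv y hy
    have hK : ev KG y = kap y := evA_KG hEv y hy
    have hS : ev SG y = sp y := evA_SG hEv y hy
    have g0 : evA hEv y hy (gF u 0) = 2 - sp y * ev (u 3) y * ((1 - y ^ 2) * ev (u 0) y - 2 * y)
        + (1 / 4) * (1 - y ^ 2) * sp y * ev (u 4) y ^ 2 - 2 * sp y * ev (u 5) y := by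
      have h : gF u 0 = 2 - SG * u 3 * (PG * u 0 - 2 * x) + (1 / 4 : ℝ) • (PG * SG * (u 4 * u 4))
        - 2 * (SG * u 5) := rfl
      rw [h]
      simp only [map_add, map_sub, map_mul, map_ofNat, map_smul, smul_eq_mul, evA_apply,
        hx, hP, hS]
      ring
    have g1 : evA hEv y hy (gF u 1) = -(sp y * ev (u 3) y * (1 - y ^ 2) * ev (u 1) y)
        + 2 * sp y * ev (u 4) y - (1 / 4) * (1 - y ^ 2) * sp y * ev (u 4) y ^ 2
        - 2 * sp y * ev (u 5) y := by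
      have h : gF u 1 = -(SG * u 3 * (PG * u 1)) + 2 * (SG * u 4)
        - (1 / 4 : ℝ) • (PG * SG * (u 4 * u 4)) - 2 * (SG * u 5) := rfl
      rw [h]
      simp only [map_add, map_sub, map_neg, map_mul, map_ofNat, map_smul, smul_eq_mul,
        evA_apply, hP, hS]
      ring
    have g2 : evA hEv y hy (gF u 2) = -(sp y * ev (u 3) y * (1 - y ^ 2) * ev (u 2) y)
        + 2 * sp y * ev (u 6) y - 2 * sp y * ev (u 5) y := by
      have h : gF u 2 = -(SG * u 3 * (PG * u 2)) + 2 * (SG * u 6) - 2 * (SG * u 5) := rfl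
      rw [h]
      simp only [map_add, map_sub, map_neg, map_mul, map_ofNat, evA_apply, hP, hS]
      ring
    have g3 : evA hEv y hy (gF u 3) = -(2 * y * kap y * ev (u 3) y) + sp y * (ev (u 0) y
        * ev (u 3) y - ev (u 4) y ^ 2 / 8 - ev (u 1) y ^ 2 / 2 - 3 / 4 * ev (u 2) y ^ 2) := by
      have h : gF u 3 = -(2 * (x * KG * u 3)) + SG * (u 0 * u 3 - (1 / 8 : ℝ) • (u 4 * u 4)
        - (1 / 2 : ℝ) • (u 1 * u 1) - (3 / 4 : ℝ) • (u 2 * u 2)) := rfl
      rw [h]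
      simp only [map_add, map_sub, map_neg, map_mul, map_ofNat, map_smul, smul_eq_mul,
        evA_apply, hx, hK, hS]
      ring
    have g4 : evA hEv y hy (gF u 4) = (sp y * ev (u 0) y - 2 * y * kap y - sp y * ev (u 1) y)
        * ev (u 4) y := by
      have h : gF u 4 = (SG * u 0 - 2 * (x * KG) - SG * u 1) * u 4 := rfl
      rw [h]
      simp only [map_sub, map_mul, map_ofNat, evA_apply, hx, hK, hS]
      ring
    have g5 : evA hEv y hy (gF u 5) = (sp y * ev (u 0) y - 2 * y * kap y) * ev (u 5) y := by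
      have h : gF u 5 = (SG * u 0 - 2 * (x * KG)) * u 5 := rfl
      rw [h]
      simp only [map_sub, map_mul, map_ofNat, evA_apply, hx, hK, hS]
      ring
    have g6 : evA hEv y hy (gF u 6) = (sp y * ev (u 0) y - 2 * y * kap y - sp y * ev (u 2) y)
        * ev (u 6) y := by
      have h : gF u 6 = (SG * u 0 - 2 * (x * KG) - SG * u 2) * u 6 := rfl
      rw [h]
      simp only [map_sub, map_mul, map_ofNat, evA_apply, hx, hK, hS]
      ring
    exact ⟨d0.trans g0, d1.trans g1, d2.trans g2, d3.trans g3, d4.trans g4, d5.trans g5,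
      d6.trans g6⟩
  · intro y hy
    have hy1 : |y| ≤ 1 := abs_le.mpr ⟨hy.1, hy.2⟩
    have p4 := hEv.2.2.2 (u 4) y hy1
    have p5 := hEv.2.2.2 (u 5) y hy1
    have p6 := hEv.2.2.2 (u 6) y hy1
    have q4 := norm_le u Z hu 4
    have q5 := norm_le u Z hu 5
    have q6 := norm_le u Z hu 6
    have a4 := abs_le.mp (cf_comp u Z hu 4)
    have a5 := abs_le.mp (cf_comp u Z hu 5)
    have a6 := abs_le.mp (cf_comp u Z hu 6)
    have b4 := abs_le.mp z4
    have b5 := abs_le.mp z5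
    have b6 := abs_le.mp z6
    have s4 := le_abs_self (cf (u 4) 0)
    have s5 := le_abs_self (cf (u 5) 0)
    have s6 := le_abs_self (cf (u 6) 0)
    have t4 := abs_le.mp p4
    have t5 := abs_le.mp p5
    have t6 := abs_le.mp p6
    refine ⟨?_, ?_, ?_, ?_⟩
    · change 0 < ev (u 4) y
      linarith [t4.1, a4.1, b4.1]
    · change 0 < ev (u 5) y
      linarith [t5.1, a5.1, b5.1]
    · change 0 < ev (u 6) y
      linarith [t6.1, a6.1, b6.1]
    · change ev (u 4) y < 2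
      linarith [t4.2, a4.1, b4.1, a4.2, b4.2]
  · have v : ∀ i : Fin 7, ev (u i) 0 = cf (u i) 0 := fun i => hEv.2.2.1 _
    have a1 := abs_le.mp (cf_comp u Z hu 1)
    have a2 := abs_le.mp (cf_comp u Z hu 2)
    have a3 := abs_le.mp (cf_comp u Z hu 3)
    have a5 := abs_le.mp (cf_comp u Z hu 5)
    have a6 := abs_le.mp (cf_comp u Z hu 6)
    have b1 := abs_le.mp z1
    have b2 := abs_le.mp z2
    have b3 := abs_le.mp z3
    have b5 := abs_le.mp z5
    have b6 := abs_le.mp z6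
    have k0 : cf (u 0) 0 = 3 / 25 := by linarith
    refine ⟨?_, ?_, ?_, ?_, ?_⟩
    · change 0 < ev (u 0) 0
      rw [v, k0]
      norm_num
    · change 0 < ev (u 1) 0
      rw [v]
      linarith [a1.1, b1.1]
    · change ev (u 0) 0 < ev (u 2) 0
      rw [v, v, k0]
      linarith [a2.1, b2.1]
    · change 0 < ev (u 1) 0 + 3 / 2 * ev (u 2) 0 - ev (u 3) 0
      rw [v, v, v]
      linarith [a1.1, b1.1, a2.1, b2.1, a3.2, b3.2]
    · change 0 < ev (u 6) 0 - ev (u 5) 0 - ev (u 3) 0 * ev (u 2) 0 / 2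
        - ev (u 0) 0 * ev (u 2) 0 / 4 + ev (u 2) 0 ^ 2 / 4
      rw [v, v, v, v, v, k0]
      have l2 : (3979 / 10000 : ℝ) ≤ cf (u 2) 0 := by linarith [a2.1, b2.1]
      have l2' : cf (u 2) 0 ≤ 3982 / 10000 := by linarith [a2.2, b2.2]
      have l3 : cf (u 3) 0 ≤ 0 := by linarith [a3.2, b3.2]
      have l5 : cf (u 5) 0 ≤ 9267 / 10000 := by linarith [a5.2, b5.2]
      have l6 : (9099 / 10000 : ℝ) ≤ cf (u 6) 0 := by linarith [a6.1, b6.1]
      have m : cf (u 3) 0 * cf (u 2) 0 ≤ 0 := mul_nonpos_of_nonpos_of_nonneg l3 (by linarith)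
      have m2 : (3979 / 10000 : ℝ) ^ 2 ≤ cf (u 2) 0 ^ 2 := pow_le_pow_left₀ (by norm_num) l2 2
      norm_num at m2 ⊢
      linarith

end Pool.Agent.Lib.MP_2795bc_gt.SOL
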