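import Pool.Agent.Lib.MP_2795bc_gt.SOL.HF
import Pool.Agent.Lib.MP_2795bc_gt.SOL.HM0
import Pool.Agent.Lib.MP_2795bc_gt.SOL.HM1
import Pool.Agent.Lib.MP_2795bc_gt.SOL.HM2
import Pool.Agent.Lib.MP_2795bc_gt.SOL.HM3
import Pool.Agent.Lib.MP_2795bc_gt.SOL.HM4
import Pool.Agent.Lib.MP_2795bc_gt.SOL.HM5
import Pool.Agent.Lib.MP_2795bc_gt.SOL.HM6
import Pool.Agent.Lib.MP_2795bc_gt.SOL.HM7
import Pool.Agent.Lib.MP_2795bc_gt.SOL.HM8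
import Pool.Agent.Lib.MP_2795bc_gt.SOL.HM9
import Pool.Agent.Lib.MP_2795bc_gt.SOL.HM10
import Pool.Agent.Lib.MP_2795bc_gt.SOL.HM11
import Pool.Agent.Lib.MP_2795bc_gt.SOL.HM12

/-!
# MP_2795bc_gt: the numerical data
-/

open PowerSeries

noncomputable section

namespace Pool.Agent.Lib.MP_2795bc_gt.SOL

open WS

/-- all columns -/
def hmAll : ℕ → Fin 7 → Fin 7 → List ℤ
  | 0 => hm0 | 1 => hm1 | 2 => hm2 | 3 => hm3 | 4 => hm4 | 5 => hm5 | 6 => hm6 | 7 => hm7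
  | 8 => hm8 | 9 => hm9 | 10 => hm10 | 11 => hm11 | _ => hm12

theorem hmAll_ok : ∀ j < 13, ∀ i,
    colOK (1600 * 10 ^ 16) (10 ^ 8) (10 ^ 6) Pl i j (hmAll j i) = true := by
  intro j hj
  interval_cases j
  exacts [hm0_ok, hm1_ok, hm2_ok, hm3_ok, hm4_ok, hm5_ok, hm6_ok, hm7_ok, hm8_ok, hm9_ok,
    hm10_ok, hm11_ok, hm12_ok]

theorem pM_check : ∀ i : Fin 7, 242 * (nrmW (10 ^ 6) (Pl 0 i) + nrmW (10 ^ 6) (Pl 1 i) +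
    nrmW (10 ^ 6) (Pl 2 i)) + 300 * (nrmW (10 ^ 6) (Pl 3 i) + nrmW (10 ^ 6) (Pl 4 i) +
    nrmW (10 ^ 6) (Pl 5 i) + nrmW (10 ^ 6) (Pl 6 i)) ≤ 2100 * (1600 * 10 ^ 16) * 10 ^ 6 := by
  decide +kernel

theorem z_check : nrmW (10 ^ 6) (zl 4) * 10 ≤ 13 * 10 ^ 16 * 10 ^ 6 ∧
    nrmW (10 ^ 6) (zl 5) * 100 ≤ 124 * 10 ^ 16 * 10 ^ 6 ∧
    nrmW (10 ^ 6) (zl 6) * 100 ≤ 164 * 10 ^ 16 * 10 ^ 6 := by
  decide +kernel

theorem h_check : (|(zl 0).getD 0 0 - 12 * 10 ^ 14| ≤ 10 ^ 12) ∧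
    (|(zl 1).getD 0 0 - 11302 * 10 ^ 11| ≤ 10 ^ 12) ∧
    (|(zl 2).getD 0 0 - 39806 * 10 ^ 11| ≤ 10 ^ 12) ∧
    (|(zl 3).getD 0 0 + 102 * 10 ^ 11| ≤ 10 ^ 12) ∧
    (|(zl 4).getD 0 0 - 99529 * 10 ^ 11| ≤ 10 ^ 12) ∧
    (|(zl 5).getD 0 0 - 92657 * 10 ^ 11| ≤ 10 ^ 12) ∧
    (|(zl 6).getD 0 0 - 91001 * 10 ^ 11| ≤ 10 ^ 12) := by
  decide +kernel

theorem cf_close (i : Fin 7) (a : ℤ) (r : ℝ) (hr : r = a / 10 ^ 16)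
    (h : |(zl i).getD 0 0 - a| ≤ 10 ^ 12) : |cf (Zz i) 0 - r| ≤ 1 / 10000 := by
  rw [Zz_apply, cf_smul, cf_toW, hr]
  have h2 : |(((zl i).getD 0 0 : ℤ) : ℝ) - a| ≤ 10 ^ 12 := by exact_mod_cast h
  rw [show (1 / ((10 ^ 16 : ℕ) : ℝ)) * (((zl i).getD 0 0 : ℤ) : ℝ) - a / 10 ^ 16 =
    ((((zl i).getD 0 0 : ℤ) : ℝ) - a) / 10 ^ 16 by push_cast; ring, abs_div,
    abs_of_pos (show (0 : ℝ) < 10 ^ 16 by positivity), div_le_iff₀ (by positivity)]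
  linarith

theorem norm_Z (i : Fin 7) (a b : ℕ) (hb : 0 < b) (r : ℝ) (hr : r = a / b)
    (h : nrmW (10 ^ 6) (zl i) * b ≤ a * 10 ^ 16 * 10 ^ 6) : ‖Zz i‖ ≤ r := by
  have h1 := nrmW_spec (zl i) (10 ^ 6)
  have h2 : (nrmW (10 ^ 6) (zl i) : ℝ) * b ≤ a * 10 ^ 16 * 10 ^ 6 := by exact_mod_cast h
  have hb' : (0 : ℝ) < b := by exact_mod_cast hb
  rw [Zz_apply, norm_smul, Real.norm_of_nonneg (by positivity), hr, le_div_iff₀ hb']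
  rw [show ((10 ^ 6 : ℕ) : ℝ) = 10 ^ 6 by norm_num] at h1
  rw [show ((10 ^ 16 : ℕ) : ℝ) = 10 ^ 16 by norm_num]
  have h3 : (10 ^ 6 : ℝ) * ‖toW (zl i)‖ * b ≤ a * 10 ^ 16 * 10 ^ 6 :=
    (mul_le_mul_of_nonneg_right h1 hb'.le).trans h2
  rw [div_mul_eq_mul_div, one_mul, div_mul_eq_mul_div, div_le_iff₀ (by positivity)]
  nlinarith

theorem norm_toP (k i : Fin 7) : ‖toP (1600 * 10 ^ 16) Pl k i‖ ≤
    (1 / (1600 * 10 ^ 16 * 10 ^ 6) : ℝ) * nrmW (10 ^ 6) (Pl k i) := by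
  have h1 := nrmW_spec (Pl k i) (10 ^ 6)
  rw [toP, norm_smul, Real.norm_of_nonneg (by positivity)]
  rw [show ((10 ^ 6 : ℕ) : ℝ) = 10 ^ 6 by norm_num] at h1
  rw [show ((1600 * 10 ^ 16 : ℕ) : ℝ) = 1600 * 10 ^ 16 by norm_num, div_mul_eq_mul_div, one_mul,
    div_mul_eq_mul_div, one_mul, div_le_div_iff₀ (by positivity) (by positivity)]
  nlinarith

theorem stNum : StNum := by
  have hp : pM Zz = toP (1600 * 10 ^ 16) Pl := by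
    funext k i; exact pM_Z k i
  obtain ⟨c0, c1, c2, c3, c4, c5, c6⟩ := h_check
  obtain ⟨n4, n5, n6⟩ := z_check
  have hcol : ∀ i : Fin 7, ∀ j < 13, _ := fun i j hj =>
    colOK_spec (Sp := 1600 * 10 ^ 16) (T := 10 ^ 8) (W := 10 ^ 6) (by norm_num) (by norm_num)
      (by norm_num) (hmAll_ok j hj i)
  refine ⟨Zz, fun i j => toX (1 / (10 ^ 8 : ℕ)) (hmAll j i), FF_small, fun i j hj => (hcol i j hj).1,
    fun i j hj => ?_, fun i => ?_, ?_, ?_, ?_, ?_, ?_, ?_, ?_, ?_, ?_, ?_⟩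
  · rw [hp]; exact (hcol i j hj).2
  · rw [hp]
    have h1 := pM_check i
    have h2 : (242 * (nrmW (10 ^ 6) (Pl 0 i) + nrmW (10 ^ 6) (Pl 1 i) +
      nrmW (10 ^ 6) (Pl 2 i)) + 300 * (nrmW (10 ^ 6) (Pl 3 i) + nrmW (10 ^ 6) (Pl 4 i) +
      nrmW (10 ^ 6) (Pl 5 i) + nrmW (10 ^ 6) (Pl 6 i)) : ℝ) ≤ 2100 * (1600 * 10 ^ 16) * 10 ^ 6 := by
      exact_mod_cast h1
    have e := fun k => norm_toP k i
    have h3 : (1 / (1600 * 10 ^ 16 * 10 ^ 6) : ℝ) * (242 * (nrmW (10 ^ 6) (Pl 0 i) +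
      nrmW (10 ^ 6) (Pl 1 i) + nrmW (10 ^ 6) (Pl 2 i)) + 300 * (nrmW (10 ^ 6) (Pl 3 i) +
      nrmW (10 ^ 6) (Pl 4 i) + nrmW (10 ^ 6) (Pl 5 i) + nrmW (10 ^ 6) (Pl 6 i)) : ℝ) ≤ 2100 := by
      rw [div_mul_eq_mul_div, one_mul, div_le_iff₀ (by positivity)]
      linarith
    have e0 := e 0
    have e1 := e 1
    have e2 := e 2
    have e3 := e 3
    have e4 := e 4
    have e5 := e 5
    have e6 := e 6
    linarith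
  · exact cf_close 0 (12 * 10 ^ 14) _ (by norm_num) c0
  · exact cf_close 1 (11302 * 10 ^ 11) _ (by norm_num) c1
  · exact cf_close 2 (39806 * 10 ^ 11) _ (by norm_num) c2
  · exact cf_close 3 (-(102 * 10 ^ 11)) _ (by norm_num) (by rw [sub_neg_eq_add]; exact c3)
  · exact cf_close 4 (99529 * 10 ^ 11) _ (by norm_num) c4
  · exact cf_close 5 (92657 * 10 ^ 11) _ (by norm_num) c5
  · exact cf_close 6 (91001 * 10 ^ 11) _ (by norm_num) c6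
  · exact norm_Z 4 13 10 (by norm_num) _ (by norm_num) n4
  · exact norm_Z 5 124 100 (by norm_num) _ (by norm_num) n5
  · exact norm_Z 6 164 100 (by norm_num) _ (by norm_num) n6

end Pool.Agent.Lib.MP_2795bc_gt.SOL
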