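import Pool.Agent.Lib.MP_2795bc_gt.SOL.AStmts

/-!
# MP_2795bc_gt: the high columns
-/

open PowerSeries

noncomputable section

namespace Pool.Agent.Lib.MP_2795bc_gt.SOL

open WS

namespace HighAux

/-- multiplication by `x ^ j` -/
def mx (j : ℕ) : WS →L[ℝ] WS := (ContinuousLinearMap.mul ℝ WS).flip (x ^ j)

theorem mx_apply (j : ℕ) (f : WS) : mx j f = f * x ^ j := rfl

theorem inv_le (n j : ℕ) (hj : 13 ≤ j) : 1 / ((n + j : ℕ) + 1 : ℝ) ≤ 1 / 14 := by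
  have h1 : (13 : ℝ) ≤ j := by exact_mod_cast hj
  have h2 : (0 : ℝ) ≤ n := Nat.cast_nonneg n
  apply one_div_le_one_div_of_le (by norm_num)
  push_cast
  linarith

theorem D_le (j : ℕ) (hj : 13 ≤ j) (f : WS) :
    ‖D (f * x ^ j)‖ ≤ 6 / 5 / 14 * (3 / 2 : ℝ) ^ j * ‖f‖ := by
  refine norm_le_col (D.comp (mx j)) _ (fun n => ?_) f
  rw [ContinuousLinearMap.comp_apply, mx_apply, ← pow_add, D_x_pow]
  refine (dcol_norm (n + j)).trans ?_
  rw [pow_add]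
  have h1 := inv_le n j hj
  have h2 : (0 : ℝ) ≤ (3 / 2 : ℝ) ^ n * (3 / 2 : ℝ) ^ j := by positivity
  calc 6 / 5 / (((n + j : ℕ) : ℝ) + 1) * ((3 / 2 : ℝ) ^ n * (3 / 2 : ℝ) ^ j)
      = 6 / 5 * (1 / (((n + j : ℕ) : ℝ) + 1)) * ((3 / 2 : ℝ) ^ n * (3 / 2 : ℝ) ^ j) := by ring
    _ ≤ 6 / 5 * (1 / 14) * ((3 / 2 : ℝ) ^ n * (3 / 2 : ℝ) ^ j) := by gcongr
    _ = _ := by ring

theorem I_le (j : ℕ) (hj : 13 ≤ j) (f : WS) :
    ‖I (f * x ^ j)‖ ≤ 3 / 2 / 14 * (3 / 2 : ℝ) ^ j * ‖f‖ := by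
  refine norm_le_col (I.comp (mx j)) _ (fun n => ?_) f
  rw [ContinuousLinearMap.comp_apply, mx_apply, ← pow_add, I_x_pow, norm_smul, norm_x_pow,
    Real.norm_of_nonneg (by positivity), pow_succ, pow_add]
  have h1 := inv_le n j hj
  calc 1 / (((n + j : ℕ) : ℝ) + 1) * ((3 / 2 : ℝ) ^ n * (3 / 2 : ℝ) ^ j * (3 / 2))
      ≤ 1 / 14 * ((3 / 2 : ℝ) ^ n * (3 / 2 : ℝ) ^ j * (3 / 2)) := by gcongr
    _ = _ := by ring

theorem mu_le (j : ℕ) (hj : 13 ≤ j) (f : WS) :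
    ‖mu (f * x ^ j)‖ ≤ 1 / 100 / 14 * (3 / 2 : ℝ) ^ j * ‖f‖ := by
  refine norm_le_col (mu.comp (mx j)) _ (fun n => ?_) f
  rw [ContinuousLinearMap.comp_apply, mx_apply, ← pow_add, mu_x_pow]
  have h1 := inv_le n j hj
  have h2 : (1 : ℝ) ≤ (3 / 2) ^ n := one_le_pow₀ (by norm_num)
  have h3 : (100 : ℝ) ≤ (3 / 2) ^ j := by
    calc (100 : ℝ) ≤ (3 / 2) ^ 13 := by norm_num
      _ ≤ (3 / 2) ^ j := pow_le_pow_right₀ (by norm_num) hj
  have h4 : (1 : ℝ) / 14 ≤ 1 / 100 / 14 * (3 / 2 : ℝ) ^ j * (3 / 2 : ℝ) ^ n := by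
    have : (100 : ℝ) * 1 ≤ (3 / 2 : ℝ) ^ j * (3 / 2 : ℝ) ^ n := by gcongr
    linarith
  split_ifs
  · rw [Real.norm_of_nonneg (by positivity)]
    exact h1.trans h4
  · rw [norm_zero]
    positivity

end HighAux

open HighAux in
theorem stHigh : StHigh := by
  intro p i j hj hp
  have hbs : ∀ m, bs i j m = if m = i then x ^ j else 0 := by
    intro m
    unfold bs
    rw [PiLp.single_apply]
  have hcf : ∀ m, cf (bs i j m) 0 = 0 := by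
    intro m
    rw [hbs]
    split_ifs
    · rw [cf_x_pow, if_neg (by omega)]
    · rfl
  have hg : ∀ k, ∑ m, p k m * bs i j m = p k i * x ^ j := by
    intro k
    rw [Finset.sum_eq_single i]
    · rw [hbs, if_pos rfl]
    · intro m _ hm
      rw [hbs, if_neg hm, mul_zero]
    · intro h
      exact absurd (Finset.mem_univ _) h
  have hJ : ∀ m, J (bs i j m) = bs i j m := by
    intro m
    rw [J_apply, hcf, zero_smul, sub_zero]
  have hE : bs i j - blk p (bs i j) = WithLp.toLp 1 ![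
      D (p 0 i * x ^ j), D (p 1 i * x ^ j), D (p 2 i * x ^ j), I (p 3 i * x ^ j),
      I (p 4 i * x ^ j) - mu (p 1 i * x ^ j) • (1 : WS),
      I (p 5 i * x ^ j) - mu (p 0 i * x ^ j) • (1 : WS),
      I (p 6 i * x ^ j) - mu (p 2 i * x ^ j) • (1 : WS)] := by
    apply PiLp.ext
    intro m
    rw [PiLp.sub_apply]
    unfold blk asm
    simp only [hg, hJ, hcf, sub_zero, zero_smul, add_zero]
    fin_cases m
    · change bs i j 0 - (bs i j 0 - D (p 0 i * x ^ j)) = D (p 0 i * x ^ j)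
      abel
    · change bs i j 1 - (bs i j 1 - D (p 1 i * x ^ j)) = D (p 1 i * x ^ j)
      abel
    · change bs i j 2 - (bs i j 2 - D (p 2 i * x ^ j)) = D (p 2 i * x ^ j)
      abel
    · change bs i j 3 - (bs i j 3 - I (p 3 i * x ^ j)) = I (p 3 i * x ^ j)
      abel
    · change bs i j 4 - (bs i j 4 - I (p 4 i * x ^ j) + mu (p 1 i * x ^ j) • (1 : WS)) =
        I (p 4 i * x ^ j) - mu (p 1 i * x ^ j) • (1 : WS)
      abel
    · change bs i j 5 - (bs i j 5 - I (p 5 i * x ^ j) + mu (p 0 i * x ^ j) • (1 : WS)) =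
        I (p 5 i * x ^ j) - mu (p 0 i * x ^ j) • (1 : WS)
      abel
    · change bs i j 6 - (bs i j 6 - I (p 6 i * x ^ j) + mu (p 2 i * x ^ j) • (1 : WS)) =
        I (p 6 i * x ^ j) - mu (p 2 i * x ^ j) • (1 : WS)
      abel
  have hmix : ∀ a b : WS, ‖I (a * x ^ j) - mu (b * x ^ j) • (1 : WS)‖ ≤
      3 / 2 / 14 * (3 / 2 : ℝ) ^ j * ‖a‖ + 1 / 100 / 14 * (3 / 2 : ℝ) ^ j * ‖b‖ := by
    intro a b
    refine (norm_sub_le _ _).trans (add_le_add (I_le j hj a) ?_)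
    rw [norm_smul, norm_one, mul_one]
    exact mu_le j hj b
  rw [hE, PiLp.norm_eq_of_L1, Fin.sum_univ_seven]
  change ‖D (p 0 i * x ^ j)‖ + ‖D (p 1 i * x ^ j)‖ + ‖D (p 2 i * x ^ j)‖ + ‖I (p 3 i * x ^ j)‖ +
      ‖I (p 4 i * x ^ j) - mu (p 1 i * x ^ j) • (1 : WS)‖ +
      ‖I (p 5 i * x ^ j) - mu (p 0 i * x ^ j) • (1 : WS)‖ +
      ‖I (p 6 i * x ^ j) - mu (p 2 i * x ^ j) • (1 : WS)‖ ≤ _
  have h0 := D_le j hj (p 0 i)
  have h1 := D_le j hj (p 1 i)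
  have h2 := D_le j hj (p 2 i)
  have h3 := I_le j hj (p 3 i)
  have h4 := hmix (p 4 i) (p 1 i)
  have h5 := hmix (p 5 i) (p 0 i)
  have h6 := hmix (p 6 i) (p 2 i)
  have h7 : (0 : ℝ) ≤ (3 / 2 : ℝ) ^ j := by positivity
  have h8 := mul_le_mul_of_nonneg_left hp h7
  nlinarith [h0, h1, h2, h3, h4, h5, h6, h8]

end Pool.Agent.Lib.MP_2795bc_gt.SOL
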