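import Pool.Agent.Lib.MP_2795bc_gt.SOL.AStmts

/-!
# MP_2795bc_gt: Newton-Kantorovich
-/

open PowerSeries

noncomputable section

namespace Pool.Agent.Lib.MP_2795bc_gt.SOL

open WS

namespace NK

theorem norm_X7 (h : X7) : ‖h‖ = ∑ i, ‖h i‖ := PiLp.norm_eq_of_L1 h

theorem norm_bs (i : Fin 7) (j : ℕ) : ‖bs i j‖ = (3 / 2 : ℝ) ^ j := by
  unfold bs
  rw [PiLp.norm_single, norm_x_pow]

/-- coordinate projection -/
def pr (i : Fin 7) : X7 →L[ℝ] WS := PiLp.proj 1 (fun _ : Fin 7 => WS) i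

@[simp] theorem pr_apply (i : Fin 7) (h : X7) : pr i h = h i := rfl

/-- embedding of a coordinate -/
def em (i : Fin 7) : WS →L[ℝ] X7 :=
  LinearMap.mkContinuous
    { toFun := fun f => (PiLp.single 1 i f : X7)
      map_add' := fun f g => by
        apply PiLp.ext; intro k
        by_cases hk : k = i
        · subst hk; simp
        · simp [hk]
      map_smul' := fun r f => by
        apply PiLp.ext; intro k
        by_cases hk : k = i
        · subst hk; simp
        · simp [hk] } 1 (fun f => by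
      change ‖(PiLp.single 1 i f : X7)‖ ≤ _
      rw [PiLp.norm_single, one_mul])

theorem em_x_pow (i : Fin 7) (j : ℕ) : em i (x ^ j) = bs i j := rfl

theorem sum_em (h : X7) : ∑ i, em i (h i) = h := by
  apply PiLp.ext; intro k
  have : (∑ i, em i (h i)) k = ∑ i, (em i (h i)) k := by
    exact map_sum (pr k) (fun i => em i (h i)) Finset.univ
  rw [this, Finset.sum_eq_single k]
  · change (PiLp.single 1 k (h k) : X7) k = h k
    simp
  · intro i _ hi
    change (PiLp.single 1 i (h i) : X7) k = 0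
    simp [Ne.symm hi]
  · simp

/-- Norm bound of an operator on `X7` by columns. -/
theorem norm_le_cols {Y : Type*} [NormedAddCommGroup Y] [NormedSpace ℝ Y] (T : X7 →L[ℝ] Y) (C : ℝ)
    (h : ∀ i n, ‖T (bs i n)‖ ≤ C * (3 / 2 : ℝ) ^ n) (f : X7) : ‖T f‖ ≤ C * ‖f‖ := by
  conv_lhs => rw [← sum_em f, map_sum]
  rw [norm_X7, Finset.mul_sum]
  refine (norm_sum_le _ _).trans (Finset.sum_le_sum fun i _ => ?_)
  exact norm_le_col (T.comp (em i)) C (fun n => h i n) (f i)

/-- multiplication as a continuous linear map -/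
def mulL (p : WS) : WS →L[ℝ] WS := ContinuousLinearMap.mul ℝ WS p

@[simp] theorem mulL_apply (p f : WS) : mulL p f = p * f := rfl

/-- `g`-components of the linear operator -/
def gL (p : Fin 7 → Fin 7 → WS) (k : Fin 7) : X7 →L[ℝ] WS := ∑ i, (mulL (p k i)).comp (pr i)

theorem gL_apply (p : Fin 7 → Fin 7 → WS) (k : Fin 7) (h : X7) : gL p k h = ∑ i, p k i * h i := by
  simp [gL]

/-- components of `blk` -/
def bL (p : Fin 7 → Fin 7 → WS) : Fin 7 → (X7 →L[ℝ] WS) := ![
  pr 0 - D.comp (gL p 0), pr 1 - D.comp (gL p 1), pr 2 - D.comp (gL p 2),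
  J.comp (pr 3) - I.comp (gL p 3) + ((cfL 0).comp (pr 0)).smulRight (1 : WS),
  J.comp (pr 4) - I.comp (gL p 4) + (mu.comp (gL p 1)).smulRight (1 : WS),
  J.comp (pr 5) - I.comp (gL p 5) + (mu.comp (gL p 0)).smulRight (1 : WS),
  J.comp (pr 6) - I.comp (gL p 6) + (mu.comp (gL p 2)).smulRight (1 : WS)]

/-- `blk p` as a continuous linear map -/
def blkL (p : Fin 7 → Fin 7 → WS) : X7 →L[ℝ] X7 :=
  (PiLp.continuousLinearEquiv 1 ℝ (fun _ : Fin 7 => WS)).symm.toContinuousLinearMap.comp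
    (ContinuousLinearMap.pi (bL p))

theorem blkL_apply (p : Fin 7 → Fin 7 → WS) (h : X7) : blkL p h = blk p h := by
  apply PiLp.ext
  intro k
  change bL p k h = blk p h k
  unfold blk asm
  fin_cases k <;> simp [bL, gL_apply]

end NK

open NK

theorem QF_zero : QF 0 = 0 := by
  apply PiLp.ext
  intro k
  unfold QF asm qF
  fin_cases k <;> simp

theorem stNK (hE : StExp) (hQ : StQ) : StNK := by
  intro Z M hF hM hlow hhigh
  set L := blkL (pM Z) with hL
  -- the approximate inverse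
  let c : Fin 7 → ℕ → X7 := fun i j => if j < 13 then M i j else bs i j
  have hc : ∀ i j, ‖c i j‖ ≤ 2600 * (3 / 2 : ℝ) ^ j := by
    intro i j
    by_cases hj : j < 13
    · simp only [c, if_pos hj]; exact hM i j hj
    · simp only [c, if_neg hj, norm_bs]
      have : (0 : ℝ) < (3 / 2) ^ j := by positivity
      linarith
  let A : X7 →L[ℝ] X7 := ∑ i, (ofCol (c i) 2600 (hc i)).comp (pr i)
  have hAbs : ∀ i j, A (bs i j) = c i j := by
    intro i j
    simp only [A, sum_apply, ContinuousLinearMap.comp_apply, pr_apply]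
    rw [Finset.sum_eq_single i]
    · have : (bs i j) i = x ^ j := by simp [bs]
      rw [this, ofCol_x_pow]
    · intro k _ hk
      have : (bs i j) k = 0 := by simp [bs, hk]
      rw [this, map_zero]
    · simp
  have hAn : ∀ h, ‖A h‖ ≤ 2600 * ‖h‖ := fun h =>
    norm_le_cols A 2600 (fun i n => by rw [hAbs]; exact hc i n) h
  let T : X7 →L[ℝ] X7 := ContinuousLinearMap.id ℝ X7 - L.comp A
  have hT : ∀ h, ‖T h‖ ≤ 3 / 4 * ‖h‖ := by
    refine norm_le_cols T (3 / 4) (fun i n => ?_)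
    have e : T (bs i n) = bs i n - blk (pM Z) (c i n) := by
      simp only [T, sub_apply, ContinuousLinearMap.id_apply,
        ContinuousLinearMap.comp_apply, hAbs, hL, blkL_apply]
    rw [e]
    by_cases hn : n < 13
    · simp only [c, if_pos hn]; exact hlow i n hn
    · simp only [c, if_neg hn]; exact hhigh i n (by omega)
  -- the fixed point map
  let Φ : X7 → X7 := fun h => -FF Z + T h - QF (A h)
  have hlip : ∀ h h' : X7, ‖h‖ ≤ 6 / 10 ^ 10 → ‖h'‖ ≤ 6 / 10 ^ 10 →
      ‖Φ h - Φ h'‖ ≤ 82 / 100 * ‖h - h'‖ := by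
    intro h h' hh hh'
    have e : Φ h - Φ h' = T (h - h') - (QF (A h) - QF (A h')) := by
      simp only [Φ, map_sub]; abel
    rw [e]
    have h1 := hT (h - h')
    have h2 := hQ (A h) (A h')
    have h3 : ‖A h - A h'‖ ≤ 2600 * ‖h - h'‖ := by rw [← map_sub]; exact hAn _
    have h4 := hAn h
    have h5 := hAn h'
    have h6 : ‖QF (A h) - QF (A h')‖ ≤ 7 / 100 * ‖h - h'‖ := by
      refine h2.trans ?_
      have h7 : 8 * (‖A h‖ + ‖A h'‖) ≤ 8 * (2600 * (6 / 10 ^ 10) + 2600 * (6 / 10 ^ 10)) := by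
        gcongr
        · exact h4.trans (by gcongr)
        · exact h5.trans (by gcongr)
      calc 8 * (‖A h‖ + ‖A h'‖) * ‖A h - A h'‖
          ≤ (8 * (2600 * (6 / 10 ^ 10) + 2600 * (6 / 10 ^ 10))) * (2600 * ‖h - h'‖) := by
            apply mul_le_mul h7 h3 (norm_nonneg _) (by norm_num)
        _ ≤ 7 / 100 * ‖h - h'‖ := by
            have := norm_nonneg (h - h')
            nlinarith
    calc ‖T (h - h') - (QF (A h) - QF (A h'))‖ ≤ ‖T (h - h')‖ + ‖QF (A h) - QF (A h')‖ :=
          norm_sub_le _ _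
      _ ≤ 3 / 4 * ‖h - h'‖ + 7 / 100 * ‖h - h'‖ := add_le_add h1 h6
      _ = 82 / 100 * ‖h - h'‖ := by ring
  have hΦ0 : ‖Φ 0‖ ≤ 1 / 10 ^ 10 := by
    have : Φ 0 = -FF Z := by
      simp only [Φ, map_zero, QF_zero]; abel
    rw [this, norm_neg]; exact hF
  have hmaps : Set.MapsTo Φ (Metric.closedBall 0 (6 / 10 ^ 10)) (Metric.closedBall 0 (6 / 10 ^ 10)) := by
    intro h hh
    rw [mem_closedBall_zero_iff] at hh ⊢
    have h0 : ‖(0 : X7)‖ ≤ 6 / 10 ^ 10 := by rw [norm_zero]; norm_num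
    have h1 := hlip h 0 hh h0
    rw [sub_zero] at h1
    have h2 : ‖Φ h‖ ≤ ‖Φ h - Φ 0‖ + ‖Φ 0‖ := by
      have := norm_add_le (Φ h - Φ 0) (Φ 0)
      simpa using this
    have h3 : 82 / 100 * ‖h‖ ≤ 82 / 100 * (6 / 10 ^ 10) := by gcongr
    norm_num at *
    linarith
  have hcontr : ContractingWith (82 / 100) (hmaps.restrict Φ _ _) := by
    refine ⟨by rw [div_lt_one (by norm_num)]; norm_num, ?_⟩
    refine LipschitzWith.of_dist_le_mul fun a b => ?_
    have ha := mem_closedBall_zero_iff.mp a.2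
    have hb := mem_closedBall_zero_iff.mp b.2
    have := hlip a b ha hb
    rw [Subtype.dist_eq, Subtype.dist_eq, dist_eq_norm, dist_eq_norm]
    simpa using this
  obtain ⟨h, hhs, hfix, -⟩ := hcontr.exists_fixedPoint' (Metric.isClosed_closedBall.isComplete) hmaps
    (x := 0) (by rw [mem_closedBall_zero_iff, norm_zero]; norm_num) (edist_ne_top _ _)
  rw [mem_closedBall_zero_iff] at hhs
  refine ⟨Z + A h, ?_, ?_⟩
  · have h1 : Φ h = h := hfix
    have h2 : FF (Z + A h) = FF Z + blk (pM Z) (A h) + QF (A h) := hE Z (A h)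
    have h3 : T h = h - blk (pM Z) (A h) := by
      simp only [T, sub_apply, ContinuousLinearMap.id_apply,
        ContinuousLinearMap.comp_apply, hL, blkL_apply]
    have h4 : -FF Z + (h - blk (pM Z) (A h)) - QF (A h) = h := by
      rw [← h3]; exact h1
    rw [h2]
    have h5 : FF Z + blk (pM Z) (A h) + QF (A h) = h - (-FF Z + (h - blk (pM Z) (A h)) - QF (A h)) := by
      abel
    rw [h5, h4, sub_self]
  · rw [add_sub_cancel_left]
    refine (hAn h).trans ?_
    have : 2600 * ‖h‖ ≤ 2600 * (6 / 10 ^ 10) := by gcongr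
    refine this.trans (by norm_num)

end Pool.Agent.Lib.MP_2795bc_gt.SOL
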