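import Pool.Agent.Lib.MP_2795bc_gt.SOL.AStmts

/-!
# MP_2795bc_gt: the quadratic part is small
-/

open PowerSeries

noncomputable section

namespace Pool.Agent.Lib.MP_2795bc_gt.SOL

open WS

namespace Quad

theorem SG_eq : SG = (437 / 400 : ℝ) • (1 : WS) - (38 / 400 : ℝ) • x ^ 2
    + (1 / 400 : ℝ) • x ^ 4 := by
  unfold SG PG KG
  rw [mul_sub, mul_smul_comm, mul_smul_comm, mul_one, sub_mul, one_mul, ← pow_add]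
  module

theorem SGPG_eq : SG * PG = (437 / 400 : ℝ) • (1 : WS) - (475 / 400 : ℝ) • x ^ 2
    + (39 / 400 : ℝ) • x ^ 4 - (1 / 400 : ℝ) • x ^ 6 := by
  rw [SG_eq]
  unfold PG
  rw [mul_sub, mul_one, add_mul, sub_mul, smul_mul_assoc, smul_mul_assoc, smul_mul_assoc, one_mul,
    ← pow_add, ← pow_add]
  module

theorem SG_norm : ‖SG‖ ≤ 132 / 100 := by
  rw [SG_eq]
  have h1 : ‖(437 / 400 : ℝ) • (1 : WS)‖ = 437 / 400 := by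
    rw [norm_smul, norm_one']; norm_num
  have h2 : ‖(38 / 400 : ℝ) • x ^ 2‖ = 38 / 400 * (3 / 2 : ℝ) ^ 2 := by
    rw [norm_smul, norm_x_pow]; norm_num
  have h3 : ‖(1 / 400 : ℝ) • x ^ 4‖ = 1 / 400 * (3 / 2 : ℝ) ^ 4 := by
    rw [norm_smul, norm_x_pow]; norm_num
  have h4 := norm_add_le ((437 / 400 : ℝ) • (1 : WS) - (38 / 400 : ℝ) • x ^ 2)
    ((1 / 400 : ℝ) • x ^ 4)
  have h5 := norm_sub_le ((437 / 400 : ℝ) • (1 : WS)) ((38 / 400 : ℝ) • x ^ 2)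
  rw [h1, h2] at h5
  rw [h3] at h4
  norm_num at h4 h5
  linarith

theorem SGPG_norm : ‖SG * PG‖ ≤ 429 / 100 := by
  rw [SGPG_eq]
  have h1 : ‖(437 / 400 : ℝ) • (1 : WS)‖ = 437 / 400 := by
    rw [norm_smul, norm_one']; norm_num
  have h2 : ‖(475 / 400 : ℝ) • x ^ 2‖ = 475 / 400 * (3 / 2 : ℝ) ^ 2 := by
    rw [norm_smul, norm_x_pow]; norm_num
  have h3 : ‖(39 / 400 : ℝ) • x ^ 4‖ = 39 / 400 * (3 / 2 : ℝ) ^ 4 := by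
    rw [norm_smul, norm_x_pow]; norm_num
  have h3' : ‖(1 / 400 : ℝ) • x ^ 6‖ = 1 / 400 * (3 / 2 : ℝ) ^ 6 := by
    rw [norm_smul, norm_x_pow]; norm_num
  have h4 := norm_sub_le ((437 / 400 : ℝ) • (1 : WS) - (475 / 400 : ℝ) • x ^ 2
    + (39 / 400 : ℝ) • x ^ 4) ((1 / 400 : ℝ) • x ^ 6)
  have h5 := norm_add_le ((437 / 400 : ℝ) • (1 : WS) - (475 / 400 : ℝ) • x ^ 2)
    ((39 / 400 : ℝ) • x ^ 4)
  have h6 := norm_sub_le ((437 / 400 : ℝ) • (1 : WS)) ((475 / 400 : ℝ) • x ^ 2)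
  rw [h1, h2] at h6
  rw [h3] at h5
  rw [h3'] at h4
  norm_num at h4 h5 h6
  linarith

/-- bilinearity -/
theorem bil (a b a' b' : WS) : ‖a * b - a' * b'‖ ≤ ‖a‖ * ‖b - b'‖ + ‖a - a'‖ * ‖b'‖ := by
  have h : a * b - a' * b' = a * (b - b') + (a - a') * b' := by ring
  rw [h]
  exact (norm_add_le _ _).trans (add_le_add (norm_mul_le _ _) (norm_mul_le _ _))

theorem mulle {f g : WS} {C E : ℝ} (hf : ‖f‖ ≤ C) (hg : ‖g‖ ≤ E) : ‖f * g‖ ≤ C * E :=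
  (norm_mul_le _ _).trans (mul_le_mul hf hg (norm_nonneg _) ((norm_nonneg _).trans hf))

theorem smulle {g : WS} (r : ℝ) (hr : 0 ≤ r) {E : ℝ} (hg : ‖g‖ ≤ E) : ‖r • g‖ ≤ r * E := by
  rw [norm_smul, Real.norm_of_nonneg hr]
  exact mul_le_mul_of_nonneg_left hg hr

theorem g0 (h h' : X7) : ‖qF h 0 - qF h' 0‖ ≤
    429 / 100 * (‖h 3‖ * ‖h 0 - h' 0‖ + ‖h 3 - h' 3‖ * ‖h' 0‖) +
    1 / 4 * (429 / 100 * (‖h 4‖ * ‖h 4 - h' 4‖ + ‖h 4 - h' 4‖ * ‖h' 4‖)) := by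
  have e : qF h 0 - qF h' 0 = -(SG * PG * (h 3 * h 0 - h' 3 * h' 0)) +
      (1 / 4 : ℝ) • (SG * PG * (h 4 * h 4 - h' 4 * h' 4)) := by
    change (-(SG * PG * (h 3 * h 0)) + (1 / 4 : ℝ) • (PG * SG * (h 4 * h 4))) -
      (-(SG * PG * (h' 3 * h' 0)) + (1 / 4 : ℝ) • (PG * SG * (h' 4 * h' 4))) = _
    rw [mul_comm PG SG, mul_sub, mul_sub, smul_sub]
    abel
  rw [e]
  refine (norm_add_le _ _).trans (add_le_add ?_ ?_)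
  · rw [norm_neg]
    exact mulle SGPG_norm (bil _ _ _ _)
  · exact smulle _ (by norm_num) (mulle SGPG_norm (bil _ _ _ _))

theorem g1 (h h' : X7) : ‖qF h 1 - qF h' 1‖ ≤
    429 / 100 * (‖h 3‖ * ‖h 1 - h' 1‖ + ‖h 3 - h' 3‖ * ‖h' 1‖) +
    1 / 4 * (429 / 100 * (‖h 4‖ * ‖h 4 - h' 4‖ + ‖h 4 - h' 4‖ * ‖h' 4‖)) := by
  have e : qF h 1 - qF h' 1 = -(SG * PG * (h 3 * h 1 - h' 3 * h' 1)) -
      (1 / 4 : ℝ) • (SG * PG * (h 4 * h 4 - h' 4 * h' 4)) := by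
    change (-(SG * PG * (h 3 * h 1)) - (1 / 4 : ℝ) • (PG * SG * (h 4 * h 4))) -
      (-(SG * PG * (h' 3 * h' 1)) - (1 / 4 : ℝ) • (PG * SG * (h' 4 * h' 4))) = _
    rw [mul_comm PG SG, mul_sub, mul_sub, smul_sub]
    abel
  rw [e]
  refine (norm_sub_le _ _).trans (add_le_add ?_ ?_)
  · rw [norm_neg]
    exact mulle SGPG_norm (bil _ _ _ _)
  · exact smulle _ (by norm_num) (mulle SGPG_norm (bil _ _ _ _))

theorem g2 (h h' : X7) : ‖qF h 2 - qF h' 2‖ ≤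
    429 / 100 * (‖h 3‖ * ‖h 2 - h' 2‖ + ‖h 3 - h' 3‖ * ‖h' 2‖) := by
  have e : qF h 2 - qF h' 2 = -(SG * PG * (h 3 * h 2 - h' 3 * h' 2)) := by
    change (-(SG * PG * (h 3 * h 2))) - (-(SG * PG * (h' 3 * h' 2))) = _
    rw [mul_sub]
    abel
  rw [e, norm_neg]
  exact mulle SGPG_norm (bil _ _ _ _)

theorem g3 (h h' : X7) : ‖qF h 3 - qF h' 3‖ ≤
    132 / 100 * ((‖h 0‖ * ‖h 3 - h' 3‖ + ‖h 0 - h' 0‖ * ‖h' 3‖) +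
      1 / 8 * (‖h 4‖ * ‖h 4 - h' 4‖ + ‖h 4 - h' 4‖ * ‖h' 4‖) +
      1 / 2 * (‖h 1‖ * ‖h 1 - h' 1‖ + ‖h 1 - h' 1‖ * ‖h' 1‖) +
      3 / 4 * (‖h 2‖ * ‖h 2 - h' 2‖ + ‖h 2 - h' 2‖ * ‖h' 2‖)) := by
  have e : qF h 3 - qF h' 3 = SG * ((h 0 * h 3 - h' 0 * h' 3) -
      (1 / 8 : ℝ) • (h 4 * h 4 - h' 4 * h' 4) - (1 / 2 : ℝ) • (h 1 * h 1 - h' 1 * h' 1) -
      (3 / 4 : ℝ) • (h 2 * h 2 - h' 2 * h' 2)) := by
    change SG * (h 0 * h 3 - (1 / 8 : ℝ) • (h 4 * h 4) - (1 / 2 : ℝ) • (h 1 * h 1)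
      - (3 / 4 : ℝ) • (h 2 * h 2)) - SG * (h' 0 * h' 3 - (1 / 8 : ℝ) • (h' 4 * h' 4)
      - (1 / 2 : ℝ) • (h' 1 * h' 1) - (3 / 4 : ℝ) • (h' 2 * h' 2)) = _
    rw [← mul_sub]
    congr 1
    simp only [smul_sub]
    abel
  rw [e]
  refine mulle SG_norm ?_
  refine (norm_sub_le _ _).trans (add_le_add ?_ (smulle _ (by norm_num) (bil _ _ _ _)))
  refine (norm_sub_le _ _).trans (add_le_add ?_ (smulle _ (by norm_num) (bil _ _ _ _)))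
  exact (norm_sub_le _ _).trans (add_le_add (bil _ _ _ _) (smulle _ (by norm_num) (bil _ _ _ _)))

theorem g4 (h h' : X7) : ‖qF h 4 - qF h' 4‖ ≤
    132 / 100 * ((‖h 0‖ * ‖h 4 - h' 4‖ + ‖h 0 - h' 0‖ * ‖h' 4‖) +
      (‖h 1‖ * ‖h 4 - h' 4‖ + ‖h 1 - h' 1‖ * ‖h' 4‖)) := by
  have e : qF h 4 - qF h' 4 = SG * ((h 0 * h 4 - h' 0 * h' 4) - (h 1 * h 4 - h' 1 * h' 4)) := by
    change SG * ((h 0 - h 1) * h 4) - SG * ((h' 0 - h' 1) * h' 4) = _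
    ring
  rw [e]
  exact mulle SG_norm ((norm_sub_le _ _).trans (add_le_add (bil _ _ _ _) (bil _ _ _ _)))

theorem g5 (h h' : X7) : ‖qF h 5 - qF h' 5‖ ≤
    132 / 100 * (‖h 0‖ * ‖h 5 - h' 5‖ + ‖h 0 - h' 0‖ * ‖h' 5‖) := by
  have e : qF h 5 - qF h' 5 = SG * (h 0 * h 5 - h' 0 * h' 5) := by
    change SG * (h 0 * h 5) - SG * (h' 0 * h' 5) = _
    rw [mul_sub]
  rw [e]
  exact mulle SG_norm (bil _ _ _ _)

theorem g6 (h h' : X7) : ‖qF h 6 - qF h' 6‖ ≤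
    132 / 100 * ((‖h 0‖ * ‖h 6 - h' 6‖ + ‖h 0 - h' 0‖ * ‖h' 6‖) +
      (‖h 2‖ * ‖h 6 - h' 6‖ + ‖h 2 - h' 2‖ * ‖h' 6‖)) := by
  have e : qF h 6 - qF h' 6 = SG * ((h 0 * h 6 - h' 0 * h' 6) - (h 2 * h 6 - h' 2 * h' 6)) := by
    change SG * ((h 0 - h 2) * h 6) - SG * ((h' 0 - h' 2) * h' 6) = _
    ring
  rw [e]
  exact mulle SG_norm ((norm_sub_le _ _).trans (add_le_add (bil _ _ _ _) (bil _ _ _ _)))

theorem c_D (i : Fin 7) (h h' : X7) (hi : QF h i = 0 - D (qF h i)) (hi' : QF h' i = 0 - D (qF h' i)) :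
    ‖QF h i - QF h' i‖ ≤ 1 / 3 * ‖qF h i - qF h' i‖ := by
  have e : QF h i - QF h' i = -D (qF h i - qF h' i) := by
    rw [hi, hi', map_sub]
    abel
  rw [e, norm_neg]
  exact D_norm _

theorem c3 (h h' : X7) : ‖QF h 3 - QF h' 3‖ ≤ 3 / 2 * ‖qF h 3 - qF h' 3‖ := by
  have e : QF h 3 - QF h' 3 = -I (qF h 3 - qF h' 3) := by
    change (J 0 - I (qF h 3) + (cf 0 0 - 0) • (1 : WS)) -
      (J 0 - I (qF h' 3) + (cf 0 0 - 0) • (1 : WS)) = _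
    rw [map_sub]
    abel
  rw [e, norm_neg]
  exact I_norm _

theorem c_I (i j : Fin 7) (h h' : X7) (hi : QF h i = J 0 - I (qF h i) + mu (qF h j) • (1 : WS))
    (hi' : QF h' i = J 0 - I (qF h' i) + mu (qF h' j) • (1 : WS)) :
    ‖QF h i - QF h' i‖ ≤ 3 / 2 * ‖qF h i - qF h' i‖ + ‖qF h j - qF h' j‖ := by
  have e : QF h i - QF h' i = -I (qF h i - qF h' i) + mu (qF h j - qF h' j) • (1 : WS) := by
    rw [hi, hi', map_sub, map_sub, sub_smul]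
    abel
  rw [e]
  refine (norm_add_le _ _).trans (add_le_add ?_ ?_)
  · rw [norm_neg]
    exact I_norm _
  · rw [norm_smul, norm_one', mul_one, Real.norm_eq_abs]
    exact mu_norm _

theorem final {a0 a1 a2 a3 a4 a5 a6 b0 b1 b2 b3 b4 b5 b6 d0 d1 d2 d3 d4 d5 d6 : ℝ}
    (_ : 0 ≤ a0) (_ : 0 ≤ a1) (_ : 0 ≤ a2) (_ : 0 ≤ a3) (_ : 0 ≤ a4) (_ : 0 ≤ a5) (_ : 0 ≤ a6)
    (_ : 0 ≤ b0) (_ : 0 ≤ b1) (_ : 0 ≤ b2) (_ : 0 ≤ b3) (_ : 0 ≤ b4) (_ : 0 ≤ b5) (_ : 0 ≤ b6)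
    (_ : 0 ≤ d0) (_ : 0 ≤ d1) (_ : 0 ≤ d2) (_ : 0 ≤ d3) (_ : 0 ≤ d4) (_ : 0 ≤ d5) (_ : 0 ≤ d6) :
    (4 / 3 * ((429 / 100 * (a3 * d0 + d3 * b0) + 1 / 4 * (429 / 100 * (a4 * d4 + d4 * b4))) +
      (429 / 100 * (a3 * d1 + d3 * b1) + 1 / 4 * (429 / 100 * (a4 * d4 + d4 * b4))) +
      429 / 100 * (a3 * d2 + d3 * b2)) +
    3 / 2 * (132 / 100 * ((a0 * d3 + d0 * b3) + 1 / 8 * (a4 * d4 + d4 * b4) +
        1 / 2 * (a1 * d1 + d1 * b1) + 3 / 4 * (a2 * d2 + d2 * b2)) +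
      132 / 100 * ((a0 * d4 + d0 * b4) + (a1 * d4 + d1 * b4)) +
      132 / 100 * (a0 * d5 + d0 * b5) +
      132 / 100 * ((a0 * d6 + d0 * b6) + (a2 * d6 + d2 * b6)))) ≤
    8 * ((a0 + a1 + a2 + a3 + a4 + a5 + a6) + (b0 + b1 + b2 + b3 + b4 + b5 + b6)) *
      (d0 + d1 + d2 + d3 + d4 + d5 + d6) := by
  rw [← sub_nonneg]
  ring_nf
  positivity

end Quad

theorem stQ : StQ := by
  intro h h'
  rw [PiLp.norm_eq_of_L1, PiLp.norm_eq_of_L1, PiLp.norm_eq_of_L1, PiLp.norm_eq_of_L1]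
  simp only [Fin.sum_univ_seven, PiLp.sub_apply]
  have e0 := Quad.c_D 0 h h' rfl rfl
  have e1 := Quad.c_D 1 h h' rfl rfl
  have e2 := Quad.c_D 2 h h' rfl rfl
  have e3 := Quad.c3 h h'
  have e4 := Quad.c_I 4 1 h h' rfl rfl
  have e5 := Quad.c_I 5 0 h h' rfl rfl
  have e6 := Quad.c_I 6 2 h h' rfl rfl
  have f0 := Quad.g0 h h'
  have f1 := Quad.g1 h h'
  have f2 := Quad.g2 h h'
  have f3 := Quad.g3 h h'
  have f4 := Quad.g4 h h'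
  have f5 := Quad.g5 h h'
  have f6 := Quad.g6 h h'
  have hf := Quad.final (norm_nonneg (h 0)) (norm_nonneg (h 1)) (norm_nonneg (h 2))
    (norm_nonneg (h 3)) (norm_nonneg (h 4)) (norm_nonneg (h 5)) (norm_nonneg (h 6))
    (norm_nonneg (h' 0)) (norm_nonneg (h' 1)) (norm_nonneg (h' 2))
    (norm_nonneg (h' 3)) (norm_nonneg (h' 4)) (norm_nonneg (h' 5)) (norm_nonneg (h' 6))
    (norm_nonneg (h 0 - h' 0)) (norm_nonneg (h 1 - h' 1)) (norm_nonneg (h 2 - h' 2))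
    (norm_nonneg (h 3 - h' 3)) (norm_nonneg (h 4 - h' 4)) (norm_nonneg (h 5 - h' 5))
    (norm_nonneg (h 6 - h' 6))
  refine le_trans ?_ hf
  linarith

end Pool.Agent.Lib.MP_2795bc_gt.SOL
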