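import Pool.Agent.Lib.MP_2795bc_gt.SOL.Geo
import Pool.Agent.Lib.MP_2795bc_gt.SOL.Exp
import Pool.Agent.Lib.MP_2795bc_gt.SOL.Quad
import Pool.Agent.Lib.MP_2795bc_gt.SOL.High
import Pool.Agent.Lib.MP_2795bc_gt.SOL.Ev
import Pool.Agent.Lib.MP_2795bc_gt.SOL.Fin
import Pool.Agent.Lib.MP_2795bc_gt.SOL.NK
import Pool.Agent.Lib.MP_2795bc_gt.SOL.HNum

/-!
# MP_2795bc_gt: the answer
-/

namespace Pool.Agent.Lib.MP_2795bc_gt.SOL

/-- the analytic theorem -/
theorem sODE : StODE := stODE_of stNum (stNK stExp stQ) stHigh (stFin stEv)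

/-- the answer to Q1 -/
theorem target : Target := target_of_ODE sODE

end Pool.Agent.Lib.MP_2795bc_gt.SOL
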