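import Pool.Agent.Lib.MP_2795bc_gt.SOL.GStmts2

/-!
# MP_2795bc_gt: closed forms of the connection coefficients
-/

open scoped Manifold ContDiff Topology Quaternion
open Bundle

noncomputable section

namespace Pool.Agent.Lib.MP_2795bc_gt.SOL

namespace ABAux

theorem hasDerivAt_P (x : ℝ) : HasDerivAt (fun y : ℝ => 1 - y ^ 2) (-(2 * x)) x := by
  have h := (hasDerivAt_pow 2 x).const_sub 1
  refine h.congr_deriv ?_
  norm_num

theorem hasDerivAt_kap (x : ℝ) : HasDerivAt kap (-(x / 200)) x := by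
  have h := ((hasDerivAt_pow 2 x).const_sub 37).div_const 400
  refine h.congr_deriv ?_
  norm_num
  ring

theorem hasDerivAt_sp (x : ℝ) :
    HasDerivAt sp (-(2 * x * kap x) - (1 - x ^ 2) * x / 200) x := by
  have h := ((hasDerivAt_P x).mul (hasDerivAt_kap x)).const_add 1
  refine h.congr_deriv ?_
  ring

end ABAux

open ABAux

theorem stAB : StAB := by
  intro f hf x hx
  obtain ⟨hsm, hode, hpos, -⟩ := hf
  obtain ⟨sm1, sm2, sm3, sm4, smb, smc, sme⟩ := hsm
  have hxJ : x ∈ Jv := ⟨by linarith [hx.1], by linarith [hx.2]⟩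
  obtain ⟨hb, hc, he, -⟩ := hpos x ⟨hx.1.le, hx.2.le⟩
  have hP : 0 < 1 - x ^ 2 := by nlinarith [hx.1, hx.2]
  have hk : 0 < kap x := by
    unfold kap
    have : 0 < 37 - x ^ 2 := by linarith
    positivity
  have hs : 0 < sp x := by
    unfold sp
    positivity
  have hdiff : ∀ g : ℝ → ℝ, ContDiffOn ℝ ∞ g Jv → HasDerivAt g (deriv g x) x := by
    intro g hg
    have h1 : DifferentiableOn ℝ g Jv := hg.differentiableOn (by simp)
    exact ((h1 x hxJ).differentiableAt (isOpen_Ioo.mem_nhds hxJ)).hasDerivAt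
  obtain ⟨-, -, -, -, ob, oc, oe⟩ := hode x hxJ
  have dc := hdiff _ smc
  have db := hdiff _ smb
  have de := hdiff _ sme
  rw [oc] at dc
  rw [ob] at db
  rw [oe] at de
  have dP := hasDerivAt_P x
  have ds := hasDerivAt_sp x
  have hsd : -(2 * x * kap x) - (1 - x ^ 2) * x / 200 =
    -(2 * x * kap x + (1 - x ^ 2) * x / 200) := by ring
  rw [hsd] at ds
  -- the three derivatives
  have D0 := (dc.mul (ds.pow 2)).mul dP
  have D1 := dc.mul dP
  have D2 := (dc.const_mul 4).div db hb.ne'
  have D4 := (dc.const_mul 2).div de he.ne'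
  have e0 : HasDerivAt (fun y => qf f y 0) ((sp x * f.nu x - 2 * x * kap x) * (f.c x *
      sp x ^ 2 * (1 - x ^ 2)) - 2 * (2 * x * kap x + (1 - x ^ 2) * x / 200) * f.c x * sp x *
      (1 - x ^ 2) - 2 * x * f.c x * sp x ^ 2) x := by
    refine D0.congr_deriv ?_
    simp only [Pi.pow_apply, Pi.mul_apply]
    push_cast
    ring
  have e1 : HasDerivAt (fun y => qf f y 1) ((sp x * f.nu x - 2 * x * kap x) * (f.c x *
      (1 - x ^ 2)) - 2 * x * f.c x) x := by
    refine D1.congr_deriv ?_
    ring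
  have e2 : HasDerivAt (fun y => 4 * f.c y / f.b y) (sp x * f.al x * (4 * f.c x / f.b x)) x := by
    refine D2.congr_deriv ?_
    field_simp
    ring
  have e4 : HasDerivAt (fun y => 2 * f.c y / f.e y) (sp x * f.ga x * (2 * f.c x / f.e x)) x := by
    refine D4.congr_deriv ?_
    field_simp
    ring
  have hq : ∀ a, 0 < qf f x a := by
    intro a
    fin_cases a <;> simp only [qf] <;> norm_num <;> positivity
  have hall : ∀ a, DifferentiableAt ℝ (fun y => qf f y a) x := by
    intro a
    fin_cases a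
    · exact e0.differentiableAt
    · exact e1.differentiableAt
    · exact e2.differentiableAt
    · exact e2.differentiableAt
    · exact e4.differentiableAt
    · exact e4.differentiableAt
    · exact e4.differentiableAt
  have v0 : deriv (fun y => qf f y 0) x = _ := e0.deriv
  have v1 : deriv (fun y => qf f y 1) x = _ := e1.deriv
  have v2 : deriv (fun y => qf f y 2) x = _ := e2.deriv
  have v3 : deriv (fun y => qf f y 3) x = _ := e2.deriv
  have v4 : deriv (fun y => qf f y 4) x = _ := e4.deriv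
  have v5 : deriv (fun y => qf f y 5) x = _ := e4.deriv
  have v6 : deriv (fun y => qf f y 6) x = _ := e4.deriv
  have q0 : qf f x 0 = f.c x * sp x ^ 2 * (1 - x ^ 2) := rfl
  have q1 : qf f x 1 = f.c x * (1 - x ^ 2) := rfl
  have q2 : qf f x 2 = 4 * f.c x / f.b x := rfl
  have q3 : qf f x 3 = 4 * f.c x / f.b x := rfl
  have q4 : qf f x 4 = 2 * f.c x / f.e x := rfl
  have q5 : qf f x 5 = 2 * f.c x / f.e x := rfl
  have q6 : qf f x 6 = 2 * f.c x / f.e x := rfl
  refine ⟨hs, hq, ?_, ?_⟩
  · intro a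
    have h1 := (hall a).hasDerivAt
    refine h1.congr_deriv ?_
    have h2 := (hq a).ne'
    have h3 := hP.ne'
    unfold Aq
    generalize deriv (fun y => qf f y a) x = d
    generalize qf f x a = q at h2 ⊢
    generalize 1 - x ^ 2 = P at h3 ⊢
    field_simp
  simp only [Aq, Bq, tq, v0, v1, v2, v3, v4, v5, v6, q0, q1, q2, q3, q4, q5, q6]
  have hc' := hc.ne'
  have hb' := hb.ne'
  have he' := he.ne'
  have hs' := hs.ne'
  have hP' := hP.ne'
  generalize f.c x = c at hc' ⊢
  generalize f.b x = b at hb' ⊢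
  generalize f.e x = e at he' ⊢
  generalize sp x = s at hs' ⊢
  generalize f.nu x = nu
  generalize f.al x = al
  generalize f.ga x = ga
  generalize kap x = k
  generalize 1 - x ^ 2 = P at hP' ⊢
  refine ⟨?_, ?_, ?_, ?_, ?_, ?_, ?_, ?_, ?_, ?_, ?_, ?_, ?_, ?_⟩ <;> field_simp <;> ring

end Pool.Agent.Lib.MP_2795bc_gt.SOL
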