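import Pool.Agent.Lib.MP_2795bc_gt.SOL.Defs

/-!
# MP_2795bc_gt: the manifold, the metric and the vector field (definitions)

`W = ℍ × ℝ × ℍ × ℍ`, points `(ξ, x, p, z)`. The manifold is
`MS = {|ξ|² + x² = 1, p imaginary, |p| = 1, (1 - x²) p = ξ i ξ̄, |z| = 1}`.
-/

open scoped Manifold ContDiff Topology Quaternion
open Bundle

noncomputable section

namespace Pool.Agent.Lib.MP_2795bc_gt.SOL

/-! ### The seven functions -/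

/-- `κ` -/
def kap (x : ℝ) : ℝ := (37 - x ^ 2) / 400
/-- `s` -/
def sp (x : ℝ) : ℝ := 1 + (1 - x ^ 2) * kap x

/-- seven real functions -/
structure Fn where
  nu : ℝ → ℝ
  al : ℝ → ℝ
  ga : ℝ → ℝ
  sg : ℝ → ℝ
  b : ℝ → ℝ
  c : ℝ → ℝ
  e : ℝ → ℝ

/-- The interval `(-3/2, 3/2)`. -/
abbrev Jv : Set ℝ := Set.Ioo (-(3 / 2) : ℝ) (3 / 2)

/-- smoothness -/
def Fn.Smooth (f : Fn) : Prop :=
  ContDiffOn ℝ ∞ f.nu Jv ∧ ContDiffOn ℝ ∞ f.al Jv ∧ ContDiffOn ℝ ∞ f.ga Jv ∧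
  ContDiffOn ℝ ∞ f.sg Jv ∧ ContDiffOn ℝ ∞ f.b Jv ∧ ContDiffOn ℝ ∞ f.c Jv ∧ ContDiffOn ℝ ∞ f.e Jv

/-- the differential equations -/
def Fn.Ode (f : Fn) : Prop := ∀ x ∈ Jv,
  ((1 - x ^ 2) * deriv f.nu x - 2 * x * f.nu x =
    2 - sp x * f.sg x * ((1 - x ^ 2) * f.nu x - 2 * x)
      + (1 / 4) * (1 - x ^ 2) * sp x * f.b x ^ 2 - 2 * sp x * f.c x) ∧
  ((1 - x ^ 2) * deriv f.al x - 2 * x * f.al x =
    -(sp x * f.sg x * (1 - x ^ 2) * f.al x) + 2 * sp x * f.b x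
      - (1 / 4) * (1 - x ^ 2) * sp x * f.b x ^ 2 - 2 * sp x * f.c x) ∧
  ((1 - x ^ 2) * deriv f.ga x - 2 * x * f.ga x =
    -(sp x * f.sg x * (1 - x ^ 2) * f.ga x) + 2 * sp x * f.e x - 2 * sp x * f.c x) ∧
  (deriv f.sg x = -(2 * x * kap x * f.sg x) + sp x * (f.nu x * f.sg x - f.b x ^ 2 / 8
    - f.al x ^ 2 / 2 - 3 / 4 * f.ga x ^ 2)) ∧
  (deriv f.b x = (sp x * f.nu x - 2 * x * kap x - sp x * f.al x) * f.b x) ∧
  (deriv f.c x = (sp x * f.nu x - 2 * x * kap x) * f.c x) ∧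
  (deriv f.e x = (sp x * f.nu x - 2 * x * kap x - sp x * f.ga x) * f.e x)

/-- signs on `[-1, 1]` -/
def Fn.Pos (f : Fn) : Prop := ∀ x ∈ Set.Icc (-1 : ℝ) 1,
  0 < f.b x ∧ 0 < f.c x ∧ 0 < f.e x ∧ f.b x < 2

/-- the values at `0` -/
def Fn.At0 (f : Fn) : Prop :=
  0 < f.nu 0 ∧ 0 < f.al 0 ∧ f.nu 0 < f.ga 0 ∧ 0 < f.al 0 + 3 / 2 * f.ga 0 - f.sg 0 ∧
  0 < f.e 0 - f.c 0 - f.sg 0 * f.ga 0 / 2 - f.nu 0 * f.ga 0 / 4 + f.ga 0 ^ 2 / 4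

/-- everything the geometry needs -/
def Fn.Good (f : Fn) : Prop := f.Smooth ∧ f.Ode ∧ f.Pos ∧ f.At0

/-- The analytic theorem. -/
def StODE : Prop := ∃ f : Fn, f.Good

/-! ### The ambient space and the charts -/

/-- quaternions -/
abbrev HH : Type := ℍ[ℝ]
/-- `(ξ, x, p, z)` -/
abbrev WW : Type := HH × ℝ × HH × HH

/-- the units -/
def qi : HH := ⟨0, 1, 0, 0⟩
def qj : HH := ⟨0, 0, 1, 0⟩
def qk : HH := ⟨0, 0, 0, 1⟩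

/-- The manifold as a subset of `W`. -/
def MS : Set WW := {w | Quaternion.normSq w.1 + w.2.1 ^ 2 = 1 ∧ w.2.2.1.re = 0 ∧
  Quaternion.normSq w.2.2.1 = 1 ∧ (1 - w.2.1 ^ 2) • w.2.2.1 = w.1 * qi * star w.1 ∧
  Quaternion.normSq w.2.2.2 = 1}

/-- sign -/
def sgn (b : Bool) : ℝ := if b then 1 else -1

/-- `1` or `j` -/
def kq (b : Bool) : HH := if b then 1 else qj

/-- index of a chart -/
abbrev Ix : Type := Bool × Bool × Bool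

/-- the basic parametrisation, `t = (ω₀, ω₁, y₂, y₃, q₁, q₂, q₃)`,
`η = (1 + y₂ j + y₃ k)(ω₀ + ω₁ i)`, `ξ = 2η/(1+|η|²)`, `x = (1-|η|²)/(1+|η|²)` -/
def eta (t : Eu 7) : HH := ⟨t 0, t 1, t 2 * t 0 + t 3 * t 1, t 3 * t 0 - t 2 * t 1⟩
/-- `|η|²` -/
def eta2 (t : Eu 7) : ℝ := (t 0 ^ 2 + t 1 ^ 2) * (1 + t 2 ^ 2 + t 3 ^ 2)

/-- basic parametrisation of `MS` -/
def Phi0 (t : Eu 7) : WW :=
  ((2 / (1 + eta2 t)) • eta t, (1 - eta2 t) / (1 + eta2 t),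
   (1 / (1 + t 2 ^ 2 + t 3 ^ 2)) • (⟨0, 1 - t 2 ^ 2 - t 3 ^ 2, 2 * t 3, -(2 * t 2)⟩ : HH),
   (1 / (1 + t 4 ^ 2 + t 5 ^ 2 + t 6 ^ 2)) •
    (⟨1 - t 4 ^ 2 - t 5 ^ 2 - t 6 ^ 2, 2 * t 4, 2 * t 5, 2 * t 6⟩ : HH))

/-- its inverse -/
def cc0 (w : WW) : Eu 7 := WithLp.toLp 2 ![
  w.1.re / (1 + w.2.1), w.1.imI / (1 + w.2.1),
  -(w.2.2.1.imK / (1 + w.2.2.1.imI)), w.2.2.1.imJ / (1 + w.2.2.1.imI),
  w.2.2.2.imI / (1 + w.2.2.2.re), w.2.2.2.imJ / (1 + w.2.2.2.re), w.2.2.2.imK / (1 + w.2.2.2.re)]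

/-- the symmetries -/
def Te (e : Ix) (w : WW) : WW :=
  (w.1 * kq e.2.1, sgn e.1 * w.2.1, sgn e.2.1 • w.2.2.1, sgn e.2.2 • w.2.2.2)
/-- their inverses -/
def Tei (e : Ix) (w : WW) : WW :=
  (w.1 * star (kq e.2.1), sgn e.1 * w.2.1, sgn e.2.1 • w.2.2.1, sgn e.2.2 • w.2.2.2)

/-- the eight parametrisations -/
def Phi (e : Ix) (t : Eu 7) : WW := Te e (Phi0 t)
/-- and their inverses, defined on `Os e` -/
def cc (e : Ix) (w : WW) : Eu 7 := cc0 (Tei e w)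

/-- the open set on which `cc e` is smooth -/
def Os (e : Ix) : Set WW :=
  {w | 0 < 1 + sgn e.1 * w.2.1 ∧ 0 < 1 + sgn e.2.1 * w.2.2.1.imI ∧ 0 < 1 + sgn e.2.2 * w.2.2.2.re}

/-! ### The metric and the vector field on `W` -/

/-- coefficient of `dx²` -/
def cx (f : Fn) (x : ℝ) : ℝ := f.c x * (1 + kap x * (sp x + 1))
/-- coefficient of `|dp|²` -/
def cp (f : Fn) (x : ℝ) : ℝ := f.c x / f.b x - f.c x * (1 - x ^ 2) / 4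
/-- coefficient of `|dz|²` -/
def cz (f : Fn) (x : ℝ) : ℝ := 2 * f.c x / f.e x
/-- potential factor `ψ` -/
def psi (f : Fn) (x : ℝ) : ℝ := (f.al x + 3 / 2 * f.ga x - f.sg x) / (f.c x * sp x)

/-- the four constant forms on `W` -/
def b0 : WW →L[ℝ] WW →L[ℝ] ℝ :=
  (innerSL ℝ (E := HH)).bilinearComp (ContinuousLinearMap.fst ℝ HH (ℝ × HH × HH))
    (ContinuousLinearMap.fst ℝ HH (ℝ × HH × HH))
/-- projection to the `x` component -/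
def prx : WW →L[ℝ] ℝ :=
  (ContinuousLinearMap.fst ℝ ℝ (HH × HH)).comp (ContinuousLinearMap.snd ℝ HH (ℝ × HH × HH))
/-- projection to the `p` component -/
def prp : WW →L[ℝ] HH :=
  (ContinuousLinearMap.fst ℝ HH HH).comp ((ContinuousLinearMap.snd ℝ ℝ (HH × HH)).comp
    (ContinuousLinearMap.snd ℝ HH (ℝ × HH × HH)))
/-- projection to the `z` component -/
def prz : WW →L[ℝ] HH :=
  (ContinuousLinearMap.snd ℝ HH HH).comp ((ContinuousLinearMap.snd ℝ ℝ (HH × HH)).comp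
    (ContinuousLinearMap.snd ℝ HH (ℝ × HH × HH)))
/-- `dx²` -/
def b1 : WW →L[ℝ] WW →L[ℝ] ℝ := (innerSL ℝ (E := ℝ)).bilinearComp prx prx
/-- `|dp|²` -/
def b2 : WW →L[ℝ] WW →L[ℝ] ℝ := (innerSL ℝ (E := HH)).bilinearComp prp prp
/-- `|dz|²` -/
def b3 : WW →L[ℝ] WW →L[ℝ] ℝ := (innerSL ℝ (E := HH)).bilinearComp prz prz

/-- the metric on `W` -/
def Bm (f : Fn) (w : WW) : WW →L[ℝ] WW →L[ℝ] ℝ :=
  f.c w.2.1 • b0 + cx f w.2.1 • b1 + cp f w.2.1 • b2 + cz f w.2.1 • b3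

/-- the vector field on `W` -/
def VW (f : Fn) (w : WW) : WW := psi f w.2.1 • (-(w.2.1 • w.1), 1 - w.2.1 ^ 2, (0 : HH), (0 : HH))

/-- the metric in the chart `e` -/
def Gm (f : Fn) (e : Ix) (t : Eu 7) : Eu 7 →L[ℝ] Eu 7 →L[ℝ] ℝ :=
  (Bm f (Phi e t)).bilinearComp (fderiv ℝ (Phi e) t) (fderiv ℝ (Phi e) t)

/-- the vector field in the chart `e` -/
def Vm (f : Fn) (e : Ix) (t : Eu 7) : Eu 7 := fderiv ℝ (cc e) (Phi e t) (VW f (Phi e t))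

end Pool.Agent.Lib.MP_2795bc_gt.SOL
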