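import Pool.Agent.Lib.MP_2795bc_gt.SOL.ASys
import Pool.Agent.Lib.MP_2795bc_gt.SOL.GDefs

/-!
# MP_2795bc_gt: statements of the analytic modules
-/

open PowerSeries
open scoped ContDiff

noncomputable section

namespace Pool.Agent.Lib.MP_2795bc_gt.SOL

open WS

/-- basis vector `xʲ` in component `i` -/
def bs (i : Fin 7) (j : ℕ) : X7 := PiLp.single 1 i (x ^ j)

/-- Taylor expansion of `FF` (it is quadratic) -/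
def StExp : Prop := ∀ Z h : X7, FF (Z + h) = FF Z + blk (pM Z) h + QF h

/-- the quadratic part is small -/
def StQ : Prop := ∀ h h' : X7, ‖QF h - QF h'‖ ≤ 8 * (‖h‖ + ‖h'‖) * ‖h - h'‖

/-- Newton-Kantorovich with an approximate right inverse which is `M i j` on `bs i j`, `j < 13`,
and the identity on the other basis vectors -/
def StNK : Prop := ∀ (Z : X7) (M : Fin 7 → ℕ → X7), ‖FF Z‖ ≤ 1 / 10 ^ 10 →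
  (∀ i, ∀ j < 13, ‖M i j‖ ≤ 2600 * (3 / 2 : ℝ) ^ j) →
  (∀ i, ∀ j < 13, ‖bs i j - blk (pM Z) (M i j)‖ ≤ 3 / 4 * (3 / 2 : ℝ) ^ j) →
  (∀ i, ∀ j ≥ 13, ‖bs i j - blk (pM Z) (bs i j)‖ ≤ 3 / 4 * (3 / 2 : ℝ) ^ j) →
  ∃ u : X7, FF u = 0 ∧ ‖u - Z‖ ≤ 2 / 10 ^ 6

/-- the high columns -/
def StHigh : Prop := ∀ (p : Fin 7 → Fin 7 → WS) (i : Fin 7) (j : ℕ), 13 ≤ j →
  (121 / 100) * (‖p 0 i‖ + ‖p 1 i‖ + ‖p 2 i‖) + (3 / 2) * (‖p 3 i‖ + ‖p 4 i‖ + ‖p 5 i‖ + ‖p 6 i‖)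
    ≤ 21 / 2 →
  ‖bs i j - blk p (bs i j)‖ ≤ 3 / 4 * (3 / 2 : ℝ) ^ j

/-- value of a power series -/
def ev (f : WS) (y : ℝ) : ℝ := ∑' n, cf f n * y ^ n

/-- calculus of `ev` -/
def StEv : Prop :=
  (∀ f : WS, ContDiffOn ℝ ∞ (ev f) Jv) ∧
  (∀ y ∈ Jv, (∀ f g : WS, ev (f * g) y = ev f y * ev g y) ∧
    (∀ f g : WS, ev (f + g) y = ev f y + ev g y) ∧
    (∀ (r : ℝ) (f : WS), ev (r • f) y = r * ev f y) ∧ ev 1 y = 1 ∧ ev x y = y ∧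
    (∀ f : WS, HasDerivAt (ev (I f)) (ev f y) y) ∧
    (∀ f : WS, HasDerivAt (fun y => (1 - y ^ 2) * ev (D f) y) (ev f y - mu f) y)) ∧
  (∀ f : WS, ev f 0 = cf f 0) ∧
  ∀ (f : WS) (y : ℝ), |y| ≤ 1 → |ev f y - cf f 0| ≤ 2 / 3 * (‖f‖ - |cf f 0|)

/-- the seven functions -/
def fnOf (u : X7) : Fn := ⟨ev (u 0), ev (u 1), ev (u 2), ev (u 3), ev (u 4), ev (u 5), ev (u 6)⟩

/-- from a zero of `FF` to the functions -/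
def StFin : Prop := ∀ u Z : X7, FF u = 0 → ‖u - Z‖ ≤ 2 / 10 ^ 6 →
  |cf (Z 0) 0 - 12 / 100| ≤ 1 / 10000 → |cf (Z 1) 0 - 11302 / 100000| ≤ 1 / 10000 →
  |cf (Z 2) 0 - 39806 / 100000| ≤ 1 / 10000 → |cf (Z 3) 0 - (-102 / 100000)| ≤ 1 / 10000 →
  |cf (Z 4) 0 - 99529 / 100000| ≤ 1 / 10000 → |cf (Z 5) 0 - 92657 / 100000| ≤ 1 / 10000 →
  |cf (Z 6) 0 - 91001 / 100000| ≤ 1 / 10000 →
  ‖Z 4‖ ≤ 13 / 10 → ‖Z 5‖ ≤ 124 / 100 → ‖Z 6‖ ≤ 164 / 100 → (fnOf u).Good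

/-- the numerical data exist -/
def StNum : Prop := ∃ (Z : X7) (M : Fin 7 → ℕ → X7), ‖FF Z‖ ≤ 1 / 10 ^ 10 ∧
  (∀ i, ∀ j < 13, ‖M i j‖ ≤ 2600 * (3 / 2 : ℝ) ^ j) ∧
  (∀ i, ∀ j < 13, ‖bs i j - blk (pM Z) (M i j)‖ ≤ 3 / 4 * (3 / 2 : ℝ) ^ j) ∧
  (∀ i, (121 / 100) * (‖pM Z 0 i‖ + ‖pM Z 1 i‖ + ‖pM Z 2 i‖)
    + (3 / 2) * (‖pM Z 3 i‖ + ‖pM Z 4 i‖ + ‖pM Z 5 i‖ + ‖pM Z 6 i‖) ≤ 21 / 2) ∧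
  |cf (Z 0) 0 - 12 / 100| ≤ 1 / 10000 ∧ |cf (Z 1) 0 - 11302 / 100000| ≤ 1 / 10000 ∧
  |cf (Z 2) 0 - 39806 / 100000| ≤ 1 / 10000 ∧ |cf (Z 3) 0 - (-102 / 100000)| ≤ 1 / 10000 ∧
  |cf (Z 4) 0 - 99529 / 100000| ≤ 1 / 10000 ∧ |cf (Z 5) 0 - 92657 / 100000| ≤ 1 / 10000 ∧
  |cf (Z 6) 0 - 91001 / 100000| ≤ 1 / 10000 ∧
  ‖Z 4‖ ≤ 13 / 10 ∧ ‖Z 5‖ ≤ 124 / 100 ∧ ‖Z 6‖ ≤ 164 / 100

end Pool.Agent.Lib.MP_2795bc_gt.SOL
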