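import Pool.Agent.Lib.MP_2795bc_gt.SOL.WS2

/-!
# MP_2795bc_gt: the boundary value problem as an equation in a Banach space

Unknown: `u = (nu, al, ga, sg, b, c, e)`, seven elements of `WS`.
-/

open PowerSeries

noncomputable section

namespace Pool.Agent.Lib.MP_2795bc_gt.SOL

open WS

/-- `WS⁷` with the `ℓ¹` norm. -/
abbrev X7 : Type := PiLp 1 (fun _ : Fin 7 => WS)

/-- `P = 1 - x²`. -/
def PG : WS := 1 - x ^ 2
/-- `κ = (37 - x²)/400`. -/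
def KG : WS := (37 / 400 : ℝ) • 1 - (1 / 400 : ℝ) • x ^ 2
/-- the gauge polynomial `s = 1 + (1 - x²) κ`. -/
def SG : WS := 1 + PG * KG

/-- right hand sides -/
def gF (u : X7) : Fin 7 → WS := ![
  2 - SG * u 3 * (PG * u 0 - 2 * x) + (1 / 4 : ℝ) • (PG * SG * (u 4 * u 4)) - 2 * (SG * u 5),
  -(SG * u 3 * (PG * u 1)) + 2 * (SG * u 4) - (1 / 4 : ℝ) • (PG * SG * (u 4 * u 4))
    - 2 * (SG * u 5),
  -(SG * u 3 * (PG * u 2)) + 2 * (SG * u 6) - 2 * (SG * u 5),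
  -(2 * (x * KG * u 3)) + SG * (u 0 * u 3 - (1 / 8 : ℝ) • (u 4 * u 4) - (1 / 2 : ℝ) • (u 1 * u 1)
    - (3 / 4 : ℝ) • (u 2 * u 2)),
  (SG * u 0 - 2 * (x * KG) - SG * u 1) * u 4,
  (SG * u 0 - 2 * (x * KG)) * u 5,
  (SG * u 0 - 2 * (x * KG) - SG * u 2) * u 6]

/-- how the seven right hand sides enter the equation -/
def asm (h : X7) (g : Fin 7 → WS) (r : ℝ) : X7 := WithLp.toLp 1 ![
  h 0 - D (g 0), h 1 - D (g 1), h 2 - D (g 2),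
  J (h 3) - I (g 3) + (cf (h 0) 0 - r) • (1 : WS),
  J (h 4) - I (g 4) + mu (g 1) • (1 : WS),
  J (h 5) - I (g 5) + mu (g 0) • (1 : WS),
  J (h 6) - I (g 6) + mu (g 2) • (1 : WS)]

/-- The equation is `FF u = 0`. -/
def FF (u : X7) : X7 := asm u (gF u) (3 / 25)

/-- the multipliers of the linearisation at `Z` -/
def pM (Z : X7) : Fin 7 → Fin 7 → WS := ![
  ![-(SG * PG * Z 3), 0, 0, -(SG * (PG * Z 0 - 2 * x)), (1 / 2 : ℝ) • (PG * SG * Z 4),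
    -(2 * SG), 0],
  ![0, -(SG * PG * Z 3), 0, -(SG * PG * Z 1), 2 * SG - (1 / 2 : ℝ) • (PG * SG * Z 4),
    -(2 * SG), 0],
  ![0, 0, -(SG * PG * Z 3), -(SG * PG * Z 2), 0, -(2 * SG), 2 * SG],
  ![SG * Z 3, -(SG * Z 1), (-(3 / 2) : ℝ) • (SG * Z 2), SG * Z 0 - 2 * (x * KG),
    (-(1 / 4) : ℝ) • (SG * Z 4), 0, 0],
  ![SG * Z 4, -(SG * Z 4), 0, 0, SG * Z 0 - 2 * (x * KG) - SG * Z 1, 0, 0],
  ![SG * Z 5, 0, 0, 0, 0, SG * Z 0 - 2 * (x * KG), 0],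
  ![SG * Z 6, 0, -(SG * Z 6), 0, 0, 0, SG * Z 0 - 2 * (x * KG) - SG * Z 2]]

/-- the linear operator with multipliers `p` -/
def blk (p : Fin 7 → Fin 7 → WS) (h : X7) : X7 :=
  asm h (fun k => ∑ i, p k i * h i) 0

/-- the quadratic part -/
def qF (h : X7) : Fin 7 → WS := ![
  -(SG * PG * (h 3 * h 0)) + (1 / 4 : ℝ) • (PG * SG * (h 4 * h 4)),
  -(SG * PG * (h 3 * h 1)) - (1 / 4 : ℝ) • (PG * SG * (h 4 * h 4)),
  -(SG * PG * (h 3 * h 2)),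
  SG * (h 0 * h 3 - (1 / 8 : ℝ) • (h 4 * h 4) - (1 / 2 : ℝ) • (h 1 * h 1)
    - (3 / 4 : ℝ) • (h 2 * h 2)),
  SG * ((h 0 - h 1) * h 4), SG * (h 0 * h 5), SG * ((h 0 - h 2) * h 6)]

/-- the quadratic part of `FF` -/
def QF (h : X7) : X7 := asm 0 (qF h) 0

end Pool.Agent.Lib.MP_2795bc_gt.SOL
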