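import Pool.Agent.Lib.MP_2795bc_gt.SOL.GStmts2
import Pool.Agent.Lib.MP_2795bc_gt.SOL.AStmts

/-!
# MP_2795bc_gt: assembly
-/

open scoped Manifold ContDiff Topology Quaternion
open Bundle

noncomputable section

namespace Pool.Agent.Lib.MP_2795bc_gt.SOL

/-- the analytic theorem from its modules -/
theorem stODE_of (hn : StNum) (hk : StNK) (hh : StHigh) (hf : StFin) : StODE := by
  obtain ⟨Z, M, h1, h2, h3, h4, c0, c1, c2, c3, c4, c5, c6, n4, n5, n6⟩ := hn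
  obtain ⟨u, hu, hd⟩ := hk Z M h1 h2 h3 (fun i j hj => hh (pM Z) i j hj (h4 i))
  exact ⟨fnOf u, hf u Z hu hd c0 c1 c2 c3 c4 c5 c6 n4 n5 n6⟩

/-- an odd-dimensional space has no almost complex structure -/
theorem no_J (n : ℕ) (hn : Odd n) (J : Eu n →L[ℝ] Eu n) (h : ∀ u, J (J u) = -u) : False := by
  have h1 : (J : Eu n →ₗ[ℝ] Eu n) ∘ₗ (J : Eu n →ₗ[ℝ] Eu n) = (-1 : ℝ) • LinearMap.id := by
    ext1 u; simp [h u]
  have h2 := congrArg LinearMap.det h1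
  rw [LinearMap.det_comp, LinearMap.det_smul, LinearMap.det_id, finrank_euclideanSpace,
    Fintype.card_fin, hn.neg_one_pow] at h2
  nlinarith [mul_self_nonneg (LinearMap.det (J : Eu n →ₗ[ℝ] Eu n))]

section dec
variable {n : ℕ} {M : Type} [TopologicalSpace M] [ChartedSpace (Eu n) M] [IsManifold (𝓡 n) ∞ M]

/-- if only scalars commute with the curvature at `p` then the metric is not a product near `p` -/
theorem not_dec (hNat : StNat) (g : FormField n M) (p : M)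
    (ht : (extChartAt (𝓡 n) p).target = Set.univ) (hG : IsMetricOn (coordMetric g p) Set.univ)
    (hc : ∀ Pr : Eu n →ₗ[ℝ] Eu n,
      (∀ u v w, Pr (riem (coordMetric g p) (extChartAt (𝓡 n) p p) u v w) =
        riem (coordMetric g p) (extChartAt (𝓡 n) p p) u v (Pr w)) → ∃ μ : ℝ, ∀ u, Pr u = μ • u) :
    ¬ LocDecomposable g := by
  intro h
  obtain ⟨k, l, hk, hl, hkl, U₁, U₂, G₁, G₂, Φ, m1, m2, hΦ, ⟨y0, hy0, hy0p⟩, hiso⟩ := h p
  have hUo : IsOpen (U₁ ×ˢ U₂) := m1.1.prod m2.1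
  set src := (extChartAt (𝓡 n) p).source with hsrc
  have hso : IsOpen src := isOpen_extChartAt_source p
  set U' : Set (Eu k × Eu l) := (U₁ ×ˢ U₂) ∩ Φ ⁻¹' src with hU'
  have hU'o : IsOpen U' := hΦ.continuousOn.isOpen_inter_preimage hUo hso
  set ψ : Eu k × Eu l → Eu n := fun y => extChartAt (𝓡 n) p (Φ y) with hψ
  have hsm : ContMDiffOn 𝓘(ℝ, Eu k × Eu l) 𝓘(ℝ, Eu n) ∞ ψ U' := by
    have h1 : ContMDiffOn (𝓡 n) 𝓘(ℝ, Eu n) ∞ (extChartAt (𝓡 n) p) (chartAt (Eu n) p).source :=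
      contMDiffOn_extChartAt
    have h2 : ContMDiffOn 𝓘(ℝ, Eu k × Eu l) (𝓡 n) ∞ Φ U' := hΦ.mono Set.inter_subset_left
    refine h1.comp h2 (fun y hy => ?_)
    have := hy.2
    rw [Set.mem_preimage, hsrc, extChartAt_source] at this
    exact this
  have hψs : ContDiffOn ℝ ∞ ψ U' := contMDiffOn_iff_contDiffOn.mp hsm
  have hy0' : y0 ∈ U' := ⟨hy0, by
    rw [Set.mem_preimage, hy0p]; exact mem_extChartAt_source p⟩
  have key : ∀ y ∈ U', ∀ u v, coordMetric g p (ψ y) (fderiv ℝ ψ y u) (fderiv ℝ ψ y v) =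
      G₁ y.1 u.1 v.1 + G₂ y.2 u.2 v.2 := by
    intro y hy u v
    rw [← hiso y hy.1 u v]
    have hys : Φ y ∈ src := hy.2
    have hinv : (extChartAt (𝓡 n) p).symm (ψ y) = Φ y := (extChartAt (𝓡 n) p).left_inv hys
    have hΦd : MDifferentiableAt 𝓘(ℝ, Eu k × Eu l) (𝓡 n) Φ y :=
      (hΦ.contMDiffAt (hUo.mem_nhds hy.1)).mdifferentiableAt (by simp)
    have hed : MDifferentiableAt (𝓡 n) 𝓘(ℝ, Eu n) (extChartAt (𝓡 n) p) (Φ y) := by
      apply mdifferentiableAt_extChartAt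
      rw [← extChartAt_source (𝓡 n)]; exact hys
    have hcomp : mfderiv 𝓘(ℝ, Eu k × Eu l) 𝓘(ℝ, Eu n) ψ y =
        (mfderiv (𝓡 n) 𝓘(ℝ, Eu n) (extChartAt (𝓡 n) p) (Φ y)).comp
          (mfderiv 𝓘(ℝ, Eu k × Eu l) (𝓡 n) Φ y) :=
      mfderiv_comp y hed hΦd
    have hcc := mfderivWithin_extChartAt_symm_comp_mfderiv_extChartAt' (I := 𝓡 n) (x := p) hys
    rw [ModelWithCorners.range_eq_univ, mfderivWithin_univ] at hcc
    have hD : ∀ u : Eu k × Eu l, (mfderiv (𝓡 n) (𝓡 n) (extChartAt (𝓡 n) p).symm (ψ y) : Eu n →L[ℝ] Eu n)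
        (fderiv ℝ ψ y u) = (mfderiv 𝓘(ℝ, Eu k × Eu l) (𝓡 n) Φ y : (Eu k × Eu l) →L[ℝ] Eu n) u := by
      intro u
      rw [← mfderiv_eq_fderiv, hcomp]
      exact congrArg (fun T : Eu n →L[ℝ] Eu n => T
        ((mfderiv 𝓘(ℝ, Eu k × Eu l) (𝓡 n) Φ y : (Eu k × Eu l) →L[ℝ] Eu n) u)) hcc
    let B : M → Eu n →L[ℝ] Eu n →L[ℝ] ℝ := fun q => g q
    change B ((extChartAt (𝓡 n) p).symm (ψ y))
      ((mfderiv (𝓡 n) (𝓡 n) (extChartAt (𝓡 n) p).symm (ψ y) : Eu n →L[ℝ] Eu n) (fderiv ℝ ψ y u))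
      ((mfderiv (𝓡 n) (𝓡 n) (extChartAt (𝓡 n) p).symm (ψ y) : Eu n →L[ℝ] Eu n) (fderiv ℝ ψ y v)) = _
    rw [hD u, hD v, hinv]
    rfl
  obtain ⟨Pr, hPr, hns⟩ := hNat k l n hk hl hkl U₁ U₂ G₁ G₂ U' ψ (coordMetric g p) m1 m2 hU'o
    Set.inter_subset_left hψs hG key y0 hy0'
  have hyp : ψ y0 = extChartAt (𝓡 n) p p := by rw [hψ]; simp only; rw [hy0p]
  rw [hyp] at hPr
  exact hns (hc Pr hPr)

end dec

/-- the answer from the geometric modules -/
theorem target_of (hODE : StODE) (hChart : StChart) (hTan : StTan) (hTop : StTop) (hGm : StGm)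
    (hGlue : StGlue) (hLoc : StLoc) (hNE : StNonEin) (hComm : StComm) (hNat : StNat) : Target := by
  obtain ⟨f, hf⟩ := hODE
  have hCh := hChart
  obtain ⟨c1, c2, c3, c4, c5, c6, c7⟩ := hChart
  obtain ⟨M, iT, iC, iM, hcpt, hT2, hconn, g, X, j, hX, hj, hp⟩ :=
    hGlue 7 WW MS Ix Phi cc Os (Bm f) (VW f) c1 c2 c3 c4 c5 c6 c7 hTop.1 hTop.2
      (fun e => (hGm f hf e).1)
      (fun w _ u v => by
        simp only [Bm, ContinuousLinearMap.add_apply, ContinuousLinearMap.smul_apply, b0, b1, b2,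
          b3, ContinuousLinearMap.bilinearComp_apply, innerSL_apply_apply]
        rw [real_inner_comm (ContinuousLinearMap.fst ℝ HH (ℝ × HH × HH) u), real_inner_comm (prx u),
          real_inner_comm (prp u), real_inner_comm (prz u)])
      (fun e t u hu => (hGm f hf e).2.2.1 t u hu)
      (fun e => (hGm f hf e).2.2.2) (fun e t => (hTan f e t).1)
  have hm : ∀ p : M, ∃ e : Ix, (extChartAt (𝓡 7) p).target = Set.univ ∧
      coordMetric g.inner p = Gm f e ∧ coordField X p = Vm f e ∧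
      Phi e (extChartAt (𝓡 7) p p) = j p := by
    intro p
    obtain ⟨e, h1, h2, h3, h4⟩ := hp p
    exact ⟨e, h1, funext h2, funext h3, h4 p (mem_extChartAt_source p)⟩
  have hne : Nonempty M := hconn.toNonempty
  refine ⟨M, iT, iC, iM, hcpt, hT2, hconn, g, X, hX, ?_, ?_, ?_, ?_⟩
  · intro p y _ u v
    obtain ⟨e, -, h2, h3, -⟩ := hm p
    rw [h2, h3, one_mul]
    exact hLoc f hf e y u v
  · rintro ⟨c, hc⟩
    obtain ⟨p⟩ := hne
    obtain ⟨e, h1, h2, h3, -⟩ := hm p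
    refine hNE f hf e c (fun t u v => ?_)
    have := hc p t (by rw [h1]; trivial) u v
    rw [h2] at this
    exact this
  · intro hK
    obtain ⟨p⟩ := hne
    obtain ⟨U, -, hpU, -, J, -, hJ⟩ := hK p
    exact no_J 7 (by decide) (J (extChartAt (𝓡 7) p p)) (hJ _ hpU).1
  · -- a point with `x = 0`
    let t0 : Eu 7 := WithLp.toLp 2 ![1, 0, 0, 0, 0, 0, 0]
    have hx : (Phi (true, true, true) t0).2.1 = 0 := by
      simp [Phi, Te, Phi0, eta2, sgn, t0]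
    obtain ⟨p, hpj⟩ : ∃ p, j p = Phi (true, true, true) t0 := by
      have : Phi (true, true, true) t0 ∈ Set.range j := by rw [hj]; exact (c1 _ _).1
      exact this
    obtain ⟨e, h1, h2, h3, h4⟩ := hm p
    refine not_dec hNat g.inner p h1 ?_ ?_
    · rw [h2]
      exact ⟨isOpen_univ, (hGm f hf e).1.contDiffOn, fun y _ =>
        ⟨(hGm f hf e).2.1 y, (hGm f hf e).2.2.1 y⟩⟩
    · rw [h2]
      intro Pr hPr
      refine hComm f hf e _ ?_ Pr hPr
      rw [h4, hpj, hx]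

end Pool.Agent.Lib.MP_2795bc_gt.SOL
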