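import Pool.Agent.Lib.MP_2795bc_gt.SOL.GStmts2

set_option autoImplicit false

/-!
# MP_2795bc_gt: the coefficients at `x = 0`
-/

noncomputable section

namespace Pool.Agent.Lib.MP_2795bc_gt.SOL

/-- **Module At0.** -/
theorem stAt0 (hAB : StAB) (hDAB : StDAB) : StAt0 := by
  intro f hf
  have h0 : (0 : ℝ) ∈ Set.Ioo (-1 : ℝ) 1 := by constructor <;> norm_num
  obtain ⟨hs, -, -, a0, a1, a2, -, a4, -, -, b1, b2, -, b4, -, -, -⟩ := hAB f hf 0 h0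
  have hq : ∀ x ∈ Set.Ioo (-1 : ℝ) 1, ∀ a, qf f x a ≠ 0 := fun x hx a =>
    ((hAB f hf x hx).2.1 a).ne'
  obtain ⟨-, -, -, dA4, -, -, dB4, -⟩ := hDAB f hf 0 h0 1 (kap 0) (sp 0) 0 (by norm_num) rfl rfl
    (by norm_num)
  obtain ⟨-, -, hpos, hnu, hal, hga, hpsi, hmain⟩ := hf
  obtain ⟨hb, hc, he, -⟩ := hpos 0 (by constructor <;> norm_num)
  have hga0 : 0 < f.ga 0 := hnu.trans hga
  obtain ⟨s, hsd⟩ : ∃ s, s = sp 0 := ⟨_, rfl⟩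
  obtain ⟨nu, hnud⟩ : ∃ s, s = f.nu 0 := ⟨_, rfl⟩
  obtain ⟨al, hald⟩ : ∃ s, s = f.al 0 := ⟨_, rfl⟩
  obtain ⟨ga, hgad⟩ : ∃ s, s = f.ga 0 := ⟨_, rfl⟩
  obtain ⟨sg, hsgd⟩ : ∃ s, s = f.sg 0 := ⟨_, rfl⟩
  obtain ⟨b, hbd⟩ : ∃ s, s = f.b 0 := ⟨_, rfl⟩
  obtain ⟨c, hcd⟩ : ∃ s, s = f.c 0 := ⟨_, rfl⟩
  obtain ⟨e, hed⟩ : ∃ s, s = f.e 0 := ⟨_, rfl⟩
  simp only [← hsd, ← hnud, ← hald, ← hgad, ← hsgd, ← hbd, ← hcd,
    ← hed] at hs a0 a1 a2 a4 b1 b2 b4 dA4 dB4 hnu hal hga hpsi hmain hb hc he hga0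
  have A0 : Aq f 0 0 = s * nu / 2 := by rw [a0]; ring
  have A1 : Aq f 1 0 = s * nu / 2 := by rw [a1]; ring
  have A2 : Aq f 2 0 = s * al / 2 := by rw [a2]; ring
  have A4 : Aq f 4 0 = s * ga / 2 := by rw [a4]; ring
  have B1 : Bq f 1 0 = nu / (2 * s) := by rw [b1]; field_simp; ring
  have B2 : Bq f 2 0 = 2 * al / (s * b) := b2
  have B4 : Bq f 4 0 = ga / (s * e) := b4
  have D4 : deriv (Aq f 4) 0 = s * (-(s * sg * ga) + 2 * s * e - 2 * s * c) / 2 := by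
    rw [one_mul] at dA4
    rw [dA4]
    ring
  have E4 : deriv (Bq f 4) 0 = (-(s * sg * ga) + 2 * s * e - 2 * s * c) / (s * e)
      - ga * (s * nu - s * ga) / (s * e) := by
    rw [one_mul] at dB4
    rw [dB4]
    ring
  have hpsi' : psi f 0 = (al + 3 / 2 * ga - sg) / (c * s) := by
    rw [psi, ← hsd, ← hald, ← hgad, ← hsgd, ← hcd]
  obtain ⟨m, hm⟩ : ∃ m, m = e - c - sg * ga / 2 - nu * ga / 4 + ga ^ 2 / 4 := ⟨_, rfl⟩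
  rw [← hm] at hmain
  have k1 : deriv (Aq f 4) 0 + Aq f 4 0 ^ 2 - Aq f 0 0 * Aq f 4 0 = s ^ 2 * m := by
    rw [D4, A4, A0, hm]
    ring
  have k2 : -deriv (Bq f 4) 0 - Aq f 0 0 * Bq f 4 0 + Aq f 4 0 * Bq f 4 0 = -(2 * m / e) := by
    rw [E4, A4, A0, B4, hm]
    field_simp
    ring
  refine ⟨?_, ?_, ?_, ?_, ?_, ?_, ?_, ?_, ?_, ?_, hq⟩
  · rw [k1]
    positivity
  · rw [k2, neg_ne_zero]
    positivity
  · rw [A4]
    positivity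
  · rw [A1]
    positivity
  · rw [A2]
    positivity
  · rw [B1]
    positivity
  · rw [B2]
    positivity
  · rw [B4]
    positivity
  · rw [hpsi']
    positivity
  · rw [A1, A4]
    intro h
    have h2 : s * nu = s * ga := by linarith
    exact hga.ne (mul_left_cancel₀ hs.ne' h2)

end Pool.Agent.Lib.MP_2795bc_gt.SOL
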