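import Pool.Agent.Lib.MP_2795bc_gt.SOL.GStmts

/-!
# MP_2795bc_gt: module BB, the metric in terms of the coframe
-/

open scoped Manifold ContDiff Topology Quaternion
open Bundle

noncomputable section

namespace Pool.Agent.Lib.MP_2795bc_gt.SOL

namespace BB

/-! ### Quaternion identities -/

theorem inner_comp (a b : HH) :
    inner ℝ a b = a.re * b.re + a.imI * b.imI + a.imJ * b.imJ + a.imK * b.imK := by
  rw [Quaternion.inner_def]
  simp [Quaternion.re_mul]

theorem normSq_comp (a : HH) :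
    Quaternion.normSq a = a.re ^ 2 + a.imI ^ 2 + a.imJ ^ 2 + a.imK ^ 2 := by
  rw [Quaternion.normSq_def']

theorem inner_self' (a : HH) : inner ℝ a a = Quaternion.normSq a := by
  rw [inner_comp, normSq_comp]; ring

theorem parseval (a u v : HH) : Quaternion.normSq a * inner ℝ u v =
    inner ℝ a u * inner ℝ a v + inner ℝ (a * qi) u * inner ℝ (a * qi) v +
    inner ℝ (a * qj) u * inner ℝ (a * qj) v + inner ℝ (a * qk) u * inner ℝ (a * qk) v := by
  simp only [inner_comp, normSq_comp, Quaternion.re_mul, Quaternion.imI_mul, Quaternion.imJ_mul,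
    Quaternion.imK_mul, qi, qj, qk]
  ring

theorem orth_i (a : HH) : inner ℝ (a * qi) a = 0 := by
  simp only [inner_comp, Quaternion.re_mul, Quaternion.imI_mul, Quaternion.imJ_mul,
    Quaternion.imK_mul, qi]
  ring

theorem orth_j (a : HH) : inner ℝ (a * qj) a = 0 := by
  simp only [inner_comp, Quaternion.re_mul, Quaternion.imI_mul, Quaternion.imJ_mul,
    Quaternion.imK_mul, qj]
  ring

theorem orth_k (a : HH) : inner ℝ (a * qk) a = 0 := by
  simp only [inner_comp, Quaternion.re_mul, Quaternion.imI_mul, Quaternion.imJ_mul,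
    Quaternion.imK_mul, qk]
  ring

theorem key1 (a u : HH) :
    Quaternion.normSq a • (u * qi * star a + a * qi * star u)
      - (2 * inner ℝ a u) • (a * qi * star a) =
    (2 * inner ℝ (a * qk) u) • (a * qj * star a) - (2 * inner ℝ (a * qj) u) • (a * qk * star a) := by
  ext <;>
  · simp only [Quaternion.re_sub, Quaternion.imI_sub, Quaternion.imJ_sub, Quaternion.imK_sub,
      Quaternion.re_add, Quaternion.imI_add, Quaternion.imJ_add, Quaternion.imK_add,
      Quaternion.re_smul, Quaternion.imI_smul, Quaternion.imJ_smul, Quaternion.imK_smul,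
      Quaternion.re_star, Quaternion.imI_star, Quaternion.imJ_star, Quaternion.imK_star,
      Quaternion.re_mul, Quaternion.imI_mul, Quaternion.imJ_mul, Quaternion.imK_mul,
      inner_comp, normSq_comp, qi, qj, qk, smul_eq_mul]
    ring

theorem jj (a : HH) :
    inner ℝ (a * qj * star a) (a * qj * star a) = Quaternion.normSq a ^ 2 := by
  simp only [inner_comp, normSq_comp, Quaternion.re_mul, Quaternion.imI_mul, Quaternion.imJ_mul,
    Quaternion.imK_mul, Quaternion.re_star, Quaternion.imI_star, Quaternion.imJ_star,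
    Quaternion.imK_star, qj]
  ring

theorem kk (a : HH) :
    inner ℝ (a * qk * star a) (a * qk * star a) = Quaternion.normSq a ^ 2 := by
  simp only [inner_comp, normSq_comp, Quaternion.re_mul, Quaternion.imI_mul, Quaternion.imJ_mul,
    Quaternion.imK_mul, Quaternion.re_star, Quaternion.imI_star, Quaternion.imJ_star,
    Quaternion.imK_star, qk]
  ring

theorem jk (a : HH) : inner ℝ (a * qj * star a) (a * qk * star a) = 0 := by
  simp only [inner_comp, Quaternion.re_mul, Quaternion.imI_mul, Quaternion.imJ_mul,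
    Quaternion.imK_mul, Quaternion.re_star, Quaternion.imI_star, Quaternion.imJ_star,
    Quaternion.imK_star, qj, qk]
  ring

theorem key2 (a u v : HH) :
    inner ℝ ((2 * inner ℝ (a * qk) u) • (a * qj * star a)
        - (2 * inner ℝ (a * qj) u) • (a * qk * star a))
      ((2 * inner ℝ (a * qk) v) • (a * qj * star a)
        - (2 * inner ℝ (a * qj) v) • (a * qk * star a)) =
    4 * Quaternion.normSq a ^ 2 * (inner ℝ (a * qj) u * inner ℝ (a * qj) v +
      inner ℝ (a * qk) u * inner ℝ (a * qk) v) := by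
  have h := real_inner_comm (a * qj * star a) (a * qk * star a)
  rw [jk] at h
  simp only [inner_sub_left, inner_sub_right, real_inner_smul_left, real_inner_smul_right, jj, kk,
    jk, h]
  ring

/-- conjugation as a continuous linear map -/
def starL : HH →L[ℝ] HH := LinearMap.toContinuousLinearMap
  { toFun := fun q => star q
    map_add' := fun a b => star_add a b
    map_smul' := fun r q => by
      rw [Quaternion.star_smul]
      rfl }

theorem starL_apply (q : HH) : starL q = star q := rfl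

/-! ### The constraints on the derivative -/

theorem x_sq_lt (e : Ix) {t : Eu 7} (ht : t ∈ Uo) : (Phi e t).2.1 ^ 2 < 1 := by
  have hr : 0 < eta2 t := by
    unfold eta2
    have h1 : 0 < t 0 ^ 2 + t 1 ^ 2 := by
      rcases ht with h | h
      · have := sq_pos_of_ne_zero h
        positivity
      · have := sq_pos_of_ne_zero h
        positivity
    have h2 : 0 < 1 + t 2 ^ 2 + t 3 ^ 2 := by positivity
    exact mul_pos h1 h2
  have h1 : (Phi e t).2.1 = sgn e.1 * ((1 - eta2 t) / (1 + eta2 t)) := rfl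
  have h2 : sgn e.1 ^ 2 = 1 := by
    unfold sgn
    split_ifs <;> norm_num
  rw [h1, mul_pow, h2, one_mul, div_pow, div_lt_one (by positivity)]
  nlinarith

variable {e : Ix} {t : Eu 7}

theorem hasFDeriv (h : StChart) (e : Ix) (t : Eu 7) :
    HasFDerivAt (Phi e) (fderiv ℝ (Phi e) t) t :=
  ((h.2.2.2.2.1 e).differentiable (by simp)).differentiableAt.hasFDerivAt

theorem curve (h : StChart) (e : Ix) (t u : Eu 7) :
    HasDerivAt (fun s : ℝ => Phi e (t + s • u)) (fderiv ℝ (Phi e) t u) 0 := by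
  have h1 : HasDerivAt (fun s : ℝ => t + s • u) u 0 := by
    have := ((hasDerivAt_id (0 : ℝ)).smul_const u).const_add t
    simpa using this
  have h2 := hasFDeriv h e t
  have h3 : t = t + (0 : ℝ) • u := by simp
  rw [h3] at h2
  have h4 := h2.comp_hasDerivAt (0 : ℝ) h1
  rw [← h3] at h4
  exact h4

section constraints

variable (h : StChart) (e : Ix) (t u : Eu 7)

theorem c_xi (h : StChart) (e : Ix) (t u : Eu 7) :
    HasDerivAt (fun s : ℝ => (Phi e (t + s • u)).1) (fderiv ℝ (Phi e) t u).1 0 :=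
  (curve h e t u).fst

theorem c_x (h : StChart) (e : Ix) (t u : Eu 7) :
    HasDerivAt (fun s : ℝ => (Phi e (t + s • u)).2.1) (fderiv ℝ (Phi e) t u).2.1 0 :=
  (curve h e t u).snd.fst

theorem c_p (h : StChart) (e : Ix) (t u : Eu 7) :
    HasDerivAt (fun s : ℝ => (Phi e (t + s • u)).2.2.1) (fderiv ℝ (Phi e) t u).2.2.1 0 :=
  (curve h e t u).snd.snd.fst

theorem c_z (h : StChart) (e : Ix) (t u : Eu 7) :
    HasDerivAt (fun s : ℝ => (Phi e (t + s • u)).2.2.2) (fderiv ℝ (Phi e) t u).2.2.2 0 :=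
  (curve h e t u).snd.snd.snd

theorem con_xi (h : StChart) (e : Ix) (t u : Eu 7) :
    inner ℝ (Phi e t).1 (fderiv ℝ (Phi e) t u).1 =
      -((Phi e t).2.1 * (fderiv ℝ (Phi e) t u).2.1) := by
  have h1 := ((c_xi h e t u).inner ℝ (c_xi h e t u)).add ((c_x h e t u).pow 2)
  have h2 : (fun s : ℝ => inner ℝ (Phi e (t + s • u)).1 (Phi e (t + s • u)).1) +
      (fun s : ℝ => (Phi e (t + s • u)).2.1) ^ 2 = fun _ => (1 : ℝ) := by
    funext s
    have h3 := (h.1 e (t + s • u)).1.1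
    rw [← inner_self'] at h3
    exact h3
  have h4 := h1.unique (by
    have := hasDerivAt_const (0 : ℝ) (1 : ℝ)
    rw [← h2] at this
    exact this)
  simp only [zero_smul, add_zero] at h4
  have h5 := real_inner_comm (Phi e t).1 (fderiv ℝ (Phi e) t u).1
  rw [h5] at h4
  norm_num at h4
  linarith

theorem con_z (h : StChart) (e : Ix) (t u : Eu 7) :
    inner ℝ (Phi e t).2.2.2 (fderiv ℝ (Phi e) t u).2.2.2 = 0 := by
  have h1 := (c_z h e t u).inner ℝ (c_z h e t u)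
  have h2 : (fun s : ℝ => inner ℝ (Phi e (t + s • u)).2.2.2 (Phi e (t + s • u)).2.2.2) =
      fun _ => (1 : ℝ) := by
    funext s
    rw [inner_self']
    exact (h.1 e (t + s • u)).1.2.2.2.2
  rw [h2] at h1
  have h4 := h1.unique (hasDerivAt_const (0 : ℝ) (1 : ℝ))
  simp only [zero_smul, add_zero] at h4
  have h5 := real_inner_comm (Phi e t).2.2.2 (fderiv ℝ (Phi e) t u).2.2.2
  rw [h5] at h4
  linarith

theorem con_p (h : StChart) (e : Ix) (t u : Eu 7) :
    (1 - (Phi e t).2.1 ^ 2) • (fderiv ℝ (Phi e) t u).2.2.1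
      - (2 * (Phi e t).2.1 * (fderiv ℝ (Phi e) t u).2.1) • (Phi e t).2.2.1 =
    (fderiv ℝ (Phi e) t u).1 * qi * star (Phi e t).1 +
      (Phi e t).1 * qi * star (fderiv ℝ (Phi e) t u).1 := by
  have h1 : HasDerivAt (fun s : ℝ => (1 - (Phi e (t + s • u)).2.1 ^ 2) • (Phi e (t + s • u)).2.2.1)
      ((1 - (Phi e t).2.1 ^ 2) • (fderiv ℝ (Phi e) t u).2.2.1
      - (2 * (Phi e t).2.1 * (fderiv ℝ (Phi e) t u).2.1) • (Phi e t).2.2.1) 0 := by
    have h2 := (((c_x h e t u).pow 2).const_sub 1).smul (c_p h e t u)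
    have h3 : ∀ w w' : HH, w = w' → HasDerivAt (fun s : ℝ =>
        (1 - (Phi e (t + s • u)).2.1 ^ 2) • (Phi e (t + s • u)).2.2.1) w 0 →
        HasDerivAt (fun s : ℝ =>
        (1 - (Phi e (t + s • u)).2.1 ^ 2) • (Phi e (t + s • u)).2.2.1) w' 0 := by
      rintro w w' rfl hw; exact hw
    refine h3 _ _ ?_ h2
    simp only [zero_smul, add_zero, Pi.pow_apply, Nat.cast_ofNat, Nat.add_one_sub_one, pow_one]
    rw [neg_smul, ← sub_eq_add_neg]
  have h2 : HasDerivAt (fun s : ℝ => (Phi e (t + s • u)).1 * qi * star (Phi e (t + s • u)).1)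
      ((fderiv ℝ (Phi e) t u).1 * qi * star (Phi e t).1 +
      (Phi e t).1 * qi * star (fderiv ℝ (Phi e) t u).1) 0 := by
    have h3 := HasDerivAt.fun_mul ((c_xi h e t u).mul_const qi)
      (starL.hasFDerivAt.comp_hasDerivAt (0 : ℝ) (c_xi h e t u))
    simp only [zero_smul, add_zero, Function.comp_apply, starL_apply] at h3
    exact h3
  have h3 : (fun s : ℝ => (1 - (Phi e (t + s • u)).2.1 ^ 2) • (Phi e (t + s • u)).2.2.1) =
      fun s : ℝ => (Phi e (t + s • u)).1 * qi * star (Phi e (t + s • u)).1 := by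
    funext s
    exact (h.1 e (t + s • u)).1.2.2.2.1
  rw [h3] at h1
  exact h1.unique h2

end constraints

/-- the derivative of `Fe` -/
theorem fderiv_Fe (h : StChart) (e : Ix) {t : Eu 7} (ht : t ∈ Uo) (u : Eu 7) :
    (fderiv ℝ (Fe e) t u).1 = (fderiv ℝ (Phi e) t u).2.1 ∧
    (fderiv ℝ (Fe e) t u).2.2 = (fderiv ℝ (Phi e) t u).2.2.2 ∧
    ∃ r : ℝ, (fderiv ℝ (Fe e) t u).2.1 =
      (1 / Real.sqrt (1 - (Phi e t).2.1 ^ 2)) • (fderiv ℝ (Phi e) t u).1 + r • (Phi e t).1 := by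
  have hP := hasFDeriv h e t
  have hlt := x_sq_lt e ht
  have hpos : 0 < 1 - (Phi e t).2.1 ^ 2 := by linarith
  have hx : HasFDerivAt (fun y => (Phi e y).2.1) _ t := hP.snd.fst
  have hs : DifferentiableAt ℝ (fun y => 1 / Real.sqrt (1 - (Phi e y).2.1 ^ 2)) t := by
    have h2 : DifferentiableAt ℝ (fun r : ℝ => 1 - r ^ 2) (Phi e t).2.1 := by fun_prop
    have h3 : DifferentiableAt ℝ (fun r : ℝ => Real.sqrt (1 - r ^ 2)) (Phi e t).2.1 :=
      h2.sqrt hpos.ne'
    have h4 : DifferentiableAt ℝ (fun r : ℝ => 1 / Real.sqrt (1 - r ^ 2)) (Phi e t).2.1 :=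
      DifferentiableAt.fun_div (differentiableAt_const 1) h3 (Real.sqrt_ne_zero'.mpr hpos)
    exact DifferentiableAt.comp (g := fun r : ℝ => 1 / Real.sqrt (1 - r ^ 2)) t h4
      hx.differentiableAt
  have hF : HasFDerivAt (Fe e) _ t := hx.prodMk ((hs.hasFDerivAt.smul hP.fst).prodMk hP.snd.snd.snd)
  rw [hF.fderiv]
  refine ⟨rfl, rfl, ⟨_, rfl⟩⟩

end BB

open BB in
/-- Module BB. -/
theorem stBB : StChart → StBB := by
  intro h f e t ht u v _
  have hlt := x_sq_lt e ht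
  obtain ⟨a1, a2, ru, a3⟩ := fderiv_Fe h e ht u
  obtain ⟨b1', b2', rv, b3'⟩ := fderiv_Fe h e ht v
  have hMS := (h.1 e t).1
  obtain ⟨m1, -, -, m4, m5⟩ := hMS
  have cu := con_xi h e t u
  have cv := con_xi h e t v
  have pu := con_p h e t u
  have pv := con_p h e t v
  have zu := con_z h e t u
  have zv := con_z h e t v
  have hG : Gm f e t u v = Bm f (Phi e t) (fderiv ℝ (Phi e) t u) (fderiv ℝ (Phi e) t v) := rfl
  rw [hG]
  set w := Phi e t with hw
  set wu := fderiv ℝ (Phi e) t u with hwu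
  set wv := fderiv ℝ (Phi e) t v with hwv
  have hB : Bm f w wu wv = f.c w.2.1 * inner ℝ wu.1 wv.1 + cx f w.2.1 * (wu.2.1 * wv.2.1) +
      cp f w.2.1 * inner ℝ wu.2.2.1 wv.2.2.1 + cz f w.2.1 * inner ℝ wu.2.2.2 wv.2.2.2 := by
    have h1 : inner ℝ wu.2.1 wv.2.1 = wu.2.1 * wv.2.1 := by
      simp [mul_comm]
    rw [← h1]
    rfl
  have hF1 : (Fe e t).1 = w.2.1 := rfl
  set P := 1 - w.2.1 ^ 2 with hP
  have hPpos : 0 < P := by rw [hP]; linarith
  have hn : Quaternion.normSq w.1 = P := by rw [hP]; linarith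
  have hR2 : (1 / Real.sqrt P) * (1 / Real.sqrt P) = 1 / P := by
    rw [div_mul_div_comm, one_mul, Real.mul_self_sqrt hPpos.le]
  -- the coframe
  have cof_i : ∀ (q : HH) (a : HH) (r : ℝ), inner ℝ (w.1 * q) w.1 = 0 →
      inner ℝ (((1 / Real.sqrt P) • w.1) * q) ((1 / Real.sqrt P) • a + r • w.1) =
        (1 / P) * inner ℝ (w.1 * q) a := by
    intro q a r hq
    rw [smul_mul_assoc, inner_add_right, real_inner_smul_left, real_inner_smul_left,
      real_inner_smul_right, real_inner_smul_right, hq, mul_zero, mul_zero, add_zero, ← mul_assoc,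
      hR2]
  have hcof : ∀ (wa : WW) (ca : QQ) (ra : ℝ), ca.1 = wa.2.1 → ca.2.2 = wa.2.2.2 →
      ca.2.1 = (1 / Real.sqrt P) • wa.1 + ra • w.1 →
      cof (Fe e t) ca 0 = wa.2.1 / P ∧ cof (Fe e t) ca 1 = (1 / P) * inner ℝ (w.1 * qi) wa.1 ∧
      cof (Fe e t) ca 2 = (1 / P) * inner ℝ (w.1 * qj) wa.1 ∧
      cof (Fe e t) ca 3 = (1 / P) * inner ℝ (w.1 * qk) wa.1 ∧
      cof (Fe e t) ca 4 = inner ℝ (w.2.2.2 * qi) wa.2.2.2 ∧
      cof (Fe e t) ca 5 = inner ℝ (w.2.2.2 * qj) wa.2.2.2 ∧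
      cof (Fe e t) ca 6 = inner ℝ (w.2.2.2 * qk) wa.2.2.2 := by
    intro wa ca ra h1 h2 h3
    refine ⟨?_, ?_, ?_, ?_, ?_, ?_, ?_⟩
    · change ca.1 / (1 - w.2.1 ^ 2) = _
      rw [h1]
    · change inner ℝ (((1 / Real.sqrt P) • w.1) * qi) ca.2.1 = _
      rw [h3, cof_i _ _ _ (orth_i _)]
    · change inner ℝ (((1 / Real.sqrt P) • w.1) * qj) ca.2.1 = _
      rw [h3, cof_i _ _ _ (orth_j _)]
    · change inner ℝ (((1 / Real.sqrt P) • w.1) * qk) ca.2.1 = _
      rw [h3, cof_i _ _ _ (orth_k _)]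
    · change inner ℝ (w.2.2.2 * qi) ca.2.2 = _
      rw [h2]
    · change inner ℝ (w.2.2.2 * qj) ca.2.2 = _
      rw [h2]
    · change inner ℝ (w.2.2.2 * qk) ca.2.2 = _
      rw [h2]
  obtain ⟨u0, u1, u2, u3, u4, u5, u6⟩ := hcof wu (fderiv ℝ (Fe e) t u) ru a1 a2 a3
  obtain ⟨v0, v1, v2, v3, v4, v5, v6⟩ := hcof wv (fderiv ℝ (Fe e) t v) rv b1' b2' b3'
  rw [Fin.sum_univ_seven, u0, u1, u2, u3, u4, u5, u6, v0, v1, v2, v3, v4, v5, v6, hF1]
  -- the three inner products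
  have e1 := parseval w.1 wu.1 wv.1
  rw [hn, cu, cv] at e1
  have e2 := parseval w.2.2.2 wu.2.2.2 wv.2.2.2
  rw [m5, zu, zv, one_mul, zero_mul, zero_add] at e2
  have e3 : ∀ (a : WW), inner ℝ w.1 a.1 = -(w.2.1 * a.2.1) →
      P • a.2.2.1 - (2 * w.2.1 * a.2.1) • w.2.2.1 = a.1 * qi * star w.1 + w.1 * qi * star a.1 →
      P ^ 2 • a.2.2.1 = (2 * inner ℝ (w.1 * qk) a.1) • (w.1 * qj * star w.1) -
        (2 * inner ℝ (w.1 * qj) a.1) • (w.1 * qk * star w.1) := by
    intro a h1 h2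
    rw [← key1, hn, ← h2, h1, ← m4]
    module
  have e4 := key2 w.1 wu.1 wv.1
  rw [← e3 wu cu pu, ← e3 wv cv pv, real_inner_smul_left, real_inner_smul_right, hn] at e4
  have hP0 : P ≠ 0 := hPpos.ne'
  have e5 : inner ℝ wu.2.2.1 wv.2.2.1 = 4 * (1 / P ^ 2) *
      (inner ℝ (w.1 * qj) wu.1 * inner ℝ (w.1 * qj) wv.1 +
      inner ℝ (w.1 * qk) wu.1 * inner ℝ (w.1 * qk) wv.1) := by
    field_simp
    have hP4 : P ^ 2 ≠ 0 := pow_ne_zero _ hP0
    apply mul_left_cancel₀ hP4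
    linear_combination e4
  have e6 : inner ℝ wu.1 wv.1 = (1 / P) * ((w.2.1 * wu.2.1) * (w.2.1 * wv.2.1) +
      inner ℝ (w.1 * qi) wu.1 * inner ℝ (w.1 * qi) wv.1 +
      inner ℝ (w.1 * qj) wu.1 * inner ℝ (w.1 * qj) wv.1 +
      inner ℝ (w.1 * qk) wu.1 * inner ℝ (w.1 * qk) wv.1) := by
    field_simp
    linear_combination e1
  rw [hB, e6, e5, e2]
  have q0 : qf f w.2.1 0 = f.c w.2.1 * sp w.2.1 ^ 2 * P := rfl
  have q1 : qf f w.2.1 1 = f.c w.2.1 * P := rfl
  have q2 : qf f w.2.1 2 = 4 * f.c w.2.1 / f.b w.2.1 := rfl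
  have q3 : qf f w.2.1 3 = 4 * f.c w.2.1 / f.b w.2.1 := rfl
  have q4 : qf f w.2.1 4 = 2 * f.c w.2.1 / f.e w.2.1 := rfl
  have q5 : qf f w.2.1 5 = 2 * f.c w.2.1 / f.e w.2.1 := rfl
  have q6 : qf f w.2.1 6 = 2 * f.c w.2.1 / f.e w.2.1 := rfl
  rw [q0, q1, q2, q3, q4, q5, q6]
  have hcz : cz f w.2.1 = 2 * f.c w.2.1 / f.e w.2.1 := rfl
  have hcp : cp f w.2.1 = f.c w.2.1 / f.b w.2.1 - f.c w.2.1 * P / 4 := rfl
  have hcx : cx f w.2.1 = f.c w.2.1 * (1 + kap w.2.1 * (sp w.2.1 + 1)) := rfl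
  have hsp : sp w.2.1 = 1 + P * kap w.2.1 := rfl
  have hx2 : w.2.1 ^ 2 = 1 - P := by rw [hP]; ring
  rw [hcz, hcp, hcx, hsp]
  have hcb : 4 * f.c w.2.1 / f.b w.2.1 = 4 * (f.c w.2.1 / f.b w.2.1) := by ring
  have hce : 2 * f.c w.2.1 / f.e w.2.1 = 2 * (f.c w.2.1 / f.e w.2.1) := by ring
  rw [hcb, hce]
  generalize f.c w.2.1 / f.b w.2.1 = cb
  generalize f.c w.2.1 / f.e w.2.1 = ce
  generalize f.c w.2.1 = c0
  generalize kap w.2.1 = k0
  generalize inner ℝ (w.1 * qi) wu.1 = U1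
  generalize inner ℝ (w.1 * qj) wu.1 = U2
  generalize inner ℝ (w.1 * qk) wu.1 = U3
  generalize inner ℝ (w.1 * qi) wv.1 = V1
  generalize inner ℝ (w.1 * qj) wv.1 = V2
  generalize inner ℝ (w.1 * qk) wv.1 = V3
  generalize inner ℝ (w.2.2.2 * qi) wu.2.2.2 = U4
  generalize inner ℝ (w.2.2.2 * qj) wu.2.2.2 = U5
  generalize inner ℝ (w.2.2.2 * qk) wu.2.2.2 = U6
  generalize inner ℝ (w.2.2.2 * qi) wv.2.2.2 = V4
  generalize inner ℝ (w.2.2.2 * qj) wv.2.2.2 = V5
  generalize inner ℝ (w.2.2.2 * qk) wv.2.2.2 = V6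
  generalize wu.2.1 = u0
  generalize wv.2.1 = v0
  clear_value P
  generalize w.2.1 = x0 at hx2
  have fin : ∀ (P x0 u0 v0 c0 k0 cb ce U1 U2 U3 U4 U5 U6 V1 V2 V3 V4 V5 V6 : ℝ), P ≠ 0 →
      x0 ^ 2 = 1 - P →
      c0 * (1 / P * (x0 * u0 * (x0 * v0) + U1 * V1 + U2 * V2 + U3 * V3)) +
        c0 * (1 + k0 * (1 + P * k0 + 1)) * (u0 * v0) +
        (cb - c0 * P / 4) * (4 * (1 / P ^ 2) * (U2 * V2 + U3 * V3)) +
        2 * ce * (U4 * V4 + U5 * V5 + U6 * V6) =
      c0 * (1 + P * k0) ^ 2 * P * (u0 / P) * (v0 / P) + c0 * P * (1 / P * U1) * (1 / P * V1) +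
        4 * cb * (1 / P * U2) * (1 / P * V2) + 4 * cb * (1 / P * U3) * (1 / P * V3) +
        2 * ce * U4 * V4 + 2 * ce * U5 * V5 + 2 * ce * U6 * V6 := by
    intro P x0 u0 v0 c0 k0 cb ce U1 U2 U3 U4 U5 U6 V1 V2 V3 V4 V5 V6 hP hx
    field_simp
    linear_combination (c0 * P * u0 * v0) * hx
  exact fin _ _ _ _ _ _ _ _ _ _ _ _ _ _ _ _ _ _ _ _ hP0 hx2

end Pool.Agent.Lib.MP_2795bc_gt.SOL
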