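import Pool.Agent.Lib.MP_2795bc_gt.SOL.GStmts2

/-!
# MP_2795bc_gt: the basic parametrisation
-/

open scoped Manifold ContDiff Topology Quaternion
open Bundle

noncomputable section

namespace Pool.Agent.Lib.MP_2795bc_gt.SOL

/-- Module ChA -/
theorem stChA : StChA := by
  intro t
  have hr : eta2 t = (t 0 ^ 2 + t 1 ^ 2) * (1 + t 2 ^ 2 + t 3 ^ 2) := rfl
  have hy : 0 < 1 + t 2 ^ 2 + t 3 ^ 2 := by positivity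
  have hq : 0 < 1 + t 4 ^ 2 + t 5 ^ 2 + t 6 ^ 2 := by positivity
  have hr0 : 0 ≤ eta2 t := by rw [hr]; positivity
  have hr1 : 0 < 1 + eta2 t := by linarith
  have hr1' : 1 + (t 0 ^ 2 + t 1 ^ 2) * (1 + t 2 ^ 2 + t 3 ^ 2) ≠ 0 := by
    rw [← hr]; exact hr1.ne'
  have h2 : 1 + (1 - eta2 t) / (1 + eta2 t) = 2 / (1 + eta2 t) := by
    field_simp
    ring
  have h3 : 1 + 1 / (1 + t 2 ^ 2 + t 3 ^ 2) * (1 - t 2 ^ 2 - t 3 ^ 2) =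
      2 / (1 + t 2 ^ 2 + t 3 ^ 2) := by
    field_simp
    ring
  have h4 : 1 + 1 / (1 + t 4 ^ 2 + t 5 ^ 2 + t 6 ^ 2) * (1 - t 4 ^ 2 - t 5 ^ 2 - t 6 ^ 2) =
      2 / (1 + t 4 ^ 2 + t 5 ^ 2 + t 6 ^ 2) := by
    field_simp
    ring
  have e0 : (Phi0 t).1.re = 2 / (1 + eta2 t) * t 0 := rfl
  have e1 : (Phi0 t).1.imI = 2 / (1 + eta2 t) * t 1 := rfl
  have e1' : (Phi0 t).1.imJ = 2 / (1 + eta2 t) * (t 2 * t 0 + t 3 * t 1) := rfl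
  have e1'' : (Phi0 t).1.imK = 2 / (1 + eta2 t) * (t 3 * t 0 - t 2 * t 1) := rfl
  have e2 : (Phi0 t).2.1 = (1 - eta2 t) / (1 + eta2 t) := rfl
  have e2' : (Phi0 t).2.2.1.re = 1 / (1 + t 2 ^ 2 + t 3 ^ 2) * 0 := rfl
  have e3 : (Phi0 t).2.2.1.imI =
    1 / (1 + t 2 ^ 2 + t 3 ^ 2) * (1 - t 2 ^ 2 - t 3 ^ 2) := rfl
  have e4 : (Phi0 t).2.2.1.imJ = 1 / (1 + t 2 ^ 2 + t 3 ^ 2) * (2 * t 3) := rfl
  have e5 : (Phi0 t).2.2.1.imK = 1 / (1 + t 2 ^ 2 + t 3 ^ 2) * (-(2 * t 2)) := rfl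
  have e6 : (Phi0 t).2.2.2.re = 1 / (1 + t 4 ^ 2 + t 5 ^ 2 + t 6 ^ 2) *
    (1 - t 4 ^ 2 - t 5 ^ 2 - t 6 ^ 2) := rfl
  have e7 : (Phi0 t).2.2.2.imI = 1 / (1 + t 4 ^ 2 + t 5 ^ 2 + t 6 ^ 2) * (2 * t 4) := rfl
  have e8 : (Phi0 t).2.2.2.imJ = 1 / (1 + t 4 ^ 2 + t 5 ^ 2 + t 6 ^ 2) * (2 * t 5) := rfl
  have e9 : (Phi0 t).2.2.2.imK = 1 / (1 + t 4 ^ 2 + t 5 ^ 2 + t 6 ^ 2) * (2 * t 6) := rfl
  have q0 : qi.re = 0 := rfl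
  have q1 : qi.imI = 1 := rfl
  have q2 : qi.imJ = 0 := rfl
  have q3 : qi.imK = 0 := rfl
  refine ⟨⟨?_, ?_, ?_, ?_, ?_⟩, ?_, ?_, ?_, ?_⟩
  · rw [Quaternion.normSq_def', e0, e1, e1', e1'', e2, hr]
    field_simp
    ring
  · rw [e2', mul_zero]
  · rw [Quaternion.normSq_def', e2', e3, e4, e5]
    field_simp
    ring
  · ext <;>
    simp only [Quaternion.re_smul, Quaternion.imI_smul, Quaternion.imJ_smul, Quaternion.imK_smul,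
      smul_eq_mul, Quaternion.re_mul, Quaternion.imI_mul, Quaternion.imJ_mul, Quaternion.imK_mul,
      Quaternion.re_star, Quaternion.imI_star, Quaternion.imJ_star, Quaternion.imK_star,
      e0, e1, e1', e1'', e2, e2', e3, e4, e5, q0, q1, q2, q3, hr] <;>
    field_simp <;> ring
  · rw [Quaternion.normSq_def', e6, e7, e8, e9]
    field_simp
    ring
  · change 0 < 1 + (1 - eta2 t) / (1 + eta2 t)
    rw [h2]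
    positivity
  · change 0 < 1 + 1 / (1 + t 2 ^ 2 + t 3 ^ 2) * (1 - t 2 ^ 2 - t 3 ^ 2)
    rw [h3]
    positivity
  · change 0 < 1 + 1 / (1 + t 4 ^ 2 + t 5 ^ 2 + t 6 ^ 2) * (1 - t 4 ^ 2 - t 5 ^ 2 - t 6 ^ 2)
    rw [h4]
    positivity
  · ext i
    rw [cc0, e0, e1, e2, e3, e4, e5, e6, e7, e8, e9, h2, h3, h4]
    fin_cases i
    · change 2 / (1 + eta2 t) * t 0 / (2 / (1 + eta2 t)) = t 0
      field_simp
    · change 2 / (1 + eta2 t) * t 1 / (2 / (1 + eta2 t)) = t 1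
      field_simp
    · change -(1 / (1 + t 2 ^ 2 + t 3 ^ 2) * (-(2 * t 2)) / (2 / (1 + t 2 ^ 2 + t 3 ^ 2))) = t 2
      field_simp
    · change 1 / (1 + t 2 ^ 2 + t 3 ^ 2) * (2 * t 3) / (2 / (1 + t 2 ^ 2 + t 3 ^ 2)) = t 3
      field_simp
    · change 1 / (1 + t 4 ^ 2 + t 5 ^ 2 + t 6 ^ 2) * (2 * t 4) /
        (2 / (1 + t 4 ^ 2 + t 5 ^ 2 + t 6 ^ 2)) = t 4
      field_simp
    · change 1 / (1 + t 4 ^ 2 + t 5 ^ 2 + t 6 ^ 2) * (2 * t 5) /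
        (2 / (1 + t 4 ^ 2 + t 5 ^ 2 + t 6 ^ 2)) = t 5
      field_simp
    · change 1 / (1 + t 4 ^ 2 + t 5 ^ 2 + t 6 ^ 2) * (2 * t 6) /
        (2 / (1 + t 4 ^ 2 + t 5 ^ 2 + t 6 ^ 2)) = t 6
      field_simp

end Pool.Agent.Lib.MP_2795bc_gt.SOL
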