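import Pool.Agent.Lib.MP_2795bc_gt.SOL.GStmts2

/-!
# MP_2795bc_gt: the inverse of the basic parametrisation
-/

open scoped Manifold ContDiff Topology Quaternion

noncomputable section

namespace Pool.Agent.Lib.MP_2795bc_gt.SOL

namespace ChB

/-- stereographic projection, denominators -/
theorem stereo {c u : ℝ} (hc : 0 < 1 + c) (h : c ^ 2 + u = 1) :
    1 + u / (1 + c) ^ 2 = 2 / (1 + c) := by
  have hc' : (1 + c) ≠ 0 := hc.ne'
  field_simp
  linear_combination h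

theorem xi_comp {P B c u : ℝ} (hP : P ≠ 0 ∨ (c = 0 ∧ u = 0)) (hB : B ≠ 0)
    (h : P * (B * c) = P * u) : u / B = c := by
  rcases hP with hP | ⟨rfl, rfl⟩
  · have h1 := mul_left_cancel₀ hP h
    rw [← h1]
    field_simp
  · simp

end ChB

theorem stChB : StChB := by
  rintro ⟨⟨a, b, c, d⟩, x, ⟨p0, p1, p2, p3⟩, ⟨z0, z1, z2, z3⟩⟩ ⟨h1, h2, h3, h4, h5⟩ hx hp hz
  simp only [Quaternion.normSq_def'] at h1 h3 h5
  simp only at h1 h2 h3 h4 h5 hx hp hz
  subst h2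
  have e1 := congrArg (fun q : HH => q.imI) h4
  have e2 := congrArg (fun q : HH => q.imJ) h4
  have e3 := congrArg (fun q : HH => q.imK) h4
  simp [qi] at e1 e2 e3
  have hA : (1 + x) ≠ 0 := hx.ne'
  have hB : (1 + p1) ≠ 0 := hp.ne'
  have hC : (1 + z0) ≠ 0 := hz.ne'
  obtain ⟨t, ht⟩ : ∃ t : Eu 7, t = cc0 ((⟨a, b, c, d⟩, x, ⟨0, p1, p2, p3⟩, ⟨z0, z1, z2, z3⟩) : WW) :=
    ⟨_, rfl⟩
  have t0 : t 0 = a / (1 + x) := by rw [ht]; rfl
  have t1 : t 1 = b / (1 + x) := by rw [ht]; rfl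
  have t2 : t 2 = -(p3 / (1 + p1)) := by rw [ht]; rfl
  have t3 : t 3 = p2 / (1 + p1) := by rw [ht]; rfl
  have t4 : t 4 = z1 / (1 + z0) := by rw [ht]; rfl
  have t5 : t 5 = z2 / (1 + z0) := by rw [ht]; rfl
  have t6 : t 6 = z3 / (1 + z0) := by rw [ht]; rfl
  rw [← ht]
  -- the denominators
  have k1 : 1 + t 2 ^ 2 + t 3 ^ 2 = 2 / (1 + p1) := by
    rw [← ChB.stereo hp (u := p2 ^ 2 + p3 ^ 2) (by linear_combination h3), t2, t3]
    field_simp
    ring
  have k2 : 1 + t 4 ^ 2 + t 5 ^ 2 + t 6 ^ 2 = 2 / (1 + z0) := by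
    rw [← ChB.stereo hz (u := z1 ^ 2 + z2 ^ 2 + z3 ^ 2) (by linear_combination h5), t4, t5, t6]
    field_simp
    ring
  have hPB : (1 - x ^ 2) * (1 + p1) = 2 * (a ^ 2 + b ^ 2) := by
    linear_combination -h1 + e1
  have k3 : eta2 t = (1 - x) / (1 + x) := by
    have k4 : eta2 t = (t 0 ^ 2 + t 1 ^ 2) * (1 + t 2 ^ 2 + t 3 ^ 2) := rfl
    rw [k4, k1, t0, t1]
    field_simp
    linear_combination -hPB
  have k4 : 1 + eta2 t = 2 / (1 + x) := by
    rw [k3]
    field_simp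
    ring
  have hP : 1 - x ^ 2 ≠ 0 ∨ (a = 0 ∧ b = 0 ∧ c = 0 ∧ d = 0) := by
    by_cases h : 1 - x ^ 2 = 0
    · right
      have h6 : a ^ 2 + b ^ 2 + c ^ 2 + d ^ 2 = 0 := by linear_combination h1 + h
      have ha := sq_nonneg a
      have hb := sq_nonneg b
      have hc := sq_nonneg c
      have hd := sq_nonneg d
      refine ⟨?_, ?_, ?_, ?_⟩
      all_goals refine pow_eq_zero_iff (two_ne_zero) |>.1 ?_
      all_goals linarith
    · exact Or.inl h
  refine Prod.ext ?_ (Prod.ext ?_ (Prod.ext ?_ ?_))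
  · have k5 : 2 / (1 + eta2 t) = 1 + x := by
      rw [k4]
      field_simp
    change (2 / (1 + eta2 t)) • eta t = _
    rw [k5]
    ext
    · change (1 + x) * t 0 = a
      rw [t0]
      field_simp
    · change (1 + x) * t 1 = b
      rw [t1]
      field_simp
    · change (1 + x) * (t 2 * t 0 + t 3 * t 1) = c
      have k6 : (1 + x) * (t 2 * t 0 + t 3 * t 1) = (-(p3 * a) + p2 * b) / (1 + p1) := by
        rw [t0, t1, t2, t3]
        field_simp
      rw [k6]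
      refine ChB.xi_comp (P := 1 - x ^ 2) ?_ hB ?_
      · rcases hP with hP | ⟨rfl, rfl, rfl, rfl⟩
        · exact Or.inl hP
        · right
          simp
      · linear_combination c * hPB + a * e3 - b * e2
    · change (1 + x) * (t 3 * t 0 - t 2 * t 1) = d
      have k6 : (1 + x) * (t 3 * t 0 - t 2 * t 1) = (p2 * a + p3 * b) / (1 + p1) := by
        rw [t0, t1, t2, t3]
        field_simp
        ring
      rw [k6]
      refine ChB.xi_comp (P := 1 - x ^ 2) ?_ hB ?_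
      · rcases hP with hP | ⟨rfl, rfl, rfl, rfl⟩
        · exact Or.inl hP
        · right
          simp
      · linear_combination d * hPB - a * e2 - b * e3
  · change (1 - eta2 t) / (1 + eta2 t) = x
    rw [k4, k3]
    field_simp
    ring
  · change (1 / (1 + t 2 ^ 2 + t 3 ^ 2)) •
      (⟨0, 1 - t 2 ^ 2 - t 3 ^ 2, 2 * t 3, -(2 * t 2)⟩ : HH) = ⟨0, p1, p2, p3⟩
    have k7 : 1 / (1 + t 2 ^ 2 + t 3 ^ 2) = (1 + p1) / 2 := by
      rw [k1]
      field_simp
    have k8 : 1 - t 2 ^ 2 - t 3 ^ 2 = 2 - 2 / (1 + p1) := by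
      rw [← k1]
      ring
    rw [k7, k8]
    ext
    · change (1 + p1) / 2 * 0 = 0
      ring
    · change (1 + p1) / 2 * (2 - 2 / (1 + p1)) = p1
      field_simp
      ring
    · change (1 + p1) / 2 * (2 * t 3) = p2
      rw [t3]
      field_simp
    · change (1 + p1) / 2 * (-(2 * t 2)) = p3
      rw [t2]
      field_simp
  · change (1 / (1 + t 4 ^ 2 + t 5 ^ 2 + t 6 ^ 2)) •
      (⟨1 - t 4 ^ 2 - t 5 ^ 2 - t 6 ^ 2, 2 * t 4, 2 * t 5, 2 * t 6⟩ : HH) = ⟨z0, z1, z2, z3⟩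
    have k7 : 1 / (1 + t 4 ^ 2 + t 5 ^ 2 + t 6 ^ 2) = (1 + z0) / 2 := by
      rw [k2]
      field_simp
    have k8 : 1 - t 4 ^ 2 - t 5 ^ 2 - t 6 ^ 2 = 2 - 2 / (1 + z0) := by
      rw [← k2]
      ring
    rw [k7, k8]
    ext
    · change (1 + z0) / 2 * (2 - 2 / (1 + z0)) = z0
      field_simp
      ring
    · change (1 + z0) / 2 * (2 * t 4) = z1
      rw [t4]
      field_simp
    · change (1 + z0) / 2 * (2 * t 5) = z2
      rw [t5]
      field_simp
    · change (1 + z0) / 2 * (2 * t 6) = z3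
      rw [t6]
      field_simp

end Pool.Agent.Lib.MP_2795bc_gt.SOL
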