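import Pool.Agent.Lib.MP_2795bc_gt.SOL.GStmts2

/-!
# MP_2795bc_gt: smoothness of the basic chart and of its inverse
-/

open scoped Manifold ContDiff Topology Quaternion
open Bundle

set_option autoImplicit false

noncomputable section

namespace Pool.Agent.Lib.MP_2795bc_gt.SOL

namespace ChCAux

variable {E : Type*} [NormedAddCommGroup E] [NormedSpace ℝ E]

theorem mk_eq (a b c d : ℝ) : (⟨a, b, c, d⟩ : HH) = a • (1 : HH) + b • qi + c • qj + d • qk := by
  ext <;> simp [qi, qj, qk]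

theorem contDiff_mk {f0 f1 f2 f3 : E → ℝ} (h0 : ContDiff ℝ ∞ f0) (h1 : ContDiff ℝ ∞ f1)
    (h2 : ContDiff ℝ ∞ f2) (h3 : ContDiff ℝ ∞ f3) :
    ContDiff (F := HH) ℝ ∞ (fun t => (⟨f0 t, f1 t, f2 t, f3 t⟩ : HH)) := by
  have e : (fun t => (⟨f0 t, f1 t, f2 t, f3 t⟩ : HH)) =
      fun t => f0 t • (1 : HH) + f1 t • qi + f2 t • qj + f3 t • qk := by
    funext t
    exact mk_eq _ _ _ _
  rw [e]
  exact (((h0.smul contDiff_const).add (h1.smul contDiff_const)).add
    (h2.smul contDiff_const)).add (h3.smul contDiff_const)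

theorem contDiff_re : ContDiff ℝ ∞ (fun q : HH => q.re) :=
  (LinearMap.toContinuousLinearMap
    ({ toFun := fun q => q.re, map_add' := fun _ _ => rfl, map_smul' := fun _ _ => rfl } :
      HH →ₗ[ℝ] ℝ)).contDiff

theorem contDiff_imI : ContDiff ℝ ∞ (fun q : HH => q.imI) :=
  (LinearMap.toContinuousLinearMap
    ({ toFun := fun q => q.imI, map_add' := fun _ _ => rfl, map_smul' := fun _ _ => rfl } :
      HH →ₗ[ℝ] ℝ)).contDiff

theorem contDiff_imJ : ContDiff ℝ ∞ (fun q : HH => q.imJ) :=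
  (LinearMap.toContinuousLinearMap
    ({ toFun := fun q => q.imJ, map_add' := fun _ _ => rfl, map_smul' := fun _ _ => rfl } :
      HH →ₗ[ℝ] ℝ)).contDiff

theorem contDiff_imK : ContDiff ℝ ∞ (fun q : HH => q.imK) :=
  (LinearMap.toContinuousLinearMap
    ({ toFun := fun q => q.imK, map_add' := fun _ _ => rfl, map_smul' := fun _ _ => rfl } :
      HH →ₗ[ℝ] ℝ)).contDiff

theorem contDiff_coord {n : ℕ} (i : Fin n) : ContDiff ℝ ∞ (fun t : Eu n => t i) :=
  (EuclideanSpace.proj (𝕜 := ℝ) i).contDiff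

theorem eta2_nonneg (t : Eu 7) : 0 ≤ eta2 t := by
  unfold eta2
  positivity

end ChCAux

open ChCAux

/-- smoothness -/
theorem stChC : StChC := by
  have hc := fun i : Fin 7 => contDiff_coord i
  refine ⟨?_, ?_⟩
  · have he2 : ContDiff ℝ ∞ eta2 :=
      (((hc 0).pow 2).add ((hc 1).pow 2)).mul ((contDiff_const.add ((hc 2).pow 2)).add
        ((hc 3).pow 2))
    have he : ContDiff ℝ ∞ eta := contDiff_mk (hc 0) (hc 1)
      (((hc 2).mul (hc 0)).add ((hc 3).mul (hc 1))) (((hc 3).mul (hc 0)).sub ((hc 2).mul (hc 1)))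
    have hd : ContDiff ℝ ∞ (fun t : Eu 7 => 1 + eta2 t) := contDiff_const.add he2
    have hd0 : ∀ t : Eu 7, 1 + eta2 t ≠ 0 := fun t => by
      have := eta2_nonneg t
      positivity
    have h2 : ContDiff ℝ ∞ (fun t : Eu 7 => 1 + t 2 ^ 2 + t 3 ^ 2) :=
      (contDiff_const.add ((hc 2).pow 2)).add ((hc 3).pow 2)
    have h20 : ∀ t : Eu 7, 1 + t 2 ^ 2 + t 3 ^ 2 ≠ 0 := fun t => by positivity
    have h3 : ContDiff ℝ ∞ (fun t : Eu 7 => 1 + t 4 ^ 2 + t 5 ^ 2 + t 6 ^ 2) :=
      ((contDiff_const.add ((hc 4).pow 2)).add ((hc 5).pow 2)).add ((hc 6).pow 2)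
    have h30 : ∀ t : Eu 7, 1 + t 4 ^ 2 + t 5 ^ 2 + t 6 ^ 2 ≠ 0 := fun t => by positivity
    refine ((contDiff_const.div hd hd0).smul he).prodMk
      (((contDiff_const.sub he2).div hd hd0).prodMk
        (((contDiff_const.div h2 h20).smul (contDiff_mk contDiff_const
          ((contDiff_const.sub ((hc 2).pow 2)).sub ((hc 3).pow 2)) (contDiff_const.mul (hc 3))
            (contDiff_const.mul (hc 2)).neg)).prodMk
          ((contDiff_const.div h3 h30).smul (contDiff_mk
            (((contDiff_const.sub ((hc 4).pow 2)).sub ((hc 5).pow 2)).sub ((hc 6).pow 2))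
            (contDiff_const.mul (hc 4)) (contDiff_const.mul (hc 5))
            (contDiff_const.mul (hc 6))))))
  · have hxi : ContDiff ℝ ∞ (fun w : WW => w.1) := contDiff_fst
    have hx : ContDiff ℝ ∞ (fun w : WW => w.2.1) := contDiff_fst.comp contDiff_snd
    have hp : ContDiff ℝ ∞ (fun w : WW => w.2.2.1) :=
      contDiff_fst.comp (contDiff_snd.comp contDiff_snd)
    have hz : ContDiff ℝ ∞ (fun w : WW => w.2.2.2) :=
      contDiff_snd.comp (contDiff_snd.comp contDiff_snd)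
    have d1 : ContDiff ℝ ∞ (fun w : WW => 1 + w.2.1) := contDiff_const.add hx
    have d2 : ContDiff ℝ ∞ (fun w : WW => 1 + w.2.2.1.imI) :=
      contDiff_const.add (contDiff_imI.comp hp)
    have d3 : ContDiff ℝ ∞ (fun w : WW => 1 + w.2.2.2.re) :=
      contDiff_const.add (contDiff_re.comp hz)
    rw [contDiffOn_euclidean]
    intro i
    fin_cases i
    · exact (contDiff_re.comp hxi).contDiffOn.div d1.contDiffOn fun w hw => hw.1.ne'
    · exact (contDiff_imI.comp hxi).contDiffOn.div d1.contDiffOn fun w hw => hw.1.ne'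
    · exact ((contDiff_imK.comp hp).contDiffOn.div d2.contDiffOn fun w hw => hw.2.1.ne').neg
    · exact (contDiff_imJ.comp hp).contDiffOn.div d2.contDiffOn fun w hw => hw.2.1.ne'
    · exact (contDiff_imI.comp hz).contDiffOn.div d3.contDiffOn fun w hw => hw.2.2.ne'
    · exact (contDiff_imJ.comp hz).contDiffOn.div d3.contDiffOn fun w hw => hw.2.2.ne'
    · exact (contDiff_imK.comp hz).contDiffOn.div d3.contDiffOn fun w hw => hw.2.2.ne'

end Pool.Agent.Lib.MP_2795bc_gt.SOL
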