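import Pool.Agent.Lib.MP_2795bc_gt.SOL.GStmts2

/-!
# MP_2795bc_gt: the symmetries of the manifold
-/

open scoped Manifold ContDiff Topology Quaternion
open Bundle

noncomputable section

namespace Pool.Agent.Lib.MP_2795bc_gt.SOL

namespace ChDAux

theorem sgn_mul (b : Bool) : sgn b * sgn b = 1 := by
  cases b <;> norm_num [sgn]

theorem kq_mul (b : Bool) : kq b * star (kq b) = 1 ∧ star (kq b) * kq b = 1 := by
  cases b
  · constructor <;> ext <;> simp [kq, qj]
  · simp [kq]

theorem normSq_kq (b : Bool) : Quaternion.normSq (kq b) = 1 ∧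
    Quaternion.normSq (star (kq b)) = 1 := by
  cases b
  · constructor <;> simp [kq, qj, Quaternion.normSq_def']
  · simp [kq]

theorem kq_i (b : Bool) : kq b * qi * star (kq b) = sgn b • qi ∧
    star (kq b) * qi * kq b = sgn b • qi := by
  cases b
  · constructor <;> ext <;> simp [kq, qi, qj, sgn]
  · simp [kq, sgn]

theorem mem_aux {w : WW} (hw : w ∈ MS) {k : HH} {s1 s2 s3 : ℝ} (h1 : s1 * s1 = 1)
    (h2 : s2 * s2 = 1) (h3 : s3 * s3 = 1) (hk : Quaternion.normSq k = 1)
    (hki : k * qi * star k = s2 • qi) :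
    ((w.1 * k, s1 * w.2.1, s2 • w.2.2.1, s3 • w.2.2.2) : WW) ∈ MS := by
  obtain ⟨a1, a2, a3, a4, a5⟩ := hw
  have e1 : (s1 * w.2.1) ^ 2 = w.2.1 ^ 2 := by
    rw [mul_pow, pow_two s1, h1, one_mul]
  refine ⟨?_, ?_, ?_, ?_, ?_⟩
  · change Quaternion.normSq (w.1 * k) + (s1 * w.2.1) ^ 2 = 1
    rw [map_mul, hk, mul_one, e1, a1]
  · change (s2 • w.2.2.1).re = 0
    rw [Quaternion.re_smul, a2, smul_zero]
  · change Quaternion.normSq (s2 • w.2.2.1) = 1
    rw [Quaternion.normSq_smul, a3, mul_one, pow_two, h2]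
  · change (1 - (s1 * w.2.1) ^ 2) • s2 • w.2.2.1 = w.1 * k * qi * star (w.1 * k)
    rw [e1, smul_comm, a4, star_mul]
    calc s2 • (w.1 * qi * star w.1) = w.1 * (s2 • qi) * star w.1 := by
          rw [mul_smul_comm, smul_mul_assoc]
      _ = w.1 * k * qi * (star k * star w.1) := by
          rw [← hki]
          simp only [mul_assoc]
  · change Quaternion.normSq (s3 • w.2.2.2) = 1
    rw [Quaternion.normSq_smul, a5, mul_one, pow_two, h3]

theorem smooth_aux (k : HH) (s1 s2 s3 : ℝ) :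
    ContDiff ℝ ∞ fun w : WW => ((w.1 * k, s1 * w.2.1, s2 • w.2.2.1, s3 • w.2.2.2) : WW) := by
  have f1 : ContDiff ℝ ∞ fun w : WW => w.1 := contDiff_fst
  have f2 : ContDiff ℝ ∞ fun w : WW => w.2.1 := contDiff_fst.comp contDiff_snd
  have f3 : ContDiff ℝ ∞ fun w : WW => w.2.2.1 := contDiff_fst.comp (contDiff_snd.comp contDiff_snd)
  have f4 : ContDiff ℝ ∞ fun w : WW => w.2.2.2 := contDiff_snd.comp (contDiff_snd.comp contDiff_snd)
  exact (f1.mul contDiff_const).prodMk ((contDiff_const.mul f2).prodMk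
    ((f3.const_smul s2).prodMk (f4.const_smul s3)))

theorem exists_sgn (x : ℝ) : ∃ b : Bool, 0 < 1 + sgn b * x := by
  rcases le_total 0 x with h | h
  · exact ⟨true, by simp only [sgn, if_true]; linarith⟩
  · exact ⟨false, by simp [sgn]; linarith⟩

end ChDAux

open ChDAux

theorem stChD : StChD := by
  refine ⟨fun e w hw => ⟨?_, ?_⟩, fun e w => ⟨?_, ?_⟩, fun e w => ?_, fun e => ?_, fun e => ?_,
    fun w _ => ?_, fun e => ?_⟩
  · exact mem_aux hw (sgn_mul _) (sgn_mul _) (sgn_mul _) (normSq_kq _).1 (kq_i _).1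
  · exact mem_aux hw (sgn_mul _) (sgn_mul _) (sgn_mul _) (normSq_kq _).2
      (by rw [star_star]; exact (kq_i _).2)
  · obtain ⟨a, b, c, d⟩ := w
    simp only [Te, Tei, mul_assoc, (kq_mul _).2, mul_one, ← mul_assoc (sgn _), sgn_mul, one_mul,
      smul_smul, one_smul]
  · obtain ⟨a, b, c, d⟩ := w
    simp only [Te, Tei, mul_assoc, (kq_mul _).1, mul_one, ← mul_assoc (sgn _), sgn_mul, one_mul,
      smul_smul, one_smul]
  · simp only [Os, Os0, Tei, Set.mem_ofPred_eq, Quaternion.imI_smul, Quaternion.re_smul,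
      smul_eq_mul]
  · exact smooth_aux _ _ _ _
  · exact smooth_aux _ _ _ _
  · obtain ⟨a, ha⟩ := exists_sgn w.2.1
    obtain ⟨b, hb⟩ := exists_sgn w.2.2.1.imI
    obtain ⟨c, hc⟩ := exists_sgn w.2.2.2.re
    exact ⟨(a, b, c), ha, hb, hc⟩
  · have g1 : Continuous fun w : WW => 1 + sgn e.1 * w.2.1 := by fun_prop
    have g2 : Continuous fun w : WW => 1 + sgn e.2.1 * w.2.2.1.imI :=
      continuous_const.add (continuous_const.mul (Quaternion.continuous_imI.comp (by fun_prop)))
    have g3 : Continuous fun w : WW => 1 + sgn e.2.2 * w.2.2.2.re :=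
      continuous_const.add (continuous_const.mul (Quaternion.continuous_re.comp (by fun_prop)))
    exact (isOpen_lt continuous_const g1).inter
      ((isOpen_lt continuous_const g2).inter (isOpen_lt continuous_const g3))

end Pool.Agent.Lib.MP_2795bc_gt.SOL
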