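import Pool.Agent.Lib.MP_2795bc_gt.SOL.GStmts2

/-!
# MP_2795bc_gt: the eight parametrisations are charts
-/

set_option autoImplicit false

open scoped Manifold ContDiff Topology Quaternion
open Bundle

noncomputable section

namespace Pool.Agent.Lib.MP_2795bc_gt.SOL

theorem stChart : StChA → StChB → StChC → StChD → StChart := by
  rintro hA hB ⟨hC1, hC2⟩ ⟨hD1, hD2, hD3, hD4, hD5, hD6, hD7⟩
  have h0 : ∀ t, Phi0 t ∈ Os0 := fun t => ⟨(hA t).2.1, (hA t).2.2.1, (hA t).2.2.2.1⟩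
  refine ⟨fun e t => ⟨(hD1 e _ (hA t).1).1, ?_⟩, fun e t => ?_, fun e w hw hwe => ?_, hD6,
    fun e => (hD4 e).comp hC1, hD7, fun e => ?_⟩
  · rw [hD3]
    show Tei e (Te e (Phi0 t)) ∈ Os0
    rw [(hD2 e _).2]
    exact h0 t
  · show cc0 (Tei e (Te e (Phi0 t))) = t
    rw [(hD2 e _).2]
    exact (hA t).2.2.2.2
  · have h1 : Tei e w ∈ Os0 := (hD3 e w).1 hwe
    show Te e (Phi0 (cc0 (Tei e w))) = w
    rw [hB _ (hD1 e w hw).2 h1.1 h1.2.1 h1.2.2, (hD2 e w).1]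
  · exact hC2.comp (hD5 e).contDiffOn fun w hw => (hD3 e w).1 hw

end Pool.Agent.Lib.MP_2795bc_gt.SOL
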