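import Pool.Agent.Lib.MP_2795bc_gt.SOL.GStmts

set_option autoImplicit false

/-!
# MP_2795bc_gt: only scalars commute with the curvature at points with `x = 0`
-/

open scoped Manifold ContDiff Topology Quaternion
open Bundle

noncomputable section

namespace Pool.Agent.Lib.MP_2795bc_gt.SOL

namespace CommAux

section alg

variable {V : Type} [AddCommGroup V] [Module ℝ V]

/-- a linear map from one identity -/
def mkL (F : V → V) (h : ∀ (r : ℝ) (w w' : V), F (r • w + w') = r • F w + F w') : V →ₗ[ℝ] V where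
  toFun := F
  map_add' := fun w w' => by
    have := h 1 w w'
    rwa [one_smul, one_smul] at this
  map_smul' := fun r w => by
    have h0 : F 0 = 0 := by
      have := h 1 0 0
      rw [one_smul, one_smul, add_zero] at this
      exact left_eq_add.1 this
    have := h r w 0
    rw [add_zero, h0, add_zero] at this
    exact this

theorem span_apply {X : Fin 7 → V} {co : Fin 7 → V →ₗ[ℝ] ℝ} (hco : ∀ u, u = ∑ a, co a u • X a)
    (T : V →ₗ[ℝ] V) (w : V) : T w = ∑ a, co a w • T (X a) := by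
  conv_lhs => rw [hco w]
  rw [map_sum]
  exact Finset.sum_congr rfl fun a _ => map_smul _ _ _

theorem alg (X : Fin 7 → V) (co : Fin 7 → V →ₗ[ℝ] ℝ) (hco : ∀ u, u = ∑ a, co a u • X a)
    (hX : ∀ a b, co a (X b) = if a = b then 1 else 0) (Pr : V →ₗ[ℝ] V)
    (L : Fin 7 → Fin 7 → V →ₗ[ℝ] V) (r r' : Fin 7 → Fin 7 → ℝ)
    (h : ∀ a i : Fin 7, a ≤ 3 → 3 < i → r a i ≠ 0 ∧ r' a i ≠ 0 ∧ L a i (X a) = r a i • X i ∧
      L a i (X i) = r' a i • X a ∧ (∀ c, c ≠ a → c ≠ i → L a i (X c) = 0) ∧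
      ∀ w, Pr (L a i w) = L a i (Pr w)) : ∃ μ : ℝ, ∀ u, Pr u = μ • u := by
  -- the form of `L a i`
  have hL : ∀ a i : Fin 7, a ≤ 3 → 3 < i → ∀ w,
      L a i w = (co a w * r a i) • X i + (co i w * r' a i) • X a := by
    intro a i ha hi w
    obtain ⟨-, -, h3, h4, h5, -⟩ := h a i ha hi
    have hne : a ≠ i := fun h => absurd (h ▸ ha) (not_le.2 hi)
    rw [span_apply hco (L a i) w, Finset.sum_eq_add a i hne (fun c _ hc => by
      rw [h5 c hc.1 hc.2, smul_zero]) (fun h => absurd (Finset.mem_univ _) h)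
      (fun h => absurd (Finset.mem_univ _) h), h3, h4, smul_smul, smul_smul]
  -- coefficients of `Pr (X i)`
  have hP : ∀ a i : Fin 7, a ≤ 3 → 3 < i → ∀ c,
      r a i * co c (Pr (X i)) = (co a (Pr (X a)) * r a i) * (if c = i then 1 else 0) +
        (co i (Pr (X a)) * r' a i) * (if c = a then 1 else 0) := by
    intro a i ha hi c
    obtain ⟨-, -, h3, -, -, h6⟩ := h a i ha hi
    have e := h6 (X a)
    rw [h3, hL a i ha hi, map_smul] at e
    have e2 := congrArg (co c) e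
    rw [map_smul, map_add, map_smul, map_smul, hX, hX, smul_eq_mul, smul_eq_mul, smul_eq_mul] at e2
    exact e2
  set μ : ℝ := co 0 (Pr (X 0)) with hμ
  have hi : ∀ i : Fin 7, 3 < i → Pr (X i) = μ • X i := by
    intro i hi
    have hc : ∀ c, co c (Pr (X i)) = if c = i then μ else 0 := by
      intro c
      by_cases hci : c = i
      · subst hci
        have h0 : (0 : Fin 7) ≤ 3 := by decide
        have hne : c ≠ 0 := fun h => absurd (h ▸ hi) (by decide)
        have e := hP 0 c h0 hi c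
        rw [if_pos rfl, if_neg hne, mul_one, mul_zero, add_zero, mul_comm] at e
        rw [if_pos rfl]
        exact mul_right_cancel₀ (h 0 c h0 hi).1 e
      · rw [if_neg hci]
        obtain ⟨a, ha, hca⟩ : ∃ a : Fin 7, a ≤ 3 ∧ c ≠ a := by
          by_cases h0 : c = 0
          · exact ⟨1, by decide, by rw [h0]; decide⟩
          · exact ⟨0, by decide, h0⟩
        have e := hP a i ha hi c
        rw [if_neg hci, if_neg hca, mul_zero, mul_zero, add_zero] at e
        exact (mul_eq_zero.1 e).resolve_left (h a i ha hi).1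
    rw [hco (Pr (X i))]
    simp only [hc]
    rw [Finset.sum_eq_single i (fun c _ hc => by rw [if_neg hc, zero_smul])
      (fun h => absurd (Finset.mem_univ _) h), if_pos rfl]
  have ha : ∀ a : Fin 7, a ≤ 3 → Pr (X a) = μ • X a := by
    intro a ha
    have h4 : (3 : Fin 7) < 4 := by decide
    obtain ⟨-, h2, -, h5, -, h6⟩ := h a 4 ha h4
    have e := h6 (X 4)
    rw [h5, hi 4 h4, map_smul, map_smul, h5, smul_comm μ] at e
    exact smul_right_injective V h2 e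
  refine ⟨μ, fun u => ?_⟩
  have hall : ∀ c, Pr (X c) = μ • X c := fun c => by
    rcases le_or_gt c 3 with hc | hc
    · exact ha c hc
    · exact hi c hc
  rw [span_apply hco Pr u]
  conv_rhs => rw [hco u]
  rw [Finset.smul_sum]
  exact Finset.sum_congr rfl fun c _ => by rw [hall c, smul_comm]

end alg

theorem mem_Uo {e : Ix} {t : Eu 7} (h : (Phi e t).2.1 = 0) : t ∈ Uo := by
  by_contra hn
  have hn' : t 0 = 0 ∧ t 1 = 0 := by
    constructor
    · by_contra h0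
      exact hn (Or.inl h0)
    · by_contra h1
      exact hn (Or.inr h1)
  have h2 : eta2 t = 0 := by
    unfold eta2
    rw [hn'.1, hn'.2]
    ring
  have h3 : (Phi e t).2.1 = sgn e.1 * ((1 - eta2 t) / (1 + eta2 t)) := rfl
  rw [h3, h2] at h
  unfold sgn at h
  split_ifs at h <;> norm_num at h

end CommAux

open CommAux

theorem stComm (h1 : StCurv) (h2 : StTabMix) (h3 : StAt0) (h4 : StReg) (h5 : StGm) : StComm := by
  intro f hf e t hx Pr hPr
  have ht : t ∈ Uo := mem_Uo hx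
  obtain ⟨X, -, hX⟩ := h1 f hf e
  obtain ⟨o1, o2, -, -, -, o3⟩ := hX t ht
  have o3 := o3.1
  obtain ⟨g1, g2, g3, -⟩ := h5 f hf e
  have hM : IsMetricOn (Gm f e) Set.univ :=
    ⟨isOpen_univ, g1.contDiffOn, fun y _ => ⟨g2 y, g3 y⟩⟩
  obtain ⟨-, -, -, -, -, -, -, -, -, hlin, -, -⟩ := h4 7 (Gm f e) Set.univ hM
  have hlin := hlin t (Set.mem_univ t)
  obtain ⟨c1, c2, c3, c4, c5, c6, c7, c8, -, -, hq⟩ := h3 f hf
  simp only [hx] at o1 o3
  have hq0 : ∀ a, qf f 0 a ≠ 0 := hq 0 (by norm_num)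
  -- the coordinates
  set co : Fin 7 → Eu 7 →ₗ[ℝ] ℝ := fun a =>
    (qf f 0 a)⁻¹ • ((Gm f e t (X a t) : Eu 7 →L[ℝ] ℝ) : Eu 7 →ₗ[ℝ] ℝ) with hcodef
  have hcoX : ∀ a b, co a (X b t) = if a = b then 1 else 0 := by
    intro a b
    have : co a (X b t) = (qf f 0 a)⁻¹ * Gm f e t (X a t) (X b t) := rfl
    rw [this, o1]
    split_ifs
    · exact inv_mul_cancel₀ (hq0 a)
    · exact mul_zero _
  have hco : ∀ u, u = ∑ a, co a u • X a t := by
    intro u
    obtain ⟨r, hr⟩ := o2 u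
    have : ∀ a, co a u = r a := by
      intro a
      rw [hr, map_sum]
      simp only [map_smul, hcoX, smul_eq_mul, mul_ite, mul_one, mul_zero]
      rw [Finset.sum_ite_eq, if_pos (Finset.mem_univ _)]
    simp only [this]
    exact hr
  -- the curvature operators
  refine alg (fun a => X a t) co hco hcoX Pr
    (fun a i => mkL (fun w => riem (Gm f e) t (X a t) (X i t) w)
      fun r w w' => hlin r (X a t) (X i t) w w')
    (fun a i => RT (Aq f 0 0) (Aq f 1 0) (Aq f 2 0) (Aq f 4 0) (Bq f 1 0) (Bq f 2 0) (Bq f 4 0)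
      (tq f 0) ((1 - 0 ^ 2) * deriv (Aq f 0) 0) ((1 - 0 ^ 2) * deriv (Aq f 1) 0)
      ((1 - 0 ^ 2) * deriv (Aq f 2) 0) ((1 - 0 ^ 2) * deriv (Aq f 4) 0)
      ((1 - 0 ^ 2) * deriv (Bq f 1) 0) ((1 - 0 ^ 2) * deriv (Bq f 2) 0)
      ((1 - 0 ^ 2) * deriv (Bq f 4) 0) ((1 - 0 ^ 2) * deriv (tq f) 0) a i a i)
    (fun a i => RT (Aq f 0 0) (Aq f 1 0) (Aq f 2 0) (Aq f 4 0) (Bq f 1 0) (Bq f 2 0) (Bq f 4 0)
      (tq f 0) ((1 - 0 ^ 2) * deriv (Aq f 0) 0) ((1 - 0 ^ 2) * deriv (Aq f 1) 0)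
      ((1 - 0 ^ 2) * deriv (Aq f 2) 0) ((1 - 0 ^ 2) * deriv (Aq f 4) 0)
      ((1 - 0 ^ 2) * deriv (Bq f 1) 0) ((1 - 0 ^ 2) * deriv (Bq f 2) 0)
      ((1 - 0 ^ 2) * deriv (Bq f 4) 0) ((1 - 0 ^ 2) * deriv (tq f) 0) a i i a) ?_
  intro a i ha hi
  obtain ⟨m1, m2, m3⟩ := h2 (Aq f 0 0) (Aq f 1 0) (Aq f 2 0) (Aq f 4 0) (Bq f 1 0) (Bq f 2 0)
    (Bq f 4 0) (tq f 0) ((1 - 0 ^ 2) * deriv (Aq f 0) 0) ((1 - 0 ^ 2) * deriv (Aq f 1) 0)
    ((1 - 0 ^ 2) * deriv (Aq f 2) 0) ((1 - 0 ^ 2) * deriv (Aq f 4) 0)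
    ((1 - 0 ^ 2) * deriv (Bq f 1) 0) ((1 - 0 ^ 2) * deriv (Bq f 2) 0)
    ((1 - 0 ^ 2) * deriv (Bq f 4) 0) ((1 - 0 ^ 2) * deriv (tq f) 0) a i ha hi
  have hne : a ≠ i := fun h => absurd (h ▸ ha) (not_le.2 hi)
  have hcase : a = 0 ∨ a = 1 ∨ a = 2 ∨ a = 3 := by
    clear m1 m2 m3 hne
    revert a
    decide
  refine ⟨?_, ?_, ?_, ?_, ?_, ?_⟩
  · rw [m2]
    rcases hcase with rfl | rfl | rfl | rfl
    · simpa using c1
    · simpa using ⟨c6, c3⟩
    · simpa using ⟨c7, c3⟩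
    · simpa using ⟨c7, c3⟩
  · rw [m3]
    rcases hcase with rfl | rfl | rfl | rfl
    · simpa using c2
    · simpa using ⟨c8, c4⟩
    · simpa using ⟨c8, c5⟩
    · simpa using ⟨c8, c5⟩
  · change riem (Gm f e) t (X a t) (X i t) (X a t) = _
    rw [o3 a i a, Finset.sum_eq_single i (fun d _ hd => by
      rw [m1 a d (fun h => hd h.2) (fun h => hne h.1), zero_smul])
      (fun h => absurd (Finset.mem_univ _) h)]
  · change riem (Gm f e) t (X a t) (X i t) (X i t) = _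
    rw [o3 a i i, Finset.sum_eq_single a (fun d _ hd => by
      rw [m1 i d (fun h => hne h.1.symm) (fun h => hd h.2), zero_smul])
      (fun h => absurd (Finset.mem_univ _) h)]
  · intro c hca hci
    change riem (Gm f e) t (X a t) (X i t) (X c t) = _
    rw [o3 a i c]
    refine Finset.sum_eq_zero fun d _ => ?_
    rw [m1 c d (fun h => hca h.1) (fun h => hci h.1), zero_smul]
  · intro w
    exact hPr (X a t) (X i t) w

end Pool.Agent.Lib.MP_2795bc_gt.SOL
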