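import Pool.Agent.Lib.MP_2795bc_gt.SOL.GStmts2

/-!
# MP_2795bc_gt: the Levi-Civita connection in an orthogonal frame
-/

set_option autoImplicit false

open scoped Manifold ContDiff Topology Quaternion
open Bundle

noncomputable section

namespace Pool.Agent.Lib.MP_2795bc_gt.SOL

namespace CovF

/-- pairing of a combination of the frame with a vector of the frame -/
theorem pair_sum {n : ℕ} (g : Eu n →L[ℝ] Eu n →L[ℝ] ℝ) (Y : Fin n → Eu n) (q : Fin n → ℝ)
    (h : ∀ a b, g (Y a) (Y b) = if a = b then q a else 0) (r : Fin n → ℝ) (c : Fin n) :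
    g (∑ a, r a • Y a) (Y c) = r c * q c := by
  rw [map_sum, ContinuousLinearMap.sum_apply]
  rw [Finset.sum_eq_single c]
  · rw [map_smul, ContinuousLinearMap.smul_apply, h, if_pos rfl, smul_eq_mul]
  · intro b _ hb
    rw [map_smul, ContinuousLinearMap.smul_apply, h, if_neg hb, smul_zero]
  · intro hc
    exact absurd (Finset.mem_univ c) hc

end CovF

/-- the connection in an orthogonal frame -/
theorem stCovF (h1 : StReg) : StCovF := by
  intro n U G X q C w hG hX hq horth hq0 hspan hbr hw t ht a b
  obtain ⟨hU, hGs, hGp⟩ := hG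
  obtain ⟨-, -, -, hchr, -⟩ := h1 n G U ⟨hU, hGs, hGp⟩
  have hn : (∞ : WithTop ℕ∞) ≠ 0 := by decide
  have hUt := hU.mem_nhds ht
  have dG : HasFDerivAt G (fderiv ℝ G t) t :=
    ((hGs.contDiffAt hUt).differentiableAt hn).hasFDerivAt
  have dX : ∀ a, HasFDerivAt (X a) (fderiv ℝ (X a) t) t := fun a =>
    (((hX a).contDiffAt hUt).differentiableAt hn).hasFDerivAt
  have hsym : ∀ u v, G t u v = G t v u := (hGp t ht).1
  -- derivative of the Gram matrix
  have hE : ∀ b c u, fderiv ℝ G t u (X b t) (X c t) + G t (fderiv ℝ (X b) t u) (X c t) +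
      G t (X b t) (fderiv ℝ (X c) t u) = if b = c then fderiv ℝ (q b) t u else 0 := by
    intro b c u
    have h2 := ((dG.clm_apply (dX b)).clm_apply (dX c)).fderiv
    have h3 : fderiv ℝ (fun y => G y (X b y) (X c y)) t =
        fderiv ℝ (fun y => if b = c then q b y else 0) t := by
      apply Filter.EventuallyEq.fderiv_eq
      filter_upwards [hUt] with y hy
      exact horth y hy b c
    rw [h3] at h2
    have h4 := DFunLike.congr_fun h2 u
    simp only [ContinuousLinearMap.add_apply, ContinuousLinearMap.comp_apply,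
      ContinuousLinearMap.flip_apply] at h4
    have h5 : fderiv ℝ (fun y => if b = c then q b y else 0) t u =
        if b = c then fderiv ℝ (q b) t u else 0 := by
      by_cases hbc : b = c
      · simp only [if_pos hbc]
      · simp only [if_neg hbc]
        rw [fderiv_fun_const]
        rfl
    rw [h5] at h4
    rw [h4]
    ring
  -- brackets
  have hB : ∀ a b c, G t (fderiv ℝ (X b) t (X a t)) (X c t) -
      G t (fderiv ℝ (X a) t (X b t)) (X c t) = C a b c * q c t := by
    intro a b c
    have h2 : G t (fderiv ℝ (X b) t (X a t) - fderiv ℝ (X a) t (X b t)) (X c t) =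
        C a b c * q c t := by
      rw [hbr t ht a b]
      exact CovF.pair_sum (G t) (fun a => X a t) (fun a => q a t) (horth t ht) (C a b) c
    rwa [map_sub, ContinuousLinearMap.sub_apply] at h2
  have hN : ∀ c, G t (covD G (X a) (X b) t) (X c t) = w a b c t * q c t := by
    intro c
    have h2 : G t (covD G (X a) (X b) t) (X c t) = G t (fderiv ℝ (X b) t (X a t)) (X c t) +
        (1 / 2) * (fderiv ℝ G t (X a t) (X b t) (X c t) + fderiv ℝ G t (X b t) (X a t) (X c t) -
          fderiv ℝ G t (X c t) (X a t) (X b t)) := by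
      rw [covD, map_add, ContinuousLinearMap.add_apply, hchr t ht]
    have e1 := hE b c (X a t)
    have e2 := hE a c (X b t)
    have e3 := hE a b (X c t)
    have b1 := hB a b c
    have b2 := hB a c b
    have b3 := hB b c a
    have s1 := hsym (X b t) (fderiv ℝ (X c) t (X a t))
    have s2 := hsym (X a t) (fderiv ℝ (X c) t (X b t))
    have s3 := hsym (X a t) (fderiv ℝ (X b) t (X c t))
    have hw' := hw t ht a b c
    rw [h2]
    linarith
  obtain ⟨r, hr⟩ := hspan t ht (covD G (X a) (X b) t)
  rw [hr]
  refine Finset.sum_congr rfl fun c _ => ?_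
  have h3 := hN c
  rw [hr, CovF.pair_sum (G t) (fun a => X a t) (fun a => q a t) (horth t ht) r c] at h3
  rw [mul_right_cancel₀ (hq0 t ht c) h3]

end Pool.Agent.Lib.MP_2795bc_gt.SOL
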