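import Pool.Agent.Lib.MP_2795bc_gt.SOL.GStmts2

/-!
# MP_2795bc_gt: the frame and the curvature in the charts
-/

open scoped Manifold ContDiff Topology Quaternion
open Bundle

noncomputable section

namespace Pool.Agent.Lib.MP_2795bc_gt.SOL

namespace CurvAux

lemma tab_smul (r A0 A1 A2 A4 B1 B2 B4 t : ℝ) (a b c : Fin 7) :
    r * tab 0 0 A0 A1 A2 A4 B1 B2 B4 t a b c =
      tab 0 0 (r * A0) (r * A1) (r * A2) (r * A4) (r * B1) (r * B2) (r * B4) (r * t) a b c := by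
  unfold tab
  split <;> simp

lemma cof_zero (q : QQ) (a : Fin 7) : cof q 0 a = 0 := by
  fin_cases a <;> simp [cof]

lemma Ef_fst (q : QQ) (a : Fin 7) : (Ef q a).1 = if a = 0 then 1 - q.1 ^ 2 else 0 := by
  fin_cases a <;> simp [Ef]

end CurvAux

open CurvAux

theorem stCurv (_hCh : StChart) (hGm : StGm) (hFe : StFe) (hBB : StBB) (hFr : StFrame)
    (hAB : StAB) (hQ : StQReg) (hKos : StKos) (hFRM : StFRM) : StCurv := by
  intro f hf e
  obtain ⟨hUo, -, hFe⟩ := hFe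
  obtain ⟨hFsm, hFt⟩ := hFe e
  obtain ⟨hGs, hGsym, hGpos, -⟩ := hGm f hf e
  obtain ⟨hQ1, hQ2, hQ3, hQ4, hQ5, hQ6, hQ7⟩ := hQ f hf
  have hx : ∀ t ∈ Uo, (Phi e t).2.1 ∈ Set.Ioo (-1 : ℝ) 1 := by
    intro t ht
    have h := (hFt t ht).1
    have h1 : ((Phi e t).2.1) ^ 2 < 1 := h
    constructor <;> nlinarith
  have hbb : ∀ t ∈ Uo, f.b (Fe e t).1 ≠ 0 := by
    intro t ht
    have h := hx t ht
    exact ((hf.2.2.1 _ ⟨h.1.le, h.2.le⟩).1).ne'
  have hinj : ∀ t ∈ Uo, Function.Injective (fderiv ℝ (Fe e) t) := by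
    intro t ht
    refine (injective_iff_map_eq_zero _).2 ?_
    intro u hu
    by_contra hne
    have h1 := hGpos t u hne
    have h2 := hBB f e t ht u u (hbb t ht)
    rw [h2, hu] at h1
    simp [cof_zero] at h1
  obtain ⟨X, hXs, hX⟩ := hFr Uo (Fe e) hUo hFsm
    (fun t ht => ⟨(hFt t ht).1, (hFt t ht).2.1, (hFt t ht).2.2.1, hinj t ht⟩)
  have hFd : ∀ t ∈ Uo, HasFDerivAt (Fe e) (fderiv ℝ (Fe e) t) t := fun t ht =>
    ((hFsm.contDiffAt (hUo.mem_nhds ht)).differentiableAt (by simp)).hasFDerivAt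
  have hxd : ∀ t ∈ Uo, HasFDerivAt (fun y => (Phi e y).2.1)
      ((ContinuousLinearMap.fst ℝ ℝ (HH × HH)).comp (fderiv ℝ (Fe e) t)) t := by
    intro t ht
    exact (hFd t ht).fst
  have hder : ∀ t ∈ Uo, ∀ (h : ℝ → ℝ) (a : Fin 7), DifferentiableAt ℝ h (Phi e t).2.1 →
      fderiv ℝ (fun y => h (Phi e y).2.1) t (X a t) =
        if a = 0 then (1 - (Phi e t).2.1 ^ 2) * deriv h (Phi e t).2.1 else 0 := by
    intro t ht h a hh
    have h1 : HasFDerivAt (fun y => h (Phi e y).2.1) (deriv h (Phi e t).2.1 •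
        ((ContinuousLinearMap.fst ℝ ℝ (HH × HH)).comp (fderiv ℝ (Fe e) t))) t :=
      hh.hasDerivAt.comp_hasFDerivAt t (hxd t ht)
    rw [h1.fderiv]
    have h2 := (hX t ht).1 a
    simp only [smul_apply, ContinuousLinearMap.comp_apply, h2,
      ContinuousLinearMap.coe_fst', Ef_fst, smul_eq_mul]
    split_ifs
    · rw [mul_comm]
      rfl
    · simp
  have hxs : ContDiffOn ℝ ∞ (fun t => (Phi e t).2.1) Uo := hFsm.fst
  have hmaps : Set.MapsTo (fun t => (Phi e t).2.1) Uo (Set.Ioo (-1 : ℝ) 1) := fun t ht => hx t ht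
  have hcomp : ∀ h : ℝ → ℝ, ContDiffOn ℝ ∞ h (Set.Ioo (-1 : ℝ) 1) →
      ContDiffOn ℝ ∞ (fun t => h (Phi e t).2.1) Uo := fun h hh => hh.comp hxs hmaps
  have hdiff : ∀ t ∈ Uo, ∀ h : ℝ → ℝ, ContDiffOn ℝ ∞ h (Set.Ioo (-1 : ℝ) 1) →
      DifferentiableAt ℝ h (Phi e t).2.1 := fun t ht h hh =>
    (hh.contDiffAt (isOpen_Ioo.mem_nhds (hx t ht))).differentiableAt (by simp)
  have horth : ∀ t ∈ Uo, ∀ a b, Gm f e t (X a t) (X b t) =
      if a = b then qf f (Phi e t).2.1 a else 0 := by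
    intro t ht a b
    rw [hBB f e t ht _ _ (hbb t ht)]
    simp only [(hX t ht).2.1]
    rw [Finset.sum_eq_single a]
    · by_cases hab : a = b
      · subst hab
        simp
        rfl
      · simp [hab, Ne.symm hab]
    · intro c _ hc
      simp [Ne.symm hc]
    · simp
  have hspan : ∀ t ∈ Uo, ∀ u, ∃ r : Fin 7 → ℝ, u = ∑ a, r a • X a t := fun t ht u =>
    ⟨_, (hX t ht).2.2.1 u⟩
  have hmet : IsMetricOn (Gm f e) Uo := ⟨hUo, hGs.contDiffOn, fun y _ => ⟨hGsym y, hGpos y⟩⟩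
  have hkey := hFRM 7 Uo (Gm f e) X (fun a t => qf f (Phi e t).2.1 a) ct
    (fun a b c t => wf f (Phi e t).2.1 a b c) hmet hXs (fun a => hcomp _ (hQ1 a))
    (fun a b c => hcomp _ (hQ6 a b c)) horth
    (fun t ht a => ((hAB f hf _ (hx t ht)).2.1 a).ne') hspan
    (fun t ht => (hX t ht).2.2.2)
    (by
      intro t ht a b c
      have h := hKos f hf _ (hx t ht) a b c
      simp only [hder t ht (fun y => qf f y a) _ (hdiff t ht _ (hQ1 a)),
        hder t ht (fun y => qf f y b) _ (hdiff t ht _ (hQ1 b))]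
      exact h)
  refine ⟨X, hXs, fun t ht => ⟨horth t ht, hspan t ht, (hX t ht).2.2.2, ?_, hder t ht, ?_⟩⟩
  · apply hinj t ht
    rw [(hFt t ht).2.2.2 f, map_smul, (hX t ht).1 0]
    rfl
  · have hdw : (fun a b c d => fderiv ℝ (fun t => wf f (Phi e t).2.1 b c d) t (X a t)) =
        (fun a : Fin 7 => if a = 0 then tab 0 0 ((1 - (Phi e t).2.1 ^ 2) * deriv (Aq f 0) (Phi e t).2.1)
          ((1 - (Phi e t).2.1 ^ 2) * deriv (Aq f 1) (Phi e t).2.1)
          ((1 - (Phi e t).2.1 ^ 2) * deriv (Aq f 2) (Phi e t).2.1)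
          ((1 - (Phi e t).2.1 ^ 2) * deriv (Aq f 4) (Phi e t).2.1)
          ((1 - (Phi e t).2.1 ^ 2) * deriv (Bq f 1) (Phi e t).2.1)
          ((1 - (Phi e t).2.1 ^ 2) * deriv (Bq f 2) (Phi e t).2.1)
          ((1 - (Phi e t).2.1 ^ 2) * deriv (Bq f 4) (Phi e t).2.1)
          ((1 - (Phi e t).2.1 ^ 2) * deriv (tq f) (Phi e t).2.1) else fun _ _ _ => 0) := by
      funext a b c d
      rw [hder t ht (fun y => wf f y b c d) a (hdiff t ht _ (hQ6 b c d))]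
      split_ifs
      · rw [hQ7 _ (hx t ht), tab_smul]
      · rfl
    obtain ⟨h1, h2⟩ := hkey t ht
    refine ⟨fun a b c => ?_, fun b c => ?_⟩
    · rw [h1 a b c, hdw]
      rfl
    · rw [h2 b c, hdw]
      rfl

end Pool.Agent.Lib.MP_2795bc_gt.SOL
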