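import Pool.Agent.Lib.MP_2795bc_gt.SOL.GStmts2

/-!
# MP_2795bc_gt: derivatives of the connection coefficients
-/

open scoped Manifold ContDiff Topology Quaternion
open Bundle

noncomputable section

namespace Pool.Agent.Lib.MP_2795bc_gt.SOL

private lemma dab_hasDerivAt_kap (x : ℝ) : HasDerivAt kap (-(2 * x) / 400) x := by
  unfold kap
  have h := (((hasDerivAt_id x).pow 2).const_sub 37).div_const 400
  refine h.congr_deriv ?_
  simp

private lemma dab_hasDerivAt_P (x : ℝ) : HasDerivAt (fun y : ℝ => 1 - y ^ 2) (-(2 * x)) x := by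
  have h := (((hasDerivAt_id x).pow 2).const_sub 1)
  refine h.congr_deriv ?_
  simp

private lemma dab_hasDerivAt_sp (x : ℝ) :
    HasDerivAt sp (-(2 * x * kap x) - (1 - x ^ 2) * x / 200) x := by
  unfold sp
  have h := ((dab_hasDerivAt_P x).mul (dab_hasDerivAt_kap x)).const_add 1
  refine h.congr_deriv ?_
  ring

theorem stDAB : StAB → StDAB := by
  intro hAB f hf x hx P k s s' hP hk hs hs'
  obtain ⟨hsm, hode, hpos, -⟩ := id hf
  have hxJ : x ∈ Jv := ⟨by linarith [hx.1], by linarith [hx.2]⟩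
  have hJ : Jv ∈ 𝓝 x := isOpen_Ioo.mem_nhds hxJ
  have hI : Set.Ioo (-1 : ℝ) 1 ∈ 𝓝 x := isOpen_Ioo.mem_nhds hx
  have hd : ∀ g : ℝ → ℝ, ContDiffOn ℝ ∞ g Jv → HasDerivAt g (deriv g x) x := fun g hg =>
    ((hg.contDiffAt hJ).differentiableAt (by simp)).hasDerivAt
  obtain ⟨snu, sal, sga, ssg, sb, sc, se⟩ := hsm
  obtain ⟨onu, oal, oga, osg, ob, oc, oe⟩ := hode x hxJ
  obtain ⟨pb, pc, pe, -⟩ := hpos x ⟨hx.1.le, hx.2.le⟩
  have dnu := hd _ snu
  have dal := hd _ sal
  have dga := hd _ sga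
  have dsg := hd _ ssg
  have db := hd _ sb
  have dc := hd _ sc
  have de := hd _ se
  have dk := dab_hasDerivAt_kap x
  have dP := dab_hasDerivAt_P x
  have ds := dab_hasDerivAt_sp x
  have hPpos : 0 < 1 - x ^ 2 := by nlinarith [hx.1, hx.2]
  have hspos : 0 < sp x := (hAB f hf x hx).1
  intro nu al ga sg b c e RN RA RG
  -- shape of ODE
  have Onu : (1 - x ^ 2) * deriv f.nu x = RN + 2 * x * nu := by
    simp only [RN, nu, sg, b, c, hP, hs]; linarith
  have Oal : (1 - x ^ 2) * deriv f.al x = RA + 2 * x * al := by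
    simp only [RA, al, sg, b, c, hP, hs]; linarith
  have Oga : (1 - x ^ 2) * deriv f.ga x = RG + 2 * x * ga := by
    simp only [RG, ga, sg, e, c, hP, hs]; linarith
  clear_value RN RA RG
  have e1 : HasDerivAt (Aq f 1) ((-(2 * x) * (sp x * f.nu x - 2 * x * kap x) +
      (1 - x ^ 2) * (((-(2 * x * kap x) - (1 - x ^ 2) * x / 200) * f.nu x
        + sp x * deriv f.nu x) - (2 * kap x + 2 * x * (-(2 * x) / 400))) - 2) / 2) x := by
    have h : HasDerivAt (fun y => ((1 - y ^ 2) * (sp y * f.nu y - 2 * y * kap y) - 2 * y) / 2)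
        ((-(2 * x) * (sp x * f.nu x - 2 * x * kap x) +
        (1 - x ^ 2) * (((-(2 * x * kap x) - (1 - x ^ 2) * x / 200) * f.nu x
        + sp x * deriv f.nu x) - (2 * kap x + 2 * x * (-(2 * x) / 400))) - 2) / 2) x := by
      have h2 : HasDerivAt (fun y : ℝ => 2 * y) 2 x := by
        simpa using (hasDerivAt_id x).const_mul 2
      exact ((dP.mul ((ds.mul dnu).sub (h2.mul dk))).sub h2).div_const 2
    refine h.congr_of_eventuallyEq ?_
    filter_upwards [hI] with y hy
    exact (hAB f hf y hy).2.2.2.2.1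
  have e2 : HasDerivAt (Aq f 2) (((-(2 * x) * sp x +
      (1 - x ^ 2) * (-(2 * x * kap x) - (1 - x ^ 2) * x / 200)) * f.al x
        + (1 - x ^ 2) * sp x * deriv f.al x) / 2) x := by
    have h : HasDerivAt (fun y => (1 - y ^ 2) * sp y * f.al y / 2) (((-(2 * x) * sp x +
      (1 - x ^ 2) * (-(2 * x * kap x) - (1 - x ^ 2) * x / 200)) * f.al x
        + (1 - x ^ 2) * sp x * deriv f.al x) / 2) x :=
      ((dP.mul ds).mul dal).div_const 2
    refine h.congr_of_eventuallyEq ?_
    filter_upwards [hI] with y hy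
    exact (hAB f hf y hy).2.2.2.2.2.1
  have e3 : HasDerivAt (Aq f 4) (((-(2 * x) * sp x +
      (1 - x ^ 2) * (-(2 * x * kap x) - (1 - x ^ 2) * x / 200)) * f.ga x
        + (1 - x ^ 2) * sp x * deriv f.ga x) / 2) x := by
    have h : HasDerivAt (fun y => (1 - y ^ 2) * sp y * f.ga y / 2) (((-(2 * x) * sp x +
      (1 - x ^ 2) * (-(2 * x * kap x) - (1 - x ^ 2) * x / 200)) * f.ga x
        + (1 - x ^ 2) * sp x * deriv f.ga x) / 2) x :=
      ((dP.mul ds).mul dga).div_const 2
    refine h.congr_of_eventuallyEq ?_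
    filter_upwards [hI] with y hy
    exact (hAB f hf y hy).2.2.2.2.2.2.2.1
  have e4 : HasDerivAt (Bq f 1) (((-(2 * x) * (sp x * f.nu x - 2 * x * kap x) +
      (1 - x ^ 2) * (((-(2 * x * kap x) - (1 - x ^ 2) * x / 200) * f.nu x
        + sp x * deriv f.nu x) - (2 * kap x + 2 * x * (-(2 * x) / 400))) - 2) *
        (2 * sp x ^ 2) - ((1 - x ^ 2) * (sp x * f.nu x - 2 * x * kap x) - 2 * x) *
        (2 * (2 * sp x * (-(2 * x * kap x) - (1 - x ^ 2) * x / 200)))) / (2 * sp x ^ 2) ^ 2) x := by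
    have h : HasDerivAt (fun y => ((1 - y ^ 2) * (sp y * f.nu y - 2 * y * kap y) - 2 * y) /
        (2 * sp y ^ 2))
        (((-(2 * x) * (sp x * f.nu x - 2 * x * kap x) +
      (1 - x ^ 2) * (((-(2 * x * kap x) - (1 - x ^ 2) * x / 200) * f.nu x
        + sp x * deriv f.nu x) - (2 * kap x + 2 * x * (-(2 * x) / 400))) - 2) *
        (2 * sp x ^ 2) - ((1 - x ^ 2) * (sp x * f.nu x - 2 * x * kap x) - 2 * x) *
        (2 * (2 * sp x * (-(2 * x * kap x) - (1 - x ^ 2) * x / 200)))) / (2 * sp x ^ 2) ^ 2) x := by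
      have h2 : HasDerivAt (fun y : ℝ => 2 * y) 2 x := by
        simpa using (hasDerivAt_id x).const_mul 2
      have h3 : HasDerivAt (fun y => 2 * sp y ^ 2)
          (2 * (2 * sp x * (-(2 * x * kap x) - (1 - x ^ 2) * x / 200))) x := by
        have := (ds.pow 2).const_mul 2
        refine this.congr_deriv ?_
        simp
      exact ((dP.mul ((ds.mul dnu).sub (h2.mul dk))).sub h2).div h3 (by positivity)
    refine h.congr_of_eventuallyEq ?_
    filter_upwards [hI] with y hy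
    exact (hAB f hf y hy).2.2.2.2.2.2.2.2.2.2.1
  have e5 : HasDerivAt (Bq f 2) ((2 * deriv f.al x * (sp x * f.b x) - 2 * f.al x *
      ((-(2 * x * kap x) - (1 - x ^ 2) * x / 200) * f.b x + sp x * deriv f.b x)) /
      (sp x * f.b x) ^ 2) x := by
    have h : HasDerivAt (fun y => 2 * f.al y / (sp y * f.b y))
      ((2 * deriv f.al x * (sp x * f.b x) - 2 * f.al x *
      ((-(2 * x * kap x) - (1 - x ^ 2) * x / 200) * f.b x + sp x * deriv f.b x)) /
      (sp x * f.b x) ^ 2) x :=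
      (dal.const_mul 2).div (ds.mul db) (by positivity)
    refine h.congr_of_eventuallyEq ?_
    filter_upwards [hI] with y hy
    exact (hAB f hf y hy).2.2.2.2.2.2.2.2.2.2.2.1
  have e6 : HasDerivAt (Bq f 4) ((deriv f.ga x * (sp x * f.e x) - f.ga x *
      ((-(2 * x * kap x) - (1 - x ^ 2) * x / 200) * f.e x + sp x * deriv f.e x)) /
      (sp x * f.e x) ^ 2) x := by
    have h : HasDerivAt (fun y => f.ga y / (sp y * f.e y))
      ((deriv f.ga x * (sp x * f.e x) - f.ga x *
      ((-(2 * x * kap x) - (1 - x ^ 2) * x / 200) * f.e x + sp x * deriv f.e x)) /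
      (sp x * f.e x) ^ 2) x :=
      dga.div (ds.mul de) (by positivity)
    refine h.congr_of_eventuallyEq ?_
    filter_upwards [hI] with y hy
    exact (hAB f hf y hy).2.2.2.2.2.2.2.2.2.2.2.2.2.1
  have e7 : HasDerivAt (psi f) (((deriv f.al x + 3 / 2 * deriv f.ga x - deriv f.sg x) *
      (f.c x * sp x) - (f.al x + 3 / 2 * f.ga x - f.sg x) *
      (deriv f.c x * sp x + f.c x * (-(2 * x * kap x) - (1 - x ^ 2) * x / 200))) /
      (f.c x * sp x) ^ 2) x :=
    ((dal.add (dga.const_mul (3 / 2))).sub dsg).div (dc.mul ds) (by positivity)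
  refine ⟨?_, ?_, ?_, ?_, ?_, ?_, ?_, ?_⟩
  · rw [hs', hk, hP]; exact ds
  · rw [e1.deriv, hs', hk, hP, hs]
    linear_combination (1 - x ^ 2) * sp x / 2 * Onu
  · rw [e2.deriv, hs', hk, hP, hs]
    linear_combination (1 - x ^ 2) * sp x / 2 * Oal
  · rw [e3.deriv, hs', hk, hP, hs]
    linear_combination (1 - x ^ 2) * sp x / 2 * Oga
  · rw [e4.deriv, hs', hk, hP, hs]
    have h0 : sp x ≠ 0 := hspos.ne'
    have hX : (-(2 * x) * (sp x * f.nu x - 2 * x * kap x) +
      (1 - x ^ 2) * (((-(2 * x * kap x) - (1 - x ^ 2) * x / 200) * f.nu x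
        + sp x * deriv f.nu x) - (2 * kap x + 2 * x * (-(2 * x) / 400))) - 2) =
        ((-(2 * x * kap x) - (1 - x ^ 2) * x / 200) * ((1 - x ^ 2) * nu) + sp x * RN
          - 2 * kap x * (1 - x ^ 2) + 2 * x ^ 2 * (1 - x ^ 2) / 200 + 4 * x ^ 2 * kap x - 2) := by
      linear_combination sp x * Onu
    rw [hX]
    generalize (1 - x ^ 2) = Q
    generalize (-(2 * x * kap x) - Q * x / 200) = T
    field_simp
    ring
  · rw [e5.deriv, ob, hs', hk, hP, hs]
    have h0 : sp x ≠ 0 := hspos.ne'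
    have h1 : f.b x ≠ 0 := pb.ne'
    rw [← Oal]
    simp only [nu, al, b]
    generalize deriv f.al x = D
    generalize (1 - x ^ 2) = Q
    generalize (-(2 * x * kap x) - Q * x / 200) = T
    field_simp
    ring
  · rw [e6.deriv, oe, hs', hk, hP, hs]
    have h0 : sp x ≠ 0 := hspos.ne'
    have h1 : f.e x ≠ 0 := pe.ne'
    rw [← Oga]
    simp only [nu, ga, e]
    generalize deriv f.ga x = D
    generalize (1 - x ^ 2) = Q
    generalize (-(2 * x * kap x) - Q * x / 200) = T
    field_simp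
    ring
  · rw [e7.deriv, osg, oc, hs', hk, hP, hs]
    have h0 : sp x ≠ 0 := hspos.ne'
    have h1 : f.c x ≠ 0 := pc.ne'
    rw [← Oal, ← Oga]
    simp only [nu, al, ga, sg, b, c]
    generalize deriv f.al x = D
    generalize deriv f.ga x = D2
    generalize (1 - x ^ 2) = Q
    generalize (-(2 * x * kap x) - Q * x / 200) = T
    field_simp
    ring

end Pool.Agent.Lib.MP_2795bc_gt.SOL
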