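import Mathlib

/-!
# MP_2795bc_gt: definitions (Ricci solitons on manifolds, computed in charts)

Everything is the classical local formula. `G : E → E →L[ℝ] E →L[ℝ] ℝ` is a Riemannian metric on an
open subset of a finite-dimensional vector space `E`.
-/

open scoped Manifold ContDiff Topology
open Bundle

noncomputable section

namespace Pool.Agent.Lib.MP_2795bc_gt.SOL

/-- The model space `ℝⁿ`. -/
abbrev Eu (n : ℕ) : Type := EuclideanSpace ℝ (Fin n)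

section loc
variable {E : Type*} [NormedAddCommGroup E] [NormedSpace ℝ E]

/-- Christoffel symbols of the metric `G`: `chr G x u v` is the vector `z` with
`G x z w = (1/2) (D_u G (v, w) + D_v G (u, w) - D_w G (u, v))` for all `w`. -/
def chr (G : E → E →L[ℝ] E →L[ℝ] ℝ) (x u v : E) : E :=
  (G x).inverse ((1 / 2 : ℝ) • (fderiv ℝ G x u v + fderiv ℝ G x v u
    - ((fderiv ℝ G x).flip u).flip v))

/-- Riemann curvature `R(u, v) w` of the metric `G` at `x`. -/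
def riem (G : E → E →L[ℝ] E →L[ℝ] ℝ) (x u v w : E) : E :=
  fderiv ℝ (fun y => chr G y v w) x u - fderiv ℝ (fun y => chr G y u w) x v
    + chr G x u (chr G x v w) - chr G x v (chr G x u w)

/-- Lie derivative of the metric `G` along the vector field `V`. -/
def lieG (G : E → E →L[ℝ] E →L[ℝ] ℝ) (V : E → E) (x u v : E) : ℝ :=
  fderiv ℝ G x (V x) u v + G x (fderiv ℝ V x u) v + G x u (fderiv ℝ V x v)

end loc

/-- Ricci curvature `Ric(v, w) = tr (u ↦ R(u, v) w)` of the metric `G` at `x`. -/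
def ric {n : ℕ} (G : Eu n → Eu n →L[ℝ] Eu n →L[ℝ] ℝ) (x v w : Eu n) : ℝ :=
  ∑ i, (riem G x (EuclideanSpace.single i 1) v w) i

section mfd
variable {n : ℕ} {M : Type*} [TopologicalSpace M] [ChartedSpace (Eu n) M]

/-- A field of bilinear forms on `M`. -/
abbrev FormField (n : ℕ) (M : Type*) [TopologicalSpace M] [ChartedSpace (Eu n) M] :=
  ∀ x : M, TangentSpace (𝓡 n) x →L[ℝ] TangentSpace (𝓡 n) x →L[ℝ] ℝ

/-- A vector field on `M`. -/
abbrev VecField (n : ℕ) (M : Type*) [TopologicalSpace M] [ChartedSpace (Eu n) M] :=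
  ∀ x : M, TangentSpace (𝓡 n) x

/-- The metric `g` in the chart at `p`. -/
def coordMetric (g : FormField n M) (p : M) (y : Eu n) : Eu n →L[ℝ] Eu n →L[ℝ] ℝ :=
  let D : Eu n →L[ℝ] Eu n := mfderiv (𝓡 n) (𝓡 n) (extChartAt (𝓡 n) p).symm y
  let B : Eu n →L[ℝ] Eu n →L[ℝ] ℝ := g ((extChartAt (𝓡 n) p).symm y)
  B.bilinearComp D D

/-- The vector field `V` in the chart at `p`. -/
def coordField (V : VecField n M) (p : M) (y : Eu n) : Eu n :=
  mfderiv (𝓡 n) (𝓡 n) (extChartAt (𝓡 n) p) ((extChartAt (𝓡 n) p).symm y)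
    (V ((extChartAt (𝓡 n) p).symm y))

/-- `Ric + (1/2) L_V g = lam g` in every chart. -/
def IsRicciSoliton (g : FormField n M) (V : VecField n M) (lam : ℝ) : Prop :=
  ∀ p : M, ∀ y ∈ (extChartAt (𝓡 n) p).target, ∀ u v : Eu n,
    ric (coordMetric g p) y u v + (1 / 2) * lieG (coordMetric g p) (coordField V p) y u v
      = lam * coordMetric g p y u v

/-- `Ric = c g` for a constant `c`. -/
def IsEinstein (g : FormField n M) : Prop :=
  ∃ c : ℝ, ∀ p : M, ∀ y ∈ (extChartAt (𝓡 n) p).target, ∀ u v : Eu n,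
    ric (coordMetric g p) y u v = c * coordMetric g p y u v

/-- Near every point there is an orthogonal parallel almost complex structure. -/
def LocKahler (g : FormField n M) : Prop :=
  ∀ p : M, ∃ U : Set (Eu n), IsOpen U ∧ extChartAt (𝓡 n) p p ∈ U ∧
    U ⊆ (extChartAt (𝓡 n) p).target ∧
    ∃ J : Eu n → Eu n →L[ℝ] Eu n, ContDiffOn ℝ ∞ J U ∧ ∀ y ∈ U,
      (∀ u, J y (J y u) = -u) ∧
      (∀ u v, coordMetric g p y (J y u) (J y v) = coordMetric g p y u v) ∧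
      ∀ u v, fderiv ℝ J y u v + chr (coordMetric g p) y u (J y v)
        - J y (chr (coordMetric g p) y u v) = 0

end mfd

/-- `G` is a smooth Riemannian metric on the open set `U`. -/
def IsMetricOn {n : ℕ} (G : Eu n → Eu n →L[ℝ] Eu n →L[ℝ] ℝ) (U : Set (Eu n)) : Prop :=
  IsOpen U ∧ ContDiffOn ℝ ∞ G U ∧
    ∀ y ∈ U, (∀ u v, G y u v = G y v u) ∧ ∀ u, u ≠ 0 → 0 < G y u u

section mfd
variable {n : ℕ} {M : Type*} [TopologicalSpace M] [ChartedSpace (Eu n) M]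

/-- Near every point the manifold is isometric to a Riemannian product of two manifolds (open sets
`U₁`, `U₂` with metrics `G₁`, `G₂`) of positive dimensions `k` and `l`. -/
def LocDecomposable (g : FormField n M) : Prop :=
  ∀ p : M, ∃ k l : ℕ, 0 < k ∧ 0 < l ∧ k + l = n ∧
    ∃ (U₁ : Set (Eu k)) (U₂ : Set (Eu l))
      (G₁ : Eu k → Eu k →L[ℝ] Eu k →L[ℝ] ℝ) (G₂ : Eu l → Eu l →L[ℝ] Eu l →L[ℝ] ℝ)
      (Φ : Eu k × Eu l → M),
      IsMetricOn G₁ U₁ ∧ IsMetricOn G₂ U₂ ∧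
      ContMDiffOn 𝓘(ℝ, Eu k × Eu l) (𝓡 n) ∞ Φ (U₁ ×ˢ U₂) ∧ p ∈ Φ '' (U₁ ×ˢ U₂) ∧
      ∀ y ∈ U₁ ×ˢ U₂, ∀ u v : Eu k × Eu l,
        g (Φ y) (mfderiv 𝓘(ℝ, Eu k × Eu l) (𝓡 n) Φ y u)
          (mfderiv 𝓘(ℝ, Eu k × Eu l) (𝓡 n) Φ y v) = G₁ y.1 u.1 v.1 + G₂ y.2 u.2 v.2

end mfd

/-- The answer to Q1. -/
def Target : Prop :=
  ∃ (M : Type) (_ : TopologicalSpace M) (_ : ChartedSpace (Eu 7) M) (_ : IsManifold (𝓡 7) ∞ M),
    CompactSpace M ∧ T2Space M ∧ ConnectedSpace M ∧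
    ∃ (g : ContMDiffRiemannianMetric (𝓡 7) ∞ (Eu 7) (fun x : M => TangentSpace (𝓡 7) x))
      (V : VecField 7 M),
      ContMDiff (𝓡 7) (𝓡 7).tangent ∞ (fun x => (⟨x, V x⟩ : TangentBundle (𝓡 7) M)) ∧
      IsRicciSoliton g.inner V 1 ∧ ¬ IsEinstein g.inner ∧ ¬ LocKahler g.inner ∧
      ¬ LocDecomposable g.inner

end Pool.Agent.Lib.MP_2795bc_gt.SOL
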