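import Pool.Agent.Lib.MP_2795bc_gt.SOL.GStmts2

/-!
# MP_2795bc_gt: the four soliton identities
-/

set_option autoImplicit false

noncomputable section

namespace Pool.Agent.Lib.MP_2795bc_gt.SOL

namespace EAux

variable {P k x nu al ga sg b c e s s' A0 A1 A2 A4 B1 B2 B4 t : ℝ}

theorem id4 (hs : s ≠ 0) (hc : c ≠ 0) (he : e ≠ 0)
    (hs' : s' = -(2 * x * k) - P * x / 200)
    (h0 : A0 = (P * (s * nu - 2 * x * k) - 2 * P * (2 * x * k + P * x / 200) / s - 2 * x) / 2)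
    (h1 : A1 = (P * (s * nu - 2 * x * k) - 2 * x) / 2)
    (h2 : A2 = P * s * al / 2) (h4 : A4 = P * s * ga / 2)
    (g4 : B4 = ga / (s * e)) {RG dB4 ps q4 Q4 : ℝ}
    (hRG : RG = -(s * sg * P * ga) + 2 * s * e - 2 * s * c)
    (d4 : dB4 = (RG + 2 * x * ga) / (s * e) - P * ga * s' / (s ^ 2 * e)
      - P * ga * (s * nu - 2 * x * k - s * ga) / (s * e))
    (hps : ps = (al + 3 / 2 * ga - sg) / (c * s)) (hq : q4 = 2 * c / e)
    (hQ : Q4 = 2 * A4 * q4) :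
    -dB4 - A0 * B4 + A4 * B4 - 2 * B4 * A4 - B4 * A1 - 2 * B4 * A2 + 2
      + (1 / 2) * ps * Q4 = q4 := by
  subst hs' h0 h1 h2 h4 g4 hRG d4 hps hQ hq
  field_simp
  ring

theorem id2 (hs : s ≠ 0) (hc : c ≠ 0) (hb : b ≠ 0)
    (hs' : s' = -(2 * x * k) - P * x / 200)
    (h0 : A0 = (P * (s * nu - 2 * x * k) - 2 * P * (2 * x * k + P * x / 200) / s - 2 * x) / 2)
    (h1 : A1 = (P * (s * nu - 2 * x * k) - 2 * x) / 2)
    (h2 : A2 = P * s * al / 2) (h4 : A4 = P * s * ga / 2)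
    (g2 : B2 = 2 * al / (s * b)) (ht : t = P * b / 4) {RA dB2 ps q2 Q2 : ℝ}
    (hRA : RA = -(s * sg * P * al) + 2 * s * b - (1 / 4) * P * s * b ^ 2 - 2 * s * c)
    (d2 : dB2 = 2 * (RA + 2 * x * al) / (s * b) - 2 * P * al * s' / (s ^ 2 * b)
      - 2 * P * al * (s * nu - 2 * x * k - s * al) / (s * b))
    (hps : ps = (al + 3 / 2 * ga - sg) / (c * s)) (hq : q2 = 4 * c / b)
    (hQ : Q2 = 2 * A2 * q2) :
    -dB2 - A0 * B2 + A2 * B2 - 3 * B2 * A4 - B2 * A1 - B2 * A2 + 4 - 2 * t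
      + (1 / 2) * ps * Q2 = q2 := by
  subst hs' h0 h1 h2 h4 g2 ht hRA d2 hps hQ hq
  field_simp
  ring

theorem id1 (hs : s ≠ 0) (hc : c ≠ 0) (hP : P ≠ 0)
    (hk : s = 1 + P * k) (hs' : s' = -(2 * x * k) - P * x / 200)
    (h0 : A0 = (P * (s * nu - 2 * x * k) - 2 * P * (2 * x * k + P * x / 200) / s - 2 * x) / 2)
    (h1 : A1 = (P * (s * nu - 2 * x * k) - 2 * x) / 2)
    (h2 : A2 = P * s * al / 2) (h4 : A4 = P * s * ga / 2)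
    (g1 : B1 = (P * (s * nu - 2 * x * k) - 2 * x) / (2 * s ^ 2)) (ht : t = P * b / 4)
    {RN dB1 ps q1 Q1 : ℝ}
    (hRN : RN = 2 - s * sg * (P * nu - 2 * x) + (1 / 4) * P * s * b ^ 2 - 2 * s * c)
    (d1 : dB1 = P * (s' * (P * nu) + s * RN - 2 * k * P + 2 * x ^ 2 * P / 200
      + 4 * x ^ 2 * k - 2) / (2 * s ^ 2) - P * s' * (P * (s * nu - 2 * x * k) - 2 * x) / s ^ 3)
    (hps : ps = (al + 3 / 2 * ga - sg) / (c * s)) (hq : q1 = c * P)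
    (hQ : Q1 = 2 * A1 * q1) :
    -dB1 - A0 * B1 + A1 * B1 - 3 * B1 * A4 - 2 * B1 * A2 + 2 * t ^ 2
      + (1 / 2) * ps * Q1 = q1 := by
  have hk' : k = (s - 1) / P := by
    rw [hk]
    field_simp
    ring
  subst hk' hs' h0 h1 h2 h4 g1 ht hRN d1 hps hQ hq
  field_simp
  ring

theorem id0 (hs : s ≠ 0) (hc : c ≠ 0) (hP : P ≠ 0)
    (hk : s = 1 + P * k) (hs' : s' = -(2 * x * k) - P * x / 200)
    (h0 : A0 = (P * (s * nu - 2 * x * k) - 2 * P * (2 * x * k + P * x / 200) / s - 2 * x) / 2)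
    (h1 : A1 = (P * (s * nu - 2 * x * k) - 2 * x) / 2)
    (h2 : A2 = P * s * al / 2) (h4 : A4 = P * s * ga / 2)
    {RN RA RG dA1 dA2 dA4 ps dps q0 Q0 : ℝ}
    (hRN : RN = 2 - s * sg * (P * nu - 2 * x) + (1 / 4) * P * s * b ^ 2 - 2 * s * c)
    (hRA : RA = -(s * sg * P * al) + 2 * s * b - (1 / 4) * P * s * b ^ 2 - 2 * s * c)
    (hRG : RG = -(s * sg * P * ga) + 2 * s * e - 2 * s * c)
    (d1 : dA1 = P * (s' * (P * nu) + s * RN - 2 * k * P + 2 * x ^ 2 * P / 200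
      + 4 * x ^ 2 * k - 2) / 2)
    (d2 : dA2 = P * (s' * (P * al) + s * RA) / 2)
    (d4 : dA4 = P * (s' * (P * ga) + s * RG) / 2)
    (hps : ps = (al + 3 / 2 * ga - sg) / (c * s))
    (hdps : dps = (RA + 2 * x * al + 3 / 2 * (RG + 2 * x * ga)
        - P * (-(2 * x * k * sg) + s * (nu * sg - b ^ 2 / 8 - al ^ 2 / 2 - 3 / 4 * ga ^ 2)))
          / (c * s)
      - P * (al + 3 / 2 * ga - sg) * (s * nu - 2 * x * k) / (c * s)
      - P * (al + 3 / 2 * ga - sg) * s' / (c * s ^ 2))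
    (hq : q0 = c * s ^ 2 * P) (hQ : Q0 = 2 * A0 * q0) :
    (A0 * A1 - dA1 - A1 ^ 2) + 2 * (A0 * A2 - dA2 - A2 ^ 2) + 3 * (A0 * A4 - dA4 - A4 ^ 2)
      + (1 / 2) * ps * Q0 + dps * q0 = q0 := by
  have hk' : k = (s - 1) / P := by
    rw [hk]
    field_simp
    ring
  subst hk' hs' h0 h1 h2 h4 hRN hRA hRG d1 d2 d4 hps hdps hQ hq
  field_simp
  ring

end EAux

open EAux in
theorem stE : StAB → StDAB → StE := by
  intro hAB hDAB f hf x hx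
  obtain ⟨hsp, hqp, hqd, h0, h1, h2, -, h4, -, -, g1, g2, -, g4, -, -, ht⟩ := hAB f hf x hx
  obtain ⟨-, d1, d2, d4, e1, e2, e4, dp⟩ :=
    hDAB f hf x hx (1 - x ^ 2) (kap x) (sp x) _ rfl rfl rfl rfl
  have hP : (1 - x ^ 2 : ℝ) ≠ 0 := by
    have h1 := hx.1
    have h2 := hx.2
    nlinarith
  have hs : sp x ≠ 0 := hsp.ne'
  have hx' : x ∈ Set.Icc (-1 : ℝ) 1 := ⟨hx.1.le, hx.2.le⟩
  obtain ⟨hb, hc, he, -⟩ := hf.2.2.1 x hx'
  have hk : sp x = 1 + (1 - x ^ 2) * kap x := rfl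
  have hps : psi f x = (f.al x + 3 / 2 * f.ga x - f.sg x) / (f.c x * sp x) := rfl
  have hQ : ∀ a, (1 - x ^ 2) * deriv (fun y => qf f y a) x = 2 * Aq f a x * qf f x a := by
    intro a
    rw [(hqd a).deriv]
    field_simp
  have hq0 : qf f x 0 = f.c x * sp x ^ 2 * (1 - x ^ 2) := rfl
  have hq1 : qf f x 1 = f.c x * (1 - x ^ 2) := rfl
  have hq2 : qf f x 2 = 4 * f.c x / f.b x := rfl
  have hq4 : qf f x 4 = 2 * f.c x / f.e x := rfl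
  refine ⟨?_, ?_, ?_, ?_⟩
  · exact id0 hs hc.ne' hP hk rfl h0 h1 h2 h4 rfl rfl rfl d1 d2 d4 hps dp hq0 (hQ 0)
  · exact id1 hs hc.ne' hP hk rfl h0 h1 h2 h4 g1 ht rfl e1 hps hq1 (hQ 1)
  · exact id2 hs hc.ne' hb.ne' rfl h0 h1 h2 h4 g2 ht rfl e2 hps hq2 (hQ 2)
  · exact id4 hs hc.ne' he.ne' rfl h0 h1 h2 h4 g4 rfl e4 hps hq4 (hQ 4)

end Pool.Agent.Lib.MP_2795bc_gt.SOL
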