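import Pool.Agent.Lib.MP_2795bc_gt.SOL.GStmts2

/-!
# MP_2795bc_gt: curvature in an orthogonal frame
-/

set_option autoImplicit false

open scoped ContDiff Topology

noncomputable section

namespace Pool.Agent.Lib.MP_2795bc_gt.SOL

namespace FRM

theorem trace_single {n : ℕ} (T : Eu n →ₗ[ℝ] Eu n) :
    ∑ i, (T (EuclideanSpace.single i 1)) i = LinearMap.trace ℝ (Eu n) T := by
  rw [LinearMap.trace_eq_matrix_trace ℝ (EuclideanSpace.basisFun (Fin n) ℝ).toBasis T,
    Matrix.trace]
  refine Finset.sum_congr rfl fun i _ => ?_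
  rw [Matrix.diag_apply, LinearMap.toMatrix_apply]
  simp

theorem trace_frame {n : ℕ} (T : Eu n →ₗ[ℝ] Eu n) (x : Fin n → Eu n)
    (hx : ∀ u, ∃ r : Fin n → ℝ, u = ∑ a, r a • x a) (R : Fin n → Fin n → ℝ)
    (hT : ∀ a, T (x a) = ∑ d, R a d • x d) : LinearMap.trace ℝ (Eu n) T = ∑ a, R a a := by
  have hs : ⊤ ≤ Submodule.span ℝ (Set.range x) := by
    intro u _
    obtain ⟨r, rfl⟩ := hx u
    exact Submodule.sum_mem _ fun a _ =>
      Submodule.smul_mem _ _ (Submodule.subset_span ⟨a, rfl⟩)
  let b : Module.Basis (Fin n) ℝ (Eu n) := basisOfTopLeSpanOfCardEqFinrank x hs (by simp)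
  have hb : ∀ a, b a = x a := fun a => by simp [b]
  rw [LinearMap.trace_eq_matrix_trace ℝ b T, Matrix.trace]
  refine Finset.sum_congr rfl fun a _ => ?_
  rw [Matrix.diag_apply, LinearMap.toMatrix_apply, hb, hT]
  have h1 : ∑ d, R a d • x d = ∑ d, R a d • b d :=
    Finset.sum_congr rfl fun d _ => by rw [hb]
  rw [h1, b.repr_sum_self]

/-- linear maps -/
def mkL {E F : Type*} [AddCommGroup E] [Module ℝ E] [AddCommGroup F] [Module ℝ F] (f : E → F)
    (hf : ∀ (r : ℝ) (u u' : E), f (r • u + u') = r • f u + f u') : E →ₗ[ℝ] F where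
  toFun := f
  map_add' := by
    intro u v
    have h := hf 1 u v
    rwa [one_smul, one_smul] at h
  map_smul' := by
    intro r u
    have h0 : f 0 = 0 := by
      have h := hf 1 0 0
      rw [one_smul, one_smul, add_zero] at h
      exact left_eq_add.1 h
    have h := hf r u 0
    rwa [h0, add_zero, add_zero] at h

theorem map_comb {E F : Type*} [AddCommGroup E] [Module ℝ E] [AddCommGroup F] [Module ℝ F]
    (f : E → F) (hf : ∀ (r : ℝ) (u u' : E), f (r • u + u') = r • f u + f u') {n : ℕ}
    (r : Fin n → ℝ) (x : Fin n → E) : f (∑ k, r k • x k) = ∑ k, r k • f (x k) := by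
  have h := map_sum (mkL f hf) (fun k => r k • x k) Finset.univ
  refine h.trans (Finset.sum_congr rfl fun k _ => ?_)
  exact (mkL f hf).map_smul (r k) (x k)

end FRM

open FRM in
theorem stFRM : StReg → StCovF → StRiemF → StFRM := by
  intro hReg hCov hRiem n U G X q C w hG hX hq hw horth hq0 hspan hbr hkos
  obtain ⟨-, -, -, -, -, hl1, hl2, hr1, -, -, -, -⟩ := hReg n G U hG
  have hU : IsOpen U := hG.1
  have hcov := hCov n U G X q C w hG hX hq horth hq0 hspan hbr hkos
  intro t ht
  have hUn : U ∈ 𝓝 t := hU.mem_nhds ht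
  have hXd : ∀ a, HasFDerivAt (X a) (fderiv ℝ (X a) t) t := fun a =>
    (((hX a).contDiffAt hUn).differentiableAt (by simp)).hasFDerivAt
  have hwd : ∀ a b c, HasFDerivAt (w a b c) (fderiv ℝ (w a b c) t) t := fun a b c =>
    (((hw a b c).contDiffAt hUn).differentiableAt (by simp)).hasFDerivAt
  -- the second covariant derivative
  have hcov2 : ∀ a b c, covD G (X a) (covD G (X b) (X c)) t =
      ∑ d, (fderiv ℝ (w b c d) t (X a t) + ∑ k, w b c k t * w a k d t) • X d t := by
    intro a b c
    have he : covD G (X b) (X c) =ᶠ[𝓝 t] fun y => ∑ k, w b c k y • X k y := by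
      filter_upwards [hUn] with y hy
      exact hcov y hy b c
    have hd : HasFDerivAt (fun y => ∑ k, w b c k y • X k y)
        (∑ k, (w b c k t • fderiv ℝ (X k) t + (fderiv ℝ (w b c k) t).smulRight (X k t))) t :=
      HasFDerivAt.fun_sum fun k _ => (hwd b c k).smul (hXd k)
    have h1 : covD G (X a) (covD G (X b) (X c)) t =
        fderiv ℝ (covD G (X b) (X c)) t (X a t) +
          chr G t (X a t) (covD G (X b) (X c) t) := rfl
    rw [h1, he.fderiv_eq, hd.fderiv, hcov t ht b c, map_comb _ (hl2 t · (X a t) · ·)]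
    have h2 : ∀ k, w b c k t • covD G (X a) (X k) t =
        ∑ d, (w b c k t * w a k d t) • X d t := by
      intro k
      rw [hcov t ht a k, Finset.smul_sum]
      exact Finset.sum_congr rfl fun d _ => by rw [smul_smul]
    have h3 : (∑ k, (w b c k t • fderiv ℝ (X k) t +
        (fderiv ℝ (w b c k) t).smulRight (X k t))) (X a t) +
        ∑ k, w b c k t • chr G t (X a t) (X k t) =
        ∑ k, (fderiv ℝ (w b c k) t (X a t) • X k t + w b c k t • covD G (X a) (X k) t) := by
      rw [ContinuousLinearMap.sum_apply, ← Finset.sum_add_distrib]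
      refine Finset.sum_congr rfl fun k _ => ?_
      rw [ContinuousLinearMap.add_apply, ContinuousLinearMap.smul_apply,
        ContinuousLinearMap.smulRight_apply]
      have h4 : covD G (X a) (X k) t = fderiv ℝ (X k) t (X a t) + chr G t (X a t) (X k t) := rfl
      rw [h4, smul_add]
      abel
    rw [h3]
    simp only [h2, Finset.sum_add_distrib, add_smul, Finset.sum_smul]
    congr 1
    exact Finset.sum_comm
  have hcov3 : ∀ a b c, covD G (fun y => fderiv ℝ (X b) y (X a y) - fderiv ℝ (X a) y (X b y))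
      (X c) t = ∑ d, (∑ k, C a b k * w k c d t) • X d t := by
    intro a b c
    have h1 : covD G (fun y => fderiv ℝ (X b) y (X a y) - fderiv ℝ (X a) y (X b y)) (X c) t =
        fderiv ℝ (X c) t (∑ k, C a b k • X k t) + chr G t (∑ k, C a b k • X k t) (X c t) := by
      rw [← hbr t ht a b]
      rfl
    rw [h1, map_sum, map_comb (fun u => chr G t u (X c t)) (fun r u u' => hl1 t r u u' (X c t)),
      ← Finset.sum_add_distrib]
    have h2 : ∀ k, fderiv ℝ (X c) t (C a b k • X k t) + C a b k • chr G t (X k t) (X c t) =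
        ∑ d, (C a b k * w k c d t) • X d t := by
      intro k
      have h4 : covD G (X k) (X c) t = fderiv ℝ (X c) t (X k t) + chr G t (X k t) (X c t) := rfl
      rw [map_smul, ← smul_add, ← h4, hcov t ht k c, Finset.smul_sum]
      exact Finset.sum_congr rfl fun d _ => by rw [smul_smul]
    simp only [h2, Finset.sum_smul]
    exact Finset.sum_comm
  have hriem : ∀ a b c, riem G t (X a t) (X b t) (X c t) =
      ∑ d, RmF (fun a b c => w a b c t) (fun a b c d => fderiv ℝ (w b c d) t (X a t)) C a b c d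
        • X d t := by
    intro a b c
    rw [hRiem n U G (X a) (X b) (X c) hG (hX a) (hX b) (hX c) t ht, hcov2, hcov2, hcov3,
      ← Finset.sum_sub_distrib, ← Finset.sum_sub_distrib]
    refine Finset.sum_congr rfl fun d _ => ?_
    rw [← sub_smul, ← sub_smul]
    congr 1
    unfold RmF
    rw [Finset.sum_sub_distrib]
    ring
  refine ⟨hriem, fun b c => ?_⟩
  have h5 := trace_frame (mkL (fun u => riem G t u (X b t) (X c t))
    (fun r u u' => hr1 t ht r u u' _ _)) (fun a => X a t) (hspan t ht) (fun a d =>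
      RmF (fun a b c => w a b c t) (fun a b c d => fderiv ℝ (w b c d) t (X a t)) C a b c d)
    (fun a => hriem a b c)
  rw [← h5, ← trace_single]
  rfl

end Pool.Agent.Lib.MP_2795bc_gt.SOL
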