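import Pool.Agent.Lib.MP_2795bc_gt.SOL.GStmts

/-!
# MP_2795bc_gt: the map `Fe`
-/

set_option autoImplicit false

open scoped Manifold ContDiff Topology Quaternion
open Bundle

noncomputable section

namespace Pool.Agent.Lib.MP_2795bc_gt.SOL

namespace FeAux

theorem isOpen_Uo : IsOpen Uo := by
  have h : Uo = {t : Eu 7 | t 0 ≠ 0} ∪ {t : Eu 7 | t 1 ≠ 0} := rfl
  rw [h]
  have c : ∀ i : Fin 7, Continuous fun t : Eu 7 => t i := fun i =>
    (EuclideanSpace.proj (𝕜 := ℝ) i).continuous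
  exact (isOpen_ne_fun (c 0) continuous_const).union (isOpen_ne_fun (c 1) continuous_const)

theorem dense_Uo : Dense Uo := by
  let L : Eu 7 →L[ℝ] ℝ := EuclideanSpace.proj (𝕜 := ℝ) (0 : Fin 7)
  have hs : Function.Surjective L := by
    intro r
    refine ⟨EuclideanSpace.single 0 r, ?_⟩
    simp [L]
  have hd : Dense (L ⁻¹' ({0}ᶜ : Set ℝ)) :=
    (dense_compl_singleton (0 : ℝ)).preimage (L.isOpenMap hs)
  refine hd.mono fun t ht => ?_
  exact Or.inl ht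

theorem eta2_pos {t : Eu 7} (ht : t ∈ Uo) : 0 < eta2 t := by
  unfold eta2
  have h1 : 0 < t 0 ^ 2 + t 1 ^ 2 := by
    rcases ht with h | h
    · have := pow_pos (abs_pos.mpr h) 2
      rw [sq_abs] at this
      positivity
    · have := pow_pos (abs_pos.mpr h) 2
      rw [sq_abs] at this
      positivity
  positivity

theorem sgn_sq (b : Bool) : sgn b ^ 2 = 1 := by
  cases b <;> simp [sgn]

theorem x_sq_lt (e : Ix) {t : Eu 7} (ht : t ∈ Uo) : (Phi e t).2.1 ^ 2 < 1 := by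
  have hr := eta2_pos ht
  have h : (Phi e t).2.1 = sgn e.1 * ((1 - eta2 t) / (1 + eta2 t)) := rfl
  rw [h, mul_pow, sgn_sq, one_mul, div_pow, div_lt_one (by positivity)]
  nlinarith

theorem hasDeriv_h {x : ℝ} (hx : x ^ 2 < 1) :
    HasDerivAt (fun y : ℝ => 1 / Real.sqrt (1 - y ^ 2)) (x / Real.sqrt (1 - x ^ 2) ^ 3) x := by
  have hp : 0 < 1 - x ^ 2 := by linarith
  have hs : 0 < Real.sqrt (1 - x ^ 2) := Real.sqrt_pos.mpr hp
  have h1 : HasDerivAt (fun y : ℝ => 1 - y ^ 2) (-(2 * x)) x := by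
    have := (hasDerivAt_pow 2 x).const_sub 1
    simpa using this
  have h2 := h1.sqrt hp.ne'
  have h3 := h2.inv hs.ne'
  have h4 : (fun y : ℝ => 1 / Real.sqrt (1 - y ^ 2)) = (fun y : ℝ => Real.sqrt (1 - y ^ 2))⁻¹ := by
    funext y
    simp [one_div]
  rw [h4]
  refine h3.congr_deriv ?_
  field_simp

/-- the map on the ambient space -/
def GG (w : WW) : QQ := (w.2.1, (1 / Real.sqrt (1 - w.2.1 ^ 2)) • w.1, w.2.2.2)

/-- projection to the `ξ` component -/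
def prξ : WW →L[ℝ] HH := ContinuousLinearMap.fst ℝ HH (ℝ × HH × HH)

theorem hasFDeriv_GG {w : WW} (hx : w.2.1 ^ 2 < 1) :
    HasFDerivAt GG (prx.prod (((1 / Real.sqrt (1 - w.2.1 ^ 2)) • prξ +
      ((w.2.1 / Real.sqrt (1 - w.2.1 ^ 2) ^ 3) • prx).smulRight w.1).prod prz)) w := by
  have hX : HasFDerivAt (fun w : WW => w.2.1) prx w := prx.hasFDerivAt
  have hξ : HasFDerivAt (fun w : WW => w.1) prξ w := prξ.hasFDerivAt
  have hz : HasFDerivAt (fun w : WW => w.2.2.2) prz w := prz.hasFDerivAt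
  have hc : HasFDerivAt (fun w : WW => 1 / Real.sqrt (1 - w.2.1 ^ 2))
      ((w.2.1 / Real.sqrt (1 - w.2.1 ^ 2) ^ 3) • prx) w :=
    HasDerivAt.comp_hasFDerivAt (h₂ := fun y : ℝ => 1 / Real.sqrt (1 - y ^ 2))
      (f := fun w : WW => w.2.1) w (hasDeriv_h hx) hX
  exact hX.prodMk ((hc.smul hξ).prodMk hz)

theorem key (s X P ψ : ℝ) (hs : s ≠ 0) (h : s ^ 2 = P) :
    1 / s * ψ * -X + X / s ^ 3 * (ψ * P) = 0 := by
  subst h
  field_simp
  ring

theorem GG_VW {w : WW} (hx : w.2.1 ^ 2 < 1) (f : Fn) :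
    (prx.prod (((1 / Real.sqrt (1 - w.2.1 ^ 2)) • prξ +
      ((w.2.1 / Real.sqrt (1 - w.2.1 ^ 2) ^ 3) • prx).smulRight w.1).prod prz)) (VW f w) =
      psi f w.2.1 • Ef (GG w) 0 := by
  have hp : 0 < 1 - w.2.1 ^ 2 := by linarith
  have hs : 0 < Real.sqrt (1 - w.2.1 ^ 2) := Real.sqrt_pos.mpr hp
  have hsq : Real.sqrt (1 - w.2.1 ^ 2) ^ 2 = 1 - w.2.1 ^ 2 := Real.sq_sqrt hp.le
  have h0 : Ef (GG w) 0 = (1 - w.2.1 ^ 2, 0, 0) := rfl
  rw [h0]
  have h1 : prx (VW f w) = psi f w.2.1 * (1 - w.2.1 ^ 2) := rfl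
  have h2 : prξ (VW f w) = psi f w.2.1 • (-(w.2.1 • w.1)) := rfl
  have h3 : prz (VW f w) = psi f w.2.1 • (0 : HH) := rfl
  refine Prod.ext ?_ (Prod.ext ?_ ?_)
  · exact h1
  · change (1 / Real.sqrt (1 - w.2.1 ^ 2)) • prξ (VW f w) +
      ((w.2.1 / Real.sqrt (1 - w.2.1 ^ 2) ^ 3) * prx (VW f w)) • w.1 = psi f w.2.1 • (0 : HH)
    rw [h1, h2, smul_zero, ← neg_smul, smul_smul, smul_smul, ← add_smul]
    rw [key _ _ _ _ hs.ne' hsq, zero_smul]
  · exact h3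

theorem contDiffOn_Fe (h : StChart) (e : Ix) : ContDiffOn ℝ ∞ (Fe e) Uo := by
  have hP : ContDiffOn ℝ ∞ (Phi e) Uo := (h.2.2.2.2.1 e).contDiffOn
  have hX : ContDiffOn ℝ ∞ (fun t => (Phi e t).2.1) Uo := prx.contDiff.comp_contDiffOn hP
  have hξ : ContDiffOn ℝ ∞ (fun t => (Phi e t).1) Uo := prξ.contDiff.comp_contDiffOn hP
  have hz : ContDiffOn ℝ ∞ (fun t => (Phi e t).2.2.2) Uo := prz.contDiff.comp_contDiffOn hP
  have hp : ContDiffOn ℝ ∞ (fun t => 1 - (Phi e t).2.1 ^ 2) Uo := contDiffOn_const.sub (hX.pow 2)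
  have hs : ContDiffOn ℝ ∞ (fun t => Real.sqrt (1 - (Phi e t).2.1 ^ 2)) Uo :=
    hp.sqrt fun t ht => by
      have := x_sq_lt e ht
      linarith
  have hi : ContDiffOn ℝ ∞ (fun t => 1 / Real.sqrt (1 - (Phi e t).2.1 ^ 2)) Uo :=
    contDiffOn_const.div hs fun t ht => by
      have := x_sq_lt e ht
      exact (Real.sqrt_pos.mpr (by linarith)).ne'
  exact hX.prodMk ((hi.smul hξ).prodMk hz)

end FeAux

open FeAux in
theorem stFe : StChart → StTan → StFe := by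
  intro hC hT
  refine ⟨isOpen_Uo, dense_Uo, fun e => ⟨contDiffOn_Fe hC e, fun t ht => ?_⟩⟩
  have hx := x_sq_lt e ht
  have hMS := (hC.1 e t).1
  have hp : 0 < 1 - (Phi e t).2.1 ^ 2 := by linarith
  refine ⟨hx, ?_, hMS.2.2.2.2, fun f => ?_⟩
  · change Quaternion.normSq ((1 / Real.sqrt (1 - (Phi e t).2.1 ^ 2)) • (Phi e t).1) = 1
    have h1 : Quaternion.normSq (Phi e t).1 = 1 - (Phi e t).2.1 ^ 2 := by
      have := hMS.1
      linarith
    rw [Quaternion.normSq_smul, h1, one_div, inv_pow, Real.sq_sqrt hp.le]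
    exact inv_mul_cancel₀ hp.ne'
  · have hd : DifferentiableAt ℝ (Phi e) t :=
      (hC.2.2.2.2.1 e).contDiffAt.differentiableAt (by simp)
    have h1 : HasFDerivAt (Fe e) ((prx.prod (((1 / Real.sqrt (1 - (Phi e t).2.1 ^ 2)) • prξ +
      (((Phi e t).2.1 / Real.sqrt (1 - (Phi e t).2.1 ^ 2) ^ 3) • prx).smulRight
        (Phi e t).1).prod prz)).comp (fderiv ℝ (Phi e) t)) t :=
      (hasFDeriv_GG hx).comp t hd.hasFDerivAt
    rw [h1.fderiv, ContinuousLinearMap.comp_apply, (hT f e t).1, GG_VW hx f]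
    rfl

end Pool.Agent.Lib.MP_2795bc_gt.SOL
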