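import Pool.Agent.Lib.MP_2795bc_gt.SOL.GStmts

/-!
# MP_2795bc_gt, module Frame: existence of the frame
-/

open scoped Manifold ContDiff Topology Quaternion
open Bundle

noncomputable section

namespace Pool.Agent.Lib.MP_2795bc_gt.SOL

namespace FrameAux

theorem qmul_re (a b : HH) : (a * b).re = a.re * b.re - a.imI * b.imI - a.imJ * b.imJ - a.imK * b.imK :=
  Quaternion.re_mul a b

/-- coordinates of the inner product -/
theorem inner_eq (a b : HH) : inner ℝ a b =
    a.re * b.re + a.imI * b.imI + a.imJ * b.imJ + a.imK * b.imK := by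
  rw [Quaternion.inner_def, Quaternion.re_mul]
  simp only [Quaternion.re_star, Quaternion.imI_star, Quaternion.imJ_star, Quaternion.imK_star]
  ring

theorem mul_qi (s : HH) : s * qi = ⟨-s.imI, s.re, s.imK, -s.imJ⟩ := by
  ext <;> simp [qi]

theorem mul_qj (s : HH) : s * qj = ⟨-s.imJ, -s.imK, s.re, s.imI⟩ := by
  ext <;> simp [qj]

theorem mul_qk (s : HH) : s * qk = ⟨-s.imK, s.imJ, -s.imI, s.re⟩ := by
  ext <;> simp [qk]

/-- expansion in the basis `s, si, sj, sk` -/
theorem expand (s v : HH) (hs : Quaternion.normSq s = 1) (hv : inner ℝ s v = 0) :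
    v = inner ℝ (s * qi) v • (s * qi) + inner ℝ (s * qj) v • (s * qj) +
      inner ℝ (s * qk) v • (s * qk) := by
  rw [Quaternion.normSq_def'] at hs
  rw [inner_eq] at hv
  rw [inner_eq, inner_eq, inner_eq, mul_qi, mul_qj, mul_qk]
  ext
  · simp only [Quaternion.re_add, Quaternion.re_smul, smul_eq_mul]
    linear_combination (-v.re) * hs + s.re * hv
  · simp only [Quaternion.imI_add, Quaternion.imI_smul, smul_eq_mul]
    linear_combination (-v.imI) * hs + s.imI * hv
  · simp only [Quaternion.imJ_add, Quaternion.imJ_smul, smul_eq_mul]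
    linear_combination (-v.imJ) * hs + s.imJ * hv
  · simp only [Quaternion.imK_add, Quaternion.imK_smul, smul_eq_mul]
    linear_combination (-v.imK) * hs + s.imK * hv

theorem cof_add (q v w : QQ) : cof q (v + w) = cof q v + cof q w := by
  funext a
  fin_cases a <;> simp [cof, inner_add_right, add_div]

theorem cof_smul (q : QQ) (r : ℝ) (v : QQ) : cof q (r • v) = r • cof q v := by
  funext a
  fin_cases a <;> simp [cof, inner_smul_right, mul_div_assoc]

/-- reconstruction of a tangent vector -/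
theorem recon (q v : QQ) (h1 : q.1 ^ 2 < 1) (h2 : Quaternion.normSq q.2.1 = 1)
    (h3 : Quaternion.normSq q.2.2 = 1) (h4 : inner ℝ q.2.1 v.2.1 = 0)
    (h5 : inner ℝ q.2.2 v.2.2 = 0) : ∑ a, cof q v a • Ef q a = v := by
  have e1 := expand q.2.1 v.2.1 h2 h4
  have e2 := expand q.2.2 v.2.2 h3 h5
  have h0 : (1 : ℝ) - q.1 ^ 2 ≠ 0 := by linarith
  rw [Fin.sum_univ_seven]
  refine Prod.ext ?_ (Prod.ext ?_ ?_)
  · simp [cof, Ef, h0]
  · conv_rhs => rw [e1]
    simp [cof, Ef]
  · conv_rhs => rw [e2]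
    simp [cof, Ef]

/-- the derivative of the frame fields -/
def dEf (q v : QQ) : Fin 7 → QQ := ![(-(2 * q.1 * v.1), 0, 0), (0, v.2.1 * qi, 0),
  (0, v.2.1 * qj, 0), (0, v.2.1 * qk, 0), (0, 0, v.2.2 * qi), (0, 0, v.2.2 * qj),
  (0, 0, v.2.2 * qk)]

theorem hasFDerivAt_mul_const_apply {E : Type*} [NormedAddCommGroup E] [NormedSpace ℝ E]
    {f : E → HH} {t : E} (hf : DifferentiableAt ℝ f t) (c : HH) (w : E) :
    fderiv ℝ (fun y => f y * c) t w = fderiv ℝ f t w * c := by
  rw [fderiv_mul_const' hf]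
  simp

theorem fderiv_Ef {F : Eu 7 → QQ} {t : Eu 7} (hF : DifferentiableAt ℝ F t) (w : Eu 7)
    (b : Fin 7) : fderiv ℝ (fun y => Ef (F y) b) t w = dEf (F t) (fderiv ℝ F t w) b := by
  have h1 : DifferentiableAt ℝ (fun y => (F y).1) t := hF.fst
  have h2 : DifferentiableAt ℝ (fun y => (F y).2.1) t := hF.snd.fst
  have h3 : DifferentiableAt ℝ (fun y => (F y).2.2) t := hF.snd.snd
  have e1 : fderiv ℝ (fun y => (F y).1) t w = (fderiv ℝ F t w).1 := by
    rw [hF.hasFDerivAt.fst.fderiv]; rfl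
  have e2 : fderiv ℝ (fun y => (F y).2.1) t w = (fderiv ℝ F t w).2.1 := by
    rw [hF.hasFDerivAt.snd.fst.fderiv]; rfl
  have e3 : fderiv ℝ (fun y => (F y).2.2) t w = (fderiv ℝ F t w).2.2 := by
    rw [hF.hasFDerivAt.snd.snd.fderiv]; rfl
  have k1 : ∀ f : Eu 7 → HH, DifferentiableAt ℝ f t →
      fderiv ℝ (fun y => ((0 : ℝ), f y, (0 : HH))) t w = (0, fderiv ℝ f t w, 0) := by
    intro f hf
    have := ((hasFDerivAt_const (0 : ℝ) t).prodMk
      (hf.hasFDerivAt.prodMk (hasFDerivAt_const (0 : HH) t))).fderiv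
    rw [this]; rfl
  have k2 : ∀ f : Eu 7 → HH, DifferentiableAt ℝ f t →
      fderiv ℝ (fun y => ((0 : ℝ), (0 : HH), f y)) t w = (0, 0, fderiv ℝ f t w) := by
    intro f hf
    have := ((hasFDerivAt_const (0 : ℝ) t).prodMk
      ((hasFDerivAt_const (0 : HH) t).prodMk hf.hasFDerivAt)).fderiv
    rw [this]; rfl
  have m : ∀ (f : Eu 7 → HH) (c : HH), DifferentiableAt ℝ f t →
      DifferentiableAt ℝ (fun y => f y * c) t := fun f c hf => hf.mul_const c
  fin_cases b
  · change fderiv ℝ (fun y => ((1 - (F y).1 ^ 2 : ℝ), (0 : HH), (0 : HH))) t w = _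
    have h4 : HasFDerivAt (fun y => (1 - (F y).1 ^ 2 : ℝ))
        (-((2 : ℕ) * (F t).1 ^ (2 - 1)) • fderiv ℝ (fun y => (F y).1) t) t := by
      have := (h1.hasFDerivAt.pow 2).const_sub 1
      simpa using this
    have := (h4.prodMk ((hasFDerivAt_const (0 : HH) t).prodMk
      (hasFDerivAt_const (0 : HH) t))).fderiv
    rw [this]
    refine Prod.ext ?_ (Prod.ext rfl rfl)
    change (-((2 : ℕ) * (F t).1 ^ (2 - 1)) • fderiv ℝ (fun y => (F y).1) t) w =
      -(2 * (F t).1 * (fderiv ℝ F t w).1)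
    rw [← e1]
    simp
  · refine (k1 _ (m _ qi h2)).trans ?_
    rw [hasFDerivAt_mul_const_apply h2, e2]; rfl
  · refine (k1 _ (m _ qj h2)).trans ?_
    rw [hasFDerivAt_mul_const_apply h2, e2]; rfl
  · refine (k1 _ (m _ qk h2)).trans ?_
    rw [hasFDerivAt_mul_const_apply h2, e2]; rfl
  · refine (k2 _ (m _ qi h3)).trans ?_
    rw [hasFDerivAt_mul_const_apply h3, e3]; rfl
  · refine (k2 _ (m _ qj h3)).trans ?_
    rw [hasFDerivAt_mul_const_apply h3, e3]; rfl
  · refine (k2 _ (m _ qk h3)).trans ?_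
    rw [hasFDerivAt_mul_const_apply h3, e3]; rfl

theorem qij (s : HH) : s * qi * qj = s * qk := by
  rw [mul_qi, mul_qj, mul_qk]; ext <;> simp
theorem qji (s : HH) : s * qj * qi = -(s * qk) := by
  rw [mul_qj, mul_qi, mul_qk]; ext <;> simp
theorem qjk (s : HH) : s * qj * qk = s * qi := by
  rw [mul_qj, mul_qk, mul_qi]; ext <;> simp
theorem qkj (s : HH) : s * qk * qj = -(s * qi) := by
  rw [mul_qk, mul_qj, mul_qi]; ext <;> simp
theorem qki (s : HH) : s * qk * qi = s * qj := by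
  rw [mul_qk, mul_qi, mul_qj]; ext <;> simp
theorem qik (s : HH) : s * qi * qk = -(s * qj) := by
  rw [mul_qi, mul_qk, mul_qj]; ext <;> simp

theorem two_eq (s : HH) : s + s = (2 : ℝ) • s := (two_smul ℝ s).symm
theorem two_eq' (s : HH) : -s - s = (-2 : ℝ) • s := by
  rw [neg_smul, two_smul]; abel

/-- the brackets of the frame fields -/
theorem brk (q : QQ) (a b : Fin 7) :
    dEf q (Ef q a) b - dEf q (Ef q b) a = ∑ c, ct a b c • Ef q c := by
  rw [Fin.sum_univ_seven]
  fin_cases a <;> fin_cases b <;>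
    refine Prod.ext ?_ (Prod.ext ?_ ?_) <;>
    simp [dEf, Ef, ct, qij, qji, qjk, qkj, qki, qik, two_eq, two_eq']

/-- the frame as a matrix -/
def Lm (F : Eu 7 → QQ) (t : Eu 7) : Eu 7 →L[ℝ] (Fin 7 → ℝ) :=
  LinearMap.toContinuousLinearMap
    { toFun := fun u => cof (F t) (fderiv ℝ F t u)
      map_add' := fun u v => by rw [map_add, cof_add]
      map_smul' := fun r u => by rw [map_smul, cof_smul]; rfl }

theorem Lm_apply (F : Eu 7 → QQ) (t u : Eu 7) : Lm F t u = cof (F t) (fderiv ℝ F t u) := rfl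

theorem contDiffOn_Lm {U : Set (Eu 7)} {F : Eu 7 → QQ} (hU : IsOpen U) (hF : ContDiffOn ℝ ∞ F U)
    (h1 : ∀ t ∈ U, (F t).1 ^ 2 < 1) : ContDiffOn ℝ ∞ (Lm F) U := by
  rw [contDiffOn_clm_apply]
  intro u
  have hdF : ContDiffOn ℝ ∞ (fun t => fderiv ℝ F t u) U :=
    (hF.fderiv_of_isOpen hU (by simp)).clm_apply contDiffOn_const
  have g1 : ContDiffOn ℝ ∞ (fun t => (F t).1) U := hF.fst
  have g2 : ContDiffOn ℝ ∞ (fun t => (F t).2.1) U := hF.snd.fst
  have g3 : ContDiffOn ℝ ∞ (fun t => (F t).2.2) U := hF.snd.snd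
  have d1 : ContDiffOn ℝ ∞ (fun t => (fderiv ℝ F t u).1) U := hdF.fst
  have d2 : ContDiffOn ℝ ∞ (fun t => (fderiv ℝ F t u).2.1) U := hdF.snd.fst
  have d3 : ContDiffOn ℝ ∞ (fun t => (fderiv ℝ F t u).2.2) U := hdF.snd.snd
  rw [contDiffOn_pi]
  intro a
  fin_cases a
  · change ContDiffOn ℝ ∞ (fun t => (fderiv ℝ F t u).1 / (1 - (F t).1 ^ 2)) U
    refine d1.div (contDiffOn_const.sub (g1.pow 2)) fun t ht => ?_
    have := h1 t ht
    linarith
  · exact (g2.mul (contDiffOn_const (c := qi))).inner ℝ d2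
  · exact (g2.mul (contDiffOn_const (c := qj))).inner ℝ d2
  · exact (g2.mul (contDiffOn_const (c := qk))).inner ℝ d2
  · exact (g3.mul (contDiffOn_const (c := qi))).inner ℝ d3
  · exact (g3.mul (contDiffOn_const (c := qj))).inner ℝ d3
  · exact (g3.mul (contDiffOn_const (c := qk))).inner ℝ d3

/-- tangency to the unit sphere -/
theorem tangent {U : Set (Eu 7)} {f : Eu 7 → HH} (hU : IsOpen U)
    (h : ∀ t ∈ U, Quaternion.normSq (f t) = 1) {t : Eu 7} (ht : t ∈ U)
    (hf : DifferentiableAt ℝ f t) (w : Eu 7) : inner ℝ (f t) (fderiv ℝ f t w) = 0 := by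
  have e : (fun y => inner ℝ (f y) (f y)) =ᶠ[𝓝 t] fun _ => (1 : ℝ) := by
    filter_upwards [hU.mem_nhds ht] with y hy
    rw [Quaternion.inner_self, h y hy]
  have h2 := e.fderiv_eq (𝕜 := ℝ)
  have h3 := fderiv_inner_apply ℝ hf hf w
  rw [h2] at h3
  simp only [fderiv_fun_const, Pi.zero_apply, zero_apply] at h3
  rw [real_inner_comm (f t) (fderiv ℝ f t w)] at h3
  linarith

end FrameAux

open FrameAux

/-- **Module Frame.** -/
theorem stFrame : StFrame := by
  intro U F hU hF hyp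
  have hdiff : ∀ t ∈ U, DifferentiableAt ℝ F t := fun t ht =>
    (hF.contDiffAt (hU.mem_nhds ht)).differentiableAt (by simp)
  -- tangent vectors
  have hrec : ∀ t ∈ U, ∀ u, ∑ a, cof (F t) (fderiv ℝ F t u) a • Ef (F t) a = fderiv ℝ F t u := by
    intro t ht u
    obtain ⟨p1, p2, p3, _⟩ := hyp t ht
    have hd := hdiff t ht
    have e2 : fderiv ℝ (fun y => (F y).2.1) t u = (fderiv ℝ F t u).2.1 := by
      rw [hd.hasFDerivAt.snd.fst.fderiv]; rfl
    have e3 : fderiv ℝ (fun y => (F y).2.2) t u = (fderiv ℝ F t u).2.2 := by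
      rw [hd.hasFDerivAt.snd.snd.fderiv]; rfl
    refine recon _ _ p1 p2 p3 ?_ ?_
    · rw [← e2]
      exact tangent hU (fun y hy => (hyp y hy).2.1) ht hd.snd.fst u
    · rw [← e3]
      exact tangent hU (fun y hy => (hyp y hy).2.2.1) ht hd.snd.snd u
  -- `Lm` is invertible
  have hinj : ∀ t ∈ U, Function.Injective (Lm F t) := by
    intro t ht u v huv
    apply (hyp t ht).2.2.2
    rw [← hrec t ht u, ← hrec t ht v]
    rw [Lm_apply, Lm_apply] at huv
    rw [huv]
  have hequiv : ∀ t ∈ U, ∃ e : Eu 7 ≃L[ℝ] (Fin 7 → ℝ), (e : Eu 7 →L[ℝ] (Fin 7 → ℝ)) = Lm F t := by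
    intro t ht
    have hs : Function.Surjective (Lm F t) := by
      have h1 : Module.finrank ℝ (Eu 7) = Module.finrank ℝ (Fin 7 → ℝ) := by simp
      exact (LinearMap.injective_iff_surjective_of_finrank_eq_finrank
        (f := (Lm F t : Eu 7 →ₗ[ℝ] (Fin 7 → ℝ))) h1).1 (hinj t ht)
    exact ⟨ContinuousLinearEquiv.ofBijective (Lm F t)
      (LinearMap.ker_eq_bot.2 (hinj t ht)) (LinearMap.range_eq_top.2 hs), rfl⟩
  set X : Fin 7 → Eu 7 → Eu 7 := fun a t => (Lm F t).inverse (Pi.single a 1) with hX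
  have hLX : ∀ t ∈ U, ∀ a, Lm F t (X a t) = Pi.single a 1 := by
    intro t ht a
    obtain ⟨e, he⟩ := hequiv t ht
    simp only [hX]
    rw [← he, ContinuousLinearMap.inverse_equiv]
    exact e.apply_symm_apply _
  have hXs : ∀ a, ContDiffOn ℝ ∞ (X a) U := by
    intro a
    have h1 := contDiffOn_Lm hU hF (fun t ht => (hyp t ht).1)
    have h2 : ContDiffOn ℝ ∞ (fun t => (Lm F t).inverse) U := by
      intro t ht
      obtain ⟨e, he⟩ := hequiv t ht
      have h3 := contDiffAt_map_inverse (n := ∞) e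
      rw [he] at h3
      exact h3.comp_contDiffWithinAt t (h1 t ht)
    exact h2.clm_apply contDiffOn_const
  have hFX : ∀ t ∈ U, ∀ a, fderiv ℝ F t (X a t) = Ef (F t) a := by
    intro t ht a
    rw [← hrec t ht (X a t), ← Lm_apply, hLX t ht a]
    simp [Pi.single_apply]
  refine ⟨X, hXs, fun t ht => ⟨hFX t ht, ?_, ?_, ?_⟩⟩
  · intro a b
    rw [← Lm_apply, hLX t ht a, Pi.single_apply]
    simp only [eq_comm]
  · intro u
    apply hinj t ht
    rw [map_sum, ← Lm_apply]
    simp only [map_smul, hLX t ht]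
    funext b
    simp [Pi.single_apply]
  · intro a b
    have hd := hdiff t ht
    have hXd : ∀ a, DifferentiableAt ℝ (X a) t := fun a =>
      ((hXs a).contDiffAt (hU.mem_nhds ht)).differentiableAt (by simp)
    have hdF : DifferentiableAt ℝ (fderiv ℝ F) t :=
      ((hF.fderiv_of_isOpen (m := ∞) hU (by simp)).contDiffAt (hU.mem_nhds ht)).differentiableAt
        (by simp)
    have key : ∀ a b, fderiv ℝ (fderiv ℝ F) t (X a t) (X b t) +
        fderiv ℝ F t (fderiv ℝ (X b) t (X a t)) = dEf (F t) (Ef (F t) a) b := by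
      intro a b
      have e : (fun y => fderiv ℝ F y (X b y)) =ᶠ[𝓝 t] fun y => Ef (F y) b := by
        filter_upwards [hU.mem_nhds ht] with y hy
        exact hFX y hy b
      have h0 := e.fderiv_eq (𝕜 := ℝ)
      have h2 := congrArg (fun L : Eu 7 →L[ℝ] QQ => L (X a t)) h0
      rw [fderiv_Ef hd, hFX t ht a] at h2
      rw [← h2, (hdF.hasFDerivAt.clm_apply (hXd b).hasFDerivAt).fderiv]
      simp [add_comm]
    have hsymm : fderiv ℝ (fderiv ℝ F) t (X a t) (X b t) =
        fderiv ℝ (fderiv ℝ F) t (X b t) (X a t) := by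
      have h3 : IsSymmSndFDerivAt ℝ F t :=
        (hF.contDiffAt (hU.mem_nhds ht)).isSymmSndFDerivAt (by
          rw [minSmoothness_of_isRCLikeNormedField]
          exact WithTop.coe_le_coe.2 le_top)
      exact h3 _ _
    apply (hyp t ht).2.2.2
    rw [map_sub, map_sum]
    simp only [map_smul, hFX t ht]
    rw [← brk, ← key a b, ← key b a, hsymm]
    abel

end Pool.Agent.Lib.MP_2795bc_gt.SOL
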