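import Pool.Agent.Lib.MP_2795bc_gt.SOL.GDefs

/-!
# MP_2795bc_gt: statements of the geometric modules
-/

open scoped Manifold ContDiff Topology Quaternion
open Bundle

noncomputable section

namespace Pool.Agent.Lib.MP_2795bc_gt.SOL

/-! ### 1. Charts -/

/-- the eight parametrisations are charts of `MS` -/
def StChart : Prop :=
  (∀ e t, Phi e t ∈ MS ∧ Phi e t ∈ Os e) ∧
  (∀ e t, cc e (Phi e t) = t) ∧
  (∀ e w, w ∈ MS → w ∈ Os e → Phi e (cc e w) = w) ∧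
  (∀ w ∈ MS, ∃ e, w ∈ Os e) ∧
  (∀ e, ContDiff ℝ ∞ (Phi e)) ∧ (∀ e, IsOpen (Os e)) ∧ (∀ e, ContDiffOn ℝ ∞ (cc e) (Os e))

/-- the vector field is tangent -/
def StTan : Prop := ∀ (f : Fn) (e : Ix) (t : Eu 7),
  fderiv ℝ (Phi e) t (Vm f e t) = VW f (Phi e t) ∧
  Vm f e t = WithLp.toLp 2 ![-(sgn e.1 * psi f (Phi e t).2.1 * t 0),
    -(sgn e.1 * psi f (Phi e t).2.1 * t 1), 0, 0, 0, 0, 0]

/-- `MS` is compact and connected -/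
def StTop : Prop := IsCompact MS ∧ IsConnected MS

/-- regularity of the metric and the vector field in the charts -/
def StGm : Prop := ∀ f : Fn, f.Good → ∀ e : Ix,
  ContDiff ℝ ∞ (Gm f e) ∧ (∀ t u v, Gm f e t u v = Gm f e t v u) ∧
  (∀ t u, u ≠ 0 → 0 < Gm f e t u u) ∧ ContDiff ℝ ∞ (Vm f e)

/-! ### 2. Abstract manifold theory -/

/-- Gluing: parametrisations of a subset of a normed space give a manifold, and compatible metrics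
and vector fields in the parametrisations come from a metric and a vector field on it. -/
def StGlue : Prop := ∀ (n : ℕ) (W : Type) [NormedAddCommGroup W] [NormedSpace ℝ W]
  (S : Set W) (ι : Type) (Φ : ι → Eu n → W) (c : ι → W → Eu n) (O : ι → Set W)
  (B : W → W →L[ℝ] W →L[ℝ] ℝ) (V : W → W),
  (∀ e t, Φ e t ∈ S ∧ Φ e t ∈ O e) → (∀ e t, c e (Φ e t) = t) →
  (∀ e w, w ∈ S → w ∈ O e → Φ e (c e w) = w) → (∀ w ∈ S, ∃ e, w ∈ O e) →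
  (∀ e, ContDiff ℝ ∞ (Φ e)) → (∀ e, IsOpen (O e)) → (∀ e, ContDiffOn ℝ ∞ (c e) (O e)) →
  IsCompact S → IsConnected S →
  (∀ e, ContDiff ℝ ∞ fun t =>
    ((B (Φ e t)).bilinearComp (fderiv ℝ (Φ e) t) (fderiv ℝ (Φ e) t) :
      Eu n →L[ℝ] Eu n →L[ℝ] ℝ)) →
  (∀ w ∈ S, ∀ u v, B w u v = B w v u) →
  (∀ e t u, u ≠ 0 → 0 < B (Φ e t) (fderiv ℝ (Φ e) t u) (fderiv ℝ (Φ e) t u)) →
  (∀ e, ContDiff ℝ ∞ fun t => fderiv ℝ (c e) (Φ e t) (V (Φ e t))) →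
  (∀ e t, fderiv ℝ (Φ e) t (fderiv ℝ (c e) (Φ e t) (V (Φ e t))) = V (Φ e t)) →
  ∃ (M : Type) (_ : TopologicalSpace M) (_ : ChartedSpace (Eu n) M) (_ : IsManifold (𝓡 n) ∞ M),
    CompactSpace M ∧ T2Space M ∧ ConnectedSpace M ∧
    ∃ (g : ContMDiffRiemannianMetric (𝓡 n) ∞ (Eu n) (fun x : M => TangentSpace (𝓡 n) x))
      (X : VecField n M) (j : M → W),
      ContMDiff (𝓡 n) (𝓡 n).tangent ∞ (fun x => (⟨x, X x⟩ : TangentBundle (𝓡 n) M)) ∧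
      Set.range j = S ∧
      ∀ p : M, ∃ e : ι, (extChartAt (𝓡 n) p).target = Set.univ ∧
        (∀ t, coordMetric g.inner p t =
          (B (Φ e t)).bilinearComp (fderiv ℝ (Φ e) t) (fderiv ℝ (Φ e) t)) ∧
        (∀ t, coordField X p t = fderiv ℝ (c e) (Φ e t) (V (Φ e t))) ∧
        (∀ q ∈ (extChartAt (𝓡 n) p).source, Φ e (extChartAt (𝓡 n) p q) = j q)

/-! ### 3. Local Riemannian geometry -/

/-- regularity and linearity of the Christoffel symbols and of the curvature -/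
def StReg : Prop := ∀ (n : ℕ) (G : Eu n → Eu n →L[ℝ] Eu n →L[ℝ] ℝ) (U : Set (Eu n)),
  IsMetricOn G U →
  (∀ u v, ContDiffOn ℝ ∞ (fun t => chr G t u v) U) ∧
  (∀ u v w, ContDiffOn ℝ ∞ (fun t => riem G t u v w) U) ∧
  (∀ u v, ContDiffOn ℝ ∞ (fun t => ric G t u v) U) ∧
  (∀ t ∈ U, ∀ u v w, G t (chr G t u v) w =
    (1 / 2) * (fderiv ℝ G t u v w + fderiv ℝ G t v u w - fderiv ℝ G t w u v)) ∧
  (∀ t ∈ U, ∀ u v, chr G t u v = chr G t v u) ∧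
  (∀ t, ∀ (r : ℝ) (u u' v : Eu n), chr G t (r • u + u') v = r • chr G t u v + chr G t u' v) ∧
  (∀ t, ∀ (r : ℝ) (u v v' : Eu n), chr G t u (r • v + v') = r • chr G t u v + chr G t u v') ∧
  (∀ t ∈ U, ∀ (r : ℝ) (u u' v w : Eu n),
    riem G t (r • u + u') v w = r • riem G t u v w + riem G t u' v w) ∧
  (∀ t ∈ U, ∀ (r : ℝ) (u v v' w : Eu n),
    riem G t u (r • v + v') w = r • riem G t u v w + riem G t u v' w) ∧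
  (∀ t ∈ U, ∀ (r : ℝ) (u v w w' : Eu n),
    riem G t u v (r • w + w') = r • riem G t u v w + riem G t u v w') ∧
  (∀ t ∈ U, ∀ (r : ℝ) (v v' w : Eu n), ric G t (r • v + v') w = r * ric G t v w + ric G t v' w) ∧
  (∀ t ∈ U, ∀ (r : ℝ) (v w w' : Eu n), ric G t v (r • w + w') = r * ric G t v w + ric G t v w')

/-- curvature in a frame -/
def RmF {n : ℕ} (w : Fin n → Fin n → Fin n → ℝ) (dw : Fin n → Fin n → Fin n → Fin n → ℝ)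
    (C : Fin n → Fin n → Fin n → ℝ) (a b c d : Fin n) : ℝ :=
  dw a b c d - dw b a c d + (∑ k, (w b c k * w a k d - w a c k * w b k d)) - ∑ k, C a b k * w k c d

/-- Curvature in an orthogonal frame with constant structure coefficients `C`; `w a b c` is the
coefficient of `X c` in `∇_{X a} X b`. -/
def StFRM : Prop := ∀ (n : ℕ) (U : Set (Eu n)) (G : Eu n → Eu n →L[ℝ] Eu n →L[ℝ] ℝ)
  (X : Fin n → Eu n → Eu n) (q : Fin n → Eu n → ℝ) (C : Fin n → Fin n → Fin n → ℝ)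
  (w : Fin n → Fin n → Fin n → Eu n → ℝ),
  IsMetricOn G U → (∀ a, ContDiffOn ℝ ∞ (X a) U) → (∀ a, ContDiffOn ℝ ∞ (q a) U) →
  (∀ a b c, ContDiffOn ℝ ∞ (w a b c) U) →
  (∀ t ∈ U, ∀ a b, G t (X a t) (X b t) = if a = b then q a t else 0) →
  (∀ t ∈ U, ∀ a, q a t ≠ 0) →
  (∀ t ∈ U, ∀ u, ∃ r : Fin n → ℝ, u = ∑ a, r a • X a t) →
  (∀ t ∈ U, ∀ a b, fderiv ℝ (X b) t (X a t) - fderiv ℝ (X a) t (X b t) = ∑ c, C a b c • X c t) →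
  (∀ t ∈ U, ∀ a b c, 2 * w a b c t * q c t = (if b = c then fderiv ℝ (q b) t (X a t) else 0)
    + (if a = c then fderiv ℝ (q a) t (X b t) else 0)
    - (if a = b then fderiv ℝ (q a) t (X c t) else 0)
    + C a b c * q c t - C a c b * q b t - C b c a * q a t) →
  ∀ t ∈ U, (∀ a b c, riem G t (X a t) (X b t) (X c t) =
      ∑ d, RmF (fun a b c => w a b c t) (fun a b c d => fderiv ℝ (w b c d) t (X a t)) C a b c d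
        • X d t) ∧
    ∀ b c, ric G t (X b t) (X c t) =
      ∑ a, RmF (fun a b c => w a b c t) (fun a b c d => fderiv ℝ (w b c d) t (X a t)) C a b c a

/-- Lie derivative of the metric on vector fields -/
def StLie : Prop := ∀ (n : ℕ) (U : Set (Eu n)) (G : Eu n → Eu n →L[ℝ] Eu n →L[ℝ] ℝ)
  (V A B : Eu n → Eu n), IsOpen U → ContDiffOn ℝ ∞ G U → ContDiffOn ℝ ∞ V U →
  ContDiffOn ℝ ∞ A U → ContDiffOn ℝ ∞ B U → ∀ t ∈ U,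
  lieG G V t (A t) (B t) = fderiv ℝ (fun y => G y (A y) (B y)) t (V t)
    - G t (fderiv ℝ A t (V t) - fderiv ℝ V t (A t)) (B t)
    - G t (A t) (fderiv ℝ B t (V t) - fderiv ℝ V t (B t))

/-- In a Riemannian product some non-scalar endomorphism commutes with the curvature. -/
def StNat : Prop := ∀ (k l n : ℕ), 0 < k → 0 < l → k + l = n →
  ∀ (U₁ : Set (Eu k)) (U₂ : Set (Eu l)) (G₁ : Eu k → Eu k →L[ℝ] Eu k →L[ℝ] ℝ)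
    (G₂ : Eu l → Eu l →L[ℝ] Eu l →L[ℝ] ℝ) (U' : Set (Eu k × Eu l)) (ψ : Eu k × Eu l → Eu n)
    (G : Eu n → Eu n →L[ℝ] Eu n →L[ℝ] ℝ),
  IsMetricOn G₁ U₁ → IsMetricOn G₂ U₂ → IsOpen U' → U' ⊆ U₁ ×ˢ U₂ → ContDiffOn ℝ ∞ ψ U' →
  IsMetricOn G Set.univ →
  (∀ y ∈ U', ∀ u v, G (ψ y) (fderiv ℝ ψ y u) (fderiv ℝ ψ y v) = G₁ y.1 u.1 v.1 + G₂ y.2 u.2 v.2) →
  ∀ y ∈ U', ∃ Pr : Eu n →ₗ[ℝ] Eu n,
    (∀ u v w, Pr (riem G (ψ y) u v w) = riem G (ψ y) u v (Pr w)) ∧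
    ¬ ∃ μ : ℝ, ∀ u, Pr u = μ • u

/-! ### 4. The frame -/

/-- `(x, s, z)` -/
abbrev QQ : Type := ℝ × HH × HH

/-- `(x, ξ/√(1-x²), z)` in the chart `e` -/
def Fe (e : Ix) (t : Eu 7) : QQ :=
  ((Phi e t).2.1, (1 / Real.sqrt (1 - (Phi e t).2.1 ^ 2)) • (Phi e t).1, (Phi e t).2.2.2)

/-- the frame fields on `(-1,1) × S³ × S³` -/
def Ef (q : QQ) : Fin 7 → QQ := ![(1 - q.1 ^ 2, 0, 0), (0, q.2.1 * qi, 0), (0, q.2.1 * qj, 0),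
  (0, q.2.1 * qk, 0), (0, 0, q.2.2 * qi), (0, 0, q.2.2 * qj), (0, 0, q.2.2 * qk)]

/-- the dual coframe -/
def cof (q v : QQ) : Fin 7 → ℝ := ![v.1 / (1 - q.1 ^ 2), inner ℝ (q.2.1 * qi) v.2.1,
  inner ℝ (q.2.1 * qj) v.2.1, inner ℝ (q.2.1 * qk) v.2.1, inner ℝ (q.2.2 * qi) v.2.2,
  inner ℝ (q.2.2 * qj) v.2.2, inner ℝ (q.2.2 * qk) v.2.2]

/-- structure constants `[X_a, X_b] = ∑ ct a b c X_c` -/
def ct : Fin 7 → Fin 7 → Fin 7 → ℝ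
  | 1, 2, 3 => 2 | 2, 1, 3 => -2 | 2, 3, 1 => 2 | 3, 2, 1 => -2 | 3, 1, 2 => 2 | 1, 3, 2 => -2
  | 4, 5, 6 => 2 | 5, 4, 6 => -2 | 5, 6, 4 => 2 | 6, 5, 4 => -2 | 6, 4, 5 => 2 | 4, 6, 5 => -2
  | _, _, _ => 0

/-- the open dense part of a chart -/
def Uo : Set (Eu 7) := {t | t 0 ≠ 0 ∨ t 1 ≠ 0}

/-- lengths of the frame fields -/
def qf (f : Fn) (x : ℝ) : Fin 7 → ℝ := ![f.c x * sp x ^ 2 * (1 - x ^ 2), f.c x * (1 - x ^ 2),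
  4 * f.c x / f.b x, 4 * f.c x / f.b x, 2 * f.c x / f.e x, 2 * f.c x / f.e x, 2 * f.c x / f.e x]

/-- `Fe` -/
def StFe : Prop := IsOpen Uo ∧ Dense Uo ∧ ∀ e : Ix, ContDiffOn ℝ ∞ (Fe e) Uo ∧
  ∀ t ∈ Uo, (Fe e t).1 ^ 2 < 1 ∧ Quaternion.normSq (Fe e t).2.1 = 1 ∧
    Quaternion.normSq (Fe e t).2.2 = 1 ∧
    (∀ f : Fn, fderiv ℝ (Fe e) t (Vm f e t) = psi f (Fe e t).1 • Ef (Fe e t) 0)

/-- the metric in terms of `Fe` -/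
def StBB : Prop := ∀ (f : Fn) (e : Ix), ∀ t ∈ Uo, ∀ u v : Eu 7,
  f.b (Fe e t).1 ≠ 0 →
  Gm f e t u v = ∑ a, qf f (Fe e t).1 a * cof (Fe e t) (fderiv ℝ (Fe e) t u) a
    * cof (Fe e t) (fderiv ℝ (Fe e) t v) a

/-- existence of the frame -/
def StFrame : Prop := ∀ (U : Set (Eu 7)) (F : Eu 7 → QQ), IsOpen U → ContDiffOn ℝ ∞ F U →
  (∀ t ∈ U, (F t).1 ^ 2 < 1 ∧ Quaternion.normSq (F t).2.1 = 1 ∧
    Quaternion.normSq (F t).2.2 = 1 ∧ Function.Injective (fderiv ℝ F t)) →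
  ∃ X : Fin 7 → Eu 7 → Eu 7, (∀ a, ContDiffOn ℝ ∞ (X a) U) ∧ ∀ t ∈ U,
    (∀ a, fderiv ℝ F t (X a t) = Ef (F t) a) ∧
    (∀ a b, cof (F t) (fderiv ℝ F t (X a t)) b = if a = b then 1 else 0) ∧
    (∀ u, u = ∑ a, cof (F t) (fderiv ℝ F t u) a • X a t) ∧
    (∀ a b, fderiv ℝ (X b) t (X a t) - fderiv ℝ (X a) t (X b t) = ∑ c, ct a b c • X c t)

/-! ### 5. The table of the connection -/

/-- `tab 2 1 ...` is the connection, `tab 0 0 ...` its derivative along `X_0` -/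
def tab (two one A0 A1 A2 A4 B1 B2 B4 t : ℝ) : Fin 7 → Fin 7 → Fin 7 → ℝ
  | 0, 0, 0 => A0
  | 0, 1, 1 => A1 | 1, 0, 1 => A1 | 1, 1, 0 => -B1
  | 0, 2, 2 => A2 | 2, 0, 2 => A2 | 2, 2, 0 => -B2
  | 0, 3, 3 => A2 | 3, 0, 3 => A2 | 3, 3, 0 => -B2
  | 0, 4, 4 => A4 | 4, 0, 4 => A4 | 4, 4, 0 => -B4
  | 0, 5, 5 => A4 | 5, 0, 5 => A4 | 5, 5, 0 => -B4
  | 0, 6, 6 => A4 | 6, 0, 6 => A4 | 6, 6, 0 => -B4
  | 1, 2, 3 => two - t | 1, 3, 2 => t - two | 2, 1, 3 => -t | 3, 1, 2 => t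
  | 2, 3, 1 => one | 3, 2, 1 => -one
  | 4, 5, 6 => one | 5, 4, 6 => -one | 4, 6, 5 => -one | 6, 4, 5 => one
  | 5, 6, 4 => one | 6, 5, 4 => -one
  | _, _, _ => 0

/-- curvature of the table -/
def RT (A0 A1 A2 A4 B1 B2 B4 t dA0 dA1 dA2 dA4 dB1 dB2 dB4 dt : ℝ) (a b c d : Fin 7) : ℝ :=
  RmF (tab 2 1 A0 A1 A2 A4 B1 B2 B4 t)
    (fun a => if a = 0 then tab 0 0 dA0 dA1 dA2 dA4 dB1 dB2 dB4 dt else fun _ _ _ => 0) ct a b c d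

/-- Ricci curvature of the table, off-diagonal -/
def StTabOff : Prop := ∀ (A0 A1 A2 A4 B1 B2 B4 t dA0 dA1 dA2 dA4 dB1 dB2 dB4 dt : ℝ)
  (b c : Fin 7), b ≠ c → ∑ a, RT A0 A1 A2 A4 B1 B2 B4 t dA0 dA1 dA2 dA4 dB1 dB2 dB4 dt a b c a = 0

/-- Ricci curvature of the table, diagonal -/
def StTabDiag : Prop := ∀ (A0 A1 A2 A4 B1 B2 B4 t dA0 dA1 dA2 dA4 dB1 dB2 dB4 dt : ℝ),
  (∑ a, RT A0 A1 A2 A4 B1 B2 B4 t dA0 dA1 dA2 dA4 dB1 dB2 dB4 dt a 0 0 a =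
    (A0 * A1 - dA1 - A1 ^ 2) + 2 * (A0 * A2 - dA2 - A2 ^ 2) + 3 * (A0 * A4 - dA4 - A4 ^ 2)) ∧
  (∑ a, RT A0 A1 A2 A4 B1 B2 B4 t dA0 dA1 dA2 dA4 dB1 dB2 dB4 dt a 1 1 a =
    -dB1 - A0 * B1 + A1 * B1 - 3 * B1 * A4 - 2 * B1 * A2 + 2 * t ^ 2) ∧
  (∀ b : Fin 7, b = 2 ∨ b = 3 →
    ∑ a, RT A0 A1 A2 A4 B1 B2 B4 t dA0 dA1 dA2 dA4 dB1 dB2 dB4 dt a b b a =
    -dB2 - A0 * B2 + A2 * B2 - 3 * B2 * A4 - B2 * A1 - B2 * A2 + 4 - 2 * t) ∧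
  (∀ b : Fin 7, b = 4 ∨ b = 5 ∨ b = 6 →
    ∑ a, RT A0 A1 A2 A4 B1 B2 B4 t dA0 dA1 dA2 dA4 dB1 dB2 dB4 dt a b b a =
    -dB4 - A0 * B4 + A4 * B4 - 2 * B4 * A4 - B4 * A1 - 2 * B4 * A2 + 2)

/-- mixed curvature of the table: `R(X_a, Y_i)` for `a ≤ 3 < i` -/
def StTabMix : Prop := ∀ (A0 A1 A2 A4 B1 B2 B4 t dA0 dA1 dA2 dA4 dB1 dB2 dB4 dt : ℝ)
  (a i : Fin 7), a ≤ 3 → 3 < i →
  (∀ c d : Fin 7, ¬ (c = a ∧ d = i) → ¬ (c = i ∧ d = a) →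
    RT A0 A1 A2 A4 B1 B2 B4 t dA0 dA1 dA2 dA4 dB1 dB2 dB4 dt a i c d = 0) ∧
  RT A0 A1 A2 A4 B1 B2 B4 t dA0 dA1 dA2 dA4 dB1 dB2 dB4 dt a i a i =
    ![dA4 + A4 ^ 2 - A0 * A4, B1 * A4, B2 * A4, B2 * A4, 0, 0, 0] a ∧
  RT A0 A1 A2 A4 B1 B2 B4 t dA0 dA1 dA2 dA4 dB1 dB2 dB4 dt a i i a =
    ![-dB4 - A0 * B4 + A4 * B4, -(B4 * A1), -(B4 * A2), -(B4 * A2), 0, 0, 0] a

/-- the connection coefficients as functions of `x` -/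
def Aq (f : Fn) (a : Fin 7) (x : ℝ) : ℝ :=
  (1 - x ^ 2) * deriv (fun y => qf f y a) x / (2 * qf f x a)
/-- and -/
def Bq (f : Fn) (a : Fin 7) (x : ℝ) : ℝ :=
  (1 - x ^ 2) * deriv (fun y => qf f y a) x / (2 * qf f x 0)
/-- and -/
def tq (f : Fn) (x : ℝ) : ℝ := qf f x 1 / qf f x 2

/-- the connection table at `x` -/
def wf (f : Fn) (x : ℝ) : Fin 7 → Fin 7 → Fin 7 → ℝ :=
  tab 2 1 (Aq f 0 x) (Aq f 1 x) (Aq f 2 x) (Aq f 4 x) (Bq f 1 x) (Bq f 2 x) (Bq f 4 x) (tq f x)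

/-- the Koszul formula for the table -/
def StKos : Prop := ∀ f : Fn, f.Good → ∀ x ∈ Set.Ioo (-1 : ℝ) 1, ∀ a b c : Fin 7,
  2 * wf f x a b c * qf f x c =
    (if b = c then (if a = 0 then (1 - x ^ 2) * deriv (fun y => qf f y b) x else 0) else 0)
    + (if a = c then (if b = 0 then (1 - x ^ 2) * deriv (fun y => qf f y a) x else 0) else 0)
    - (if a = b then (if c = 0 then (1 - x ^ 2) * deriv (fun y => qf f y a) x else 0) else 0)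
    + ct a b c * qf f x c - ct a c b * qf f x b - ct b c a * qf f x a

/-- The four soliton identities. `'` is `(1-x²) d/dx`. -/
def StE : Prop := ∀ f : Fn, f.Good → ∀ x ∈ Set.Ioo (-1 : ℝ) 1,
  let A0 := Aq f 0 x; let A1 := Aq f 1 x; let A2 := Aq f 2 x; let A4 := Aq f 4 x
  let B1 := Bq f 1 x; let B2 := Bq f 2 x; let B4 := Bq f 4 x; let t := tq f x
  let dA1 := (1 - x ^ 2) * deriv (Aq f 1) x; let dA2 := (1 - x ^ 2) * deriv (Aq f 2) x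
  let dA4 := (1 - x ^ 2) * deriv (Aq f 4) x
  let dB1 := (1 - x ^ 2) * deriv (Bq f 1) x; let dB2 := (1 - x ^ 2) * deriv (Bq f 2) x
  let dB4 := (1 - x ^ 2) * deriv (Bq f 4) x
  let Q := fun a : Fin 7 => (1 - x ^ 2) * deriv (fun y => qf f y a) x
  ((A0 * A1 - dA1 - A1 ^ 2) + 2 * (A0 * A2 - dA2 - A2 ^ 2) + 3 * (A0 * A4 - dA4 - A4 ^ 2)
    + (1 / 2) * psi f x * Q 0 + (1 - x ^ 2) * deriv (psi f) x * qf f x 0 = qf f x 0) ∧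
  (-dB1 - A0 * B1 + A1 * B1 - 3 * B1 * A4 - 2 * B1 * A2 + 2 * t ^ 2
    + (1 / 2) * psi f x * Q 1 = qf f x 1) ∧
  (-dB2 - A0 * B2 + A2 * B2 - 3 * B2 * A4 - B2 * A1 - B2 * A2 + 4 - 2 * t
    + (1 / 2) * psi f x * Q 2 = qf f x 2) ∧
  (-dB4 - A0 * B4 + A4 * B4 - 2 * B4 * A4 - B4 * A1 - 2 * B4 * A2 + 2
    + (1 / 2) * psi f x * Q 4 = qf f x 4)

/-- The four mixed curvature coefficients do not vanish at `x = 0`, and the metric is not Einstein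
there. -/
def StAt0 : Prop := ∀ f : Fn, f.Good →
  deriv (Aq f 4) 0 + Aq f 4 0 ^ 2 - Aq f 0 0 * Aq f 4 0 ≠ 0 ∧
  -deriv (Bq f 4) 0 - Aq f 0 0 * Bq f 4 0 + Aq f 4 0 * Bq f 4 0 ≠ 0 ∧
  Aq f 4 0 ≠ 0 ∧ Aq f 1 0 ≠ 0 ∧ Aq f 2 0 ≠ 0 ∧ Bq f 1 0 ≠ 0 ∧ Bq f 2 0 ≠ 0 ∧ Bq f 4 0 ≠ 0 ∧
  psi f 0 ≠ 0 ∧ Aq f 1 0 ≠ Aq f 4 0 ∧
  (∀ x ∈ Set.Ioo (-1 : ℝ) 1, ∀ a, qf f x a ≠ 0)

/-- regularity of the coefficient functions on `(-1, 1)` -/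
def StQReg : Prop := ∀ f : Fn, f.Good →
  (∀ a, ContDiffOn ℝ ∞ (fun x => qf f x a) (Set.Ioo (-1 : ℝ) 1)) ∧
  (∀ a, ContDiffOn ℝ ∞ (Aq f a) (Set.Ioo (-1 : ℝ) 1)) ∧
  (∀ a, ContDiffOn ℝ ∞ (Bq f a) (Set.Ioo (-1 : ℝ) 1)) ∧
  ContDiffOn ℝ ∞ (tq f) (Set.Ioo (-1 : ℝ) 1) ∧ ContDiffOn ℝ ∞ (psi f) (Set.Ioo (-1 : ℝ) 1) ∧
  (∀ a b c, ContDiffOn ℝ ∞ (fun x => wf f x a b c) (Set.Ioo (-1 : ℝ) 1)) ∧
  ∀ x ∈ Set.Ioo (-1 : ℝ) 1, ∀ a b c, deriv (fun y => wf f y a b c) x =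
    tab 0 0 (deriv (Aq f 0) x) (deriv (Aq f 1) x) (deriv (Aq f 2) x) (deriv (Aq f 4) x)
      (deriv (Bq f 1) x) (deriv (Bq f 2) x) (deriv (Bq f 4) x) (deriv (tq f) x) a b c

/-! ### 6. The results in the charts -/

/-- the frame, its curvature, in the chart `e` on `Uo` -/
def StCurv : Prop := ∀ f : Fn, f.Good → ∀ e : Ix, ∃ X : Fin 7 → Eu 7 → Eu 7,
  (∀ a, ContDiffOn ℝ ∞ (X a) Uo) ∧ ∀ t ∈ Uo,
    (∀ a b, Gm f e t (X a t) (X b t) = if a = b then qf f (Phi e t).2.1 a else 0) ∧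
    (∀ u, ∃ r : Fin 7 → ℝ, u = ∑ a, r a • X a t) ∧
    (∀ a b, fderiv ℝ (X b) t (X a t) - fderiv ℝ (X a) t (X b t) = ∑ c, ct a b c • X c t) ∧
    Vm f e t = psi f (Phi e t).2.1 • X 0 t ∧
    (∀ (h : ℝ → ℝ) (a : Fin 7), DifferentiableAt ℝ h (Phi e t).2.1 →
      fderiv ℝ (fun y => h (Phi e y).2.1) t (X a t) =
        if a = 0 then (1 - (Phi e t).2.1 ^ 2) * deriv h (Phi e t).2.1 else 0) ∧
    let x := (Phi e t).2.1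
    let R := RT (Aq f 0 x) (Aq f 1 x) (Aq f 2 x) (Aq f 4 x) (Bq f 1 x) (Bq f 2 x) (Bq f 4 x)
      (tq f x) ((1 - x ^ 2) * deriv (Aq f 0) x) ((1 - x ^ 2) * deriv (Aq f 1) x)
      ((1 - x ^ 2) * deriv (Aq f 2) x) ((1 - x ^ 2) * deriv (Aq f 4) x)
      ((1 - x ^ 2) * deriv (Bq f 1) x) ((1 - x ^ 2) * deriv (Bq f 2) x)
      ((1 - x ^ 2) * deriv (Bq f 4) x) ((1 - x ^ 2) * deriv (tq f) x)
    (∀ a b c, riem (Gm f e) t (X a t) (X b t) (X c t) = ∑ d, R a b c d • X d t) ∧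
    (∀ b c, ric (Gm f e) t (X b t) (X c t) = ∑ a, R a b c a)

/-- the soliton equation in the charts -/
def StLoc : Prop := ∀ f : Fn, f.Good → ∀ (e : Ix) (t u v : Eu 7),
  ric (Gm f e) t u v + (1 / 2) * lieG (Gm f e) (Vm f e) t u v = Gm f e t u v

/-- not Einstein -/
def StNonEin : Prop := ∀ f : Fn, f.Good → ∀ (e : Ix) (c : ℝ),
  ¬ ∀ t u v : Eu 7, ric (Gm f e) t u v = c * Gm f e t u v

/-- only scalars commute with the curvature at points with `x = 0` -/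
def StComm : Prop := ∀ f : Fn, f.Good → ∀ (e : Ix) (t : Eu 7), (Phi e t).2.1 = 0 →
  ∀ Pr : Eu 7 →ₗ[ℝ] Eu 7,
    (∀ u v w, Pr (riem (Gm f e) t u v w) = riem (Gm f e) t u v (Pr w)) → ∃ μ : ℝ, ∀ u, Pr u = μ • u

end Pool.Agent.Lib.MP_2795bc_gt.SOL
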