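import Pool.Agent.Lib.MP_2795bc_gt.SOL.GStmts

/-!
# MP_2795bc_gt: smaller statements used to prove those of `GStmts.lean`
-/

open scoped Manifold ContDiff Topology Quaternion
open Bundle

noncomputable section

namespace Pool.Agent.Lib.MP_2795bc_gt.SOL

/-! ### Charts -/

/-- the basic parametrisation -/
def StChA : Prop := ∀ t : Eu 7, Phi0 t ∈ MS ∧ 0 < 1 + (Phi0 t).2.1 ∧
  0 < 1 + (Phi0 t).2.2.1.imI ∧ 0 < 1 + (Phi0 t).2.2.2.re ∧ cc0 (Phi0 t) = t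

/-- its inverse -/
def StChB : Prop := ∀ w ∈ MS, 0 < 1 + w.2.1 → 0 < 1 + w.2.2.1.imI → 0 < 1 + w.2.2.2.re →
  Phi0 (cc0 w) = w

/-- the domain of `cc0` -/
def Os0 : Set WW := {w | 0 < 1 + w.2.1 ∧ 0 < 1 + w.2.2.1.imI ∧ 0 < 1 + w.2.2.2.re}

/-- smoothness -/
def StChC : Prop := ContDiff ℝ ∞ Phi0 ∧ ContDiffOn ℝ ∞ cc0 Os0

/-- the symmetries -/
def StChD : Prop := (∀ e, ∀ w ∈ MS, Te e w ∈ MS ∧ Tei e w ∈ MS) ∧
  (∀ e w, Te e (Tei e w) = w ∧ Tei e (Te e w) = w) ∧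
  (∀ e w, w ∈ Os e ↔ Tei e w ∈ Os0) ∧ (∀ e, ContDiff ℝ ∞ (Te e)) ∧ (∀ e, ContDiff ℝ ∞ (Tei e)) ∧
  (∀ w ∈ MS, ∃ e, w ∈ Os e) ∧ ∀ e, IsOpen (Os e)

/-! ### Abstract manifold theory -/

/-- the manifold structure -/
def StGlueM : Prop := ∀ (n : ℕ) (W : Type) [NormedAddCommGroup W] [NormedSpace ℝ W]
  (S : Set W) (ι : Type) (Φ : ι → Eu n → W) (c : ι → W → Eu n) (O : ι → Set W),
  (∀ e t, Φ e t ∈ S ∧ Φ e t ∈ O e) → (∀ e t, c e (Φ e t) = t) →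
  (∀ e w, w ∈ S → w ∈ O e → Φ e (c e w) = w) → (∀ w ∈ S, ∃ e, w ∈ O e) →
  (∀ e, ContDiff ℝ ∞ (Φ e)) → (∀ e, IsOpen (O e)) → (∀ e, ContDiffOn ℝ ∞ (c e) (O e)) →
  IsCompact S → IsConnected S →
  ∃ (M : Type) (_ : TopologicalSpace M) (_ : ChartedSpace (Eu n) M) (_ : IsManifold (𝓡 n) ∞ M),
    CompactSpace M ∧ T2Space M ∧ ConnectedSpace M ∧
    ∃ j : M → W, ContMDiff (𝓡 n) 𝓘(ℝ, W) ∞ j ∧ Set.range j = S ∧
      ∀ p : M, ∃ e : ι, (extChartAt (𝓡 n) p).target = Set.univ ∧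
        (∀ t, j ((extChartAt (𝓡 n) p).symm t) = Φ e t) ∧
        (∀ q ∈ (extChartAt (𝓡 n) p).source, j q ∈ O e ∧ extChartAt (𝓡 n) p q = c e (j q))

/-- a metric from its coordinate expressions -/
def StGlueMet : Prop := ∀ (n : ℕ) (M : Type) [TopologicalSpace M] [ChartedSpace (Eu n) M]
  [IsManifold (𝓡 n) ∞ M] (h : FormField n M),
  (∀ p, ContDiffOn ℝ ∞ (coordMetric h p) (extChartAt (𝓡 n) p).target) →
  (∀ (p : M) (u v : TangentSpace (𝓡 n) p), h p u v = h p v u) →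
  (∀ (p : M) (u : TangentSpace (𝓡 n) p), u ≠ 0 → 0 < h p u u) →
  ∃ g : ContMDiffRiemannianMetric (𝓡 n) ∞ (Eu n) (fun x : M => TangentSpace (𝓡 n) x),
    g.inner = h

/-- a vector field from its coordinate expressions -/
def StGlueVec : Prop := ∀ (n : ℕ) (M : Type) [TopologicalSpace M] [ChartedSpace (Eu n) M]
  [IsManifold (𝓡 n) ∞ M] (X : VecField n M),
  (∀ p, ContDiffOn ℝ ∞ (coordField X p) (extChartAt (𝓡 n) p).target) →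
  ContMDiff (𝓡 n) (𝓡 n).tangent ∞ (fun x => (⟨x, X x⟩ : TangentBundle (𝓡 n) M))

/-! ### Local Riemannian geometry -/

/-- smoothness of Christoffel symbols and curvature -/
def StRegS : Prop := ∀ (n : ℕ) (G : Eu n → Eu n →L[ℝ] Eu n →L[ℝ] ℝ) (U : Set (Eu n)),
  IsMetricOn G U →
  (∀ u v, ContDiffOn ℝ ∞ (fun t => chr G t u v) U) ∧
  (∀ u v w, ContDiffOn ℝ ∞ (fun t => riem G t u v w) U) ∧
  (∀ u v, ContDiffOn ℝ ∞ (fun t => ric G t u v) U)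

/-- algebra of Christoffel symbols and curvature -/
def StRegL : Prop := ∀ (n : ℕ) (G : Eu n → Eu n →L[ℝ] Eu n →L[ℝ] ℝ) (U : Set (Eu n)),
  IsMetricOn G U → (∀ u v, ContDiffOn ℝ ∞ (fun t => chr G t u v) U) →
  (∀ t ∈ U, ∀ u v w, G t (chr G t u v) w =
    (1 / 2) * (fderiv ℝ G t u v w + fderiv ℝ G t v u w - fderiv ℝ G t w u v)) ∧
  (∀ t ∈ U, ∀ u v, chr G t u v = chr G t v u) ∧
  (∀ t, ∀ (r : ℝ) (u u' v : Eu n), chr G t (r • u + u') v = r • chr G t u v + chr G t u' v) ∧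
  (∀ t, ∀ (r : ℝ) (u v v' : Eu n), chr G t u (r • v + v') = r • chr G t u v + chr G t u v') ∧
  (∀ t ∈ U, ∀ (r : ℝ) (u u' v w : Eu n),
    riem G t (r • u + u') v w = r • riem G t u v w + riem G t u' v w) ∧
  (∀ t ∈ U, ∀ (r : ℝ) (u v v' w : Eu n),
    riem G t u (r • v + v') w = r • riem G t u v w + riem G t u v' w) ∧
  (∀ t ∈ U, ∀ (r : ℝ) (u v w w' : Eu n),
    riem G t u v (r • w + w') = r • riem G t u v w + riem G t u v w') ∧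
  (∀ t ∈ U, ∀ (r : ℝ) (v v' w : Eu n), ric G t (r • v + v') w = r * ric G t v w + ric G t v' w) ∧
  (∀ t ∈ U, ∀ (r : ℝ) (v w w' : Eu n), ric G t v (r • w + w') = r * ric G t v w + ric G t v w')

/-- covariant derivative of the vector field `B` along `A` -/
def covD {n : ℕ} (G : Eu n → Eu n →L[ℝ] Eu n →L[ℝ] ℝ) (A B : Eu n → Eu n) (t : Eu n) : Eu n :=
  fderiv ℝ B t (A t) + chr G t (A t) (B t)

/-- the connection in an orthogonal frame -/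
def StCovF : Prop := ∀ (n : ℕ) (U : Set (Eu n)) (G : Eu n → Eu n →L[ℝ] Eu n →L[ℝ] ℝ)
  (X : Fin n → Eu n → Eu n) (q : Fin n → Eu n → ℝ) (C : Fin n → Fin n → Fin n → ℝ)
  (w : Fin n → Fin n → Fin n → Eu n → ℝ),
  IsMetricOn G U → (∀ a, ContDiffOn ℝ ∞ (X a) U) → (∀ a, ContDiffOn ℝ ∞ (q a) U) →
  (∀ t ∈ U, ∀ a b, G t (X a t) (X b t) = if a = b then q a t else 0) →
  (∀ t ∈ U, ∀ a, q a t ≠ 0) →
  (∀ t ∈ U, ∀ u, ∃ r : Fin n → ℝ, u = ∑ a, r a • X a t) →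
  (∀ t ∈ U, ∀ a b, fderiv ℝ (X b) t (X a t) - fderiv ℝ (X a) t (X b t) = ∑ c, C a b c • X c t) →
  (∀ t ∈ U, ∀ a b c, 2 * w a b c t * q c t = (if b = c then fderiv ℝ (q b) t (X a t) else 0)
    + (if a = c then fderiv ℝ (q a) t (X b t) else 0)
    - (if a = b then fderiv ℝ (q a) t (X c t) else 0)
    + C a b c * q c t - C a c b * q b t - C b c a * q a t) →
  ∀ t ∈ U, ∀ a b, covD G (X a) (X b) t = ∑ c, w a b c t • X c t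

/-- curvature of vector fields -/
def StRiemF : Prop := ∀ (n : ℕ) (U : Set (Eu n)) (G : Eu n → Eu n →L[ℝ] Eu n →L[ℝ] ℝ)
  (A B C : Eu n → Eu n), IsMetricOn G U → ContDiffOn ℝ ∞ A U → ContDiffOn ℝ ∞ B U →
  ContDiffOn ℝ ∞ C U → ∀ t ∈ U,
  riem G t (A t) (B t) (C t) = covD G A (covD G B C) t - covD G B (covD G A C) t
    - covD G (fun y => fderiv ℝ B y (A y) - fderiv ℝ A y (B y)) C t

/-- naturality of the curvature -/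
def StNatA : Prop := ∀ (E F : Type) [NormedAddCommGroup E] [NormedSpace ℝ E]
  [FiniteDimensional ℝ E] [NormedAddCommGroup F] [NormedSpace ℝ F] [FiniteDimensional ℝ F]
  (U : Set E) (U₂ : Set F) (ψ : E → F) (H : E → E →L[ℝ] E →L[ℝ] ℝ) (G : F → F →L[ℝ] F →L[ℝ] ℝ),
  Module.finrank ℝ E = Module.finrank ℝ F → IsOpen U → IsOpen U₂ → (∀ y ∈ U, ψ y ∈ U₂) →
  ContDiffOn ℝ ∞ ψ U → ContDiffOn ℝ ∞ H U → ContDiffOn ℝ ∞ G U₂ →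
  (∀ y ∈ U, ∀ u v, H y u v = H y v u) → (∀ y ∈ U, ∀ u, u ≠ 0 → 0 < H y u u) →
  (∀ y ∈ U₂, ∀ u v, G y u v = G y v u) → (∀ y ∈ U₂, ∀ u, u ≠ 0 → 0 < G y u u) →
  (∀ y ∈ U, ∀ u v, G (ψ y) (fderiv ℝ ψ y u) (fderiv ℝ ψ y v) = H y u v) →
  ∀ y ∈ U, ∀ u v w,
    riem G (ψ y) (fderiv ℝ ψ y u) (fderiv ℝ ψ y v) (fderiv ℝ ψ y w) =
      fderiv ℝ ψ y (riem H y u v w)

/-- curvature of a product -/
def StNatB : Prop := ∀ (k l : ℕ) (U₁ : Set (Eu k)) (U₂ : Set (Eu l))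
  (G₁ : Eu k → Eu k →L[ℝ] Eu k →L[ℝ] ℝ) (G₂ : Eu l → Eu l →L[ℝ] Eu l →L[ℝ] ℝ),
  IsMetricOn G₁ U₁ → IsMetricOn G₂ U₂ →
  ∃ H : Eu k × Eu l → (Eu k × Eu l) →L[ℝ] (Eu k × Eu l) →L[ℝ] ℝ,
    ContDiffOn ℝ ∞ H (U₁ ×ˢ U₂) ∧ (∀ y u v, H y u v = G₁ y.1 u.1 v.1 + G₂ y.2 u.2 v.2) ∧
    ∀ y ∈ U₁ ×ˢ U₂, ∀ u v w,
      riem H y u v w = (riem G₁ y.1 u.1 v.1 w.1, riem G₂ y.2 u.2 v.2 w.2)

/-! ### Closed forms -/

/-- closed forms of the connection coefficients -/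
def StAB : Prop := ∀ f : Fn, f.Good → ∀ x ∈ Set.Ioo (-1 : ℝ) 1,
  0 < sp x ∧ (∀ a, 0 < qf f x a) ∧
  (∀ a, HasDerivAt (fun y => qf f y a) (2 * Aq f a x * qf f x a / (1 - x ^ 2)) x) ∧
  Aq f 0 x = ((1 - x ^ 2) * (sp x * f.nu x - 2 * x * kap x)
    - 2 * (1 - x ^ 2) * (2 * x * kap x + (1 - x ^ 2) * x / 200) / sp x - 2 * x) / 2 ∧
  Aq f 1 x = ((1 - x ^ 2) * (sp x * f.nu x - 2 * x * kap x) - 2 * x) / 2 ∧
  Aq f 2 x = (1 - x ^ 2) * sp x * f.al x / 2 ∧ Aq f 3 x = (1 - x ^ 2) * sp x * f.al x / 2 ∧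
  Aq f 4 x = (1 - x ^ 2) * sp x * f.ga x / 2 ∧ Aq f 5 x = (1 - x ^ 2) * sp x * f.ga x / 2 ∧
  Aq f 6 x = (1 - x ^ 2) * sp x * f.ga x / 2 ∧
  Bq f 1 x = ((1 - x ^ 2) * (sp x * f.nu x - 2 * x * kap x) - 2 * x) / (2 * sp x ^ 2) ∧
  Bq f 2 x = 2 * f.al x / (sp x * f.b x) ∧ Bq f 3 x = 2 * f.al x / (sp x * f.b x) ∧
  Bq f 4 x = f.ga x / (sp x * f.e x) ∧ Bq f 5 x = f.ga x / (sp x * f.e x) ∧
  Bq f 6 x = f.ga x / (sp x * f.e x) ∧ tq f x = (1 - x ^ 2) * f.b x / 4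

/-- the derivatives of the connection coefficients (`(1-x²) d/dx`) -/
def StDAB : Prop := ∀ f : Fn, f.Good → ∀ x ∈ Set.Ioo (-1 : ℝ) 1, ∀ P k s s' : ℝ,
  P = 1 - x ^ 2 → k = kap x → s = sp x → s' = -(2 * x * k) - P * x / 200 →
  let nu := f.nu x; let al := f.al x; let ga := f.ga x; let sg := f.sg x
  let b := f.b x; let c := f.c x; let e := f.e x
  let RN := 2 - s * sg * (P * nu - 2 * x) + (1 / 4) * P * s * b ^ 2 - 2 * s * c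
  let RA := -(s * sg * P * al) + 2 * s * b - (1 / 4) * P * s * b ^ 2 - 2 * s * c
  let RG := -(s * sg * P * ga) + 2 * s * e - 2 * s * c
  HasDerivAt sp s' x ∧
  P * deriv (Aq f 1) x = P * (s' * (P * nu) + s * RN - 2 * k * P + 2 * x ^ 2 * P / 200
    + 4 * x ^ 2 * k - 2) / 2 ∧
  P * deriv (Aq f 2) x = P * (s' * (P * al) + s * RA) / 2 ∧
  P * deriv (Aq f 4) x = P * (s' * (P * ga) + s * RG) / 2 ∧
  P * deriv (Bq f 1) x = P * (s' * (P * nu) + s * RN - 2 * k * P + 2 * x ^ 2 * P / 200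
    + 4 * x ^ 2 * k - 2) / (2 * s ^ 2) - P * s' * (P * (s * nu - 2 * x * k) - 2 * x) / s ^ 3 ∧
  P * deriv (Bq f 2) x = 2 * (RA + 2 * x * al) / (s * b) - 2 * P * al * s' / (s ^ 2 * b)
    - 2 * P * al * (s * nu - 2 * x * k - s * al) / (s * b) ∧
  P * deriv (Bq f 4) x = (RG + 2 * x * ga) / (s * e) - P * ga * s' / (s ^ 2 * e)
    - P * ga * (s * nu - 2 * x * k - s * ga) / (s * e) ∧
  P * deriv (psi f) x = (RA + 2 * x * al + 3 / 2 * (RG + 2 * x * ga)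
      - P * (-(2 * x * k * sg) + s * (nu * sg - b ^ 2 / 8 - al ^ 2 / 2 - 3 / 4 * ga ^ 2))) / (c * s)
    - P * (al + 3 / 2 * ga - sg) * (s * nu - 2 * x * k) / (c * s)
    - P * (al + 3 / 2 * ga - sg) * s' / (c * s ^ 2)

end Pool.Agent.Lib.MP_2795bc_gt.SOL
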