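import Pool.Agent.Lib.MP_2795bc_gt.SOL.GStmts2

/-!
# MP_2795bc_gt: gluing (`StGlue` from the manifold, the metric and the vector field)
-/

open scoped Manifold ContDiff Topology
open Bundle

noncomputable section

namespace Pool.Agent.Lib.MP_2795bc_gt.SOL

namespace GlueAux

variable {n : ℕ} {M : Type} [TopologicalSpace M] [ChartedSpace (Eu n) M]
  [IsManifold (𝓡 n) ∞ M] {W : Type} [NormedAddCommGroup W] [NormedSpace ℝ W]

/-- derivative of the inverse chart -/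
def D (p : M) (t : Eu n) : Eu n →L[ℝ] Eu n := mfderiv (𝓡 n) (𝓡 n) (extChartAt (𝓡 n) p).symm t

/-- derivative of the map -/
def dj (j : M → W) (q : M) : Eu n →L[ℝ] W := mfderiv (𝓡 n) 𝓘(ℝ, W) j q

/-- derivative of the chart -/
def E (p q : M) : Eu n →L[ℝ] Eu n := mfderiv (𝓡 n) (𝓡 n) (extChartAt (𝓡 n) p) q

theorem symm_mdiff {p : M} (ht : (extChartAt (𝓡 n) p).target = Set.univ) (t : Eu n) :
    MDifferentiableAt (𝓡 n) (𝓡 n) (extChartAt (𝓡 n) p).symm t := by
  have h : ContMDiffAt (𝓡 n) (𝓡 n) ∞ (extChartAt (𝓡 n) p).symm t := by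
    have h1 := contMDiffOn_extChartAt_symm (I := 𝓡 n) (n := ∞) p
    rw [ht] at h1
    exact (h1 t (Set.mem_univ t)).contMDiffAt Filter.univ_mem
  exact h.mdifferentiableAt (by simp)

theorem symm_mem {p : M} (ht : (extChartAt (𝓡 n) p).target = Set.univ) (t : Eu n) :
    (extChartAt (𝓡 n) p).symm t ∈ (extChartAt (𝓡 n) p).source :=
  (extChartAt (𝓡 n) p).map_target (by rw [ht]; exact Set.mem_univ t)

theorem dj_D {j : M → W} (hj : ContMDiff (𝓡 n) 𝓘(ℝ, W) ∞ j) {p : M}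
    (ht : (extChartAt (𝓡 n) p).target = Set.univ) {Φ : Eu n → W}
    (hΦ : ∀ t, j ((extChartAt (𝓡 n) p).symm t) = Φ t) (t : Eu n) :
    (dj j ((extChartAt (𝓡 n) p).symm t)).comp (D p t) = fderiv ℝ Φ t := by
  have h1 : MDifferentiableAt (𝓡 n) 𝓘(ℝ, W) j ((extChartAt (𝓡 n) p).symm t) :=
    (hj _).mdifferentiableAt (by simp)
  have h2 := mfderiv_comp (I := 𝓡 n) (I' := 𝓡 n) (I'' := 𝓘(ℝ, W)) t h1 (symm_mdiff ht t)
  have h3 : j ∘ (extChartAt (𝓡 n) p).symm = Φ := funext hΦ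
  rw [h3, mfderiv_eq_fderiv] at h2
  exact h2.symm

theorem D_E {p : M} (ht : (extChartAt (𝓡 n) p).target = Set.univ) {q : M}
    (hq : q ∈ (extChartAt (𝓡 n) p).source) :
    (D p (extChartAt (𝓡 n) p q)).comp (E p q) = ContinuousLinearMap.id ℝ (Eu n) := by
  have h := mfderivWithin_extChartAt_symm_comp_mfderiv_extChartAt' (I := 𝓡 n) (x := p) hq
  rw [ModelWithCorners.Boundaryless.range_eq_univ, mfderivWithin_univ] at h
  exact h

theorem E_eq {j : M → W} (hj : ContMDiff (𝓡 n) 𝓘(ℝ, W) ∞ j) {p : M} {c : W → Eu n} {O : Set W}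
    (hO : IsOpen O) (hc : ContDiffOn ℝ ∞ c O)
    (hq : ∀ q ∈ (extChartAt (𝓡 n) p).source, j q ∈ O ∧ extChartAt (𝓡 n) p q = c (j q)) {q : M}
    (h : q ∈ (extChartAt (𝓡 n) p).source) :
    E p q = (fderiv ℝ c (j q)).comp (dj j q) := by
  have h1 : MDifferentiableAt (𝓡 n) 𝓘(ℝ, W) j q := (hj _).mdifferentiableAt (by simp)
  have h2 : MDifferentiableAt 𝓘(ℝ, W) (𝓡 n) c (j q) :=
    ((hc.contDiffAt (hO.mem_nhds (hq q h).1)).differentiableAt (by simp)).mdifferentiableAt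
  have h3 := mfderiv_comp (I := 𝓡 n) (I' := 𝓘(ℝ, W)) (I'' := 𝓡 n) q h2 h1
  have h4 : (extChartAt (𝓡 n) p : M → Eu n) =ᶠ[𝓝 q] c ∘ j := by
    filter_upwards [(isOpen_extChartAt_source (I := 𝓡 n) p).mem_nhds h] with y hy
    exact (hq y hy).2
  have h5 : mfderiv (𝓡 n) (𝓡 n) (extChartAt (𝓡 n) p) q = mfderiv (𝓡 n) (𝓡 n) (c ∘ j) q :=
    h4.mfderiv_eq
  rw [h3, mfderiv_eq_fderiv] at h5
  exact h5

end GlueAux

open GlueAux

theorem stGlue : StGlueM → StGlueMet → StGlueVec → StGlue := by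
  intro hM hMet hVec n W _ _ S ι Φ c O B V h1 h2 h3 h4 h5 h6 h7 h8 h9 h10 h11 h12 h13 h14
  obtain ⟨M, iT, iC, iM, hcpt, hT2, hconn, j, hj, hjS, hch⟩ :=
    hM n W S ι Φ c O h1 h2 h3 h4 h5 h6 h7 h8 h9
  choose e he1 he2 he3 using hch
  -- the metric
  let h : FormField n M := fun p => (B (j p)).bilinearComp (dj j p) (dj j p)
  have hcoord : ∀ p t, coordMetric h p t =
      (B (Φ (e p) t)).bilinearComp (fderiv ℝ (Φ (e p)) t) (fderiv ℝ (Φ (e p)) t) := by
    intro p t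
    have e1 := dj_D hj (he1 p) (he2 p) t
    rw [← e1, ← he2 p t]
    rfl
  have hjq : ∀ p, Φ (e p) (extChartAt (𝓡 n) p p) = j p := by
    intro p
    rw [← he2 p, (extChartAt (𝓡 n) p).left_inv (mem_extChartAt_source p)]
  obtain ⟨g, hg⟩ := hMet n M h
    (fun p => by
      have e1 := (h10 (e p)).contDiffOn (s := (extChartAt (𝓡 n) p).target)
      refine e1.congr fun t _ => hcoord p t)
    (fun p u v => h11 (j p) (hjS ▸ Set.mem_range_self p) _ _)
    (fun p u hu => by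
      have e1 := D_E (he1 p) (mem_extChartAt_source (I := 𝓡 n) p)
      have e2 := dj_D hj (he1 p) (he2 p) (extChartAt (𝓡 n) p p)
      set u' : Eu n := E p p u with hu'
      have e3 : D p (extChartAt (𝓡 n) p p) u' = u := congrArg (fun A => A u) e1
      have e4 : u' ≠ 0 := by
        intro h0
        rw [h0, map_zero] at e3
        exact hu e3.symm
      have e5 : dj j p u = fderiv ℝ (Φ (e p)) (extChartAt (𝓡 n) p p) u' := by
        rw [← e2, (extChartAt (𝓡 n) p).left_inv (mem_extChartAt_source p)]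
        change dj j p u = dj j p (D p (extChartAt (𝓡 n) p p) u')
        rw [e3]
      have e6 := h12 (e p) (extChartAt (𝓡 n) p p) u' e4
      rw [← e5, hjq p] at e6
      exact e6)
  -- the vector field
  let X : VecField n M := fun q =>
    D q (extChartAt (𝓡 n) q q) (fderiv ℝ (c (e q)) (j q) (V (j q)))
  have hX : ∀ q, dj j q (X q) = V (j q) := by
    intro q
    have e2 := dj_D hj (he1 q) (he2 q) (extChartAt (𝓡 n) q q)
    rw [(extChartAt (𝓡 n) q).left_inv (mem_extChartAt_source q)] at e2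
    have e3 : dj j q (X q) =
        fderiv ℝ (Φ (e q)) (extChartAt (𝓡 n) q q) (fderiv ℝ (c (e q)) (j q) (V (j q))) := by
      rw [← e2]
      rfl
    have e4 := h14 (e q) (extChartAt (𝓡 n) q q)
    rw [hjq q] at e4
    rw [e3, e4]
  have hXc : ∀ p t, coordField X p t = fderiv ℝ (c (e p)) (Φ (e p) t) (V (Φ (e p) t)) := by
    intro p t
    have e1 := symm_mem (he1 p) t
    have e2 := E_eq hj (h6 (e p)) (h7 (e p)) (he3 p) e1
    change E p ((extChartAt (𝓡 n) p).symm t) (X ((extChartAt (𝓡 n) p).symm t)) = _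
    rw [e2]
    change fderiv ℝ (c (e p)) (j ((extChartAt (𝓡 n) p).symm t))
      (dj j ((extChartAt (𝓡 n) p).symm t) (X ((extChartAt (𝓡 n) p).symm t))) = _
    rw [hX, he2 p t]
  refine ⟨M, iT, iC, iM, hcpt, hT2, hconn, g, X, j, ?_, hjS, fun p => ⟨e p, he1 p, ?_, hXc p, ?_⟩⟩
  · refine hVec n M X fun p => ?_
    exact ((h13 (e p)).contDiffOn (s := (extChartAt (𝓡 n) p).target)).congr fun t _ => hXc p t
  · intro t
    rw [hg]
    exact hcoord p t
  · intro q hq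
    rw [← he2 p, (extChartAt (𝓡 n) p).left_inv hq]

end Pool.Agent.Lib.MP_2795bc_gt.SOL
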