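import Pool.Agent.Lib.MP_2795bc_gt.SOL.GStmts2

/-!
# MP_2795bc_gt: the manifold structure of a compact set with global parametrisations
-/

open scoped Manifold ContDiff Topology Quaternion
open Bundle

noncomputable section

namespace Pool.Agent.Lib.MP_2795bc_gt.SOL

namespace GlueMAux

variable {n : ℕ} {W : Type} [NormedAddCommGroup W] [NormedSpace ℝ W]
  {S : Set W} {ι : Type} {Φ : ι → Eu n → W} {c : ι → W → Eu n} {O : ι → Set W}

/-- the chart with index `e` -/
def ch (h1 : ∀ e t, Φ e t ∈ S ∧ Φ e t ∈ O e) (h2 : ∀ e t, c e (Φ e t) = t)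
    (h3 : ∀ e w, w ∈ S → w ∈ O e → Φ e (c e w) = w) (h5 : ∀ e, ContDiff ℝ ∞ (Φ e))
    (h6 : ∀ e, IsOpen (O e)) (h7 : ∀ e, ContDiffOn ℝ ∞ (c e) (O e)) (e : ι) :
    OpenPartialHomeomorph S (Eu n) where
  toFun q := c e q.1
  invFun t := ⟨Φ e t, (h1 e t).1⟩
  source := {q | q.1 ∈ O e}
  target := Set.univ
  map_source' _ _ := Set.mem_univ _
  map_target' t _ := (h1 e t).2
  left_inv' q hq := Subtype.ext (h3 e q.1 q.2 hq)
  right_inv' t _ := h2 e t
  open_source := (h6 e).preimage continuous_subtype_val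
  open_target := isOpen_univ
  continuousOn_toFun := (h7 e).continuousOn.comp continuous_subtype_val.continuousOn
    (fun _ hq => hq)
  continuousOn_invFun := ((h5 e).continuous.subtype_mk _).continuousOn

end GlueMAux

open GlueMAux in
/-- the manifold structure -/
theorem stGlueM : StGlueM := by
  intro n W _ _ S ι Φ c O h1 h2 h3 h4 h5 h6 h7 h8 h9
  choose idx hidx using fun p : S => h4 p.1 p.2
  let cs : ChartedSpace (Eu n) S :=
    { atlas := Set.range (ch h1 h2 h3 h5 h6 h7)
      chartAt := fun p => ch h1 h2 h3 h5 h6 h7 (idx p)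
      mem_chart_source := fun p => hidx p
      chart_mem_atlas := fun p => ⟨_, rfl⟩ }
  have hM : IsManifold (𝓡 n) ∞ S := by
    refine isManifold_of_contDiffOn (𝓡 n) ∞ S ?_
    rintro _ _ ⟨e, rfl⟩ ⟨e', rfl⟩
    have h10 : ContDiffOn ℝ ∞ (fun t : Eu n => c e' (Φ e t)) {t | Φ e t ∈ O e'} :=
      (h7 e').comp (h5 e).contDiffOn (fun _ ht => ht)
    refine h10.mono ?_
    rintro t ⟨⟨-, ht⟩, -⟩
    exact ht
  have hT2 : T2Space S := inferInstance
  have hC : CompactSpace S := isCompact_iff_compactSpace.1 h8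
  have hCo : ConnectedSpace S := Subtype.connectedSpace h9
  refine ⟨S, inferInstance, cs, hM, hC, hT2, hCo, Subtype.val, ?_, Subtype.range_val, ?_⟩
  · rw [contMDiff_iff]
    refine ⟨continuous_subtype_val, fun x y => ?_⟩
    exact (h5 (idx x)).contDiffOn
  · intro p
    refine ⟨idx p, ?_, fun t => rfl, fun q hq => ?_⟩
    · rw [extChartAt_target]
      ext t
      simp only [Set.mem_univ, iff_true]
      exact ⟨Set.mem_univ _, Set.mem_range_self _⟩
    · rw [extChartAt_source] at hq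
      exact ⟨hq, rfl⟩

end Pool.Agent.Lib.MP_2795bc_gt.SOL
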