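import Pool.Agent.Lib.MP_2795bc_gt.SOL.GStmts2

/-!
# MP_2795bc_gt: smoothness of a vector field from its coordinate expressions
-/

open scoped Manifold ContDiff Topology
open Bundle

noncomputable section

namespace Pool.Agent.Lib.MP_2795bc_gt.SOL

theorem stGlueVec : StGlueVec := by
  intro n M _ _ _ X h x₀
  have key : ContMDiffAt (𝓡 n) ((𝓡 n).prod 𝓘(ℝ, Eu n)) ∞
      (fun x => TotalSpace.mk' (Eu n) x (X x) : M → TotalSpace (Eu n) (TangentSpace (𝓡 n) (M := M)))
      x₀ := by
    rw [Bundle.contMDiffAt_section]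
    have hev : (fun x => (trivializationAt (Eu n) (TangentSpace (𝓡 n) (M := M)) x₀ ⟨x, X x⟩).2)
        =ᶠ[𝓝 x₀] (fun x => coordField X x₀ (extChartAt (𝓡 n) x₀ x)) := by
      filter_upwards [(chartAt (Eu n) x₀).open_source.mem_nhds (mem_chart_source _ x₀)] with x hx
      have hx' : x ∈ (extChartAt (𝓡 n) x₀).source := by rwa [extChartAt_source]
      have h1 := TangentBundle.continuousLinearMapAt_trivializationAt (I := 𝓡 n) hx
      have h2 : (trivializationAt (Eu n) (TangentSpace (𝓡 n) (M := M)) x₀ ⟨x, X x⟩).2 =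
          (trivializationAt (Eu n) (TangentSpace (𝓡 n) (M := M)) x₀).continuousLinearMapAt ℝ x
            (X x) := by
        rw [Bundle.Trivialization.continuousLinearMapAt_apply,
          Bundle.Trivialization.linearMapAt_apply, if_pos]
        rwa [TangentBundle.trivializationAt_baseSet]
      rw [h2, h1]
      unfold coordField
      rw [(extChartAt (𝓡 n) x₀).left_inv hx']
      rfl
    refine ContMDiffAt.congr_of_eventuallyEq ?_ hev
    have h2 : ContMDiffAt (𝓡 n) 𝓘(ℝ, Eu n) ∞ (extChartAt (𝓡 n) x₀) x₀ := contMDiffAt_extChartAt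
    have h3 : ContDiffAt ℝ ∞ (coordField X x₀) (extChartAt (𝓡 n) x₀ x₀) :=
      (h x₀).contDiffAt (extChartAt_target_mem_nhds x₀)
    exact h3.contMDiffAt.comp x₀ h2
  exact key

end Pool.Agent.Lib.MP_2795bc_gt.SOL
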