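import Pool.Agent.Lib.MP_2795bc_gt.SOL.GStmts

/-!
# MP_2795bc_gt: regularity of the metric and of the vector field in the charts
-/

open scoped Manifold ContDiff Topology Quaternion
open Bundle

noncomputable section

namespace Pool.Agent.Lib.MP_2795bc_gt.SOL

namespace GmAux

theorem x_sq (hC : StChart) (e : Ix) (t : Eu 7) : (Phi e t).2.1 ^ 2 ≤ 1 := by
  have h := (hC.1 e t).1.1
  have h2 : 0 ≤ Quaternion.normSq (Phi e t).1 := Quaternion.normSq_nonneg
  linarith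

theorem x_mem (hC : StChart) (e : Ix) (t : Eu 7) : (Phi e t).2.1 ∈ Set.Icc (-1 : ℝ) 1 :=
  abs_le.1 ((sq_le_one_iff_abs_le_one _).1 (x_sq hC e t))

theorem x_memJ (hC : StChart) (e : Ix) (t : Eu 7) : (Phi e t).2.1 ∈ Jv := by
  have h := x_mem hC e t
  exact ⟨by linarith [h.1], by linarith [h.2]⟩

theorem x_smooth (hC : StChart) (e : Ix) : ContDiff ℝ ∞ fun t => (Phi e t).2.1 :=
  contDiff_fst.comp (contDiff_snd.comp (hC.2.2.2.2.1 e))

theorem comp_smooth (hC : StChart) (e : Ix) (h : ℝ → ℝ) (hh : ContDiffOn ℝ ∞ h Jv) :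
    ContDiff ℝ ∞ fun t => h (Phi e t).2.1 := by
  rw [contDiff_iff_contDiffAt]
  intro t
  have h1 : ContDiffAt ℝ ∞ h (Phi e t).2.1 :=
    hh.contDiffAt (isOpen_Ioo.mem_nhds (x_memJ hC e t))
  exact h1.comp t (x_smooth hC e).contDiffAt

theorem kap_smooth (hC : StChart) (e : Ix) : ContDiff ℝ ∞ fun t => kap (Phi e t).2.1 := by
  unfold kap
  exact (contDiff_const.sub ((x_smooth hC e).pow 2)).div_const 400

theorem sp_smooth (hC : StChart) (e : Ix) : ContDiff ℝ ∞ fun t => sp (Phi e t).2.1 := by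
  unfold sp
  exact contDiff_const.add ((contDiff_const.sub ((x_smooth hC e).pow 2)).mul (kap_smooth hC e))

theorem sp_pos {x : ℝ} (hx : x ^ 2 ≤ 1) : 0 < sp x := by
  unfold sp kap
  have : 0 ≤ (1 - x ^ 2) * ((37 - x ^ 2) / 400) :=
    mul_nonneg (by linarith) (by apply div_nonneg <;> linarith)
  linarith

theorem kap_pos {x : ℝ} (hx : x ^ 2 ≤ 1) : 0 < kap x := by
  unfold kap
  apply div_pos <;> linarith

theorem bilin_smooth {V W : Type} [NormedAddCommGroup V] [NormedSpace ℝ V]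
    [NormedAddCommGroup W] [NormedSpace ℝ W] (B : V → W →L[ℝ] W →L[ℝ] ℝ) (A : V → V →L[ℝ] W)
    (hB : ContDiff ℝ ∞ B) (hA : ContDiff ℝ ∞ A) :
    ContDiff ℝ ∞ fun t => ((B t).bilinearComp (A t) (A t) : V →L[ℝ] V →L[ℝ] ℝ) := by
  have h1 : ContDiff ℝ ∞ fun t => ((B t).comp (A t) : V →L[ℝ] W →L[ℝ] ℝ) := hB.clm_comp hA
  have f1 : ContDiff ℝ ∞ (fun L : V →L[ℝ] W →L[ℝ] ℝ => L.flip) :=
    ContinuousLinearMap.contDiff (𝕜 := ℝ) (E := V →L[ℝ] W →L[ℝ] ℝ) (F := W →L[ℝ] V →L[ℝ] ℝ)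
      (ContinuousLinearMap.flipₗᵢ ℝ V W ℝ).toContinuousLinearEquiv.toContinuousLinearMap
  have f3 : ContDiff ℝ ∞ (fun L : V →L[ℝ] V →L[ℝ] ℝ => L.flip) :=
    ContinuousLinearMap.contDiff (𝕜 := ℝ) (E := V →L[ℝ] V →L[ℝ] ℝ) (F := V →L[ℝ] V →L[ℝ] ℝ)
      (ContinuousLinearMap.flipₗᵢ ℝ V V ℝ).toContinuousLinearEquiv.toContinuousLinearMap
  have h2 : ContDiff ℝ ∞ fun t => (((B t).comp (A t)).flip : W →L[ℝ] V →L[ℝ] ℝ) := f1.comp h1
  have h3 : ContDiff ℝ ∞ fun t => ((((B t).comp (A t)).flip).comp (A t) : V →L[ℝ] V →L[ℝ] ℝ) :=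
    h2.clm_comp hA
  exact f3.comp h3

theorem add4 {V N : Type} [NormedAddCommGroup V] [NormedSpace ℝ V]
    [NormedAddCommGroup N] [NormedSpace ℝ N] (B0 B1 B2 B3 : N) (c0 c1 c2 c3 : V → ℝ)
    (h0 : ContDiff ℝ ∞ c0) (h1 : ContDiff ℝ ∞ c1) (h2 : ContDiff ℝ ∞ c2)
    (h3 : ContDiff ℝ ∞ c3) :
    ContDiff ℝ ∞ fun t => c0 t • B0 + c1 t • B1 + c2 t • B2 + c3 t • B3 :=
  (((h0.smul contDiff_const).add (h1.smul contDiff_const)).add
    (h2.smul contDiff_const)).add (h3.smul contDiff_const)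

theorem sum_smooth {V W : Type} [NormedAddCommGroup V] [NormedSpace ℝ V]
    [NormedAddCommGroup W] [NormedSpace ℝ W] (B0 B1 B2 B3 : W →L[ℝ] W →L[ℝ] ℝ)
    (c0 c1 c2 c3 : V → ℝ) (A : V → V →L[ℝ] W)
    (h0 : ContDiff ℝ ∞ c0) (h1 : ContDiff ℝ ∞ c1) (h2 : ContDiff ℝ ∞ c2) (h3 : ContDiff ℝ ∞ c3)
    (hA : ContDiff ℝ ∞ A) :
    ContDiff ℝ ∞ fun t => ((c0 t • B0 + c1 t • B1 + c2 t • B2 + c3 t • B3).bilinearComp
      (A t) (A t) : V →L[ℝ] V →L[ℝ] ℝ) :=
  bilin_smooth _ A (add4 (N := W →L[ℝ] W →L[ℝ] ℝ) B0 B1 B2 B3 c0 c1 c2 c3 h0 h1 h2 h3) hA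

theorem Bm_apply (f : Fn) (w u v : WW) : Bm f w u v =
    f.c w.2.1 * inner ℝ u.1 v.1 + cx f w.2.1 * inner ℝ u.2.1 v.2.1 +
    cp f w.2.1 * inner ℝ u.2.2.1 v.2.2.1 + cz f w.2.1 * inner ℝ u.2.2.2 v.2.2.2 := rfl

end GmAux

open GmAux in
theorem stGm : StChart → StTan → StGm := by
  intro hC hT f hf e
  obtain ⟨⟨h1, h2, h3, h4, h5, h6, h7⟩, -, hPos, -⟩ := hf
  have s1 := comp_smooth hC e f.nu h1
  have s2 := comp_smooth hC e f.al h2
  have s3 := comp_smooth hC e f.ga h3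
  have s4 := comp_smooth hC e f.sg h4
  have s5 := comp_smooth hC e f.b h5
  have s6 := comp_smooth hC e f.c h6
  have s7 := comp_smooth hC e f.e h7
  have sx := x_smooth hC e
  have hb : ∀ t, 0 < f.b (Phi e t).2.1 := fun t => (hPos _ (x_mem hC e t)).1
  have hc : ∀ t, 0 < f.c (Phi e t).2.1 := fun t => (hPos _ (x_mem hC e t)).2.1
  have he : ∀ t, 0 < f.e (Phi e t).2.1 := fun t => (hPos _ (x_mem hC e t)).2.2.1
  have hb2 : ∀ t, f.b (Phi e t).2.1 < 2 := fun t => (hPos _ (x_mem hC e t)).2.2.2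
  have hcx : ContDiff ℝ ∞ fun t => cx f (Phi e t).2.1 := by
    unfold cx
    exact s6.mul (contDiff_const.add ((kap_smooth hC e).mul ((sp_smooth hC e).add contDiff_const)))
  have hcp : ContDiff ℝ ∞ fun t => cp f (Phi e t).2.1 := by
    unfold cp
    exact (s6.div s5 fun t => (hb t).ne').sub
      ((s6.mul (contDiff_const.sub (sx.pow 2))).div_const 4)
  have hcz : ContDiff ℝ ∞ fun t => cz f (Phi e t).2.1 := by
    unfold cz
    exact (contDiff_const.mul s6).div s7 fun t => (he t).ne'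
  have hpsi : ContDiff ℝ ∞ fun t => psi f (Phi e t).2.1 := by
    unfold psi
    exact ((s2.add (contDiff_const.mul s3)).sub s4).div (s6.mul (sp_smooth hC e))
      fun t => (mul_pos (hc t) (sp_pos (x_sq hC e t))).ne'
  have hPhi := hC.2.2.2.2.1 e
  refine ⟨?_, fun t u v => ?_, fun t u hu => ?_, ?_⟩
  · exact sum_smooth (W := WW) b0 b1 b2 b3 (fun t => f.c (Phi e t).2.1)
      (fun t => cx f (Phi e t).2.1) (fun t => cp f (Phi e t).2.1) (fun t => cz f (Phi e t).2.1)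
      (fun t => fderiv ℝ (Phi e) t) s6 hcx hcp hcz (hPhi.fderiv_right (m := ∞) (by simp))
  · unfold Gm
    rw [ContinuousLinearMap.bilinearComp_apply, ContinuousLinearMap.bilinearComp_apply,
      Bm_apply, Bm_apply]
    generalize fderiv ℝ (Phi e) t u = a
    generalize fderiv ℝ (Phi e) t v = b
    rw [real_inner_comm a.1 b.1, real_inner_comm a.2.1 b.2.1, real_inner_comm a.2.2.1 b.2.2.1,
      real_inner_comm a.2.2.2 b.2.2.2]
  · have hinj : fderiv ℝ (Phi e) t u ≠ 0 := by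
      intro h0
      have hd1 : DifferentiableAt ℝ (Phi e) t := hPhi.differentiable (by simp) t
      have hd2 : DifferentiableAt ℝ (cc e) (Phi e t) :=
        ((hC.2.2.2.2.2.2 e).contDiffAt ((hC.2.2.2.2.2.1 e).mem_nhds (hC.1 e t).2)).differentiableAt
          (by simp)
      have hcomp : fderiv ℝ (cc e ∘ Phi e) t = (fderiv ℝ (cc e) (Phi e t)).comp
        (fderiv ℝ (Phi e) t) := fderiv_comp t hd2 hd1
      have hid : cc e ∘ Phi e = id := funext fun t => hC.2.1 e t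
      rw [hid, fderiv_id] at hcomp
      have := congrArg (fun L : Eu 7 →L[ℝ] Eu 7 => L u) hcomp
      simp only [ContinuousLinearMap.comp_apply, h0, map_zero] at this
      exact hu this
    have hx := x_sq hC e t
    have hx0 : 0 ≤ (Phi e t).2.1 ^ 2 := sq_nonneg _
    have p1 := hc t
    have p2 : 0 < cx f (Phi e t).2.1 := by
      unfold cx
      have := kap_pos hx
      have := sp_pos hx
      positivity
    have p3 : 0 < cp f (Phi e t).2.1 := by
      unfold cp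
      have h := hb t
      have h' := hb2 t
      have : f.c (Phi e t).2.1 / f.b (Phi e t).2.1 - f.c (Phi e t).2.1 *
          (1 - (Phi e t).2.1 ^ 2) / 4 = f.c (Phi e t).2.1 *
          (4 - f.b (Phi e t).2.1 * (1 - (Phi e t).2.1 ^ 2)) / (4 * f.b (Phi e t).2.1) := by
        field_simp
      rw [this]
      apply div_pos (mul_pos p1 _) (by positivity)
      nlinarith
    have p4 : 0 < cz f (Phi e t).2.1 := by
      unfold cz
      have := he t
      positivity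
    change 0 < Bm f (Phi e t) (fderiv ℝ (Phi e) t u) (fderiv ℝ (Phi e) t u)
    rw [Bm_apply]
    generalize fderiv ℝ (Phi e) t u = v at hinj
    generalize f.c (Phi e t).2.1 = a1 at p1
    generalize cx f (Phi e t).2.1 = a2 at p2
    generalize cp f (Phi e t).2.1 = a3 at p3
    generalize cz f (Phi e t).2.1 = a4 at p4
    obtain ⟨v1, v2, v3, v4⟩ := v
    have n1 : 0 ≤ a1 * inner ℝ v1 v1 := mul_nonneg p1.le real_inner_self_nonneg
    have n2 : 0 ≤ a2 * inner ℝ v2 v2 := mul_nonneg p2.le real_inner_self_nonneg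
    have n3 : 0 ≤ a3 * inner ℝ v3 v3 := mul_nonneg p3.le real_inner_self_nonneg
    have n4 : 0 ≤ a4 * inner ℝ v4 v4 := mul_nonneg p4.le real_inner_self_nonneg
    by_contra hle
    change ¬ 0 < a1 * inner ℝ v1 v1 + a2 * inner ℝ v2 v2 + a3 * inner ℝ v3 v3 +
      a4 * inner ℝ v4 v4 at hle
    have z1 : a1 * inner ℝ v1 v1 = 0 := by linarith
    have z2 : a2 * inner ℝ v2 v2 = 0 := by linarith
    have z3 : a3 * inner ℝ v3 v3 = 0 := by linarith
    have z4 : a4 * inner ℝ v4 v4 = 0 := by linarith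
    apply hinj
    rw [mul_eq_zero, inner_self_eq_zero] at z1 z2 z3 z4
    rw [z1.resolve_left p1.ne', z2.resolve_left p2.ne', z3.resolve_left p3.ne',
      z4.resolve_left p4.ne']
    rfl
  · have hV : Vm f e = fun t => WithLp.toLp 2 ![-(sgn e.1 * psi f (Phi e t).2.1 * t 0),
      -(sgn e.1 * psi f (Phi e t).2.1 * t 1), 0, 0, 0, 0, 0] := funext fun t => (hT f e t).2
    rw [hV, contDiff_euclidean]
    have hpr : ∀ i : Fin 7, ContDiff ℝ ∞ fun t : Eu 7 => t i := fun i => contDiff_euclidean.1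
      contDiff_id i
    intro i
    fin_cases i
    · exact ((contDiff_const.mul hpsi).mul (hpr 0)).neg
    · exact ((contDiff_const.mul hpsi).mul (hpr 1)).neg
    · exact contDiff_const
    · exact contDiff_const
    · exact contDiff_const
    · exact contDiff_const
    · exact contDiff_const

end Pool.Agent.Lib.MP_2795bc_gt.SOL
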