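/-
Copyright (c) 2026. Released under Apache 2.0.
Koszul formula for the table of the connection.
-/
import Pool.Agent.Lib.MP_2795bc_gt.SOL.GStmts

set_option linter.all false
set_option linter.unusedSimpArgs false
set_option linter.unusedSectionVars false
set_option linter.unreachableTactic false
set_option linter.unusedTactic false

namespace Pool.Agent.Lib.MP_2795bc_gt.SOL

/-- the table with coefficients from `q`, `Q` -/
noncomputable abbrev tabQ (q Q : Fin 7 → ℝ) : Fin 7 → Fin 7 → Fin 7 → ℝ :=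
  tab 2 1 (Q 0 / (2 * q 0)) (Q 1 / (2 * q 1)) (Q 2 / (2 * q 2)) (Q 4 / (2 * q 4))
    (Q 1 / (2 * q 0)) (Q 2 / (2 * q 0)) (Q 4 / (2 * q 0)) (q 1 / q 2)

/-- the right side of the Koszul formula -/
abbrev kosR (q Q : Fin 7 → ℝ) (a b c : Fin 7) : ℝ :=
      (if b = c then (if a = 0 then Q b else 0) else 0)
      + (if a = c then (if b = 0 then Q a else 0) else 0)
      - (if a = b then (if c = 0 then Q a else 0) else 0)
      + ct a b c * q c - ct a c b * q b - ct b c a * q a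

section

variable (q Q : Fin 7 → ℝ) (n0 : q 0 ≠ 0) (n1 : q 1 ≠ 0) (n2 : q 2 ≠ 0) (n4 : q 4 ≠ 0)
    (h3 : q 3 = q 2) (h5 : q 5 = q 4)
    (h6 : q 6 = q 4) (H3 : Q 3 = Q 2) (H5 : Q 5 = Q 4) (H6 : Q 6 = Q 4) (b c : Fin 7)

include n0 n1 n2 n4 h3 h5 h6 H3 H5 H6

theorem kos0 : 2 * tabQ q Q 0 b c * q c = kosR q Q 0 b c := by
  fin_cases b <;> fin_cases c <;>
    simp [tabQ, kosR, tab, ct, h3, h5, h6, H3, H5, H6] <;> field_simp <;> ring

theorem kos1 : 2 * tabQ q Q 1 b c * q c = kosR q Q 1 b c := by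
  fin_cases b <;> fin_cases c <;>
    simp [tabQ, kosR, tab, ct, h3, h5, h6, H3, H5, H6] <;> field_simp <;> ring

theorem kos2 : 2 * tabQ q Q 2 b c * q c = kosR q Q 2 b c := by
  fin_cases b <;> fin_cases c <;>
    simp [tabQ, kosR, tab, ct, h3, h5, h6, H3, H5, H6] <;> field_simp <;> ring

theorem kos3 : 2 * tabQ q Q 3 b c * q c = kosR q Q 3 b c := by
  fin_cases b <;> fin_cases c <;>
    simp [tabQ, kosR, tab, ct, h3, h5, h6, H3, H5, H6] <;> field_simp <;> ring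

theorem kos4 : 2 * tabQ q Q 4 b c * q c = kosR q Q 4 b c := by
  fin_cases b <;> fin_cases c <;>
    simp [tabQ, kosR, tab, ct, h3, h5, h6, H3, H5, H6] <;> field_simp <;> ring

theorem kos5 : 2 * tabQ q Q 5 b c * q c = kosR q Q 5 b c := by
  fin_cases b <;> fin_cases c <;>
    simp [tabQ, kosR, tab, ct, h3, h5, h6, H3, H5, H6] <;> field_simp <;> ring

theorem kos6 : 2 * tabQ q Q 6 b c * q c = kosR q Q 6 b c := by
  fin_cases b <;> fin_cases c <;>
    simp [tabQ, kosR, tab, ct, h3, h5, h6, H3, H5, H6] <;> field_simp <;> ring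

theorem kos_gen (a : Fin 7) : 2 * tabQ q Q a b c * q c = kosR q Q a b c := by
  fin_cases a
  · exact kos0 q Q n0 n1 n2 n4 h3 h5 h6 H3 H5 H6 b c
  · exact kos1 q Q n0 n1 n2 n4 h3 h5 h6 H3 H5 H6 b c
  · exact kos2 q Q n0 n1 n2 n4 h3 h5 h6 H3 H5 H6 b c
  · exact kos3 q Q n0 n1 n2 n4 h3 h5 h6 H3 H5 H6 b c
  · exact kos4 q Q n0 n1 n2 n4 h3 h5 h6 H3 H5 H6 b c
  · exact kos5 q Q n0 n1 n2 n4 h3 h5 h6 H3 H5 H6 b c
  · exact kos6 q Q n0 n1 n2 n4 h3 h5 h6 H3 H5 H6 b c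

end

theorem sp_pos_aux {x : ℝ} (hx : x ∈ Set.Ioo (-1 : ℝ) 1) : 0 < sp x ∧ 0 < 1 - x ^ 2 := by
  have h1 : 0 < 1 - x ^ 2 := by nlinarith [hx.1, hx.2]
  refine ⟨?_, h1⟩
  have h2 : 0 < kap x := by
    unfold kap
    have : 0 < 37 - x ^ 2 := by linarith
    positivity
  unfold sp
  have := mul_pos h1 h2
  linarith

theorem stKos : StKos := by
  intro f hf x hx a b c
  obtain ⟨hs, h1⟩ := sp_pos_aux hx
  obtain ⟨hb, hc, he, _⟩ := hf.2.2.1 x ⟨hx.1.le, hx.2.le⟩
  have key := kos_gen (qf f x) (fun a => (1 - x ^ 2) * deriv (fun y => qf f y a) x)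
    (by simp only [qf, Matrix.cons_val_zero]; positivity)
    (by simp only [qf, Matrix.cons_val_one, Matrix.cons_val_zero]; positivity)
    (by simp only [qf, Matrix.cons_val]; positivity)
    (by simp only [qf, Matrix.cons_val]; positivity)
    (by simp [qf]) (by simp [qf]) (by simp [qf]) (by simp [qf]) (by simp [qf]) (by simp [qf])
    b c a
  exact key

end Pool.Agent.Lib.MP_2795bc_gt.SOL
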