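import Pool.Agent.Lib.MP_2795bc_gt.SOL.GStmts

/-!
# MP_2795bc_gt: Lie derivative of the metric on vector fields
-/

set_option autoImplicit false

open scoped Manifold ContDiff Topology Quaternion
open Bundle

noncomputable section

namespace Pool.Agent.Lib.MP_2795bc_gt.SOL

theorem stLie : StLie := by
  intro n U G V A B hU hG hV hA hB t ht
  have hn : (∞ : WithTop ℕ∞) ≠ 0 := by decide
  have hUt := hU.mem_nhds ht
  have dG : HasFDerivAt G (fderiv ℝ G t) t :=
    ((hG.contDiffAt hUt).differentiableAt hn).hasFDerivAt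
  have dA : HasFDerivAt A (fderiv ℝ A t) t :=
    ((hA.contDiffAt hUt).differentiableAt hn).hasFDerivAt
  have dB : HasFDerivAt B (fderiv ℝ B t) t :=
    ((hB.contDiffAt hUt).differentiableAt hn).hasFDerivAt
  have h := ((dG.clm_apply dA).clm_apply dB).fderiv
  rw [h]
  simp only [ContinuousLinearMap.add_apply, ContinuousLinearMap.comp_apply,
    ContinuousLinearMap.flip_apply, map_sub, ContinuousLinearMap.sub_apply, lieG]
  ring

end Pool.Agent.Lib.MP_2795bc_gt.SOL
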