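import Pool.Agent.Lib.MP_2795bc_gt.SOL.GStmts2

/-!
# MP_2795bc_gt: the soliton equation in the charts
-/

open scoped Manifold ContDiff Topology Quaternion
open Bundle

noncomputable section

namespace Pool.Agent.Lib.MP_2795bc_gt.SOL

theorem bilin_zero {n : ℕ} {ι : Type} [Fintype ι] (T : Eu n → Eu n → ℝ)
    (h1 : ∀ (r : ℝ) (u u' v : Eu n), T (r • u + u') v = r * T u v + T u' v)
    (h2 : ∀ (r : ℝ) (u v v' : Eu n), T u (r • v + v') = r * T u v + T u v')
    (X : ι → Eu n) (h0 : ∀ a b, T (X a) (X b) = 0)
    (hs : ∀ u, ∃ r : ι → ℝ, u = ∑ a, r a • X a) (u v : Eu n) : T u v = 0 := by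
  classical
  have z1 : ∀ v, T 0 v = 0 := fun v => by
    have := h1 1 0 0 v
    simp only [smul_zero, add_zero, one_mul] at this
    linarith
  have z2 : ∀ u, T u 0 = 0 := fun u => by
    have := h2 1 u 0 0
    simp only [smul_zero, add_zero, one_mul] at this
    linarith
  obtain ⟨r, rfl⟩ := hs u
  obtain ⟨s, rfl⟩ := hs v
  have k2 : ∀ (a : ι) (F : Finset ι), T (X a) (∑ b ∈ F, s b • X b) = 0 := by
    intro a F
    induction F using Finset.induction_on with
    | empty => simpa using z2 _
    | insert b F hb ih => rw [Finset.sum_insert hb, h2, h0, ih]; ring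
  have k1 : ∀ F : Finset ι, T (∑ a ∈ F, r a • X a) (∑ b, s b • X b) = 0 := by
    intro F
    induction F using Finset.induction_on with
    | empty => simpa using z1 _
    | insert b F hb ih => rw [Finset.sum_insert hb, h1, k2, ih]; ring
  exact k1 _

theorem stLoc (hGm : StGm) (hReg : StReg) (hFe : StFe) (hLie : StLie) (hCurv : StCurv)
    (hOff : StTabOff) (hDiag : StTabDiag) (hE : StE) (_ : StAB) (hQR : StQReg) : StLoc := by
  intro f hf e
  obtain ⟨gS, gSym, gPos, vS⟩ := hGm f hf e
  obtain ⟨hUo, hUd, hFe'⟩ := hFe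
  obtain ⟨-, hFx⟩ := hFe' e
  obtain ⟨X, hXs, hX⟩ := hCurv f hf e
  obtain ⟨hq1, -, -, -, hpsi, -, -⟩ := hQR f hf
  have hM : IsMetricOn (Gm f e) Set.univ :=
    ⟨isOpen_univ, gS.contDiffOn, fun y _ => ⟨gSym y, gPos y⟩⟩
  obtain ⟨-, -, ricS, -, -, -, -, -, -, -, ricL1, ricL2⟩ := hReg 7 (Gm f e) Set.univ hM
  -- on the open dense set
  have main : ∀ t ∈ Uo, ∀ u v : Eu 7,
      ric (Gm f e) t u v + (1 / 2) * lieG (Gm f e) (Vm f e) t u v - Gm f e t u v = 0 := by
    intro t ht
    obtain ⟨hG, hspan, hbr, hV, hder, -, hric⟩ := hX t ht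
    set x := (Phi e t).2.1 with hx
    have hxI : x ∈ Set.Ioo (-1 : ℝ) 1 := by
      have h1 : x ^ 2 < 1 := (hFx t ht).1
      exact ⟨by nlinarith, by nlinarith⟩
    have hIo : Set.Ioo (-1 : ℝ) 1 ∈ 𝓝 x := isOpen_Ioo.mem_nhds hxI
    have dq : ∀ a, DifferentiableAt ℝ (fun y => qf f y a) x := fun a =>
      ((hq1 a).contDiffAt hIo).differentiableAt (by simp)
    have dpsi : DifferentiableAt ℝ (psi f) x := (hpsi.contDiffAt hIo).differentiableAt (by simp)
    -- the Lie derivative
    have hUt : Uo ∈ 𝓝 t := hUo.mem_nhds ht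
    have hxd : DifferentiableAt ℝ (fun y => (Phi e y).2.1) t := by
      by_contra hcon
      -- along the frame the derivative of `x` is nonzero
      have h1 := hder id 0 differentiableAt_id
      simp only [id] at h1
      rw [fderiv_zero_of_not_differentiableAt hcon] at h1
      simp only [_root_.zero_apply, if_true, deriv_id'] at h1
      have : x ^ 2 < 1 := (hFx t ht).1
      have h2 : (0 : ℝ) = (1 - x ^ 2) * 1 := h1
      linarith
    have hlie : ∀ b c, lieG (Gm f e) (Vm f e) t (X b t) (X c t) =
        psi f x * (if b = c then (1 - x ^ 2) * deriv (fun y => qf f y b) x else 0)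
        + (if b = 0 then (1 - x ^ 2) * deriv (psi f) x else 0) * (if c = 0 then qf f x 0 else 0)
        + (if c = 0 then (1 - x ^ 2) * deriv (psi f) x else 0) *
          (if b = 0 then qf f x 0 else 0) := by
      intro b c
      rw [hLie 7 Uo (Gm f e) (Vm f e) (X b) (X c) hUo gS.contDiffOn vS.contDiffOn (hXs b) (hXs c) t ht]
      have e1 : (fun y => Gm f e y (X b y) (X c y)) =ᶠ[𝓝 t]
          fun y => if b = c then qf f (Phi e y).2.1 b else 0 := by
        filter_upwards [hUt] with y hy
        exact (hX y hy).1 b c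
      have e2 : Vm f e =ᶠ[𝓝 t] fun y => psi f (Phi e y).2.1 • X 0 y := by
        filter_upwards [hUt] with y hy
        exact (hX y hy).2.2.2.1
      have hdX : ∀ a, DifferentiableAt ℝ (X a) t := fun a =>
        ((hXs a).contDiffAt hUt).differentiableAt (by simp)
      have hpc : DifferentiableAt ℝ (fun y => psi f (Phi e y).2.1) t :=
        DifferentiableAt.comp t (g := psi f) (f := fun y => (Phi e y).2.1) dpsi hxd
      have d2 : ∀ a, fderiv ℝ (Vm f e) t (X a t) = psi f x • fderiv ℝ (X 0) t (X a t)
          + (if a = 0 then (1 - x ^ 2) * deriv (psi f) x else 0) • X 0 t := by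
        intro a
        rw [e2.fderiv_eq]
        have : fderiv ℝ (fun y => psi f (Phi e y).2.1 • X 0 y) t =
            psi f (Phi e t).2.1 • fderiv ℝ (X 0) t +
              (fderiv ℝ (fun y => psi f (Phi e y).2.1) t).smulRight (X 0 t) :=
          fderiv_fun_smul hpc (hdX 0)
        rw [this]
        simp only [_root_.add_apply, _root_.smul_apply,
          ContinuousLinearMap.smulRight_apply]
        rw [hder (psi f) a dpsi]
      have d1 : fderiv ℝ (fun y => Gm f e y (X b y) (X c y)) t (Vm f e t) =
          psi f x * (if b = c then (1 - x ^ 2) * deriv (fun y => qf f y b) x else 0) := by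
        rw [e1.fderiv_eq, hV, map_smul, smul_eq_mul]
        congr 1
        split_ifs with hbc
        · have := hder (fun y => qf f y b) 0 (dq b)
          rw [if_pos rfl] at this
          exact this
        · simp
      have hct : ∀ a, fderiv ℝ (X a) t (X 0 t) - fderiv ℝ (X 0) t (X a t) = 0 := by
        intro a
        rw [hbr 0 a]
        have : ∀ d, ct 0 a d = 0 := by
          intro d; fin_cases a <;> fin_cases d <;> rfl
        simp [this]
      have hbrV : ∀ a, fderiv ℝ (X a) t (Vm f e t) - fderiv ℝ (Vm f e) t (X a t) =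
          -((if a = 0 then (1 - x ^ 2) * deriv (psi f) x else 0) • X 0 t) := by
        intro a
        rw [d2 a, hV, map_smul]
        have := hct a
        rw [sub_eq_zero] at this
        rw [this]
        abel
      rw [d1, hbrV b, hbrV c]
      simp only [map_neg, map_smul, _root_.neg_apply, _root_.smul_apply,
        smul_eq_mul, hG]
      by_cases hb0 : b = 0
      · subst hb0
        by_cases hc0 : c = 0
        · subst hc0; simp
        · have hc0' : ¬ (0 : Fin 7) = c := fun h => hc0 h.symm
          simp [hc0, hc0']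
      · by_cases hc0 : c = 0
        · subst hc0; simp [hb0]
        · simp [hb0, hc0]
    obtain ⟨E0, E1, E2, E4⟩ := hE f hf x hxI
    have hfr : ∀ b c, ric (Gm f e) t (X b t) (X c t)
        + (1 / 2) * lieG (Gm f e) (Vm f e) t (X b t) (X c t) - Gm f e t (X b t) (X c t) = 0 := by
      intro b c
      rw [hric b c, hlie b c, hG b c]
      by_cases hbc : b = c
      · subst hbc
        obtain ⟨D0, D1, D2, D4⟩ := hDiag (Aq f 0 x) (Aq f 1 x) (Aq f 2 x) (Aq f 4 x) (Bq f 1 x)
          (Bq f 2 x) (Bq f 4 x) (tq f x) ((1 - x ^ 2) * deriv (Aq f 0) x)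
          ((1 - x ^ 2) * deriv (Aq f 1) x) ((1 - x ^ 2) * deriv (Aq f 2) x)
          ((1 - x ^ 2) * deriv (Aq f 4) x) ((1 - x ^ 2) * deriv (Bq f 1) x)
          ((1 - x ^ 2) * deriv (Bq f 2) x) ((1 - x ^ 2) * deriv (Bq f 4) x)
          ((1 - x ^ 2) * deriv (tq f) x)
        have q32 : ∀ y, qf f y 3 = qf f y 2 := fun _ => rfl
        have q54 : ∀ y, qf f y 5 = qf f y 4 := fun _ => rfl
        have q64 : ∀ y, qf f y 6 = qf f y 4 := fun _ => rfl
        have hb7 : b = 0 ∨ b = 1 ∨ (b = 2 ∨ b = 3) ∨ (b = 4 ∨ b = 5 ∨ b = 6) := by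
          fin_cases b <;> simp
        rcases hb7 with h | h | h | h
        · subst h
          rw [D0]
          simp only [if_true]
          simp only at E0
          linarith [E0]
        · subst h
          rw [D1]
          simp only [if_true]
          simp only at E1
          have h10 : ¬ ((1 : Fin 7) = 0) := by decide
          simp only [h10, if_false]
          linarith [E1]
        · rw [D2 b h]
          have hb0 : ¬ (b = 0) := by rcases h with h | h <;> subst h <;> decide
          have hqq : (fun y => qf f y b) = fun y => qf f y 2 := by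
            rcases h with h | h <;> subst h <;> rfl
          have hq : qf f x b = qf f x 2 := congrFun hqq x
          simp only [if_true, hb0, if_false]
          rw [hqq, hq]
          simp only at E2
          linarith [E2]
        · rw [D4 b h]
          have hb0 : ¬ (b = 0) := by rcases h with h | h | h <;> subst h <;> decide
          have hqq : (fun y => qf f y b) = fun y => qf f y 4 := by
            rcases h with h | h | h <;> subst h <;> rfl
          have hq : qf f x b = qf f x 4 := congrFun hqq x
          simp only [if_true, hb0, if_false]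
          rw [hqq, hq]
          simp only at E4
          linarith [E4]
      · have := hOff (Aq f 0 x) (Aq f 1 x) (Aq f 2 x) (Aq f 4 x) (Bq f 1 x)
          (Bq f 2 x) (Bq f 4 x) (tq f x) ((1 - x ^ 2) * deriv (Aq f 0) x)
          ((1 - x ^ 2) * deriv (Aq f 1) x) ((1 - x ^ 2) * deriv (Aq f 2) x)
          ((1 - x ^ 2) * deriv (Aq f 4) x) ((1 - x ^ 2) * deriv (Bq f 1) x)
          ((1 - x ^ 2) * deriv (Bq f 2) x) ((1 - x ^ 2) * deriv (Bq f 4) x)
          ((1 - x ^ 2) * deriv (tq f) x) b c hbc
        rw [this]
        by_cases hb0 : b = 0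
        · subst hb0; simp [hbc, Ne.symm hbc]
        · simp [hbc, hb0]
    refine bilin_zero (fun u v => ric (Gm f e) t u v
      + (1 / 2) * lieG (Gm f e) (Vm f e) t u v - Gm f e t u v) ?_ ?_ (fun a => X a t) hfr hspan
    · intro r u u' v
      simp only [ricL1 t (Set.mem_univ _), lieG, map_add, map_smul, _root_.add_apply,
        _root_.smul_apply, smul_eq_mul]
      ring
    · intro r u v v'
      simp only [ricL2 t (Set.mem_univ _), lieG, map_add, map_smul, _root_.add_apply,
        _root_.smul_apply, smul_eq_mul]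
      ring
  -- density
  intro t u v
  have cric : Continuous fun t => ric (Gm f e) t u v :=
    (contDiffOn_univ.mp (ricS u v)).continuous
  have cG : Continuous (Gm f e) := gS.continuous
  have cG' := gS.continuous_fderiv (by simp)
  have cV : Continuous (Vm f e) := vS.continuous
  have cV' : Continuous (fderiv ℝ (Vm f e)) := vS.continuous_fderiv (by simp)
  have clie : Continuous fun t => lieG (Gm f e) (Vm f e) t u v := by
    unfold lieG
    exact ((((cG'.clm_apply cV).clm_apply continuous_const).clm_apply continuous_const).add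
      ((cG.clm_apply (cV'.clm_apply continuous_const)).clm_apply continuous_const)).add
      ((cG.clm_apply continuous_const).clm_apply (cV'.clm_apply continuous_const))
  have cGuv : Continuous fun t => Gm f e t u v :=
    (cG.clm_apply continuous_const).clm_apply continuous_const
  have hcont : Continuous fun t => ric (Gm f e) t u v
      + (1 / 2) * lieG (Gm f e) (Vm f e) t u v - Gm f e t u v :=
    (cric.add (continuous_const.mul clie)).sub cGuv
  have := Continuous.ext_on hUd hcont continuous_const (fun t ht => main t ht u v)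
  have h2 : ric (Gm f e) t u v + (1 / 2) * lieG (Gm f e) (Vm f e) t u v - Gm f e t u v = 0 :=
    congrFun this t
  linarith

end Pool.Agent.Lib.MP_2795bc_gt.SOL
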