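import Pool.Agent.Lib.MP_2795bc_gt.SOL.GStmts2

/-!
# MP_2795bc_gt, module NatA: naturality of the curvature under local isometries
-/

open scoped ContDiff Topology

noncomputable section

set_option maxSynthPendingDepth 3

namespace Pool.Agent.Lib.MP_2795bc_gt.SOL

namespace NatAux

section gen
variable {E : Type} [NormedAddCommGroup E] [NormedSpace ℝ E]

/-- the Koszul functional as a bilinear map -/
def kosz (D : E →L[ℝ] E →L[ℝ] E →L[ℝ] ℝ) : E →L[ℝ] E →L[ℝ] E →L[ℝ] ℝ :=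
  (1 / 2 : ℝ) • (D + D.flip -
    ((ContinuousLinearMap.flipₗᵢ ℝ E E ℝ).toContinuousLinearEquiv :
      (E →L[ℝ] E →L[ℝ] ℝ) →L[ℝ] (E →L[ℝ] E →L[ℝ] ℝ)).comp D.flip)

theorem kosz_apply (D : E →L[ℝ] E →L[ℝ] E →L[ℝ] ℝ) (u v w : E) :
    kosz D u v w = (1 / 2) * (D u v w + D v u w - D w u v) := by
  simp [kosz]

/-- Christoffel symbols as a bilinear map -/
def Gam (G : E → E →L[ℝ] E →L[ℝ] ℝ) (x : E) : E →L[ℝ] E →L[ℝ] E :=
  (ContinuousLinearMap.compL ℝ E (E →L[ℝ] ℝ) E (G x).inverse).comp (kosz (fderiv ℝ G x))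

theorem chr_eq (G : E → E →L[ℝ] E →L[ℝ] ℝ) (x u v : E) : chr G x u v = Gam G x u v := by
  unfold chr Gam kosz
  simp

theorem Gam_apply (G : E → E →L[ℝ] E →L[ℝ] ℝ) (x u v : E) :
    Gam G x u v = (G x).inverse (kosz (fderiv ℝ G x) u v) := rfl

variable [FiniteDimensional ℝ E]

theorem invertible_of_pos (B : E →L[ℝ] E →L[ℝ] ℝ) (hB : ∀ u, u ≠ 0 → 0 < B u u) :
    ∃ e : E ≃L[ℝ] (E →L[ℝ] ℝ), (e : E →L[ℝ] (E →L[ℝ] ℝ)) = B := by
  have hinj : Function.Injective (B : E →ₗ[ℝ] (E →L[ℝ] ℝ)) := by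
    rw [injective_iff_map_eq_zero]
    intro u hu
    by_contra h
    have h1 := hB u h
    have h2 : B u = 0 := hu
    rw [h2] at h1
    simp at h1
  have hfin : Module.finrank ℝ E = Module.finrank ℝ (E →L[ℝ] ℝ) := by
    rw [← (LinearMap.toContinuousLinearMap : (E →ₗ[ℝ] ℝ) ≃ₗ[ℝ] E →L[ℝ] ℝ).finrank_eq]
    exact (Subspace.dual_finrank_eq (K := ℝ) (V := E)).symm
  have : FiniteDimensional ℝ (E →L[ℝ] ℝ) :=
    Module.Finite.equiv (LinearMap.toContinuousLinearMap : (E →ₗ[ℝ] ℝ) ≃ₗ[ℝ] E →L[ℝ] ℝ)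
  refine ⟨(LinearEquiv.ofInjectiveOfFinrankEq (B : E →ₗ[ℝ] (E →L[ℝ] ℝ)) hinj
    hfin).toContinuousLinearEquiv, ?_⟩
  rfl

theorem G_Gam (G : E → E →L[ℝ] E →L[ℝ] ℝ) (x : E) (hx : ∀ u, u ≠ 0 → 0 < G x u u) (u v w : E) :
    G x (Gam G x u v) w =
      (1 / 2) * (fderiv ℝ G x u v w + fderiv ℝ G x v u w - fderiv ℝ G x w u v) := by
  obtain ⟨e, he⟩ := invertible_of_pos (G x) hx
  rw [Gam_apply, ← he, ContinuousLinearMap.inverse_equiv]
  simp [kosz_apply]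

theorem contDiffAt_Gam (G : E → E →L[ℝ] E →L[ℝ] ℝ) (x : E) (hx : ∀ u, u ≠ 0 → 0 < G x u u)
    (hG : ContDiffAt ℝ ∞ G x) : ContDiffAt ℝ ∞ (Gam G) x := by
  obtain ⟨e, he⟩ := invertible_of_pos (G x) hx
  have hd : ContDiffAt ℝ ∞ (fderiv ℝ G) x := hG.fderiv_right (m := ∞) (by simp)
  have h1 : ContDiffAt ℝ ∞ (fun y => (G y).inverse) x := by
    have h := contDiffAt_map_inverse (𝕜 := ℝ) (n := ∞) e
    rw [he] at h
    exact h.comp x hG
  have h2 : ContDiffAt ℝ ∞ (fun y => ContinuousLinearMap.compL ℝ E (E →L[ℝ] ℝ) E (G y).inverse) x :=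
    (ContinuousLinearMap.contDiff _).contDiffAt.comp x h1
  have h3 : ContDiffAt ℝ ∞ (fun y => kosz (fderiv ℝ G y)) x := by
    unfold kosz
    have hflip : ContDiffAt ℝ ∞ (fun y => (fderiv ℝ G y).flip) x :=
      ((ContinuousLinearMap.flipₗᵢ ℝ E E (E →L[ℝ] ℝ)).toContinuousLinearEquiv.contDiff.contDiffAt).comp x hd
    refine ContDiffAt.const_smul _ ((hd.add hflip).sub ?_)
    exact contDiffAt_const.clm_comp hflip
  exact h2.clm_comp h3

omit [FiniteDimensional ℝ E] in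
theorem fderiv_Gam_apply (Γ : E → E →L[ℝ] E →L[ℝ] E) (x : E) (h : DifferentiableAt ℝ Γ x)
    (u v w : E) : fderiv ℝ (fun y => Γ y v w) x u = fderiv ℝ Γ x u v w := by
  have h1 : HasFDerivAt (fun y => Γ y v w)
      ((ContinuousLinearMap.apply ℝ E w).comp ((ContinuousLinearMap.apply ℝ (E →L[ℝ] E) v).comp
        (fderiv ℝ Γ x))) x := by
    have ha := (ContinuousLinearMap.apply ℝ (E →L[ℝ] E) v).hasFDerivAt.comp x h.hasFDerivAt
    exact (ContinuousLinearMap.apply ℝ E w).hasFDerivAt.comp x ha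
  rw [h1.fderiv]
  simp

theorem riem_eq (G : E → E →L[ℝ] E →L[ℝ] ℝ) (x : E) (hx : ∀ u, u ≠ 0 → 0 < G x u u)
    (hG : ContDiffAt ℝ ∞ G x) (u v w : E) :
    riem G x u v w = fderiv ℝ (Gam G) x u v w - fderiv ℝ (Gam G) x v u w
      + Gam G x u (Gam G x v w) - Gam G x v (Gam G x u w) := by
  have hd : DifferentiableAt ℝ (Gam G) x := (contDiffAt_Gam G x hx hG).differentiableAt (by simp)
  unfold riem
  simp only [chr_eq]
  rw [fderiv_Gam_apply _ _ hd, fderiv_Gam_apply _ _ hd]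

end gen

section two
variable {E F : Type} [NormedAddCommGroup E] [NormedSpace ℝ E]
  [FiniteDimensional ℝ E] [NormedAddCommGroup F] [NormedSpace ℝ F] [FiniteDimensional ℝ F]

/-- the transformation rule of the Christoffel symbols -/
theorem transf (U : Set E) (U₂ : Set F) (ψ : E → F) (H : E → E →L[ℝ] E →L[ℝ] ℝ)
    (G : F → F →L[ℝ] F →L[ℝ] ℝ)
    (hfin : Module.finrank ℝ E = Module.finrank ℝ F) (hU : IsOpen U) (hU₂ : IsOpen U₂)
    (hm : ∀ y ∈ U, ψ y ∈ U₂)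
    (hψ : ContDiffOn ℝ ∞ ψ U) (hH : ContDiffOn ℝ ∞ H U) (hG : ContDiffOn ℝ ∞ G U₂)
    (hHp : ∀ y ∈ U, ∀ u, u ≠ 0 → 0 < H y u u)
    (hGs : ∀ y ∈ U₂, ∀ u v, G y u v = G y v u) (hGp : ∀ y ∈ U₂, ∀ u, u ≠ 0 → 0 < G y u u)
    (hi : ∀ y ∈ U, ∀ u v, G (ψ y) (fderiv ℝ ψ y u) (fderiv ℝ ψ y v) = H y u v)
    (y : E) (hy : y ∈ U) (u v : E) :
    fderiv ℝ (fderiv ℝ ψ) y u v + Gam G (ψ y) (fderiv ℝ ψ y u) (fderiv ℝ ψ y v) =
      fderiv ℝ ψ y (Gam H y u v) := by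
  have hψy : ContDiffAt ℝ ∞ ψ y := hψ.contDiffAt (hU.mem_nhds hy)
  have hHy : ContDiffAt ℝ ∞ H y := hH.contDiffAt (hU.mem_nhds hy)
  have hGy : ContDiffAt ℝ ∞ G (ψ y) := hG.contDiffAt (hU₂.mem_nhds (hm y hy))
  have hd : ContDiffAt ℝ ∞ (fderiv ℝ ψ) y := hψy.fderiv_right (m := ∞) (by simp)
  have hdd : DifferentiableAt ℝ (fderiv ℝ ψ) y := hd.differentiableAt (by simp)
  -- the derivative of the isometry condition
  have key : ∀ a b c : E, fderiv ℝ H y a b c =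
      fderiv ℝ G (ψ y) (fderiv ℝ ψ y a) (fderiv ℝ ψ y b) (fderiv ℝ ψ y c) +
      G (ψ y) (fderiv ℝ (fderiv ℝ ψ) y a b) (fderiv ℝ ψ y c) +
      G (ψ y) (fderiv ℝ ψ y b) (fderiv ℝ (fderiv ℝ ψ) y a c) := by
    intro a b c
    have h1 : HasFDerivAt (fun z => H z b c)
        ((ContinuousLinearMap.apply ℝ ℝ c).comp ((ContinuousLinearMap.apply ℝ (E →L[ℝ] ℝ) b).comp
        (fderiv ℝ H y))) y := by
      have ha := (ContinuousLinearMap.apply ℝ (E →L[ℝ] ℝ) b).hasFDerivAt.comp y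
        (hHy.differentiableAt (by simp)).hasFDerivAt
      exact (ContinuousLinearMap.apply ℝ ℝ c).hasFDerivAt.comp y ha
    have hB : HasFDerivAt (fun z => fderiv ℝ ψ z b)
        ((ContinuousLinearMap.apply ℝ F b).comp (fderiv ℝ (fderiv ℝ ψ) y)) y :=
      (ContinuousLinearMap.apply ℝ F b).hasFDerivAt.comp y hdd.hasFDerivAt
    have hC : HasFDerivAt (fun z => fderiv ℝ ψ z c)
        ((ContinuousLinearMap.apply ℝ F c).comp (fderiv ℝ (fderiv ℝ ψ) y)) y :=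
      (ContinuousLinearMap.apply ℝ F c).hasFDerivAt.comp y hdd.hasFDerivAt
    have hGψ : HasFDerivAt (fun z => G (ψ z)) ((fderiv ℝ G (ψ y)).comp (fderiv ℝ ψ y)) y :=
      (hGy.differentiableAt (by simp)).hasFDerivAt.comp y
        (hψy.differentiableAt (by simp)).hasFDerivAt
    have h2 := (hGψ.clm_apply hB).clm_apply hC
    have h3 : HasFDerivAt (fun z => H z b c) _ y :=
      h2.congr_of_eventuallyEq (by
        filter_upwards [hU.mem_nhds hy] with z hz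
        exact (hi z hz b c).symm)
    have h4 := congrArg (fun L => L a) (h1.unique h3)
    simp at h4
    rw [h4]
    ring
  have hsym : ∀ a b : E, fderiv ℝ (fderiv ℝ ψ) y a b = fderiv ℝ (fderiv ℝ ψ) y b a := by
    intro a b
    exact (hψy.isSymmSndFDerivAt (by rw [minSmoothness_of_isRCLikeNormedField]; exact ENat.LEInfty.out)).eq a b
  have hgsym : ∀ a b : F, G (ψ y) a b = G (ψ y) b a := hGs _ (hm y hy)
  have hgp := hGp _ (hm y hy)
  -- the differential is bijective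
  have hinj : Function.Injective (fderiv ℝ ψ y : E →ₗ[ℝ] F) := by
    rw [injective_iff_map_eq_zero]
    intro a ha
    by_contra h
    have h1 := hHp y hy a h
    have h2 : fderiv ℝ ψ y a = 0 := ha
    rw [← hi y hy, h2] at h1
    simp at h1
  have hsurj : Function.Surjective (fderiv ℝ ψ y : E →ₗ[ℝ] F) :=
    (LinearMap.injective_iff_surjective_of_finrank_eq_finrank hfin).1 hinj
  -- conclusion
  rw [← sub_eq_zero]
  by_contra hne
  have h0 := hgp _ hne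
  obtain ⟨w, hw⟩ := hsurj (fderiv ℝ (fderiv ℝ ψ) y u v +
    Gam G (ψ y) (fderiv ℝ ψ y u) (fderiv ℝ ψ y v) - fderiv ℝ ψ y (Gam H y u v))
  have hw' : fderiv ℝ ψ y w = fderiv ℝ (fderiv ℝ ψ) y u v +
    Gam G (ψ y) (fderiv ℝ ψ y u) (fderiv ℝ ψ y v) - fderiv ℝ ψ y (Gam H y u v) := hw
  have e1 : G (ψ y) (fderiv ℝ (fderiv ℝ ψ) y u v +
    Gam G (ψ y) (fderiv ℝ ψ y u) (fderiv ℝ ψ y v) - fderiv ℝ ψ y (Gam H y u v))
      (fderiv ℝ ψ y w) = 0 := by
    rw [map_sub, map_add]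
    simp only [sub_apply, add_apply]
    rw [G_Gam G (ψ y) hgp, hi y hy, G_Gam H y (hHp y hy)]
    rw [key u v w, key v u w, key w u v]
    rw [hsym v u, hsym w u, hsym w v]
    rw [hgsym (fderiv ℝ ψ y v) (fderiv ℝ (fderiv ℝ ψ) y u w),
      hgsym (fderiv ℝ ψ y u) (fderiv ℝ (fderiv ℝ ψ) y v w)]
    ring
  rw [hw'] at e1
  linarith

end two

end NatAux

open NatAux in
theorem stNatA : StNatA := by
  intro E F _ _ _ _ _ _ U U₂ ψ H G hfin hU hU₂ hm hψ hH hG hHs hHp hGs hGp hi y hy u v w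
  have T := transf U U₂ ψ H G hfin hU hU₂ hm hψ hH hG hHp hGs hGp hi
  have hψy : ContDiffAt ℝ ∞ ψ y := hψ.contDiffAt (hU.mem_nhds hy)
  have hHy : ContDiffAt ℝ ∞ H y := hH.contDiffAt (hU.mem_nhds hy)
  have hGy : ContDiffAt ℝ ∞ G (ψ y) := hG.contDiffAt (hU₂.mem_nhds (hm y hy))
  have hd : ContDiffAt ℝ ∞ (fderiv ℝ ψ) y := hψy.fderiv_right (m := ∞) (by simp)
  have hdd : DifferentiableAt ℝ (fderiv ℝ ψ) y := hd.differentiableAt (by simp)
  have hd2 : ContDiffAt ℝ ∞ (fderiv ℝ (fderiv ℝ ψ)) y := hd.fderiv_right (m := ∞) (by simp)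
  have hd2d : DifferentiableAt ℝ (fderiv ℝ (fderiv ℝ ψ)) y := hd2.differentiableAt (by simp)
  have hΓG : DifferentiableAt ℝ (Gam G) (ψ y) :=
    (contDiffAt_Gam G _ (hGp _ (hm y hy)) hGy).differentiableAt (by simp)
  have hΓH : DifferentiableAt ℝ (Gam H) y :=
    (contDiffAt_Gam H _ (hHp _ hy) hHy).differentiableAt (by simp)
  have hsym : ∀ a b : E, fderiv ℝ (fderiv ℝ ψ) y a b = fderiv ℝ (fderiv ℝ ψ) y b a := by
    intro a b
    exact (hψy.isSymmSndFDerivAt (by rw [minSmoothness_of_isRCLikeNormedField]; exact ENat.LEInfty.out)).eq a b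
  have hsym3 : ∀ a b : E, fderiv ℝ (fderiv ℝ (fderiv ℝ ψ)) y a b =
      fderiv ℝ (fderiv ℝ (fderiv ℝ ψ)) y b a := by
    intro a b
    exact (hd.isSymmSndFDerivAt (by rw [minSmoothness_of_isRCLikeNormedField]; exact ENat.LEInfty.out)).eq a b
  -- derivative of the transformation rule
  have key : ∀ a b c : E,
      fderiv ℝ (fderiv ℝ (fderiv ℝ ψ)) y a b c +
      (fderiv ℝ (Gam G) (ψ y) (fderiv ℝ ψ y a) (fderiv ℝ ψ y b) (fderiv ℝ ψ y c) +
      Gam G (ψ y) (fderiv ℝ (fderiv ℝ ψ) y a b) (fderiv ℝ ψ y c) +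
      Gam G (ψ y) (fderiv ℝ ψ y b) (fderiv ℝ (fderiv ℝ ψ) y a c)) =
      fderiv ℝ (fderiv ℝ ψ) y a (Gam H y b c) + fderiv ℝ ψ y (fderiv ℝ (Gam H) y a b c) := by
    intro a b c
    have hB : HasFDerivAt (fun z => fderiv ℝ ψ z b)
        ((ContinuousLinearMap.apply ℝ F b).comp (fderiv ℝ (fderiv ℝ ψ) y)) y :=
      (ContinuousLinearMap.apply ℝ F b).hasFDerivAt.comp y hdd.hasFDerivAt
    have hC : HasFDerivAt (fun z => fderiv ℝ ψ z c)
        ((ContinuousLinearMap.apply ℝ F c).comp (fderiv ℝ (fderiv ℝ ψ) y)) y :=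
      (ContinuousLinearMap.apply ℝ F c).hasFDerivAt.comp y hdd.hasFDerivAt
    have hGψ : HasFDerivAt (fun z => Gam G (ψ z)) ((fderiv ℝ (Gam G) (ψ y)).comp (fderiv ℝ ψ y)) y :=
      hΓG.hasFDerivAt.comp y (hψy.differentiableAt (by simp)).hasFDerivAt
    have h2 := (hGψ.clm_apply hB).clm_apply hC
    have h1 : HasFDerivAt (fun z => fderiv ℝ (fderiv ℝ ψ) z b c)
        ((ContinuousLinearMap.apply ℝ F c).comp ((ContinuousLinearMap.apply ℝ (E →L[ℝ] F) b).comp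
        (fderiv ℝ (fderiv ℝ (fderiv ℝ ψ)) y))) y := by
      have ha := (ContinuousLinearMap.apply ℝ (E →L[ℝ] F) b).hasFDerivAt.comp y hd2d.hasFDerivAt
      exact (ContinuousLinearMap.apply ℝ F c).hasFDerivAt.comp y ha
    have hHd : HasFDerivAt (fun z => Gam H z b c)
        ((ContinuousLinearMap.apply ℝ E c).comp ((ContinuousLinearMap.apply ℝ (E →L[ℝ] E) b).comp
        (fderiv ℝ (Gam H) y))) y := by
      have ha := (ContinuousLinearMap.apply ℝ (E →L[ℝ] E) b).hasFDerivAt.comp y hΓH.hasFDerivAt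
      exact (ContinuousLinearMap.apply ℝ E c).hasFDerivAt.comp y ha
    have h3 := hdd.hasFDerivAt.clm_apply hHd
    have h4 := (h1.add h2).congr_of_eventuallyEq (f₁ := fun z => fderiv ℝ ψ z (Gam H z b c)) (by
        filter_upwards [hU.mem_nhds hy] with z hz
        exact (T z hz b c).symm)
    have h5 := congrArg (fun L => L a) (h4.unique h3)
    simp at h5
    rw [add_comm (fderiv ℝ (fderiv ℝ ψ) y a (Gam H y b c)), ← h5]
    abel
  rw [riem_eq G _ (hGp _ (hm y hy)) hGy, riem_eq H _ (hHp _ hy) hHy]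
  have k1 := key u v w
  have k2 := key v u w
  have t1 := T y hy u w
  have t2 := T y hy v w
  have t3 := T y hy u (Gam H y v w)
  have t4 := T y hy v (Gam H y u w)
  rw [hsym3 v u, hsym v u] at k2
  rw [← t2] at t3
  rw [← t1] at t4
  simp only [map_add, map_sub] at t3 t4 ⊢
  linear_combination (norm := module) k1 - k2 + t3 - t4

end Pool.Agent.Lib.MP_2795bc_gt.SOL
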