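import Pool.Agent.Lib.MP_2795bc_gt.SOL.GStmts2

/-!
# MP_2795bc_gt: curvature of a product
-/

open scoped Manifold ContDiff Topology
open Bundle

noncomputable section

set_option maxSynthPendingDepth 3

namespace Pool.Agent.Lib.MP_2795bc_gt.SOL

namespace NatB

section gen

variable {E : Type*} [NormedAddCommGroup E] [NormedSpace ℝ E] [FiniteDimensional ℝ E]

theorem exists_equiv (f : E →L[ℝ] E →L[ℝ] ℝ) (hf : ∀ u, u ≠ 0 → 0 < f u u) :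
    ∃ e : E ≃L[ℝ] (E →L[ℝ] ℝ), (e : E →L[ℝ] (E →L[ℝ] ℝ)) = f := by
  have hinj : Function.Injective f := by
    rw [injective_iff_map_eq_zero]
    intro u hu
    by_contra h
    have h1 := hf u h
    rw [hu] at h1
    simp at h1
  have hdim : Module.finrank ℝ E = Module.finrank ℝ (E →L[ℝ] ℝ) := by
    rw [← (LinearMap.toContinuousLinearMap (𝕜 := ℝ) (E := E) (F' := ℝ)).finrank_eq]
    exact Subspace.dual_finrank_eq.symm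
  let e := LinearMap.linearEquivOfInjective (f : E →ₗ[ℝ] (E →L[ℝ] ℝ)) hinj hdim
  exact ⟨e.toContinuousLinearEquiv, by ext; rfl⟩

theorem inv_eq (f : E →L[ℝ] E →L[ℝ] ℝ) (hf : ∀ u, u ≠ 0 → 0 < f u u) {z : E} {L : E →L[ℝ] ℝ}
    (h : f z = L) : f.inverse L = z := by
  obtain ⟨e, he⟩ := exists_equiv f hf
  rw [← h, ← he, ContinuousLinearMap.inverse_equiv]
  exact e.symm_apply_apply z

theorem inv_spec (f : E →L[ℝ] E →L[ℝ] ℝ) (hf : ∀ u, u ≠ 0 → 0 < f u u) (L : E →L[ℝ] ℝ) :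
    f (f.inverse L) = L := by
  obtain ⟨e, he⟩ := exists_equiv f hf
  rw [← he, ContinuousLinearMap.inverse_equiv]
  exact e.apply_symm_apply L

theorem chr_spec (G : E → E →L[ℝ] E →L[ℝ] ℝ) (y : E) (hf : ∀ u, u ≠ 0 → 0 < G y u u)
    (u v w : E) : G y (chr G y u v) w =
      (1 / 2) * (fderiv ℝ G y u v w + fderiv ℝ G y v u w - fderiv ℝ G y w u v) := by
  unfold chr
  rw [inv_spec _ hf]
  rfl

theorem chr_eq (G : E → E →L[ℝ] E →L[ℝ] ℝ) (y : E) (hf : ∀ u, u ≠ 0 → 0 < G y u u)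
    (u v z : E) (h : ∀ w, G y z w =
      (1 / 2) * (fderiv ℝ G y u v w + fderiv ℝ G y v u w - fderiv ℝ G y w u v)) :
    chr G y u v = z := by
  unfold chr
  refine inv_eq _ hf ?_
  ext w
  rw [h w]
  rfl

theorem chr_diff (G : E → E →L[ℝ] E →L[ℝ] ℝ) {U : Set E} (hU : IsOpen U)
    (hG : ContDiffOn ℝ ∞ G U) {y : E} (hy : y ∈ U) (hf : ∀ u, u ≠ 0 → 0 < G y u u) (v w : E) :
    DifferentiableAt ℝ (fun y => chr G y v w) y := by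
  have hG' : ContDiffAt ℝ ∞ G y := hG.contDiffAt (hU.mem_nhds hy)
  have hd : ContDiffAt ℝ ∞ (fderiv ℝ G) y := hG'.fderiv_right (m := ∞) (by simp)
  have hi : ContDiffAt ℝ ∞ (fun y => (G y).inverse) y := by
    obtain ⟨e, he⟩ := exists_equiv (G y) hf
    have h := contDiffAt_map_inverse (𝕜 := ℝ) (n := ∞) e
    rw [he] at h
    exact h.comp y hG'
  have h2 : ContDiffAt ℝ ∞ (fun y => (fderiv ℝ G y).flip v) y :=
    ((ContinuousLinearMap.flipₗᵢ ℝ E E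
      (E →L[ℝ] ℝ)).toContinuousLinearEquiv.contDiff.contDiffAt.comp y hd).clm_apply
      contDiffAt_const
  have hfl : ContDiffAt ℝ ∞ (fun y => ((fderiv ℝ G y).flip v).flip w) y :=
    ((ContinuousLinearMap.flipₗᵢ ℝ E E ℝ).toContinuousLinearEquiv.contDiff.contDiffAt.comp y
      h2).clm_apply contDiffAt_const
  have h1 : ContDiffAt ℝ ∞ (fun y => fderiv ℝ G y v w) y :=
    (hd.clm_apply contDiffAt_const).clm_apply contDiffAt_const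
  have h3 : ContDiffAt ℝ ∞ (fun y => fderiv ℝ G y w v) y :=
    (hd.clm_apply contDiffAt_const).clm_apply contDiffAt_const
  exact (hi.clm_apply (((h1.add h3).sub hfl).const_smul (1 / 2 : ℝ))).differentiableAt (by simp)

end gen

section pull

variable {E F : Type*} [NormedAddCommGroup E] [NormedSpace ℝ E] [NormedAddCommGroup F]
  [NormedSpace ℝ F]

/-- pull-back of bilinear forms -/
def pull (p : E →L[ℝ] F) : (F →L[ℝ] F →L[ℝ] ℝ) →L[ℝ] (E →L[ℝ] E →L[ℝ] ℝ) :=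
  (ContinuousLinearMap.compL ℝ E (F →L[ℝ] ℝ) (E →L[ℝ] ℝ)
    ((ContinuousLinearMap.compL ℝ E F ℝ).flip p)).comp
    ((ContinuousLinearMap.compL ℝ E F (F →L[ℝ] ℝ)).flip p)

theorem pull_apply (p : E →L[ℝ] F) (B : F →L[ℝ] F →L[ℝ] ℝ) (u v : E) :
    pull p B u v = B (p u) (p v) := rfl

end pull

section prod

variable {E₁ E₂ : Type*} [NormedAddCommGroup E₁] [NormedSpace ℝ E₁] [NormedAddCommGroup E₂]
  [NormedSpace ℝ E₂] (G₁ : E₁ → E₁ →L[ℝ] E₁ →L[ℝ] ℝ) (G₂ : E₂ → E₂ →L[ℝ] E₂ →L[ℝ] ℝ)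

/-- the product metric -/
def HP (y : E₁ × E₂) : (E₁ × E₂) →L[ℝ] (E₁ × E₂) →L[ℝ] ℝ :=
  pull (ContinuousLinearMap.fst ℝ E₁ E₂) (G₁ y.1) + pull (ContinuousLinearMap.snd ℝ E₁ E₂) (G₂ y.2)

theorem HP_apply (y u v : E₁ × E₂) : HP G₁ G₂ y u v = G₁ y.1 u.1 v.1 + G₂ y.2 u.2 v.2 := rfl

theorem HP_smooth {U₁ : Set E₁} {U₂ : Set E₂} (hG1 : ContDiffOn ℝ ∞ G₁ U₁)
    (hG2 : ContDiffOn ℝ ∞ G₂ U₂) : ContDiffOn ℝ ∞ (HP G₁ G₂) (U₁ ×ˢ U₂) := by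
  have e1 : ContDiffOn ℝ ∞ (fun y : E₁ × E₂ => G₁ y.1) (U₁ ×ˢ U₂) :=
    hG1.comp contDiff_fst.contDiffOn fun y hy => hy.1
  have e2 : ContDiffOn ℝ ∞ (fun y : E₁ × E₂ => G₂ y.2) (U₁ ×ˢ U₂) :=
    hG2.comp contDiff_snd.contDiffOn fun y hy => hy.2
  exact ((pull (ContinuousLinearMap.fst ℝ E₁ E₂)).contDiff.comp_contDiffOn e1).add
    ((pull (ContinuousLinearMap.snd ℝ E₁ E₂)).contDiff.comp_contDiffOn e2)

theorem HP_hasFDerivAt {y : E₁ × E₂} (d1 : DifferentiableAt ℝ G₁ y.1)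
    (d2 : DifferentiableAt ℝ G₂ y.2) : HasFDerivAt (HP G₁ G₂)
      ((pull (ContinuousLinearMap.fst ℝ E₁ E₂)).comp
        ((fderiv ℝ G₁ y.1).comp (ContinuousLinearMap.fst ℝ E₁ E₂)) +
      (pull (ContinuousLinearMap.snd ℝ E₁ E₂)).comp
        ((fderiv ℝ G₂ y.2).comp (ContinuousLinearMap.snd ℝ E₁ E₂))) y := by
  have e1 := (pull (ContinuousLinearMap.fst ℝ E₁ E₂)).hasFDerivAt.comp y
    (d1.hasFDerivAt.comp y hasFDerivAt_fst)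
  have e2 := (pull (ContinuousLinearMap.snd ℝ E₁ E₂)).hasFDerivAt.comp y
    (d2.hasFDerivAt.comp y hasFDerivAt_snd)
  exact e1.add e2

theorem HP_fderiv {y : E₁ × E₂} (d1 : DifferentiableAt ℝ G₁ y.1)
    (d2 : DifferentiableAt ℝ G₂ y.2) (w u v : E₁ × E₂) : fderiv ℝ (HP G₁ G₂) y w u v =
      fderiv ℝ G₁ y.1 w.1 u.1 v.1 + fderiv ℝ G₂ y.2 w.2 u.2 v.2 := by
  rw [(HP_hasFDerivAt G₁ G₂ d1 d2).fderiv]
  rfl

variable [FiniteDimensional ℝ E₁] [FiniteDimensional ℝ E₂]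

omit [FiniteDimensional ℝ E₁] [FiniteDimensional ℝ E₂] in
theorem HP_pos {y : E₁ × E₂} (h1 : ∀ u, u ≠ 0 → 0 < G₁ y.1 u u)
    (h2 : ∀ u, u ≠ 0 → 0 < G₂ y.2 u u) (u : E₁ × E₂) (hu : u ≠ 0) : 0 < HP G₁ G₂ y u u := by
  rw [HP_apply]
  have a1 : 0 ≤ G₁ y.1 u.1 u.1 := by
    by_cases h : u.1 = 0
    · rw [h]; simp
    · exact (h1 u.1 h).le
  have a2 : 0 ≤ G₂ y.2 u.2 u.2 := by
    by_cases h : u.2 = 0
    · rw [h]; simp
    · exact (h2 u.2 h).le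
  by_cases h : u.1 = 0
  · have h' : u.2 ≠ 0 := fun h' => hu (Prod.ext h h')
    exact add_pos_of_nonneg_of_pos a1 (h2 u.2 h')
  · exact add_pos_of_pos_of_nonneg (h1 u.1 h) a2

theorem HP_chr {y : E₁ × E₂} (d1 : DifferentiableAt ℝ G₁ y.1)
    (d2 : DifferentiableAt ℝ G₂ y.2) (h1 : ∀ u, u ≠ 0 → 0 < G₁ y.1 u u)
    (h2 : ∀ u, u ≠ 0 → 0 < G₂ y.2 u u) (u v : E₁ × E₂) : chr (HP G₁ G₂) y u v =
      (chr G₁ y.1 u.1 v.1, chr G₂ y.2 u.2 v.2) := by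
  refine chr_eq (HP G₁ G₂) y (HP_pos G₁ G₂ h1 h2) u v _ fun w => ?_
  rw [HP_apply, chr_spec G₁ y.1 h1, chr_spec G₂ y.2 h2, HP_fderiv G₁ G₂ d1 d2,
    HP_fderiv G₁ G₂ d1 d2, HP_fderiv G₁ G₂ d1 d2]
  ring

omit [FiniteDimensional ℝ E₁] [FiniteDimensional ℝ E₂] in
/-- derivative of a function with product components -/
theorem fderiv_pair {F₁ F₂ : Type*} [NormedAddCommGroup F₁] [NormedSpace ℝ F₁]
    [NormedAddCommGroup F₂] [NormedSpace ℝ F₂] (f : E₁ → F₁) (g : E₂ → F₂)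
    (h : E₁ × E₂ → F₁ × F₂) {y : E₁ × E₂} (hev : h =ᶠ[𝓝 y] fun y => (f y.1, g y.2))
    (hf : DifferentiableAt ℝ f y.1) (hg : DifferentiableAt ℝ g y.2) (u : E₁ × E₂) :
    fderiv ℝ h y u = (fderiv ℝ f y.1 u.1, fderiv ℝ g y.2 u.2) := by
  have e1 := hf.hasFDerivAt.comp y (hasFDerivAt_fst (𝕜 := ℝ) (E := E₁) (F := E₂))
  have e2 := hg.hasFDerivAt.comp y (hasFDerivAt_snd (𝕜 := ℝ) (E := E₁) (F := E₂))
  have e3 := (e1.prodMk e2).congr_of_eventuallyEq hev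
  rw [e3.fderiv]
  rfl

theorem HP_riem {U₁ : Set E₁} {U₂ : Set E₂} (hU1 : IsOpen U₁) (hU2 : IsOpen U₂)
    (hG1 : ContDiffOn ℝ ∞ G₁ U₁) (hG2 : ContDiffOn ℝ ∞ G₂ U₂)
    (hp1 : ∀ y ∈ U₁, ∀ u, u ≠ 0 → 0 < G₁ y u u) (hp2 : ∀ y ∈ U₂, ∀ u, u ≠ 0 → 0 < G₂ y u u)
    {y : E₁ × E₂} (hy : y ∈ U₁ ×ˢ U₂) (u v w : E₁ × E₂) :
    riem (HP G₁ G₂) y u v w = (riem G₁ y.1 u.1 v.1 w.1, riem G₂ y.2 u.2 v.2 w.2) := by
  have hchr : ∀ y ∈ U₁ ×ˢ U₂, ∀ u v, chr (HP G₁ G₂) y u v =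
      (chr G₁ y.1 u.1 v.1, chr G₂ y.2 u.2 v.2) := fun y hy u v =>
    HP_chr G₁ G₂ ((hG1.contDiffAt (hU1.mem_nhds hy.1)).differentiableAt (by simp))
      ((hG2.contDiffAt (hU2.mem_nhds hy.2)).differentiableAt (by simp)) (hp1 y.1 hy.1)
      (hp2 y.2 hy.2) u v
  have hd : ∀ u v w, fderiv ℝ (fun y => chr (HP G₁ G₂) y v w) y u =
      (fderiv ℝ (fun y => chr G₁ y v.1 w.1) y.1 u.1,
        fderiv ℝ (fun y => chr G₂ y v.2 w.2) y.2 u.2) := by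
    intro u v w
    refine fderiv_pair (fun y => chr G₁ y v.1 w.1) (fun y => chr G₂ y v.2 w.2) _ ?_
      (chr_diff G₁ hU1 hG1 hy.1 (hp1 y.1 hy.1) v.1 w.1)
      (chr_diff G₂ hU2 hG2 hy.2 (hp2 y.2 hy.2) v.2 w.2) u
    filter_upwards [(hU1.prod hU2).mem_nhds hy] with z hz
    exact hchr z hz v w
  unfold riem
  rw [hd, hd, hchr y hy v w, hchr y hy u w, hchr y hy, hchr y hy]
  rfl

end prod

end NatB

theorem stNatB : StNatB := by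
  intro k l U₁ U₂ G₁ G₂ h1 h2
  exact ⟨NatB.HP G₁ G₂, NatB.HP_smooth G₁ G₂ h1.2.1 h2.2.1, NatB.HP_apply G₁ G₂,
    fun y hy u v w => NatB.HP_riem G₁ G₂ h1.1 h2.1 h1.2.1 h2.2.1 (fun y hy => (h1.2.2 y hy).2)
      (fun y hy => (h2.2.2 y hy).2) hy u v w⟩

end Pool.Agent.Lib.MP_2795bc_gt.SOL
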