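import Pool.Agent.Lib.MP_2795bc_gt.SOL.GStmts
import Pool.Agent.Lib.MP_2795bc_gt.SOL.GStmts2

/-!
# MP_2795bc_gt: the metric is not Einstein (E15)
-/

set_option autoImplicit false

open scoped Manifold ContDiff Topology Quaternion
open Bundle

noncomputable section

namespace Pool.Agent.Lib.MP_2795bc_gt.SOL

namespace NonEinAux

/-- a point of the chart with `x = 0` -/
def pt : Eu 7 := EuclideanSpace.single 0 1

theorem pt_mem : pt ∈ Uo := by
  left
  simp [pt]

theorem phi_pt (e : Ix) : (Phi e pt).2.1 = 0 := by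
  simp [Phi, Te, Phi0, eta2, pt]

theorem isOpen_Uo : IsOpen Uo := by
  have h0 : Continuous (fun t : Eu 7 => t 0) := by fun_prop
  have h1 : Continuous (fun t : Eu 7 => t 1) := by fun_prop
  exact (isOpen_ne_fun h0 continuous_const).union (isOpen_ne_fun h1 continuous_const)

theorem diff_x (e : Ix) (t : Eu 7) : DifferentiableAt ℝ (fun y => (Phi e y).2.1) t := by
  have h : (fun y => (Phi e y).2.1) = fun y : Eu 7 => sgn e.1 * ((1 - eta2 y) / (1 + eta2 y)) := rfl
  rw [h]
  have he : DifferentiableAt ℝ eta2 t := by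
    unfold eta2
    fun_prop
  have hne : 1 + eta2 t ≠ 0 := by
    have : 0 ≤ eta2 t := by
      unfold eta2
      positivity
    positivity
  have a1 : DifferentiableAt ℝ (fun y : Eu 7 => 1 - eta2 y) t := he.const_sub 1
  have a2 : DifferentiableAt ℝ (fun y : Eu 7 => 1 + eta2 y) t := he.const_add 1
  have a3 : DifferentiableAt ℝ (fun y : Eu 7 => (1 - eta2 y) / (1 + eta2 y)) t := by
    fun_prop (disch := assumption)
  exact a3.const_mul _

theorem diff_psi (f : Fn) (hf : f.Good) : DifferentiableAt ℝ (psi f) 0 := by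
  obtain ⟨⟨h1, h2, h3, h4, h5, h6, h7⟩, -, hpos, -⟩ := hf
  have hn : (∞ : WithTop ℕ∞) ≠ 0 := by decide
  have h0 : Jv ∈ 𝓝 (0 : ℝ) := Ioo_mem_nhds (by norm_num) (by norm_num)
  have d2 := (h2.contDiffAt h0).differentiableAt hn
  have d3 := (h3.contDiffAt h0).differentiableAt hn
  have d4 := (h4.contDiffAt h0).differentiableAt hn
  have d6 := (h6.contDiffAt h0).differentiableAt hn
  have ds : DifferentiableAt ℝ sp 0 := by
    unfold sp kap
    fun_prop
  have hc := (hpos 0 (by norm_num)).2.1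
  have hs : sp 0 = 437 / 400 := by
    norm_num [sp, kap]
  have hne : f.c 0 * sp 0 ≠ 0 := by
    rw [hs]
    positivity
  exact ((d2.add (d3.const_mul _)).sub d4).div (d6.mul ds) hne

end NonEinAux

open NonEinAux in
theorem stNonEin (hC : StCurv) (hL : StLoc) (hLie : StLie) (hAB : StAB) (hAt : StAt0)
    (hGm : StGm) : StNonEin := by
  intro f hf e c hE
  obtain ⟨X, hX, hX2⟩ := hC f hf e
  have hx := phi_pt e
  have hUn : Uo ∈ 𝓝 pt := isOpen_Uo.mem_nhds pt_mem
  have hn : (∞ : WithTop ℕ∞) ≠ 0 := by decide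
  have g1 : ∀ y ∈ Uo, ∀ a, Gm f e y (X a y) (X a y) = qf f (Phi e y).2.1 a := by
    intro y hy a
    have := (hX2 y hy).1 a a
    rwa [if_pos rfl] at this
  have g3 := (hX2 pt pt_mem).2.2.1
  have g4 : ∀ y ∈ Uo, Vm f e y = psi f (Phi e y).2.1 • X 0 y := fun y hy => (hX2 y hy).2.2.2.1
  have g5 := (hX2 pt pt_mem).2.2.2.2.1
  obtain ⟨hG1, -, -, hG4⟩ := hGm f hf e
  have h0 : (0 : ℝ) ∈ Set.Ioo (-1 : ℝ) 1 := by norm_num
  obtain ⟨-, -, hdq, -⟩ := hAB f hf 0 h0
  have hV0 : Vm f e pt = psi f 0 • X 0 pt := by rw [g4 pt pt_mem, hx]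
  obtain ⟨-, -, -, -, -, -, -, -, hpsi, hA14, hq0⟩ := hAt f hf
  have key : ∀ a : Fin 7, a ≠ 0 → (∀ d, ct 0 a d = 0) → psi f 0 * Aq f a 0 = 1 - c := by
    intro a ha hct
    have hq := hq0 0 h0 a
    have dXa : DifferentiableAt ℝ (X a) pt := ((hX a).contDiffAt hUn).differentiableAt hn
    have dX0 : DifferentiableAt ℝ (X 0) pt := ((hX 0).contDiffAt hUn).differentiableAt hn
    have hl := hLie 7 Uo (Gm f e) (Vm f e) (X a) (X a) isOpen_Uo hG1.contDiffOn hG4.contDiffOn
      (hX a) (hX a) pt pt_mem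
    have e1 : fderiv ℝ (fun y => Gm f e y (X a y) (X a y)) pt
        = fderiv ℝ (fun y => qf f (Phi e y).2.1 a) pt := by
      apply Filter.EventuallyEq.fderiv_eq
      filter_upwards [hUn] with y hy
      exact g1 y hy a
    have e2 : fderiv ℝ (fun y => Gm f e y (X a y) (X a y)) pt (Vm f e pt)
        = psi f 0 * deriv (fun x => qf f x a) 0 := by
      rw [e1, hV0, map_smul, g5 (fun x => qf f x a) 0 (by
        rw [hx]
        exact (hdq a).differentiableAt), if_pos rfl, hx]
      simp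
    have dpsi : DifferentiableAt ℝ (fun y => psi f (Phi e y).2.1) pt := by
      have h1 : DifferentiableAt ℝ (psi f) ((Phi e pt).2.1) := by
        rw [hx]
        exact diff_psi f hf
      exact h1.comp pt (diff_x e pt)
    have e3 : fderiv ℝ (Vm f e) pt (X a pt) = psi f 0 • fderiv ℝ (X 0) pt (X a pt) := by
      have h1 : fderiv ℝ (Vm f e) pt = fderiv ℝ (fun y => psi f (Phi e y).2.1 • X 0 y) pt := by
        apply Filter.EventuallyEq.fderiv_eq
        filter_upwards [hUn] with y hy
        exact g4 y hy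
      have h2 := fderiv_fun_smul dpsi dX0
      have h3 : fderiv ℝ (fun y => psi f (Phi e y).2.1) pt (X a pt) = 0 := by
        rw [g5 (psi f) a (by
          rw [hx]
          exact diff_psi f hf), if_neg ha]
      rw [h1, h2]
      simp only [add_apply, smul_apply,
        ContinuousLinearMap.smulRight_apply, h3, zero_smul, add_zero, hx]
    have e4 : fderiv ℝ (X a) pt (Vm f e pt) - fderiv ℝ (Vm f e) pt (X a pt) = 0 := by
      rw [e3, hV0, map_smul, ← smul_sub, g3 0 a]
      simp [hct]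
    rw [e2, e4] at hl
    simp only [map_zero, zero_apply, sub_zero] at hl
    have h1 := hL f hf e pt (X a pt) (X a pt)
    rw [hE pt (X a pt) (X a pt), hl, g1 pt pt_mem a, hx] at h1
    unfold Aq
    field_simp
    linarith
  have k1 := key 1 (by decide) (by intro d; fin_cases d <;> rfl)
  have k4 := key 4 (by decide) (by intro d; fin_cases d <;> rfl)
  exact hA14 (mul_left_cancel₀ hpsi (k1.trans k4.symm))

end Pool.Agent.Lib.MP_2795bc_gt.SOL
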