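import Pool.Agent.Lib.MP_2795bc_gt.SOL.GStmts2

/-!
# MP_2795bc_gt: algebra of Christoffel symbols and curvature
-/

open scoped Manifold ContDiff Topology
open Bundle

noncomputable section

namespace Pool.Agent.Lib.MP_2795bc_gt.SOL

section RegL

variable {n : ℕ} {G : Eu n → Eu n →L[ℝ] Eu n →L[ℝ] ℝ} {U : Set (Eu n)}

theorem regL_chr_left (G : Eu n → Eu n →L[ℝ] Eu n →L[ℝ] ℝ) (t : Eu n) (r : ℝ) (u u' v : Eu n) :
    chr G t (r • u + u') v = r • chr G t u v + chr G t u' v := by
  unfold chr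
  rw [← map_smul, ← map_add]
  congr 1
  ext w
  simp only [map_add, map_smul, add_apply, smul_apply,
    sub_apply, ContinuousLinearMap.flip_apply, smul_eq_mul]
  ring

theorem regL_chr_right (G : Eu n → Eu n →L[ℝ] Eu n →L[ℝ] ℝ) (t : Eu n) (r : ℝ) (u v v' : Eu n) :
    chr G t u (r • v + v') = r • chr G t u v + chr G t u v' := by
  unfold chr
  rw [← map_smul, ← map_add]
  congr 1
  ext w
  simp only [map_add, map_smul, add_apply, smul_apply,
    sub_apply, ContinuousLinearMap.flip_apply, smul_eq_mul]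
  ring

/-- a positive definite form is invertible -/
theorem regL_inv (B : Eu n →L[ℝ] Eu n →L[ℝ] ℝ) (hB : ∀ u, u ≠ 0 → 0 < B u u)
    (L : Eu n →L[ℝ] ℝ) : B (B.inverse L) = L := by
  have hinj : Function.Injective B := by
    rw [injective_iff_map_eq_zero]
    intro u hu
    by_contra hne
    have h := hB u hne
    rw [hu] at h
    simp at h
  have hfin : Module.finrank ℝ (Eu n) = Module.finrank ℝ (Eu n →L[ℝ] ℝ) := by
    rw [← LinearMap.toContinuousLinearMap.finrank_eq]
    exact (Subspace.dual_finrank_eq).symm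
  have hbij : Function.Bijective (B : Eu n →ₗ[ℝ] (Eu n →L[ℝ] ℝ)) := by
    refine ⟨hinj, ?_⟩
    exact (LinearMap.injective_iff_surjective_of_finrank_eq_finrank hfin).1 hinj
  let e : Eu n ≃L[ℝ] (Eu n →L[ℝ] ℝ) :=
    (LinearEquiv.ofBijective (B : Eu n →ₗ[ℝ] (Eu n →L[ℝ] ℝ)) hbij).toContinuousLinearEquiv
  have he : (e : Eu n →L[ℝ] (Eu n →L[ℝ] ℝ)) = B := by
    ext u v
    rfl
  rw [← he, ContinuousLinearMap.inverse_equiv]
  exact e.apply_symm_apply L

theorem regL_G (hG : IsMetricOn G U) {t : Eu n} (ht : t ∈ U) (u v w : Eu n) :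
    G t (chr G t u v) w =
      (1 / 2) * (fderiv ℝ G t u v w + fderiv ℝ G t v u w - fderiv ℝ G t w u v) := by
  unfold chr
  rw [regL_inv (G t) (hG.2.2 t ht).2]
  rfl

theorem regL_diff (hG : IsMetricOn G U) {t : Eu n} (ht : t ∈ U) : DifferentiableAt ℝ G t :=
  (hG.2.1.contDiffAt (hG.1.mem_nhds ht)).differentiableAt (by simp)

theorem regL_hf {t : Eu n} (hd : DifferentiableAt ℝ G t) (v w : Eu n) :
    HasFDerivAt (fun y => G y v w)
      (((ContinuousLinearMap.apply ℝ ℝ w).comp
        (ContinuousLinearMap.apply ℝ (Eu n →L[ℝ] ℝ) v)).comp (fderiv ℝ G t)) t := by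
  have h := ((ContinuousLinearMap.apply ℝ ℝ w).comp
    (ContinuousLinearMap.apply ℝ (Eu n →L[ℝ] ℝ) v)).hasFDerivAt (x := G t)
  exact HasFDerivAt.comp (g := ((ContinuousLinearMap.apply ℝ ℝ w).comp
    (ContinuousLinearMap.apply ℝ (Eu n →L[ℝ] ℝ) v))) t h hd.hasFDerivAt

theorem regL_symm (hG : IsMetricOn G U) {t : Eu n} (ht : t ∈ U) (u v w : Eu n) :
    fderiv ℝ G t u v w = fderiv ℝ G t u w v := by
  have hd := regL_diff hG ht
  have h3 : (fun y => G y v w) =ᶠ[𝓝 t] (fun y => G y w v) := by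
    filter_upwards [hG.1.mem_nhds ht] with y hy
    exact (hG.2.2 y hy).1 v w
  have h4 := (regL_hf hd v w).unique ((regL_hf hd w v).congr_of_eventuallyEq h3)
  exact congrArg (fun L : Eu n →L[ℝ] ℝ => L u) h4

theorem regL_chr_symm (hG : IsMetricOn G U) {t : Eu n} (ht : t ∈ U) (u v : Eu n) :
    chr G t u v = chr G t v u := by
  unfold chr
  congr 1
  ext w
  simp only [add_apply, smul_apply,
    sub_apply, ContinuousLinearMap.flip_apply, smul_eq_mul]
  rw [regL_symm hG ht w u v]
  ring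

theorem regL_cd (hc : ∀ u v, ContDiffOn ℝ ∞ (fun t => chr G t u v) U) (hU : IsOpen U) {t : Eu n}
    (ht : t ∈ U) (u v : Eu n) : DifferentiableAt ℝ (fun y => chr G y u v) t :=
  ((hc u v).contDiffAt (hU.mem_nhds ht)).differentiableAt (by simp)

theorem regL_fd_left (hG : IsMetricOn G U) (hc : ∀ u v, ContDiffOn ℝ ∞ (fun t => chr G t u v) U)
    {t : Eu n} (ht : t ∈ U) (r : ℝ) (u u' v : Eu n) :
    fderiv ℝ (fun y => chr G y (r • u + u') v) t =
      r • fderiv ℝ (fun y => chr G y u v) t + fderiv ℝ (fun y => chr G y u' v) t := by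
  have h1 : (fun y => chr G y (r • u + u') v) = fun y => r • chr G y u v + chr G y u' v :=
    funext fun y => regL_chr_left G y r u u' v
  rw [h1]
  exact (((regL_cd hc hG.1 ht u v).hasFDerivAt.const_smul r).add
    (regL_cd hc hG.1 ht u' v).hasFDerivAt).fderiv

theorem regL_fd_right (hG : IsMetricOn G U) (hc : ∀ u v, ContDiffOn ℝ ∞ (fun t => chr G t u v) U)
    {t : Eu n} (ht : t ∈ U) (r : ℝ) (u v v' : Eu n) :
    fderiv ℝ (fun y => chr G y u (r • v + v')) t =
      r • fderiv ℝ (fun y => chr G y u v) t + fderiv ℝ (fun y => chr G y u v') t := by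
  have h1 : (fun y => chr G y u (r • v + v')) = fun y => r • chr G y u v + chr G y u v' :=
    funext fun y => regL_chr_right G y r u v v'
  rw [h1]
  exact (((regL_cd hc hG.1 ht u v).hasFDerivAt.const_smul r).add
    (regL_cd hc hG.1 ht u v').hasFDerivAt).fderiv

theorem regL_riem1 (hG : IsMetricOn G U) (hc : ∀ u v, ContDiffOn ℝ ∞ (fun t => chr G t u v) U)
    {t : Eu n} (ht : t ∈ U) (r : ℝ) (u u' v w : Eu n) :
    riem G t (r • u + u') v w = r • riem G t u v w + riem G t u' v w := by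
  unfold riem
  rw [regL_fd_left hG hc ht]
  simp only [map_add, map_smul, add_apply, smul_apply,
    regL_chr_left, regL_chr_right]
  module

theorem regL_riem2 (hG : IsMetricOn G U) (hc : ∀ u v, ContDiffOn ℝ ∞ (fun t => chr G t u v) U)
    {t : Eu n} (ht : t ∈ U) (r : ℝ) (u v v' w : Eu n) :
    riem G t u (r • v + v') w = r • riem G t u v w + riem G t u v' w := by
  unfold riem
  rw [regL_fd_left hG hc ht]
  simp only [map_add, map_smul, add_apply, smul_apply,
    regL_chr_left, regL_chr_right]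
  module

theorem regL_riem3 (hG : IsMetricOn G U) (hc : ∀ u v, ContDiffOn ℝ ∞ (fun t => chr G t u v) U)
    {t : Eu n} (ht : t ∈ U) (r : ℝ) (u v w w' : Eu n) :
    riem G t u v (r • w + w') = r • riem G t u v w + riem G t u v w' := by
  unfold riem
  rw [regL_fd_right hG hc ht, regL_fd_right hG hc ht]
  simp only [add_apply, smul_apply, regL_chr_right]
  module

end RegL

/-- algebra of Christoffel symbols and curvature -/
theorem stRegL : StRegL := by
  intro n G U hG hc
  refine ⟨fun t ht u v w => regL_G hG ht u v w, fun t ht u v => regL_chr_symm hG ht u v,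
    regL_chr_left G, regL_chr_right G, fun t ht => regL_riem1 hG hc ht,
    fun t ht => regL_riem2 hG hc ht, fun t ht => regL_riem3 hG hc ht, ?_, ?_⟩
  · intro t ht r v v' w
    unfold ric
    rw [Finset.mul_sum, ← Finset.sum_add_distrib]
    refine Finset.sum_congr rfl fun i _ => ?_
    rw [regL_riem2 hG hc ht]
    rfl
  · intro t ht r v w w'
    unfold ric
    rw [Finset.mul_sum, ← Finset.sum_add_distrib]
    refine Finset.sum_congr rfl fun i _ => ?_
    rw [regL_riem3 hG hc ht]
    rfl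

/-- regularity and algebra of Christoffel symbols and curvature -/
theorem stReg (h1 : StRegS) (h2 : StRegL) : StReg := by
  intro n G U hG
  obtain ⟨a, b, c⟩ := h1 n G U hG
  exact ⟨a, b, c, h2 n G U hG a⟩

end Pool.Agent.Lib.MP_2795bc_gt.SOL
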