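import Pool.Agent.Lib.MP_2795bc_gt.SOL.GStmts2

/-!
# MP_2795bc_gt: smoothness of Christoffel symbols and curvature
-/

open scoped Manifold ContDiff Topology

noncomputable section

namespace Pool.Agent.Lib.MP_2795bc_gt.SOL

namespace RegSAux

variable {n : ℕ} {G : Eu n → Eu n →L[ℝ] Eu n →L[ℝ] ℝ} {U : Set (Eu n)}

theorem exists_equiv (B : Eu n →L[ℝ] Eu n →L[ℝ] ℝ) (hpos : ∀ u, u ≠ 0 → 0 < B u u) :
    ∃ e : Eu n ≃L[ℝ] (Eu n →L[ℝ] ℝ), (e : Eu n →L[ℝ] (Eu n →L[ℝ] ℝ)) = B := by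
  have hinj : Function.Injective (B : Eu n →ₗ[ℝ] (Eu n →L[ℝ] ℝ)) := by
    rw [injective_iff_map_eq_zero]
    intro u hu
    by_contra h
    have h1 := hpos u h
    have h2 : B u = 0 := hu
    rw [h2] at h1
    exact lt_irrefl _ h1
  have hfr : Module.finrank ℝ (Eu n) = Module.finrank ℝ (Eu n →L[ℝ] ℝ) := by
    rw [← LinearEquiv.finrank_eq
      (LinearMap.toContinuousLinearMap : (Eu n →ₗ[ℝ] ℝ) ≃ₗ[ℝ] (Eu n →L[ℝ] ℝ))]
    exact (Subspace.dual_finrank_eq).symm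
  refine ⟨(LinearEquiv.ofInjectiveOfFinrankEq (B : Eu n →ₗ[ℝ] (Eu n →L[ℝ] ℝ)) hinj
    hfr).toContinuousLinearEquiv, ?_⟩
  ext u v
  rfl

theorem inverse_smooth (h : IsMetricOn G U) : ContDiffOn ℝ ∞ (fun t => (G t).inverse) U := by
  intro t ht
  obtain ⟨e, he⟩ := exists_equiv (G t) (h.2.2 t ht).2
  have h1 : ContDiffAt ℝ ∞ ContinuousLinearMap.inverse (G t) := by
    rw [← he]
    exact contDiffAt_map_inverse e
  exact h1.comp_contDiffWithinAt t (h.2.1 t ht)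

theorem fderiv_smooth {F : Type*} [NormedAddCommGroup F] [NormedSpace ℝ F] {f : Eu n → F}
    (hU : IsOpen U) (hf : ContDiffOn ℝ ∞ f U) : ContDiffOn ℝ ∞ (fun t => fderiv ℝ f t) U :=
  hf.fderiv_of_isOpen hU (by simp)

theorem flip_smooth {X E F H : Type*} [NormedAddCommGroup X] [NormedSpace ℝ X]
    [NormedAddCommGroup E] [NormedSpace ℝ E] [NormedAddCommGroup F] [NormedSpace ℝ F]
    [NormedAddCommGroup H] [NormedSpace ℝ H] {L : X → E →L[ℝ] F →L[ℝ] H} {U : Set X}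
    (h : ContDiffOn ℝ ∞ L U) : ContDiffOn ℝ ∞ (fun t => (L t).flip) U := by
  have h1 : IsBoundedLinearMap ℝ (fun A : E →L[ℝ] F →L[ℝ] H => A.flip) := by
    refine IsLinearMap.with_bound ⟨fun _ _ => rfl, fun _ _ => rfl⟩ 1 fun A => ?_
    rw [ContinuousLinearMap.opNorm_flip, one_mul]
  have h2 : ContDiff ℝ ∞ (fun A : E →L[ℝ] F →L[ℝ] H => A.flip) :=
    IsBoundedLinearMap.contDiff (F := F →L[ℝ] E →L[ℝ] H) h1
  exact h2.comp_contDiffOn h

theorem chr_smooth (h : IsMetricOn G U) {A B : Eu n → Eu n} (hA : ContDiffOn ℝ ∞ A U)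
    (hB : ContDiffOn ℝ ∞ B U) : ContDiffOn ℝ ∞ (fun t => chr G t (A t) (B t)) U := by
  have hG := fderiv_smooth h.1 h.2.1
  have h1 : ContDiffOn ℝ ∞ (fun t => fderiv ℝ G t (A t) (B t)) U :=
    (hG.clm_apply hA).clm_apply hB
  have h2 : ContDiffOn ℝ ∞ (fun t => fderiv ℝ G t (B t) (A t)) U :=
    (hG.clm_apply hB).clm_apply hA
  have h3 : ContDiffOn ℝ ∞ (fun t => (fderiv ℝ G t).flip (A t)) U :=
    (flip_smooth hG).clm_apply hA
  have h4 : ContDiffOn ℝ ∞ (fun t => ((fderiv ℝ G t).flip (A t)).flip (B t)) U :=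
    (flip_smooth h3).clm_apply hB
  exact (inverse_smooth h).clm_apply (((h1.add h2).sub h4).const_smul (1 / 2 : ℝ))

theorem riem_smooth (h : IsMetricOn G U) (u v w : Eu n) :
    ContDiffOn ℝ ∞ (fun t => riem G t u v w) U := by
  have hc : ∀ u : Eu n, ContDiffOn ℝ ∞ (fun _ : Eu n => u) U := fun u => contDiffOn_const
  have h1 := fun u v => fderiv_smooth h.1 (chr_smooth h (hc u) (hc v))
  have h2 := fun u v w => chr_smooth h (hc u) (chr_smooth h (hc v) (hc w))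
  exact ((((h1 v w).clm_apply (hc u)).sub ((h1 u w).clm_apply (hc v))).add (h2 u v w)).sub
    (h2 v u w)

end RegSAux

open RegSAux

/-- smoothness of Christoffel symbols and curvature -/
theorem stRegS : StRegS := by
  intro n G U h
  refine ⟨fun u v => chr_smooth h contDiffOn_const contDiffOn_const, riem_smooth h,
    fun u v => ?_⟩
  unfold ric
  exact ContDiffOn.sum fun i _ =>
    (EuclideanSpace.proj (𝕜 := ℝ) i).contDiff.comp_contDiffOn (riem_smooth h _ u v)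

end Pool.Agent.Lib.MP_2795bc_gt.SOL
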