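import Pool.Agent.Lib.MP_2795bc_gt.SOL.GStmts2

/-!
# MP_2795bc_gt: the curvature on vector fields
-/

set_option autoImplicit false

open scoped Manifold ContDiff Topology Quaternion
open Bundle

noncomputable section

namespace Pool.Agent.Lib.MP_2795bc_gt.SOL

namespace RiemFM

variable {n : ℕ}

/-- the Christoffel symbols as a bilinear map -/
def Gam (G : Eu n → Eu n →L[ℝ] Eu n →L[ℝ] ℝ)
    (h1 : ∀ t, ∀ (r : ℝ) (u u' v : Eu n), chr G t (r • u + u') v = r • chr G t u v + chr G t u' v)
    (h2 : ∀ t, ∀ (r : ℝ) (u v v' : Eu n), chr G t u (r • v + v') = r • chr G t u v + chr G t u v')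
    (t : Eu n) : Eu n →L[ℝ] Eu n →L[ℝ] Eu n :=
  LinearMap.toContinuousLinearMap
    { toFun := fun u => LinearMap.toContinuousLinearMap
        { toFun := fun v => chr G t u v
          map_add' := fun v v' => by
            have := h2 t 1 u v v'
            rwa [one_smul, one_smul] at this
          map_smul' := fun r v => by
            have h0 : chr G t u 0 = 0 := by
              have := h2 t 1 u 0 0
              rw [one_smul, one_smul, add_zero] at this
              exact left_eq_add.mp this
            have := h2 t r u v 0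
            rw [h0, add_zero, add_zero] at this
            exact this }
      map_add' := fun u u' => by
        ext1 v
        have := h1 t 1 u u' v
        rw [one_smul, one_smul] at this
        exact this
      map_smul' := fun r u => by
        ext1 v
        have h0 : chr G t 0 v = 0 := by
          have := h1 t 1 0 0 v
          rw [one_smul, one_smul, add_zero] at this
          exact left_eq_add.mp this
        have := h1 t r u 0 v
        rw [h0, add_zero, add_zero] at this
        exact this }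

end RiemFM

open RiemFM in
/-- curvature of vector fields -/
theorem stRiemF (hR : StReg) : StRiemF := by
  intro n U G A B C hG hA hB hC t ht
  obtain ⟨hch, -, -, -, -, h1, h2, -⟩ := hR n G U hG
  have hn : (∞ : WithTop ℕ∞) ≠ 0 := by decide
  have hUt := hG.1.mem_nhds ht
  obtain ⟨Γ, hΓ⟩ : ∃ Γ : Eu n → Eu n →L[ℝ] Eu n →L[ℝ] Eu n, ∀ y u v, Γ y u v = chr G y u v :=
    ⟨Gam G h1 h2, fun y u v => rfl⟩
  have hΓs : ContDiffOn ℝ ∞ Γ U := by
    rw [contDiffOn_clm_apply]
    intro u
    rw [contDiffOn_clm_apply]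
    intro v
    refine (hch u v).congr fun y _ => hΓ y u v
  have dΓ : HasFDerivAt Γ (fderiv ℝ Γ t) t :=
    ((hΓs.contDiffAt hUt).differentiableAt hn).hasFDerivAt
  have dd : ∀ F : Eu n → Eu n, ContDiffOn ℝ ∞ F U → HasFDerivAt F (fderiv ℝ F t) t := fun F hF =>
    ((hF.contDiffAt hUt).differentiableAt hn).hasFDerivAt
  have dA := dd A hA
  have dB := dd B hB
  have dC := dd C hC
  have hDC : ContDiffAt ℝ ∞ (fderiv ℝ C) t :=
    (hC.contDiffAt hUt).fderiv_right (m := ∞) (by simp)
  have dDC : HasFDerivAt (fderiv ℝ C) (fderiv ℝ (fderiv ℝ C) t) t :=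
    (hDC.differentiableAt hn).hasFDerivAt
  have hsym : ∀ u v, fderiv ℝ (fderiv ℝ C) t u v = fderiv ℝ (fderiv ℝ C) t v u := by
    have := (hC.contDiffAt hUt).isSymmSndFDerivAt (n := ∞) (by
      rw [minSmoothness_of_isRCLikeNormedField]
      exact WithTop.coe_le_coe.2 le_top)
    exact fun u v => this u v
  -- the covariant derivative of a covariant derivative
  have key : ∀ X Y : Eu n → Eu n, HasFDerivAt Y (fderiv ℝ Y t) t →
      covD G X (covD G Y C) t = fderiv ℝ (fderiv ℝ C) t (X t) (Y t) +
        fderiv ℝ C t (fderiv ℝ Y t (X t)) + (fderiv ℝ Γ t (X t) (Y t) (C t) +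
        Γ t (fderiv ℝ Y t (X t)) (C t) + Γ t (Y t) (fderiv ℝ C t (X t))) +
        (Γ t (X t) (fderiv ℝ C t (Y t)) + Γ t (X t) (Γ t (Y t) (C t))) := by
    intro X Y dY
    have e1 : covD G Y C = fun y => fderiv ℝ C y (Y y) + Γ y (Y y) (C y) := by
      funext y
      rw [covD, hΓ]
    have h3 := ((dDC.clm_apply dY).add ((dΓ.clm_apply dY).clm_apply dC)).fderiv
    have e2 : covD G X (covD G Y C) t = fderiv ℝ (covD G Y C) t (X t) +
        Γ t (X t) (covD G Y C t) := by
      rw [hΓ]
      rfl
    rw [e2, e1]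
    have h4 : fderiv ℝ (fun y => fderiv ℝ C y (Y y) + Γ y (Y y) (C y)) t = _ := h3
    rw [h4]
    simp only [add_apply, ContinuousLinearMap.comp_apply,
      ContinuousLinearMap.flip_apply, map_add]
    abel
  have hc : ∀ u v w : Eu n, fderiv ℝ (fun y => chr G y v w) t u = fderiv ℝ Γ t u v w := by
    intro u v w
    have e1 : (fun y => chr G y v w) = fun y => Γ y v w := by
      funext y
      rw [hΓ]
    have h3 := ((dΓ.clm_apply (hasFDerivAt_const v t)).clm_apply (hasFDerivAt_const w t)).fderiv
    rw [e1, h3]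
    simp
  have e3 : covD G (fun y => fderiv ℝ B y (A y) - fderiv ℝ A y (B y)) C t =
      fderiv ℝ C t (fderiv ℝ B t (A t) - fderiv ℝ A t (B t)) +
        Γ t (fderiv ℝ B t (A t) - fderiv ℝ A t (B t)) (C t) := by
    rw [hΓ]
    rfl
  rw [key A B dB, key B A dA, e3, riem, hc, hc, ← hΓ, ← hΓ, ← hΓ, ← hΓ, hsym (B t) (A t)]
  simp only [map_sub, sub_apply]
  abel

end Pool.Agent.Lib.MP_2795bc_gt.SOL
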