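import Pool.Agent.Lib.MP_2795bc_gt.SOL.GStmts2

/-!
# MP_2795bc_gt: the Ricci curvature of the table, diagonal entries
-/

set_option autoImplicit false

noncomputable section

namespace Pool.Agent.Lib.MP_2795bc_gt.SOL

namespace TabDiag

variable (A0 A1 A2 A4 B1 B2 B4 t dA0 dA1 dA2 dA4 dB1 dB2 dB4 dt : ℝ)

theorem d0 : ∑ a, RT A0 A1 A2 A4 B1 B2 B4 t dA0 dA1 dA2 dA4 dB1 dB2 dB4 dt a 0 0 a =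
    (A0 * A1 - dA1 - A1 ^ 2) + 2 * (A0 * A2 - dA2 - A2 ^ 2) + 3 * (A0 * A4 - dA4 - A4 ^ 2) := by
  simp only [Fin.sum_univ_seven, RT, RmF]
  change (dA0 - dA0 + ((A0 * A0 - A0 * A0) + (0 * 0 - 0 * 0) + (0 * 0 - 0 * 0) + (0 * 0 - 0 * 0)
    + (0 * 0 - 0 * 0) + (0 * 0 - 0 * 0) + (0 * 0 - 0 * 0)) - (0 * A0 + 0 * 0 + 0 * 0 + 0 * 0 + 0
    * 0 + 0 * 0 + 0 * 0)) + (0 - dA1 + ((A0 * A1 - 0 * 0) + (0 * 0 - A1 * A1) + (0 * 0 - 0 * 0)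
    + (0 * 0 - 0 * 0) + (0 * 0 - 0 * 0) + (0 * 0 - 0 * 0) + (0 * 0 - 0 * 0)) - (0 * 0 + 0 * A1 +
    0 * 0 + 0 * 0 + 0 * 0 + 0 * 0 + 0 * 0)) + (0 - dA2 + ((A0 * A2 - 0 * 0) + (0 * 0 - 0 * 0) +
    (0 * 0 - A2 * A2) + (0 * 0 - 0 * 0) + (0 * 0 - 0 * 0) + (0 * 0 - 0 * 0) + (0 * 0 - 0 * 0)) -
    (0 * 0 + 0 * 0 + 0 * A2 + 0 * 0 + 0 * 0 + 0 * 0 + 0 * 0)) + (0 - dA2 + ((A0 * A2 - 0 * 0) +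
    (0 * 0 - 0 * 0) + (0 * 0 - 0 * 0) + (0 * 0 - A2 * A2) + (0 * 0 - 0 * 0) + (0 * 0 - 0 * 0) +
    (0 * 0 - 0 * 0)) - (0 * 0 + 0 * 0 + 0 * 0 + 0 * A2 + 0 * 0 + 0 * 0 + 0 * 0)) + (0 - dA4 +
    ((A0 * A4 - 0 * 0) + (0 * 0 - 0 * 0) + (0 * 0 - 0 * 0) + (0 * 0 - 0 * 0) + (0 * 0 - A4 * A4)
    + (0 * 0 - 0 * 0) + (0 * 0 - 0 * 0)) - (0 * 0 + 0 * 0 + 0 * 0 + 0 * 0 + 0 * A4 + 0 * 0 + 0 *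
    0)) + (0 - dA4 + ((A0 * A4 - 0 * 0) + (0 * 0 - 0 * 0) + (0 * 0 - 0 * 0) + (0 * 0 - 0 * 0) +
    (0 * 0 - 0 * 0) + (0 * 0 - A4 * A4) + (0 * 0 - 0 * 0)) - (0 * 0 + 0 * 0 + 0 * 0 + 0 * 0 + 0
    * 0 + 0 * A4 + 0 * 0)) + (0 - dA4 + ((A0 * A4 - 0 * 0) + (0 * 0 - 0 * 0) + (0 * 0 - 0 * 0) +
    (0 * 0 - 0 * 0) + (0 * 0 - 0 * 0) + (0 * 0 - 0 * 0) + (0 * 0 - A4 * A4)) - (0 * 0 + 0 * 0 +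
    0 * 0 + 0 * 0 + 0 * 0 + 0 * 0 + 0 * A4)) = _
  ring

theorem d1 : ∑ a, RT A0 A1 A2 A4 B1 B2 B4 t dA0 dA1 dA2 dA4 dB1 dB2 dB4 dt a 1 1 a =
    -dB1 - A0 * B1 + A1 * B1 - 3 * B1 * A4 - 2 * B1 * A2 + 2 * t ^ 2 := by
  simp only [Fin.sum_univ_seven, RT, RmF]
  change ((-dB1) - 0 + (((-B1) * A0 - 0 * 0) + (0 * 0 - A1 * (-B1)) + (0 * 0 - 0 * 0) + (0 * 0 -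
    0 * 0) + (0 * 0 - 0 * 0) + (0 * 0 - 0 * 0) + (0 * 0 - 0 * 0)) - (0 * 0 + 0 * (-B1) + 0 * 0 +
    0 * 0 + 0 * 0 + 0 * 0 + 0 * 0)) + (0 - 0 + (((-B1) * A1 - (-B1) * A1) + (0 * 0 - 0 * 0) + (0
    * 0 - 0 * 0) + (0 * 0 - 0 * 0) + (0 * 0 - 0 * 0) + (0 * 0 - 0 * 0) + (0 * 0 - 0 * 0)) - (0 *
    A1 + 0 * 0 + 0 * 0 + 0 * 0 + 0 * 0 + 0 * 0 + 0 * 0)) + (0 - 0 + (((-B1) * A2 - 0 * 0) + (0 *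
    0 - 0 * 0) + (0 * 0 - 0 * 0) + (0 * 0 - (-t) * (t - 2)) + (0 * 0 - 0 * 0) + (0 * 0 - 0 * 0)
    + (0 * 0 - 0 * 0)) - (0 * 0 + 0 * 0 + 0 * 0 + (-2) * t + 0 * 0 + 0 * 0 + 0 * 0)) + (0 - 0 +
    (((-B1) * A2 - 0 * 0) + (0 * 0 - 0 * 0) + (0 * 0 - t * (2 - t)) + (0 * 0 - 0 * 0) + (0 * 0 -
    0 * 0) + (0 * 0 - 0 * 0) + (0 * 0 - 0 * 0)) - (0 * 0 + 0 * 0 + 2 * (-t) + 0 * 0 + 0 * 0 + 0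
    * 0 + 0 * 0)) + (0 - 0 + (((-B1) * A4 - 0 * 0) + (0 * 0 - 0 * 0) + (0 * 0 - 0 * 0) + (0 * 0
    - 0 * 0) + (0 * 0 - 0 * 0) + (0 * 0 - 0 * 0) + (0 * 0 - 0 * 0)) - (0 * 0 + 0 * 0 + 0 * 0 + 0
    * 0 + 0 * 0 + 0 * 0 + 0 * 0)) + (0 - 0 + (((-B1) * A4 - 0 * 0) + (0 * 0 - 0 * 0) + (0 * 0 -
    0 * 0) + (0 * 0 - 0 * 0) + (0 * 0 - 0 * 0) + (0 * 0 - 0 * 0) + (0 * 0 - 0 * 0)) - (0 * 0 + 0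
    * 0 + 0 * 0 + 0 * 0 + 0 * 0 + 0 * 0 + 0 * 0)) + (0 - 0 + (((-B1) * A4 - 0 * 0) + (0 * 0 - 0
    * 0) + (0 * 0 - 0 * 0) + (0 * 0 - 0 * 0) + (0 * 0 - 0 * 0) + (0 * 0 - 0 * 0) + (0 * 0 - 0 *
    0)) - (0 * 0 + 0 * 0 + 0 * 0 + 0 * 0 + 0 * 0 + 0 * 0 + 0 * 0)) = _
  ring

theorem d2 : ∑ a, RT A0 A1 A2 A4 B1 B2 B4 t dA0 dA1 dA2 dA4 dB1 dB2 dB4 dt a 2 2 a =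
    -dB2 - A0 * B2 + A2 * B2 - 3 * B2 * A4 - B2 * A1 - B2 * A2 + 4 - 2 * t := by
  simp only [Fin.sum_univ_seven, RT, RmF]
  change ((-dB2) - 0 + (((-B2) * A0 - 0 * 0) + (0 * 0 - 0 * 0) + (0 * 0 - A2 * (-B2)) + (0 * 0 -
    0 * 0) + (0 * 0 - 0 * 0) + (0 * 0 - 0 * 0) + (0 * 0 - 0 * 0)) - (0 * 0 + 0 * 0 + 0 * (-B2) +
    0 * 0 + 0 * 0 + 0 * 0 + 0 * 0)) + (0 - 0 + (((-B2) * A1 - 0 * 0) + (0 * 0 - 0 * 0) + (0 * 0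
    - 0 * 0) + (0 * 0 - (2 - t) * 1) + (0 * 0 - 0 * 0) + (0 * 0 - 0 * 0) + (0 * 0 - 0 * 0)) - (0
    * 0 + 0 * 0 + 0 * 0 + 2 * (-1) + 0 * 0 + 0 * 0 + 0 * 0)) + (0 - 0 + (((-B2) * A2 - (-B2) *
    A2) + (0 * 0 - 0 * 0) + (0 * 0 - 0 * 0) + (0 * 0 - 0 * 0) + (0 * 0 - 0 * 0) + (0 * 0 - 0 *
    0) + (0 * 0 - 0 * 0)) - (0 * A2 + 0 * 0 + 0 * 0 + 0 * 0 + 0 * 0 + 0 * 0 + 0 * 0)) + (0 - 0 +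
    (((-B2) * A2 - 0 * 0) + (0 * 0 - (-1) * (-t)) + (0 * 0 - 0 * 0) + (0 * 0 - 0 * 0) + (0 * 0 -
    0 * 0) + (0 * 0 - 0 * 0) + (0 * 0 - 0 * 0)) - (0 * 0 + (-2) * (2 - t) + 0 * 0 + 0 * 0 + 0 *
    0 + 0 * 0 + 0 * 0)) + (0 - 0 + (((-B2) * A4 - 0 * 0) + (0 * 0 - 0 * 0) + (0 * 0 - 0 * 0) +
    (0 * 0 - 0 * 0) + (0 * 0 - 0 * 0) + (0 * 0 - 0 * 0) + (0 * 0 - 0 * 0)) - (0 * 0 + 0 * 0 + 0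
    * 0 + 0 * 0 + 0 * 0 + 0 * 0 + 0 * 0)) + (0 - 0 + (((-B2) * A4 - 0 * 0) + (0 * 0 - 0 * 0) +
    (0 * 0 - 0 * 0) + (0 * 0 - 0 * 0) + (0 * 0 - 0 * 0) + (0 * 0 - 0 * 0) + (0 * 0 - 0 * 0)) -
    (0 * 0 + 0 * 0 + 0 * 0 + 0 * 0 + 0 * 0 + 0 * 0 + 0 * 0)) + (0 - 0 + (((-B2) * A4 - 0 * 0) +
    (0 * 0 - 0 * 0) + (0 * 0 - 0 * 0) + (0 * 0 - 0 * 0) + (0 * 0 - 0 * 0) + (0 * 0 - 0 * 0) + (0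
    * 0 - 0 * 0)) - (0 * 0 + 0 * 0 + 0 * 0 + 0 * 0 + 0 * 0 + 0 * 0 + 0 * 0)) = _
  ring

theorem d3 : ∑ a, RT A0 A1 A2 A4 B1 B2 B4 t dA0 dA1 dA2 dA4 dB1 dB2 dB4 dt a 3 3 a =
    -dB2 - A0 * B2 + A2 * B2 - 3 * B2 * A4 - B2 * A1 - B2 * A2 + 4 - 2 * t := by
  simp only [Fin.sum_univ_seven, RT, RmF]
  change ((-dB2) - 0 + (((-B2) * A0 - 0 * 0) + (0 * 0 - 0 * 0) + (0 * 0 - 0 * 0) + (0 * 0 - A2 *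
    (-B2)) + (0 * 0 - 0 * 0) + (0 * 0 - 0 * 0) + (0 * 0 - 0 * 0)) - (0 * 0 + 0 * 0 + 0 * 0 + 0 *
    (-B2) + 0 * 0 + 0 * 0 + 0 * 0)) + (0 - 0 + (((-B2) * A1 - 0 * 0) + (0 * 0 - 0 * 0) + (0 * 0
    - (t - 2) * (-1)) + (0 * 0 - 0 * 0) + (0 * 0 - 0 * 0) + (0 * 0 - 0 * 0) + (0 * 0 - 0 * 0)) -
    (0 * 0 + 0 * 0 + (-2) * 1 + 0 * 0 + 0 * 0 + 0 * 0 + 0 * 0)) + (0 - 0 + (((-B2) * A2 - 0 * 0)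
    + (0 * 0 - 1 * t) + (0 * 0 - 0 * 0) + (0 * 0 - 0 * 0) + (0 * 0 - 0 * 0) + (0 * 0 - 0 * 0) +
    (0 * 0 - 0 * 0)) - (0 * 0 + 2 * (t - 2) + 0 * 0 + 0 * 0 + 0 * 0 + 0 * 0 + 0 * 0)) + (0 - 0 +
    (((-B2) * A2 - (-B2) * A2) + (0 * 0 - 0 * 0) + (0 * 0 - 0 * 0) + (0 * 0 - 0 * 0) + (0 * 0 -
    0 * 0) + (0 * 0 - 0 * 0) + (0 * 0 - 0 * 0)) - (0 * A2 + 0 * 0 + 0 * 0 + 0 * 0 + 0 * 0 + 0 *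
    0 + 0 * 0)) + (0 - 0 + (((-B2) * A4 - 0 * 0) + (0 * 0 - 0 * 0) + (0 * 0 - 0 * 0) + (0 * 0 -
    0 * 0) + (0 * 0 - 0 * 0) + (0 * 0 - 0 * 0) + (0 * 0 - 0 * 0)) - (0 * 0 + 0 * 0 + 0 * 0 + 0 *
    0 + 0 * 0 + 0 * 0 + 0 * 0)) + (0 - 0 + (((-B2) * A4 - 0 * 0) + (0 * 0 - 0 * 0) + (0 * 0 - 0
    * 0) + (0 * 0 - 0 * 0) + (0 * 0 - 0 * 0) + (0 * 0 - 0 * 0) + (0 * 0 - 0 * 0)) - (0 * 0 + 0 *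
    0 + 0 * 0 + 0 * 0 + 0 * 0 + 0 * 0 + 0 * 0)) + (0 - 0 + (((-B2) * A4 - 0 * 0) + (0 * 0 - 0 *
    0) + (0 * 0 - 0 * 0) + (0 * 0 - 0 * 0) + (0 * 0 - 0 * 0) + (0 * 0 - 0 * 0) + (0 * 0 - 0 *
    0)) - (0 * 0 + 0 * 0 + 0 * 0 + 0 * 0 + 0 * 0 + 0 * 0 + 0 * 0)) = _
  ring

theorem d4 : ∑ a, RT A0 A1 A2 A4 B1 B2 B4 t dA0 dA1 dA2 dA4 dB1 dB2 dB4 dt a 4 4 a =
    -dB4 - A0 * B4 + A4 * B4 - 2 * B4 * A4 - B4 * A1 - 2 * B4 * A2 + 2 := by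
  simp only [Fin.sum_univ_seven, RT, RmF]
  change ((-dB4) - 0 + (((-B4) * A0 - 0 * 0) + (0 * 0 - 0 * 0) + (0 * 0 - 0 * 0) + (0 * 0 - 0 *
    0) + (0 * 0 - A4 * (-B4)) + (0 * 0 - 0 * 0) + (0 * 0 - 0 * 0)) - (0 * 0 + 0 * 0 + 0 * 0 + 0
    * 0 + 0 * (-B4) + 0 * 0 + 0 * 0)) + (0 - 0 + (((-B4) * A1 - 0 * 0) + (0 * 0 - 0 * 0) + (0 *
    0 - 0 * 0) + (0 * 0 - 0 * 0) + (0 * 0 - 0 * 0) + (0 * 0 - 0 * 0) + (0 * 0 - 0 * 0)) - (0 * 0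
    + 0 * 0 + 0 * 0 + 0 * 0 + 0 * 0 + 0 * 0 + 0 * 0)) + (0 - 0 + (((-B4) * A2 - 0 * 0) + (0 * 0
    - 0 * 0) + (0 * 0 - 0 * 0) + (0 * 0 - 0 * 0) + (0 * 0 - 0 * 0) + (0 * 0 - 0 * 0) + (0 * 0 -
    0 * 0)) - (0 * 0 + 0 * 0 + 0 * 0 + 0 * 0 + 0 * 0 + 0 * 0 + 0 * 0)) + (0 - 0 + (((-B4) * A2 -
    0 * 0) + (0 * 0 - 0 * 0) + (0 * 0 - 0 * 0) + (0 * 0 - 0 * 0) + (0 * 0 - 0 * 0) + (0 * 0 - 0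
    * 0) + (0 * 0 - 0 * 0)) - (0 * 0 + 0 * 0 + 0 * 0 + 0 * 0 + 0 * 0 + 0 * 0 + 0 * 0)) + (0 - 0
    + (((-B4) * A4 - (-B4) * A4) + (0 * 0 - 0 * 0) + (0 * 0 - 0 * 0) + (0 * 0 - 0 * 0) + (0 * 0
    - 0 * 0) + (0 * 0 - 0 * 0) + (0 * 0 - 0 * 0)) - (0 * A4 + 0 * 0 + 0 * 0 + 0 * 0 + 0 * 0 + 0
    * 0 + 0 * 0)) + (0 - 0 + (((-B4) * A4 - 0 * 0) + (0 * 0 - 0 * 0) + (0 * 0 - 0 * 0) + (0 * 0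
    - 0 * 0) + (0 * 0 - 0 * 0) + (0 * 0 - 0 * 0) + (0 * 0 - (-1) * (-1))) - (0 * 0 + 0 * 0 + 0 *
    0 + 0 * 0 + 0 * 0 + 0 * 0 + (-2) * 1)) + (0 - 0 + (((-B4) * A4 - 0 * 0) + (0 * 0 - 0 * 0) +
    (0 * 0 - 0 * 0) + (0 * 0 - 0 * 0) + (0 * 0 - 0 * 0) + (0 * 0 - 1 * 1) + (0 * 0 - 0 * 0)) -
    (0 * 0 + 0 * 0 + 0 * 0 + 0 * 0 + 0 * 0 + 2 * (-1) + 0 * 0)) = _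
  ring

theorem d5 : ∑ a, RT A0 A1 A2 A4 B1 B2 B4 t dA0 dA1 dA2 dA4 dB1 dB2 dB4 dt a 5 5 a =
    -dB4 - A0 * B4 + A4 * B4 - 2 * B4 * A4 - B4 * A1 - 2 * B4 * A2 + 2 := by
  simp only [Fin.sum_univ_seven, RT, RmF]
  change ((-dB4) - 0 + (((-B4) * A0 - 0 * 0) + (0 * 0 - 0 * 0) + (0 * 0 - 0 * 0) + (0 * 0 - 0 *
    0) + (0 * 0 - 0 * 0) + (0 * 0 - A4 * (-B4)) + (0 * 0 - 0 * 0)) - (0 * 0 + 0 * 0 + 0 * 0 + 0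
    * 0 + 0 * 0 + 0 * (-B4) + 0 * 0)) + (0 - 0 + (((-B4) * A1 - 0 * 0) + (0 * 0 - 0 * 0) + (0 *
    0 - 0 * 0) + (0 * 0 - 0 * 0) + (0 * 0 - 0 * 0) + (0 * 0 - 0 * 0) + (0 * 0 - 0 * 0)) - (0 * 0
    + 0 * 0 + 0 * 0 + 0 * 0 + 0 * 0 + 0 * 0 + 0 * 0)) + (0 - 0 + (((-B4) * A2 - 0 * 0) + (0 * 0
    - 0 * 0) + (0 * 0 - 0 * 0) + (0 * 0 - 0 * 0) + (0 * 0 - 0 * 0) + (0 * 0 - 0 * 0) + (0 * 0 -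
    0 * 0)) - (0 * 0 + 0 * 0 + 0 * 0 + 0 * 0 + 0 * 0 + 0 * 0 + 0 * 0)) + (0 - 0 + (((-B4) * A2 -
    0 * 0) + (0 * 0 - 0 * 0) + (0 * 0 - 0 * 0) + (0 * 0 - 0 * 0) + (0 * 0 - 0 * 0) + (0 * 0 - 0
    * 0) + (0 * 0 - 0 * 0)) - (0 * 0 + 0 * 0 + 0 * 0 + 0 * 0 + 0 * 0 + 0 * 0 + 0 * 0)) + (0 - 0
    + (((-B4) * A4 - 0 * 0) + (0 * 0 - 0 * 0) + (0 * 0 - 0 * 0) + (0 * 0 - 0 * 0) + (0 * 0 - 0 *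
    0) + (0 * 0 - 0 * 0) + (0 * 0 - 1 * 1)) - (0 * 0 + 0 * 0 + 0 * 0 + 0 * 0 + 0 * 0 + 0 * 0 + 2
    * (-1))) + (0 - 0 + (((-B4) * A4 - (-B4) * A4) + (0 * 0 - 0 * 0) + (0 * 0 - 0 * 0) + (0 * 0
    - 0 * 0) + (0 * 0 - 0 * 0) + (0 * 0 - 0 * 0) + (0 * 0 - 0 * 0)) - (0 * A4 + 0 * 0 + 0 * 0 +
    0 * 0 + 0 * 0 + 0 * 0 + 0 * 0)) + (0 - 0 + (((-B4) * A4 - 0 * 0) + (0 * 0 - 0 * 0) + (0 * 0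
    - 0 * 0) + (0 * 0 - 0 * 0) + (0 * 0 - (-1) * (-1)) + (0 * 0 - 0 * 0) + (0 * 0 - 0 * 0)) - (0
    * 0 + 0 * 0 + 0 * 0 + 0 * 0 + (-2) * 1 + 0 * 0 + 0 * 0)) = _
  ring

theorem d6 : ∑ a, RT A0 A1 A2 A4 B1 B2 B4 t dA0 dA1 dA2 dA4 dB1 dB2 dB4 dt a 6 6 a =
    -dB4 - A0 * B4 + A4 * B4 - 2 * B4 * A4 - B4 * A1 - 2 * B4 * A2 + 2 := by
  simp only [Fin.sum_univ_seven, RT, RmF]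
  change ((-dB4) - 0 + (((-B4) * A0 - 0 * 0) + (0 * 0 - 0 * 0) + (0 * 0 - 0 * 0) + (0 * 0 - 0 *
    0) + (0 * 0 - 0 * 0) + (0 * 0 - 0 * 0) + (0 * 0 - A4 * (-B4))) - (0 * 0 + 0 * 0 + 0 * 0 + 0
    * 0 + 0 * 0 + 0 * 0 + 0 * (-B4))) + (0 - 0 + (((-B4) * A1 - 0 * 0) + (0 * 0 - 0 * 0) + (0 *
    0 - 0 * 0) + (0 * 0 - 0 * 0) + (0 * 0 - 0 * 0) + (0 * 0 - 0 * 0) + (0 * 0 - 0 * 0)) - (0 * 0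
    + 0 * 0 + 0 * 0 + 0 * 0 + 0 * 0 + 0 * 0 + 0 * 0)) + (0 - 0 + (((-B4) * A2 - 0 * 0) + (0 * 0
    - 0 * 0) + (0 * 0 - 0 * 0) + (0 * 0 - 0 * 0) + (0 * 0 - 0 * 0) + (0 * 0 - 0 * 0) + (0 * 0 -
    0 * 0)) - (0 * 0 + 0 * 0 + 0 * 0 + 0 * 0 + 0 * 0 + 0 * 0 + 0 * 0)) + (0 - 0 + (((-B4) * A2 -
    0 * 0) + (0 * 0 - 0 * 0) + (0 * 0 - 0 * 0) + (0 * 0 - 0 * 0) + (0 * 0 - 0 * 0) + (0 * 0 - 0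
    * 0) + (0 * 0 - 0 * 0)) - (0 * 0 + 0 * 0 + 0 * 0 + 0 * 0 + 0 * 0 + 0 * 0 + 0 * 0)) + (0 - 0
    + (((-B4) * A4 - 0 * 0) + (0 * 0 - 0 * 0) + (0 * 0 - 0 * 0) + (0 * 0 - 0 * 0) + (0 * 0 - 0 *
    0) + (0 * 0 - (-1) * (-1)) + (0 * 0 - 0 * 0)) - (0 * 0 + 0 * 0 + 0 * 0 + 0 * 0 + 0 * 0 +
    (-2) * 1 + 0 * 0)) + (0 - 0 + (((-B4) * A4 - 0 * 0) + (0 * 0 - 0 * 0) + (0 * 0 - 0 * 0) + (0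
    * 0 - 0 * 0) + (0 * 0 - 1 * 1) + (0 * 0 - 0 * 0) + (0 * 0 - 0 * 0)) - (0 * 0 + 0 * 0 + 0 * 0
    + 0 * 0 + 2 * (-1) + 0 * 0 + 0 * 0)) + (0 - 0 + (((-B4) * A4 - (-B4) * A4) + (0 * 0 - 0 * 0)
    + (0 * 0 - 0 * 0) + (0 * 0 - 0 * 0) + (0 * 0 - 0 * 0) + (0 * 0 - 0 * 0) + (0 * 0 - 0 * 0)) -
    (0 * A4 + 0 * 0 + 0 * 0 + 0 * 0 + 0 * 0 + 0 * 0 + 0 * 0)) = _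
  ring

end TabDiag

open TabDiag in
theorem stTabDiag : StTabDiag := by
  intro A0 A1 A2 A4 B1 B2 B4 t dA0 dA1 dA2 dA4 dB1 dB2 dB4 dt
  refine ⟨d0 .., d1 .., fun b hb => ?_, fun b hb => ?_⟩
  · rcases hb with rfl | rfl
    · exact d2 ..
    · exact d3 ..
  · rcases hb with rfl | rfl | rfl
    · exact d4 ..
    · exact d5 ..
    · exact d6 ..

end Pool.Agent.Lib.MP_2795bc_gt.SOL
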