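import Pool.Agent.Lib.MP_2795bc_gt.SOL.GStmts

set_option autoImplicit false

/-! Module TabMix: mixed curvature of the table. -/

namespace Pool.Agent.Lib.MP_2795bc_gt.SOL

namespace TabMixAux

/-- the grading -/
def gr (a : Fin 7) : Fin 16 := ![0, 1, 2, 3, 4, 8, 12] a

/-- sum of two gradings -/
def ad (x y : Fin 16) : Fin 16 := ⟨Nat.xor x.1 y.1, Nat.xor_lt_two_pow (n := 4) x.2 y.2⟩

theorem tab_zero (two one A0 A1 A2 A4 B1 B2 B4 t : ℝ) (a b c : Fin 7)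
    (h : ad (gr a) (ad (gr b) (gr c)) ≠ 0) : tab two one A0 A1 A2 A4 B1 B2 B4 t a b c = 0 := by
  fin_cases a <;> fin_cases b <;> fin_cases c <;>
    first | exact (h (by decide)).elim | rfl

theorem ct_zero (a b c : Fin 7)
    (h : ad (gr a) (ad (gr b) (gr c)) ≠ 0) : ct a b c = 0 := by
  fin_cases a <;> fin_cases b <;> fin_cases c <;>
    first | exact (h (by decide)).elim | rfl

theorem ad_assoc (x y z : Fin 16) : ad (ad x y) z = ad x (ad y z) := by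
  apply Fin.ext
  exact Nat.xor_assoc _ _ _

theorem ad_comm (x y : Fin 16) : ad x y = ad y x := by
  apply Fin.ext
  exact Nat.xor_comm _ _

theorem ad_self (x : Fin 16) : ad x x = 0 := by
  apply Fin.ext
  exact Nat.xor_self _

theorem ad_zero (x : Fin 16) : ad x 0 = x := by
  apply Fin.ext
  exact Nat.xor_zero _

theorem zero_ad (x : Fin 16) : ad 0 x = x := by rw [ad_comm, ad_zero]

/-- if two triples with a common element have degree zero, the four others have degree zero -/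
theorem join (x y z w k : Fin 16) (h1 : ad y (ad z k) = 0) (h2 : ad x (ad k w) = 0) :
    ad (ad x y) (ad z w) = 0 := by
  have h3 : ad (ad x y) (ad z w) = ad (ad y (ad z k)) (ad x (ad k w)) := by
    have e : ad (ad y (ad z k)) (ad x (ad k w)) = ad (ad x y) (ad z (ad (ad k k) w)) := by
      rw [ad_comm (ad y (ad z k)) (ad x (ad k w))]
      simp only [ad_assoc]
      congr 1
      rw [← ad_assoc k w, ad_comm k w]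
      simp only [ad_assoc]
      rw [← ad_assoc k y, ad_comm k y, ad_assoc, ← ad_assoc w y, ad_comm w y, ad_assoc]
      congr 1
      rw [← ad_assoc k z, ad_comm k z, ad_assoc, ← ad_assoc w z, ad_comm w z, ad_assoc,
        ad_comm w k, ← ad_assoc k k, ad_self]
      simp only [ad_zero, zero_ad]
    rw [e, ad_self, zero_ad]
  rw [h3, h1, h2, ad_zero]

theorem RT_zero (A0 A1 A2 A4 B1 B2 B4 t dA0 dA1 dA2 dA4 dB1 dB2 dB4 dt : ℝ) (a b c d : Fin 7)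
    (h : ad (ad (gr a) (gr b)) (ad (gr c) (gr d)) ≠ 0) :
    RT A0 A1 A2 A4 B1 B2 B4 t dA0 dA1 dA2 dA4 dB1 dB2 dB4 dt a b c d = 0 := by
  unfold RT RmF
  have h1 : (if a = 0 then tab 0 0 dA0 dA1 dA2 dA4 dB1 dB2 dB4 dt
      else fun _ _ _ => (0 : ℝ)) b c d = 0 := by
    by_cases ha : a = 0
    · rw [if_pos ha]
      apply tab_zero
      intro h0
      apply h
      rw [ha]
      have e : gr 0 = 0 := rfl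
      rw [e, zero_ad, h0]
    · rw [if_neg ha]
  have h2 : (if b = 0 then tab 0 0 dA0 dA1 dA2 dA4 dB1 dB2 dB4 dt
      else fun _ _ _ => (0 : ℝ)) a c d = 0 := by
    by_cases hb : b = 0
    · rw [if_pos hb]
      apply tab_zero
      intro h0
      apply h
      rw [hb]
      have e : gr 0 = 0 := rfl
      rw [e, ad_zero, h0]
    · rw [if_neg hb]
  have h3 : ∀ (x y z w k : Fin 7) (C : Fin 7 → Fin 7 → Fin 7 → ℝ),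
      (∀ a b c : Fin 7, ad (gr a) (ad (gr b) (gr c)) ≠ 0 → C a b c = 0) →
      ad (ad (gr x) (gr y)) (ad (gr z) (gr w)) ≠ 0 →
      C y z k * tab 2 1 A0 A1 A2 A4 B1 B2 B4 t x k w = 0 := by
    intro x y z w k C hC hne
    by_cases h0 : ad (gr y) (ad (gr z) (gr k)) = 0
    · rw [tab_zero 2 1 A0 A1 A2 A4 B1 B2 B4 t x k w
        (fun h1 => hne (join _ _ _ _ _ h0 h1)), mul_zero]
    · rw [hC _ _ _ h0, zero_mul]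
  have h4 : ∀ k : Fin 7, tab 2 1 A0 A1 A2 A4 B1 B2 B4 t b c k *
      tab 2 1 A0 A1 A2 A4 B1 B2 B4 t a k d - tab 2 1 A0 A1 A2 A4 B1 B2 B4 t a c k *
      tab 2 1 A0 A1 A2 A4 B1 B2 B4 t b k d = 0 := by
    intro k
    rw [h3 a b c d k _ (tab_zero 2 1 A0 A1 A2 A4 B1 B2 B4 t) h,
      h3 b a c d k _ (tab_zero 2 1 A0 A1 A2 A4 B1 B2 B4 t) (by rwa [ad_comm (gr b)]), sub_zero]
  have h5 : ∀ k : Fin 7, ct a b k * tab 2 1 A0 A1 A2 A4 B1 B2 B4 t k c d = 0 := by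
    intro k
    by_cases h0 : ad (gr a) (ad (gr b) (gr k)) = 0
    · rw [tab_zero 2 1 A0 A1 A2 A4 B1 B2 B4 t k c d, mul_zero]
      intro h6
      apply h
      have e1 : ad (gr a) (gr b) = gr k := by
        rw [← ad_assoc] at h0
        have := congrArg (fun z => ad z (gr k)) h0
        simp only [ad_assoc, ad_self, ad_zero, zero_ad] at this
        exact this
      rw [e1, h6]
    · rw [ct_zero _ _ _ h0, zero_mul]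
  rw [Finset.sum_eq_zero fun k _ => h4 k, Finset.sum_eq_zero fun k _ => h5 k]
  beta_reduce
  rw [h1, h2]
  ring

/-- the cases which the grading does not cover -/
def lst : List (Fin 7 × Fin 7 × Fin 7) :=
  [(4, 5, 6), (4, 6, 5), (5, 4, 6), (5, 6, 4), (6, 4, 5), (6, 5, 4)]

set_option synthInstance.maxSize 1000 in
theorem cases_list : ∀ a i c d : Fin 7, (a ≤ 3 ∧ 3 < i ∧ ¬ (c = a ∧ d = i) ∧ ¬ (c = i ∧ d = a)) →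
    (ad (ad (gr a) (gr i)) (ad (gr c) (gr d)) ≠ 0 ∨ (a = 0 ∧ (i, c, d) ∈ lst)) := by
  decide +kernel

theorem cases_a : ∀ a : Fin 7, a ≤ 3 → a = 0 ∨ a = 1 ∨ a = 2 ∨ a = 3 := by decide

theorem cases_i : ∀ i : Fin 7, 3 < i → i = 4 ∨ i = 5 ∨ i = 6 := by decide

theorem p04 (A0 A1 A2 A4 B1 B2 B4 t dA0 dA1 dA2 dA4 dB1 dB2 dB4 dt : ℝ) :
    RT A0 A1 A2 A4 B1 B2 B4 t dA0 dA1 dA2 dA4 dB1 dB2 dB4 dt 0 4 0 4 =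
      dA4 + A4 ^ 2 - A0 * A4 := by
  rw [RT, RmF, Fin.sum_univ_seven, Fin.sum_univ_seven]
  show
      dA4 - 0 + ((0 * 0 - A0 * A4) + (0 * 0 - 0 * 0) + (0 * 0 - 0 * 0) + (0 * 0 - 0 * 0) + (A4
      * A4 - 0 * 0) + (0 * 0 - 0 * 0) + (0 * 0 - 0 * 0)) - (0 * 0 + 0 * 0 + 0 * 0 + 0 * 0 + 0 *
      A4 + 0 * 0 + 0 * 0) = _
  ring

theorem q04 (A0 A1 A2 A4 B1 B2 B4 t dA0 dA1 dA2 dA4 dB1 dB2 dB4 dt : ℝ) :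
    RT A0 A1 A2 A4 B1 B2 B4 t dA0 dA1 dA2 dA4 dB1 dB2 dB4 dt 0 4 4 0 =
      -dB4 - A0 * B4 + A4 * B4 := by
  rw [RT, RmF, Fin.sum_univ_seven, Fin.sum_univ_seven]
  show
      -dB4 - 0 + ((-B4 * A0 - 0 * 0) + (0 * 0 - 0 * 0) + (0 * 0 - 0 * 0) + (0 * 0 - 0 * 0) + (0
      * 0 - A4 * -B4) + (0 * 0 - 0 * 0) + (0 * 0 - 0 * 0)) - (0 * 0 + 0 * 0 + 0 * 0 + 0 * 0 + 0
      * -B4 + 0 * 0 + 0 * 0) = _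
  ring

theorem p05 (A0 A1 A2 A4 B1 B2 B4 t dA0 dA1 dA2 dA4 dB1 dB2 dB4 dt : ℝ) :
    RT A0 A1 A2 A4 B1 B2 B4 t dA0 dA1 dA2 dA4 dB1 dB2 dB4 dt 0 5 0 5 =
      dA4 + A4 ^ 2 - A0 * A4 := by
  rw [RT, RmF, Fin.sum_univ_seven, Fin.sum_univ_seven]
  show
      dA4 - 0 + ((0 * 0 - A0 * A4) + (0 * 0 - 0 * 0) + (0 * 0 - 0 * 0) + (0 * 0 - 0 * 0) + (0 *
      0 - 0 * 0) + (A4 * A4 - 0 * 0) + (0 * 0 - 0 * 0)) - (0 * 0 + 0 * 0 + 0 * 0 + 0 * 0 + 0 *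
      0 + 0 * A4 + 0 * 0) = _
  ring

theorem q05 (A0 A1 A2 A4 B1 B2 B4 t dA0 dA1 dA2 dA4 dB1 dB2 dB4 dt : ℝ) :
    RT A0 A1 A2 A4 B1 B2 B4 t dA0 dA1 dA2 dA4 dB1 dB2 dB4 dt 0 5 5 0 =
      -dB4 - A0 * B4 + A4 * B4 := by
  rw [RT, RmF, Fin.sum_univ_seven, Fin.sum_univ_seven]
  show
      -dB4 - 0 + ((-B4 * A0 - 0 * 0) + (0 * 0 - 0 * 0) + (0 * 0 - 0 * 0) + (0 * 0 - 0 * 0) + (0
      * 0 - 0 * 0) + (0 * 0 - A4 * -B4) + (0 * 0 - 0 * 0)) - (0 * 0 + 0 * 0 + 0 * 0 + 0 * 0 + 0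
      * 0 + 0 * -B4 + 0 * 0) = _
  ring

theorem p06 (A0 A1 A2 A4 B1 B2 B4 t dA0 dA1 dA2 dA4 dB1 dB2 dB4 dt : ℝ) :
    RT A0 A1 A2 A4 B1 B2 B4 t dA0 dA1 dA2 dA4 dB1 dB2 dB4 dt 0 6 0 6 =
      dA4 + A4 ^ 2 - A0 * A4 := by
  rw [RT, RmF, Fin.sum_univ_seven, Fin.sum_univ_seven]
  show
      dA4 - 0 + ((0 * 0 - A0 * A4) + (0 * 0 - 0 * 0) + (0 * 0 - 0 * 0) + (0 * 0 - 0 * 0) + (0 *
      0 - 0 * 0) + (0 * 0 - 0 * 0) + (A4 * A4 - 0 * 0)) - (0 * 0 + 0 * 0 + 0 * 0 + 0 * 0 + 0 *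
      0 + 0 * 0 + 0 * A4) = _
  ring

theorem q06 (A0 A1 A2 A4 B1 B2 B4 t dA0 dA1 dA2 dA4 dB1 dB2 dB4 dt : ℝ) :
    RT A0 A1 A2 A4 B1 B2 B4 t dA0 dA1 dA2 dA4 dB1 dB2 dB4 dt 0 6 6 0 =
      -dB4 - A0 * B4 + A4 * B4 := by
  rw [RT, RmF, Fin.sum_univ_seven, Fin.sum_univ_seven]
  show
      -dB4 - 0 + ((-B4 * A0 - 0 * 0) + (0 * 0 - 0 * 0) + (0 * 0 - 0 * 0) + (0 * 0 - 0 * 0) + (0
      * 0 - 0 * 0) + (0 * 0 - 0 * 0) + (0 * 0 - A4 * -B4)) - (0 * 0 + 0 * 0 + 0 * 0 + 0 * 0 + 0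
      * 0 + 0 * 0 + 0 * -B4) = _
  ring

theorem p14 (A0 A1 A2 A4 B1 B2 B4 t dA0 dA1 dA2 dA4 dB1 dB2 dB4 dt : ℝ) :
    RT A0 A1 A2 A4 B1 B2 B4 t dA0 dA1 dA2 dA4 dB1 dB2 dB4 dt 1 4 1 4 =
      B1 * A4 := by
  rw [RT, RmF, Fin.sum_univ_seven, Fin.sum_univ_seven]
  show
      0 - 0 + ((0 * 0 - -B1 * A4) + (0 * 0 - 0 * 0) + (0 * 0 - 0 * 0) + (0 * 0 - 0 * 0) + (0 *
      0 - 0 * 0) + (0 * 0 - 0 * 0) + (0 * 0 - 0 * 0)) - (0 * 0 + 0 * 0 + 0 * 0 + 0 * 0 + 0 * 0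
      + 0 * 0 + 0 * 0) = _
  ring

theorem q14 (A0 A1 A2 A4 B1 B2 B4 t dA0 dA1 dA2 dA4 dB1 dB2 dB4 dt : ℝ) :
    RT A0 A1 A2 A4 B1 B2 B4 t dA0 dA1 dA2 dA4 dB1 dB2 dB4 dt 1 4 4 1 =
      -(B4 * A1) := by
  rw [RT, RmF, Fin.sum_univ_seven, Fin.sum_univ_seven]
  show
      0 - 0 + ((-B4 * A1 - 0 * 0) + (0 * 0 - 0 * 0) + (0 * 0 - 0 * 0) + (0 * 0 - 0 * 0) + (0 *
      0 - 0 * 0) + (0 * 0 - 0 * 0) + (0 * 0 - 0 * 0)) - (0 * 0 + 0 * 0 + 0 * 0 + 0 * 0 + 0 * 0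
      + 0 * 0 + 0 * 0) = _
  ring

theorem p15 (A0 A1 A2 A4 B1 B2 B4 t dA0 dA1 dA2 dA4 dB1 dB2 dB4 dt : ℝ) :
    RT A0 A1 A2 A4 B1 B2 B4 t dA0 dA1 dA2 dA4 dB1 dB2 dB4 dt 1 5 1 5 =
      B1 * A4 := by
  rw [RT, RmF, Fin.sum_univ_seven, Fin.sum_univ_seven]
  show
      0 - 0 + ((0 * 0 - -B1 * A4) + (0 * 0 - 0 * 0) + (0 * 0 - 0 * 0) + (0 * 0 - 0 * 0) + (0 *
      0 - 0 * 0) + (0 * 0 - 0 * 0) + (0 * 0 - 0 * 0)) - (0 * 0 + 0 * 0 + 0 * 0 + 0 * 0 + 0 * 0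
      + 0 * 0 + 0 * 0) = _
  ring

theorem q15 (A0 A1 A2 A4 B1 B2 B4 t dA0 dA1 dA2 dA4 dB1 dB2 dB4 dt : ℝ) :
    RT A0 A1 A2 A4 B1 B2 B4 t dA0 dA1 dA2 dA4 dB1 dB2 dB4 dt 1 5 5 1 =
      -(B4 * A1) := by
  rw [RT, RmF, Fin.sum_univ_seven, Fin.sum_univ_seven]
  show
      0 - 0 + ((-B4 * A1 - 0 * 0) + (0 * 0 - 0 * 0) + (0 * 0 - 0 * 0) + (0 * 0 - 0 * 0) + (0 *
      0 - 0 * 0) + (0 * 0 - 0 * 0) + (0 * 0 - 0 * 0)) - (0 * 0 + 0 * 0 + 0 * 0 + 0 * 0 + 0 * 0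
      + 0 * 0 + 0 * 0) = _
  ring

theorem p16 (A0 A1 A2 A4 B1 B2 B4 t dA0 dA1 dA2 dA4 dB1 dB2 dB4 dt : ℝ) :
    RT A0 A1 A2 A4 B1 B2 B4 t dA0 dA1 dA2 dA4 dB1 dB2 dB4 dt 1 6 1 6 =
      B1 * A4 := by
  rw [RT, RmF, Fin.sum_univ_seven, Fin.sum_univ_seven]
  show
      0 - 0 + ((0 * 0 - -B1 * A4) + (0 * 0 - 0 * 0) + (0 * 0 - 0 * 0) + (0 * 0 - 0 * 0) + (0 *
      0 - 0 * 0) + (0 * 0 - 0 * 0) + (0 * 0 - 0 * 0)) - (0 * 0 + 0 * 0 + 0 * 0 + 0 * 0 + 0 * 0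
      + 0 * 0 + 0 * 0) = _
  ring

theorem q16 (A0 A1 A2 A4 B1 B2 B4 t dA0 dA1 dA2 dA4 dB1 dB2 dB4 dt : ℝ) :
    RT A0 A1 A2 A4 B1 B2 B4 t dA0 dA1 dA2 dA4 dB1 dB2 dB4 dt 1 6 6 1 =
      -(B4 * A1) := by
  rw [RT, RmF, Fin.sum_univ_seven, Fin.sum_univ_seven]
  show
      0 - 0 + ((-B4 * A1 - 0 * 0) + (0 * 0 - 0 * 0) + (0 * 0 - 0 * 0) + (0 * 0 - 0 * 0) + (0 *
      0 - 0 * 0) + (0 * 0 - 0 * 0) + (0 * 0 - 0 * 0)) - (0 * 0 + 0 * 0 + 0 * 0 + 0 * 0 + 0 * 0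
      + 0 * 0 + 0 * 0) = _
  ring

theorem p24 (A0 A1 A2 A4 B1 B2 B4 t dA0 dA1 dA2 dA4 dB1 dB2 dB4 dt : ℝ) :
    RT A0 A1 A2 A4 B1 B2 B4 t dA0 dA1 dA2 dA4 dB1 dB2 dB4 dt 2 4 2 4 =
      B2 * A4 := by
  rw [RT, RmF, Fin.sum_univ_seven, Fin.sum_univ_seven]
  show
      0 - 0 + ((0 * 0 - -B2 * A4) + (0 * 0 - 0 * 0) + (0 * 0 - 0 * 0) + (0 * 0 - 0 * 0) + (0 *
      0 - 0 * 0) + (0 * 0 - 0 * 0) + (0 * 0 - 0 * 0)) - (0 * 0 + 0 * 0 + 0 * 0 + 0 * 0 + 0 * 0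
      + 0 * 0 + 0 * 0) = _
  ring

theorem q24 (A0 A1 A2 A4 B1 B2 B4 t dA0 dA1 dA2 dA4 dB1 dB2 dB4 dt : ℝ) :
    RT A0 A1 A2 A4 B1 B2 B4 t dA0 dA1 dA2 dA4 dB1 dB2 dB4 dt 2 4 4 2 =
      -(B4 * A2) := by
  rw [RT, RmF, Fin.sum_univ_seven, Fin.sum_univ_seven]
  show
      0 - 0 + ((-B4 * A2 - 0 * 0) + (0 * 0 - 0 * 0) + (0 * 0 - 0 * 0) + (0 * 0 - 0 * 0) + (0 *
      0 - 0 * 0) + (0 * 0 - 0 * 0) + (0 * 0 - 0 * 0)) - (0 * 0 + 0 * 0 + 0 * 0 + 0 * 0 + 0 * 0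
      + 0 * 0 + 0 * 0) = _
  ring

theorem p25 (A0 A1 A2 A4 B1 B2 B4 t dA0 dA1 dA2 dA4 dB1 dB2 dB4 dt : ℝ) :
    RT A0 A1 A2 A4 B1 B2 B4 t dA0 dA1 dA2 dA4 dB1 dB2 dB4 dt 2 5 2 5 =
      B2 * A4 := by
  rw [RT, RmF, Fin.sum_univ_seven, Fin.sum_univ_seven]
  show
      0 - 0 + ((0 * 0 - -B2 * A4) + (0 * 0 - 0 * 0) + (0 * 0 - 0 * 0) + (0 * 0 - 0 * 0) + (0 *
      0 - 0 * 0) + (0 * 0 - 0 * 0) + (0 * 0 - 0 * 0)) - (0 * 0 + 0 * 0 + 0 * 0 + 0 * 0 + 0 * 0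
      + 0 * 0 + 0 * 0) = _
  ring

theorem q25 (A0 A1 A2 A4 B1 B2 B4 t dA0 dA1 dA2 dA4 dB1 dB2 dB4 dt : ℝ) :
    RT A0 A1 A2 A4 B1 B2 B4 t dA0 dA1 dA2 dA4 dB1 dB2 dB4 dt 2 5 5 2 =
      -(B4 * A2) := by
  rw [RT, RmF, Fin.sum_univ_seven, Fin.sum_univ_seven]
  show
      0 - 0 + ((-B4 * A2 - 0 * 0) + (0 * 0 - 0 * 0) + (0 * 0 - 0 * 0) + (0 * 0 - 0 * 0) + (0 *
      0 - 0 * 0) + (0 * 0 - 0 * 0) + (0 * 0 - 0 * 0)) - (0 * 0 + 0 * 0 + 0 * 0 + 0 * 0 + 0 * 0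
      + 0 * 0 + 0 * 0) = _
  ring

theorem p26 (A0 A1 A2 A4 B1 B2 B4 t dA0 dA1 dA2 dA4 dB1 dB2 dB4 dt : ℝ) :
    RT A0 A1 A2 A4 B1 B2 B4 t dA0 dA1 dA2 dA4 dB1 dB2 dB4 dt 2 6 2 6 =
      B2 * A4 := by
  rw [RT, RmF, Fin.sum_univ_seven, Fin.sum_univ_seven]
  show
      0 - 0 + ((0 * 0 - -B2 * A4) + (0 * 0 - 0 * 0) + (0 * 0 - 0 * 0) + (0 * 0 - 0 * 0) + (0 *
      0 - 0 * 0) + (0 * 0 - 0 * 0) + (0 * 0 - 0 * 0)) - (0 * 0 + 0 * 0 + 0 * 0 + 0 * 0 + 0 * 0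
      + 0 * 0 + 0 * 0) = _
  ring

theorem q26 (A0 A1 A2 A4 B1 B2 B4 t dA0 dA1 dA2 dA4 dB1 dB2 dB4 dt : ℝ) :
    RT A0 A1 A2 A4 B1 B2 B4 t dA0 dA1 dA2 dA4 dB1 dB2 dB4 dt 2 6 6 2 =
      -(B4 * A2) := by
  rw [RT, RmF, Fin.sum_univ_seven, Fin.sum_univ_seven]
  show
      0 - 0 + ((-B4 * A2 - 0 * 0) + (0 * 0 - 0 * 0) + (0 * 0 - 0 * 0) + (0 * 0 - 0 * 0) + (0 *
      0 - 0 * 0) + (0 * 0 - 0 * 0) + (0 * 0 - 0 * 0)) - (0 * 0 + 0 * 0 + 0 * 0 + 0 * 0 + 0 * 0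
      + 0 * 0 + 0 * 0) = _
  ring

theorem p34 (A0 A1 A2 A4 B1 B2 B4 t dA0 dA1 dA2 dA4 dB1 dB2 dB4 dt : ℝ) :
    RT A0 A1 A2 A4 B1 B2 B4 t dA0 dA1 dA2 dA4 dB1 dB2 dB4 dt 3 4 3 4 =
      B2 * A4 := by
  rw [RT, RmF, Fin.sum_univ_seven, Fin.sum_univ_seven]
  show
      0 - 0 + ((0 * 0 - -B2 * A4) + (0 * 0 - 0 * 0) + (0 * 0 - 0 * 0) + (0 * 0 - 0 * 0) + (0 *
      0 - 0 * 0) + (0 * 0 - 0 * 0) + (0 * 0 - 0 * 0)) - (0 * 0 + 0 * 0 + 0 * 0 + 0 * 0 + 0 * 0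
      + 0 * 0 + 0 * 0) = _
  ring

theorem q34 (A0 A1 A2 A4 B1 B2 B4 t dA0 dA1 dA2 dA4 dB1 dB2 dB4 dt : ℝ) :
    RT A0 A1 A2 A4 B1 B2 B4 t dA0 dA1 dA2 dA4 dB1 dB2 dB4 dt 3 4 4 3 =
      -(B4 * A2) := by
  rw [RT, RmF, Fin.sum_univ_seven, Fin.sum_univ_seven]
  show
      0 - 0 + ((-B4 * A2 - 0 * 0) + (0 * 0 - 0 * 0) + (0 * 0 - 0 * 0) + (0 * 0 - 0 * 0) + (0 *
      0 - 0 * 0) + (0 * 0 - 0 * 0) + (0 * 0 - 0 * 0)) - (0 * 0 + 0 * 0 + 0 * 0 + 0 * 0 + 0 * 0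
      + 0 * 0 + 0 * 0) = _
  ring

theorem p35 (A0 A1 A2 A4 B1 B2 B4 t dA0 dA1 dA2 dA4 dB1 dB2 dB4 dt : ℝ) :
    RT A0 A1 A2 A4 B1 B2 B4 t dA0 dA1 dA2 dA4 dB1 dB2 dB4 dt 3 5 3 5 =
      B2 * A4 := by
  rw [RT, RmF, Fin.sum_univ_seven, Fin.sum_univ_seven]
  show
      0 - 0 + ((0 * 0 - -B2 * A4) + (0 * 0 - 0 * 0) + (0 * 0 - 0 * 0) + (0 * 0 - 0 * 0) + (0 *
      0 - 0 * 0) + (0 * 0 - 0 * 0) + (0 * 0 - 0 * 0)) - (0 * 0 + 0 * 0 + 0 * 0 + 0 * 0 + 0 * 0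
      + 0 * 0 + 0 * 0) = _
  ring

theorem q35 (A0 A1 A2 A4 B1 B2 B4 t dA0 dA1 dA2 dA4 dB1 dB2 dB4 dt : ℝ) :
    RT A0 A1 A2 A4 B1 B2 B4 t dA0 dA1 dA2 dA4 dB1 dB2 dB4 dt 3 5 5 3 =
      -(B4 * A2) := by
  rw [RT, RmF, Fin.sum_univ_seven, Fin.sum_univ_seven]
  show
      0 - 0 + ((-B4 * A2 - 0 * 0) + (0 * 0 - 0 * 0) + (0 * 0 - 0 * 0) + (0 * 0 - 0 * 0) + (0 *
      0 - 0 * 0) + (0 * 0 - 0 * 0) + (0 * 0 - 0 * 0)) - (0 * 0 + 0 * 0 + 0 * 0 + 0 * 0 + 0 * 0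
      + 0 * 0 + 0 * 0) = _
  ring

theorem p36 (A0 A1 A2 A4 B1 B2 B4 t dA0 dA1 dA2 dA4 dB1 dB2 dB4 dt : ℝ) :
    RT A0 A1 A2 A4 B1 B2 B4 t dA0 dA1 dA2 dA4 dB1 dB2 dB4 dt 3 6 3 6 =
      B2 * A4 := by
  rw [RT, RmF, Fin.sum_univ_seven, Fin.sum_univ_seven]
  show
      0 - 0 + ((0 * 0 - -B2 * A4) + (0 * 0 - 0 * 0) + (0 * 0 - 0 * 0) + (0 * 0 - 0 * 0) + (0 *
      0 - 0 * 0) + (0 * 0 - 0 * 0) + (0 * 0 - 0 * 0)) - (0 * 0 + 0 * 0 + 0 * 0 + 0 * 0 + 0 * 0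
      + 0 * 0 + 0 * 0) = _
  ring

theorem q36 (A0 A1 A2 A4 B1 B2 B4 t dA0 dA1 dA2 dA4 dB1 dB2 dB4 dt : ℝ) :
    RT A0 A1 A2 A4 B1 B2 B4 t dA0 dA1 dA2 dA4 dB1 dB2 dB4 dt 3 6 6 3 =
      -(B4 * A2) := by
  rw [RT, RmF, Fin.sum_univ_seven, Fin.sum_univ_seven]
  show
      0 - 0 + ((-B4 * A2 - 0 * 0) + (0 * 0 - 0 * 0) + (0 * 0 - 0 * 0) + (0 * 0 - 0 * 0) + (0 *
      0 - 0 * 0) + (0 * 0 - 0 * 0) + (0 * 0 - 0 * 0)) - (0 * 0 + 0 * 0 + 0 * 0 + 0 * 0 + 0 * 0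
      + 0 * 0 + 0 * 0) = _
  ring

theorem z456 (A0 A1 A2 A4 B1 B2 B4 t dA0 dA1 dA2 dA4 dB1 dB2 dB4 dt : ℝ) :
    RT A0 A1 A2 A4 B1 B2 B4 t dA0 dA1 dA2 dA4 dB1 dB2 dB4 dt 0 4 5 6 =
      0 := by
  rw [RT, RmF, Fin.sum_univ_seven, Fin.sum_univ_seven]
  show
      0 - 0 + ((0 * 0 - 0 * 0) + (0 * 0 - 0 * 0) + (0 * 0 - 0 * 0) + (0 * 0 - 0 * 0) + (0 * 0 -
      0 * 0) + (0 * 0 - A4 * 1) + (1 * A4 - 0 * 0)) - (0 * 0 + 0 * 0 + 0 * 0 + 0 * 0 + 0 * 1 +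
      0 * 0 + 0 * 0) = _
  ring

theorem z465 (A0 A1 A2 A4 B1 B2 B4 t dA0 dA1 dA2 dA4 dB1 dB2 dB4 dt : ℝ) :
    RT A0 A1 A2 A4 B1 B2 B4 t dA0 dA1 dA2 dA4 dB1 dB2 dB4 dt 0 4 6 5 =
      0 := by
  rw [RT, RmF, Fin.sum_univ_seven, Fin.sum_univ_seven]
  show
      -0 - 0 + ((0 * 0 - 0 * 0) + (0 * 0 - 0 * 0) + (0 * 0 - 0 * 0) + (0 * 0 - 0 * 0) + (0 * 0
      - 0 * 0) + (-1 * A4 - 0 * 0) + (0 * 0 - A4 * -1)) - (0 * 0 + 0 * 0 + 0 * 0 + 0 * 0 + 0 *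
      -1 + 0 * 0 + 0 * 0) = _
  ring

theorem z546 (A0 A1 A2 A4 B1 B2 B4 t dA0 dA1 dA2 dA4 dB1 dB2 dB4 dt : ℝ) :
    RT A0 A1 A2 A4 B1 B2 B4 t dA0 dA1 dA2 dA4 dB1 dB2 dB4 dt 0 5 4 6 =
      0 := by
  rw [RT, RmF, Fin.sum_univ_seven, Fin.sum_univ_seven]
  show
      -0 - 0 + ((0 * 0 - 0 * 0) + (0 * 0 - 0 * 0) + (0 * 0 - 0 * 0) + (0 * 0 - 0 * 0) + (0 * 0
      - A4 * -1) + (0 * 0 - 0 * 0) + (-1 * A4 - 0 * 0)) - (0 * 0 + 0 * 0 + 0 * 0 + 0 * 0 + 0 *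
      0 + 0 * -1 + 0 * 0) = _
  ring

theorem z564 (A0 A1 A2 A4 B1 B2 B4 t dA0 dA1 dA2 dA4 dB1 dB2 dB4 dt : ℝ) :
    RT A0 A1 A2 A4 B1 B2 B4 t dA0 dA1 dA2 dA4 dB1 dB2 dB4 dt 0 5 6 4 =
      0 := by
  rw [RT, RmF, Fin.sum_univ_seven, Fin.sum_univ_seven]
  show
      0 - 0 + ((0 * 0 - 0 * 0) + (0 * 0 - 0 * 0) + (0 * 0 - 0 * 0) + (0 * 0 - 0 * 0) + (1 * A4
      - 0 * 0) + (0 * 0 - 0 * 0) + (0 * 0 - A4 * 1)) - (0 * 0 + 0 * 0 + 0 * 0 + 0 * 0 + 0 * 0 +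
      0 * 1 + 0 * 0) = _
  ring

theorem z645 (A0 A1 A2 A4 B1 B2 B4 t dA0 dA1 dA2 dA4 dB1 dB2 dB4 dt : ℝ) :
    RT A0 A1 A2 A4 B1 B2 B4 t dA0 dA1 dA2 dA4 dB1 dB2 dB4 dt 0 6 4 5 =
      0 := by
  rw [RT, RmF, Fin.sum_univ_seven, Fin.sum_univ_seven]
  show
      0 - 0 + ((0 * 0 - 0 * 0) + (0 * 0 - 0 * 0) + (0 * 0 - 0 * 0) + (0 * 0 - 0 * 0) + (0 * 0 -
      A4 * 1) + (1 * A4 - 0 * 0) + (0 * 0 - 0 * 0)) - (0 * 0 + 0 * 0 + 0 * 0 + 0 * 0 + 0 * 0 +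
      0 * 0 + 0 * 1) = _
  ring

theorem z654 (A0 A1 A2 A4 B1 B2 B4 t dA0 dA1 dA2 dA4 dB1 dB2 dB4 dt : ℝ) :
    RT A0 A1 A2 A4 B1 B2 B4 t dA0 dA1 dA2 dA4 dB1 dB2 dB4 dt 0 6 5 4 =
      0 := by
  rw [RT, RmF, Fin.sum_univ_seven, Fin.sum_univ_seven]
  show
      -0 - 0 + ((0 * 0 - 0 * 0) + (0 * 0 - 0 * 0) + (0 * 0 - 0 * 0) + (0 * 0 - 0 * 0) + (-1 *
      A4 - 0 * 0) + (0 * 0 - A4 * -1) + (0 * 0 - 0 * 0)) - (0 * 0 + 0 * 0 + 0 * 0 + 0 * 0 + 0 *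
      0 + 0 * 0 + 0 * -1) = _
  ring

end TabMixAux

open TabMixAux in
/-- Module TabMix. -/
theorem stTabMix : StTabMix := by
  intro A0 A1 A2 A4 B1 B2 B4 t dA0 dA1 dA2 dA4 dB1 dB2 dB4 dt a i ha hi
  refine ⟨?_, ?_, ?_⟩
  · intro c d h1 h2
    rcases cases_list a i c d ⟨ha, hi, h1, h2⟩ with h | ⟨rfl, h⟩
    · exact RT_zero _ _ _ _ _ _ _ _ _ _ _ _ _ _ _ _ _ _ _ _ h
    · simp only [lst, List.mem_cons, Prod.mk.injEq, List.not_mem_nil, or_false] at h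
      rcases h with ⟨rfl, rfl, rfl⟩ | ⟨rfl, rfl, rfl⟩ | ⟨rfl, rfl, rfl⟩ | ⟨rfl, rfl, rfl⟩ |
        ⟨rfl, rfl, rfl⟩ | ⟨rfl, rfl, rfl⟩
      · exact z456 ..
      · exact z465 ..
      · exact z546 ..
      · exact z564 ..
      · exact z645 ..
      · exact z654 ..
  · rcases cases_a a ha with rfl | rfl | rfl | rfl <;> rcases cases_i i hi with rfl | rfl | rfl
    · exact p04 ..
    · exact p05 ..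
    · exact p06 ..
    · exact p14 ..
    · exact p15 ..
    · exact p16 ..
    · exact p24 ..
    · exact p25 ..
    · exact p26 ..
    · exact p34 ..
    · exact p35 ..
    · exact p36 ..
  · rcases cases_a a ha with rfl | rfl | rfl | rfl <;> rcases cases_i i hi with rfl | rfl | rfl
    · exact q04 ..
    · exact q05 ..
    · exact q06 ..
    · exact q14 ..
    · exact q15 ..
    · exact q16 ..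
    · exact q24 ..
    · exact q25 ..
    · exact q26 ..
    · exact q34 ..
    · exact q35 ..
    · exact q36 ..

end Pool.Agent.Lib.MP_2795bc_gt.SOL
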