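import Pool.Agent.Lib.MP_2795bc_gt.SOL.GStmts2

/-!
# MP_2795bc_gt: the Ricci curvature of the table is diagonal (sign symmetries)
-/

noncomputable section

namespace Pool.Agent.Lib.MP_2795bc_gt.SOL

namespace TabOffAux

/-- the support of the tables -/
def sup : Fin 7 → Fin 7 → Fin 7 → Bool
  | 0, 0, 0 => true
  | 0, 1, 1 => true | 1, 0, 1 => true | 1, 1, 0 => true
  | 0, 2, 2 => true | 2, 0, 2 => true | 2, 2, 0 => true
  | 0, 3, 3 => true | 3, 0, 3 => true | 3, 3, 0 => true
  | 0, 4, 4 => true | 4, 0, 4 => true | 4, 4, 0 => true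
  | 0, 5, 5 => true | 5, 0, 5 => true | 5, 5, 0 => true
  | 0, 6, 6 => true | 6, 0, 6 => true | 6, 6, 0 => true
  | 1, 2, 3 => true | 1, 3, 2 => true | 2, 1, 3 => true | 3, 1, 2 => true
  | 2, 3, 1 => true | 3, 2, 1 => true
  | 4, 5, 6 => true | 5, 4, 6 => true | 4, 6, 5 => true | 6, 4, 5 => true
  | 5, 6, 4 => true | 6, 5, 4 => true
  | _, _, _ => false

theorem tab_zero (two one A0 A1 A2 A4 B1 B2 B4 t : ℝ) (a b c : Fin 7) (h : sup a b c = false) :
    tab two one A0 A1 A2 A4 B1 B2 B4 t a b c = 0 := by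
  unfold tab
  split <;> first | rfl | exact absurd h (by decide)

theorem ct_zero (a b c : Fin 7) (h : sup a b c = false) : ct a b c = 0 := by
  unfold ct
  split <;> first | rfl | exact absurd h (by decide)

/-- the four sign changes -/
def eps : Fin 4 → Fin 7 → ℤ :=
  ![![1, 1, -1, -1, 1, 1, 1], ![1, -1, 1, -1, 1, 1, 1], ![1, 1, 1, 1, 1, -1, -1],
    ![1, 1, 1, 1, -1, 1, -1]]

theorem eps_sup : ∀ (g : Fin 4) (a b c : Fin 7), sup a b c = true →
    eps g a * eps g b * eps g c = 1 := by
  decide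

theorem eps_sq : ∀ (g : Fin 4) (a : Fin 7), eps g a * eps g a = 1 := by
  decide

theorem eps_zero : ∀ (g : Fin 4), eps g 0 = 1 := by
  decide

theorem eps_ne : ∀ b c : Fin 7, b ≠ c → ∃ g : Fin 4, eps g b * eps g c = -1 := by
  decide

/-- sign changes of the curvature of a table -/
theorem RmF_sym (e : Fin 7 → ℝ) (w : Fin 7 → Fin 7 → Fin 7 → ℝ)
    (dw : Fin 7 → Fin 7 → Fin 7 → Fin 7 → ℝ) (C : Fin 7 → Fin 7 → Fin 7 → ℝ)
    (he : ∀ a, e a * e a = 1) (hw : ∀ a b c, e a * e b * e c * w a b c = w a b c)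
    (hC : ∀ a b c, e a * e b * e c * C a b c = C a b c)
    (hd : ∀ a b c d, e a * e b * e c * e d * dw a b c d = dw a b c d) (a b c d : Fin 7) :
    e a * e b * e c * e d * RmF w dw C a b c d = RmF w dw C a b c d := by
  unfold RmF
  have h1 : ∀ k, e a * e b * e c * e d * (w b c k * w a k d - w a c k * w b k d) =
      w b c k * w a k d - w a c k * w b k d := by
    intro k
    have e1 : e a * e b * e c * e d * (w b c k * w a k d) = w b c k * w a k d := by
      calc e a * e b * e c * e d * (w b c k * w a k d) =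
          (e b * e c * e k * w b c k) * (e a * e k * e d * w a k d) := by
            have := he k
            linear_combination (-(e a * e b * e c * e d * (w b c k * w a k d))) * this
        _ = _ := by rw [hw, hw]
    have e2 : e a * e b * e c * e d * (w a c k * w b k d) = w a c k * w b k d := by
      calc e a * e b * e c * e d * (w a c k * w b k d) =
          (e a * e c * e k * w a c k) * (e b * e k * e d * w b k d) := by
            have := he k
            linear_combination (-(e a * e b * e c * e d * (w a c k * w b k d))) * this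
        _ = _ := by rw [hw, hw]
    rw [mul_sub, e1, e2]
  have h2 : ∀ k, e a * e b * e c * e d * (C a b k * w k c d) = C a b k * w k c d := by
    intro k
    calc e a * e b * e c * e d * (C a b k * w k c d) =
        (e a * e b * e k * C a b k) * (e k * e c * e d * w k c d) := by
          have := he k
          linear_combination (-(e a * e b * e c * e d * (C a b k * w k c d))) * this
      _ = _ := by rw [hw, hC]
  have h3 : e a * e b * e c * e d * dw b a c d = dw b a c d := by
    rw [mul_comm (e a) (e b)]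
    exact hd b a c d
  rw [mul_sub, mul_add, mul_sub, hd, h3, Finset.mul_sum, Finset.mul_sum,
    Finset.sum_congr rfl fun k _ => h1 k, Finset.sum_congr rfl fun k _ => h2 k]

/-- sign changes of the curvature of the table -/
theorem RT_sym (g : Fin 4) (A0 A1 A2 A4 B1 B2 B4 t dA0 dA1 dA2 dA4 dB1 dB2 dB4 dt : ℝ)
    (a b c d : Fin 7) :
    (eps g a : ℝ) * eps g b * eps g c * eps g d *
      RT A0 A1 A2 A4 B1 B2 B4 t dA0 dA1 dA2 dA4 dB1 dB2 dB4 dt a b c d =
    RT A0 A1 A2 A4 B1 B2 B4 t dA0 dA1 dA2 dA4 dB1 dB2 dB4 dt a b c d := by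
  have hsup : ∀ a b c, sup a b c = true → (eps g a : ℝ) * eps g b * eps g c = 1 := by
    intro a b c h
    exact_mod_cast eps_sup g a b c h
  have htab : ∀ (two one A0 A1 A2 A4 B1 B2 B4 t : ℝ) (a b c : Fin 7),
      (eps g a : ℝ) * eps g b * eps g c * tab two one A0 A1 A2 A4 B1 B2 B4 t a b c =
        tab two one A0 A1 A2 A4 B1 B2 B4 t a b c := by
    intro two one A0 A1 A2 A4 B1 B2 B4 t a b c
    rcases h : sup a b c with _ | _
    · rw [tab_zero _ _ _ _ _ _ _ _ _ _ _ _ _ h, mul_zero]
    · rw [hsup a b c h, one_mul]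
  refine RmF_sym (fun a => (eps g a : ℝ)) _ _ _ (fun a => ?_) (fun a b c => htab _ _ _ _ _ _ _ _ _ _ _ _ _)
    (fun a b c => ?_) (fun a b c d => ?_) a b c d
  · exact_mod_cast eps_sq g a
  · rcases h : sup a b c with _ | _
    · rw [ct_zero _ _ _ h, mul_zero]
    · rw [hsup a b c h, one_mul]
  · by_cases h : a = 0
    · subst h
      have h0 : (eps g 0 : ℝ) = 1 := by exact_mod_cast eps_zero g
      rw [if_pos rfl]
      simp only [h0, one_mul]
      exact htab _ _ _ _ _ _ _ _ _ _ _ _ _
    · rw [if_neg h, mul_zero]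

end TabOffAux

open TabOffAux in
/-- Ricci curvature of the table, off-diagonal -/
theorem stTabOff : StTabOff := by
  intro A0 A1 A2 A4 B1 B2 B4 t dA0 dA1 dA2 dA4 dB1 dB2 dB4 dt b c hbc
  obtain ⟨g, hg⟩ := eps_ne b c hbc
  refine Finset.sum_eq_zero fun a _ => ?_
  have h1 := RT_sym g A0 A1 A2 A4 B1 B2 B4 t dA0 dA1 dA2 dA4 dB1 dB2 dB4 dt a b c a
  have h2 : (eps g b : ℝ) * eps g c = -1 := by exact_mod_cast hg
  have h3 : (eps g a : ℝ) * eps g a = 1 := by exact_mod_cast eps_sq g a
  have h4 : (eps g a : ℝ) * eps g b * eps g c * eps g a = -1 := by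
    linear_combination (eps g a : ℝ) * eps g a * h2 - h3
  rw [h4] at h1
  linarith

end Pool.Agent.Lib.MP_2795bc_gt.SOL
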