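import Pool.Agent.Lib.MP_2795bc_gt.SOL.GStmts

/-!
# MP_2795bc_gt: the vector field is tangent (B6)
-/

open scoped Manifold ContDiff Topology Quaternion
open Bundle

noncomputable section

namespace Pool.Agent.Lib.MP_2795bc_gt.SOL

namespace TanAux

/-- the direction of the vector field -/
def v0 (t : Eu 7) : Eu 7 := WithLp.toLp 2 ![t 0, t 1, 0, 0, 0, 0, 0]

/-- the line through `t` in this direction -/
def ga (t : Eu 7) (r : ℝ) : Eu 7 := t + (r - 1) • v0 t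

theorem ga_one (t : Eu 7) : ga t 1 = t := by simp [ga]

theorem ga0 (t : Eu 7) (r : ℝ) : ga t r 0 = r * t 0 := by
  simp [ga, v0]; ring

theorem ga1 (t : Eu 7) (r : ℝ) : ga t r 1 = r * t 1 := by
  simp [ga, v0]; ring

theorem ga2 (t : Eu 7) (r : ℝ) : ga t r 2 = t 2 := by
  simp [ga, v0]

theorem ga3 (t : Eu 7) (r : ℝ) : ga t r 3 = t 3 := by
  simp [ga, v0]

theorem ga4 (t : Eu 7) (r : ℝ) : ga t r 4 = t 4 := by
  simp [ga, v0]

theorem ga5 (t : Eu 7) (r : ℝ) : ga t r 5 = t 5 := by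
  simp [ga, v0]

theorem ga6 (t : Eu 7) (r : ℝ) : ga t r 6 = t 6 := by
  simp [ga, v0]

theorem hasDerivAt_ga (t : Eu 7) : HasDerivAt (ga t) (v0 t) 1 := by
  have h := (((hasDerivAt_id (1 : ℝ)).sub_const 1).smul_const (v0 t)).const_add t
  rw [one_smul] at h
  exact h

theorem eta_ga (t : Eu 7) (r : ℝ) : eta (ga t r) = r • eta t := by
  unfold eta
  rw [ga0, ga1, ga2, ga3]
  ext <;> simp <;> ring

theorem eta2_ga (t : Eu 7) (r : ℝ) : eta2 (ga t r) = r ^ 2 * eta2 t := by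
  unfold eta2
  rw [ga0, ga1, ga2, ga3]
  ring

theorem eta2_nonneg (t : Eu 7) : 0 ≤ eta2 t := by
  unfold eta2
  positivity

theorem sgn_mul_self (b : Bool) : sgn b * sgn b = 1 := by
  cases b <;> simp [sgn]

/-- the parametrisation along the line -/
theorem Phi_ga (e : Ix) (t : Eu 7) (r : ℝ) : Phi e (ga t r) =
    ((2 / (1 + r ^ 2 * eta2 t) * r) • (eta t * kq e.2.1),
      sgn e.1 * ((1 - r ^ 2 * eta2 t) / (1 + r ^ 2 * eta2 t)), (Phi e t).2.2.1,
      (Phi e t).2.2.2) := by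
  unfold Phi Te Phi0
  simp only [eta_ga, eta2_ga, ga2, ga3, ga4, ga5, ga6, smul_smul, smul_mul_assoc]

theorem deriv_one {a : ℝ} (ha : 0 ≤ a) :
    HasDerivAt (fun r : ℝ => 2 / (1 + r ^ 2 * a) * r) ((1 - a) / (1 + a) * (2 / (1 + a))) 1 := by
  have hne : (1 + (1 : ℝ) ^ 2 * a) ≠ 0 := by positivity
  have hne' : (1 + a) ≠ 0 := by positivity
  have h1 : HasDerivAt (fun r : ℝ => 1 + r ^ 2 * a) (2 * 1 * a) 1 := by
    have h := ((hasDerivAt_pow 2 (1 : ℝ)).mul_const a).const_add 1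
    simpa using h
  have h2 := ((hasDerivAt_const (1 : ℝ) (2 : ℝ)).div h1 hne).mul (hasDerivAt_id (1 : ℝ))
  refine h2.congr_deriv ?_
  change (0 * (1 + 1 ^ 2 * a) - 2 * (2 * 1 * a)) / (1 + 1 ^ 2 * a) ^ 2 * 1 +
    2 / (1 + 1 ^ 2 * a) * 1 = _
  field_simp
  ring

theorem deriv_two {a : ℝ} (ha : 0 ≤ a) :
    HasDerivAt (fun r : ℝ => (1 - r ^ 2 * a) / (1 + r ^ 2 * a))
      (-(1 - ((1 - a) / (1 + a)) ^ 2)) 1 := by
  have hne : (1 + (1 : ℝ) ^ 2 * a) ≠ 0 := by positivity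
  have hne' : (1 + a) ≠ 0 := by positivity
  have h0 : HasDerivAt (fun r : ℝ => r ^ 2 * a) (2 * 1 * a) 1 := by
    have h := (hasDerivAt_pow 2 (1 : ℝ)).mul_const a
    simpa using h
  have h1 : HasDerivAt (fun r : ℝ => 1 + r ^ 2 * a) (2 * 1 * a) 1 := h0.const_add 1
  have h1' : HasDerivAt (fun r : ℝ => 1 - r ^ 2 * a) (-(2 * 1 * a)) 1 := h0.const_sub 1
  have h2 := h1'.div h1 hne
  refine h2.congr_deriv ?_
  field_simp
  ring

/-- the derivative of the parametrisation -/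
theorem hasDerivAt_Phi_ga (e : Ix) (t : Eu 7) : HasDerivAt (fun r => Phi e (ga t r))
    (((1 - eta2 t) / (1 + eta2 t) * (2 / (1 + eta2 t))) • (eta t * kq e.2.1),
      sgn e.1 * (-(1 - ((1 - eta2 t) / (1 + eta2 t)) ^ 2)), (0 : HH), (0 : HH)) 1 := by
  have ha := eta2_nonneg t
  have h1 := (deriv_one ha).smul_const (eta t * kq e.2.1)
  have h2 := (deriv_two ha).const_mul (sgn e.1)
  have h3 := hasDerivAt_const (1 : ℝ) (Phi e t).2.2.1
  have h4 := hasDerivAt_const (1 : ℝ) (Phi e t).2.2.2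
  have h := h1.prodMk (h2.prodMk (h3.prodMk h4))
  exact h.congr_of_eventuallyEq (Filter.Eventually.of_forall fun r => Phi_ga e t r)

end TanAux

open TanAux in
theorem stTan : StChart → StTan := by
  rintro ⟨h1, h2, _, _, h5, h6, h7⟩ f e t
  have hd : HasFDerivAt (Phi e) (fderiv ℝ (Phi e) t) t :=
    ((h5 e).differentiable (by simp) t).hasFDerivAt
  have hc : HasFDerivAt (cc e) (fderiv ℝ (cc e) (Phi e t)) (Phi e t) :=
    (((h7 e).differentiableOn (by simp)).differentiableAt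
      ((h6 e).mem_nhds (h1 e t).2)).hasFDerivAt
  have hs := sgn_mul_self e.1
  -- the derivative of `Phi e` in the direction `v0 t`
  have hv0 : fderiv ℝ (Phi e) t (v0 t) =
      (((1 - eta2 t) / (1 + eta2 t) * (2 / (1 + eta2 t))) • (eta t * kq e.2.1),
      sgn e.1 * (-(1 - ((1 - eta2 t) / (1 + eta2 t)) ^ 2)), (0 : HH), (0 : HH)) := by
    have hd' : HasFDerivAt (Phi e) (fderiv ℝ (Phi e) t) (ga t 1) := by rw [ga_one]; exact hd
    exact (hd'.comp_hasDerivAt 1 (hasDerivAt_ga t)).unique (hasDerivAt_Phi_ga e t)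
  set ps := psi f (Phi e t).2.1 with hps
  have hx : (Phi e t).2.1 = sgn e.1 * ((1 - eta2 t) / (1 + eta2 t)) := rfl
  have hxi : (Phi e t).1 = (2 / (1 + eta2 t)) • (eta t * kq e.2.1) := by
    change ((2 / (1 + eta2 t)) • eta t) * kq e.2.1 = _
    rw [smul_mul_assoc]
  have hV : fderiv ℝ (Phi e) t ((-(sgn e.1 * ps)) • v0 t) = VW f (Phi e t) := by
    rw [map_smul, hv0]
    unfold VW
    rw [← hps, hx, hxi]
    refine Prod.ext ?_ (Prod.ext ?_ (Prod.ext ?_ ?_))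
    · simp only [Prod.smul_fst, smul_neg, smul_smul]
      rw [← neg_smul]
      congr 1
      ring
    · simp only [Prod.smul_snd, Prod.smul_fst, smul_eq_mul]
      linear_combination (ps * (1 - ((1 - eta2 t) / (1 + eta2 t)) ^ 2) +
        ps * ((1 - eta2 t) / (1 + eta2 t)) ^ 2) * hs
    · simp
    · simp
  have hid : fderiv ℝ (cc e) (Phi e t) (fderiv ℝ (Phi e) t ((-(sgn e.1 * ps)) • v0 t)) =
      (-(sgn e.1 * ps)) • v0 t := by
    have h8 := hc.comp t hd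
    have h9 : (cc e ∘ Phi e) = id := funext fun s => h2 e s
    rw [h9] at h8
    have h10 := h8.unique (hasFDerivAt_id t)
    have h11 := congrArg (fun L : Eu 7 →L[ℝ] Eu 7 => L ((-(sgn e.1 * ps)) • v0 t)) h10
    exact h11
  have hVm : Vm f e t = (-(sgn e.1 * ps)) • v0 t := by
    unfold Vm
    rw [← hV, hid]
  refine ⟨by rw [hVm, hV], ?_⟩
  rw [hVm]
  unfold v0
  ext i
  fin_cases i <;> simp

end Pool.Agent.Lib.MP_2795bc_gt.SOL
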