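import Pool.Agent.Lib.MP_2795bc_gt.SOL.GStmts

/-!
# MP_2795bc_gt: `MS` is compact and connected
-/

open scoped Manifold ContDiff Topology Quaternion
open Bundle

noncomputable section

namespace Pool.Agent.Lib.MP_2795bc_gt.SOL

namespace TopAux

/-- `(1 + i + j + k) / 2` -/
def hq : HH := ⟨1 / 2, 1 / 2, 1 / 2, 1 / 2⟩

theorem hq_re : hq.re = 1 / 2 := rfl
theorem hq_imI : hq.imI = 1 / 2 := rfl
theorem hq_imJ : hq.imJ = 1 / 2 := rfl
theorem hq_imK : hq.imK = 1 / 2 := rfl
theorem qi_re : qi.re = 0 := rfl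
theorem qi_imI : qi.imI = 1 := rfl
theorem qi_imJ : qi.imJ = 0 := rfl
theorem qi_imK : qi.imK = 0 := rfl
theorem qj_re : qj.re = 0 := rfl
theorem qj_imI : qj.imI = 0 := rfl
theorem qj_imJ : qj.imJ = 1 := rfl
theorem qj_imK : qj.imK = 0 := rfl

/-- a point in all charts -/
def ws : WW := (hq, 0, qj, qi)

theorem ws_mem : ws ∈ MS := by
  refine ⟨?_, ?_, ?_, ?_, ?_⟩
  · show Quaternion.normSq hq + (0 : ℝ) ^ 2 = 1
    rw [Quaternion.normSq_def', hq_re, hq_imI, hq_imJ, hq_imK]
    norm_num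
  · rfl
  · show Quaternion.normSq qj = 1
    rw [Quaternion.normSq_def', qj_re, qj_imI, qj_imJ, qj_imK]
    norm_num
  · show (1 - (0 : ℝ) ^ 2) • qj = hq * qi * star hq
    ext <;> simp [qi_re, qi_imI, qi_imJ, qi_imK, qj_re, qj_imI, qj_imJ, qj_imK, hq_re, hq_imI,
      hq_imJ, hq_imK] <;> norm_num
  · show Quaternion.normSq qi = 1
    rw [Quaternion.normSq_def', qi_re, qi_imI, qi_imJ, qi_imK]
    norm_num

theorem ws_Os (e : Ix) : ws ∈ Os e := by
  refine ⟨?_, ?_, ?_⟩
  · show 0 < 1 + sgn e.1 * (0 : ℝ)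
    norm_num
  · show 0 < 1 + sgn e.2.1 * (0 : ℝ)
    norm_num
  · show 0 < 1 + sgn e.2.2 * (0 : ℝ)
    norm_num

theorem isClosed_MS : IsClosed MS := by
  have c1 : Continuous fun w : WW => w.1 := continuous_fst
  have c2 : Continuous fun w : WW => w.2.1 := by fun_prop
  have c3 : Continuous fun w : WW => w.2.2.1 := by fun_prop
  have c4 : Continuous fun w : WW => w.2.2.2 := by fun_prop
  have h1 : IsClosed {w : WW | Quaternion.normSq w.1 + w.2.1 ^ 2 = 1} :=
    isClosed_eq ((Quaternion.continuous_normSq.comp c1).add (c2.pow 2)) continuous_const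
  have h2 : IsClosed {w : WW | w.2.2.1.re = 0} :=
    isClosed_eq (Quaternion.continuous_re.comp c3) continuous_const
  have h3 : IsClosed {w : WW | Quaternion.normSq w.2.2.1 = 1} :=
    isClosed_eq (Quaternion.continuous_normSq.comp c3) continuous_const
  have h4 : IsClosed {w : WW | (1 - w.2.1 ^ 2) • w.2.2.1 = w.1 * qi * star w.1} :=
    isClosed_eq ((continuous_const.sub (c2.pow 2)).smul c3)
      ((c1.mul continuous_const).mul (continuous_star.comp c1))
  have h5 : IsClosed {w : WW | Quaternion.normSq w.2.2.2 = 1} :=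
    isClosed_eq (Quaternion.continuous_normSq.comp c4) continuous_const
  exact h1.inter (h2.inter (h3.inter (h4.inter h5)))

theorem norm_le_one {q : HH} (h : Quaternion.normSq q ≤ 1) : ‖q‖ ≤ 1 := by
  rw [Quaternion.normSq_eq_norm_mul_self] at h
  nlinarith [norm_nonneg q]

theorem isBounded_MS : Bornology.IsBounded MS := by
  rw [isBounded_iff_forall_norm_le]
  refine ⟨1, fun w hw => ?_⟩
  obtain ⟨h1, -, h3, -, h5⟩ := hw
  have a1 : ‖w.1‖ ≤ 1 := norm_le_one (by nlinarith [sq_nonneg w.2.1])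
  have a2 : ‖w.2.1‖ ≤ 1 := by
    rw [Real.norm_eq_abs, abs_le_one_iff_mul_self_le_one]
    have : 0 ≤ Quaternion.normSq w.1 := Quaternion.normSq_nonneg
    nlinarith
  have a3 : ‖w.2.2.1‖ ≤ 1 := norm_le_one h3.le
  have a4 : ‖w.2.2.2‖ ≤ 1 := norm_le_one h5.le
  exact max_le a1 (max_le a2 (max_le a3 a4))

end TopAux

open TopAux in
/-- `MS` is compact and connected -/
theorem stTop : StChart → StTop := by
  rintro ⟨h1, h2, h3, h4, h5, -, -⟩
  refine ⟨?_, ?_⟩
  · have : ProperSpace WW := FiniteDimensional.proper ℝ WW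
    exact Metric.isCompact_of_isClosed_isBounded isClosed_MS isBounded_MS
  · have hU : MS = ⋃ e : Ix, Set.range (Phi e) := by
      ext w
      rw [Set.mem_iUnion]
      constructor
      · intro hw
        obtain ⟨e, he⟩ := h4 w hw
        exact ⟨e, cc e w, h3 e w hw he⟩
      · rintro ⟨e, t, rfl⟩
        exact (h1 e t).1
    refine ⟨⟨ws, ws_mem⟩, ?_⟩
    rw [hU]
    refine isPreconnected_iUnion ⟨ws, ?_⟩ fun e => ?_
    · rw [Set.mem_iInter]
      intro e
      exact ⟨cc e ws, h3 e ws ws_mem (ws_Os e)⟩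
    · exact isPreconnected_range (h5 e).continuous

end Pool.Agent.Lib.MP_2795bc_gt.SOL
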