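import Pool.Agent.Lib.MP_2795bc_gt.SOL.Asm
import Pool.Agent.Lib.MP_2795bc_gt.SOL.ChA
import Pool.Agent.Lib.MP_2795bc_gt.SOL.ChB
import Pool.Agent.Lib.MP_2795bc_gt.SOL.ChC
import Pool.Agent.Lib.MP_2795bc_gt.SOL.ChD
import Pool.Agent.Lib.MP_2795bc_gt.SOL.Chart
import Pool.Agent.Lib.MP_2795bc_gt.SOL.Tan
import Pool.Agent.Lib.MP_2795bc_gt.SOL.Top
import Pool.Agent.Lib.MP_2795bc_gt.SOL.GmReg
import Pool.Agent.Lib.MP_2795bc_gt.SOL.GlueM
import Pool.Agent.Lib.MP_2795bc_gt.SOL.GlueMet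
import Pool.Agent.Lib.MP_2795bc_gt.SOL.GlueVec
import Pool.Agent.Lib.MP_2795bc_gt.SOL.Glue
import Pool.Agent.Lib.MP_2795bc_gt.SOL.RegS
import Pool.Agent.Lib.MP_2795bc_gt.SOL.RegL
import Pool.Agent.Lib.MP_2795bc_gt.SOL.CovF
import Pool.Agent.Lib.MP_2795bc_gt.SOL.RiemF
import Pool.Agent.Lib.MP_2795bc_gt.SOL.FRM
import Pool.Agent.Lib.MP_2795bc_gt.SOL.LieF
import Pool.Agent.Lib.MP_2795bc_gt.SOL.NatA
import Pool.Agent.Lib.MP_2795bc_gt.SOL.NatB
import Pool.Agent.Lib.MP_2795bc_gt.SOL.Nat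
import Pool.Agent.Lib.MP_2795bc_gt.SOL.FeF
import Pool.Agent.Lib.MP_2795bc_gt.SOL.BB
import Pool.Agent.Lib.MP_2795bc_gt.SOL.Frame
import Pool.Agent.Lib.MP_2795bc_gt.SOL.TabOff
import Pool.Agent.Lib.MP_2795bc_gt.SOL.TabDiag
import Pool.Agent.Lib.MP_2795bc_gt.SOL.TabMix
import Pool.Agent.Lib.MP_2795bc_gt.SOL.AB
import Pool.Agent.Lib.MP_2795bc_gt.SOL.DAB
import Pool.Agent.Lib.MP_2795bc_gt.SOL.E
import Pool.Agent.Lib.MP_2795bc_gt.SOL.At0
import Pool.Agent.Lib.MP_2795bc_gt.SOL.QReg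
import Pool.Agent.Lib.MP_2795bc_gt.SOL.Kos
import Pool.Agent.Lib.MP_2795bc_gt.SOL.Curv
import Pool.Agent.Lib.MP_2795bc_gt.SOL.Loc
import Pool.Agent.Lib.MP_2795bc_gt.SOL.NonEin
import Pool.Agent.Lib.MP_2795bc_gt.SOL.Comm

/-!
# MP_2795bc_gt: all geometric modules together
-/

namespace Pool.Agent.Lib.MP_2795bc_gt.SOL

/-- the answer follows from the analytic theorem -/
theorem target_of_ODE (h : StODE) : Target := by
  have hChart : StChart := stChart stChA stChB stChC stChD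
  have hTan : StTan := stTan hChart
  have hTop : StTop := stTop hChart
  have hGm : StGm := stGm hChart hTan
  have hGlue : StGlue := stGlue stGlueM stGlueMet stGlueVec
  have hReg : StReg := stReg stRegS stRegL
  have hFRM : StFRM := stFRM hReg (stCovF hReg) (stRiemF hReg)
  have hNat : StNat := stNat stNatA stNatB
  have hFe : StFe := stFe hChart hTan
  have hBB : StBB := stBB hChart
  have hAB : StAB := stAB
  have hDAB : StDAB := stDAB hAB
  have hE : StE := stE hAB hDAB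
  have hAt : StAt0 := stAt0 hAB hDAB
  have hQ : StQReg := stQReg hAB
  have hCurv : StCurv := stCurv hChart hGm hFe hBB stFrame hAB hQ stKos hFRM
  have hLoc : StLoc := stLoc hGm hReg hFe stLie hCurv stTabOff stTabDiag hE hAB hQ
  have hNE : StNonEin := stNonEin hCurv hLoc stLie hAB hAt hGm
  have hComm : StComm := stComm hCurv stTabMix hAt hReg hGm
  exact target_of h hChart hTan hTop hGm hGlue hLoc hNE hComm hNat

end Pool.Agent.Lib.MP_2795bc_gt.SOL
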