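import Pool.Agent.Lib.MP_2795bc_gt.SOL.GStmts2

/-!
# MP_2795bc_gt: a metric from its coordinate expressions
-/

set_option autoImplicit false

open scoped Manifold ContDiff Topology
open Bundle

noncomputable section

namespace Pool.Agent.Lib.MP_2795bc_gt.SOL

namespace GlueMet

/-- the unit ball of a positive definite form is bounded -/
theorem bdd {E : Type*} [NormedAddCommGroup E] [NormedSpace ℝ E] [FiniteDimensional ℝ E]
    (B : E →L[ℝ] E →L[ℝ] ℝ) (hpos : ∀ u, u ≠ 0 → 0 < B u u) :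
    Bornology.IsVonNBounded ℝ {v : E | B v v < 1} := by
  have hprop : ProperSpace E := FiniteDimensional.proper ℝ E
  rw [NormedSpace.isVonNBounded_iff, isBounded_iff_forall_norm_le]
  have hc : ∃ c : ℝ, 0 < c ∧ ∀ u : E, ‖u‖ = 1 → c ≤ B u u := by
    rcases (Metric.sphere (0 : E) 1).eq_empty_or_nonempty with h | h
    · refine ⟨1, one_pos, fun u hu => ?_⟩
      have : u ∈ Metric.sphere (0 : E) 1 := by simpa using hu
      rw [h] at this
      exact absurd this (Set.notMem_empty u)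
    · have hcont : Continuous fun u : E => B u u := by fun_prop
      obtain ⟨u, hu, hmin⟩ := (isCompact_sphere (0 : E) 1).exists_isMinOn h hcont.continuousOn
      have hu1 : ‖u‖ = 1 := by simpa using hu
      refine ⟨B u u, hpos u (fun h0 => by rw [h0, norm_zero] at hu1; exact zero_ne_one hu1),
        fun v hv => hmin (by simpa using hv)⟩
  obtain ⟨c, hc0, hc⟩ := hc
  refine ⟨1 / c + 1, fun v hv => ?_⟩
  have hv' : B v v < 1 := hv
  rcases eq_or_ne v 0 with rfl | hv0
  · rw [norm_zero]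
    positivity
  · have hn : 0 < ‖v‖ := norm_pos_iff.2 hv0
    have h1 := hc (‖v‖⁻¹ • v) (by
      rw [norm_smul, norm_inv, norm_norm, inv_mul_cancel₀ hn.ne'])
    rw [map_smul, map_smul, smul_apply, smul_eq_mul, smul_eq_mul] at h1
    have h2 : c * ‖v‖ ^ 2 ≤ B v v := by
      have h3 : ‖v‖ ^ 2 * (‖v‖⁻¹ * (‖v‖⁻¹ * B v v)) = B v v := by
        field_simp
      rw [← h3, mul_comm c]
      exact mul_le_mul_of_nonneg_left h1 (by positivity)
    have h3 : ‖v‖ ^ 2 ≤ 1 / c := by
      rw [le_div_iff₀ hc0]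
      linarith
    nlinarith [sq_nonneg (‖v‖ - 1)]

section
variable {n : ℕ} {M : Type*} [TopologicalSpace M] [ChartedSpace (Eu n) M]

theorem coordMetric_congr (h : FormField n M) (x₀ : M) (y : Eu n) (x : M)
    (hx : (extChartAt (𝓡 n) x₀).symm y = x) (v w : Eu n)
    (a b : TangentSpace (𝓡 n) x)
    (ha : (mfderiv (𝓡 n) (𝓡 n) (extChartAt (𝓡 n) x₀).symm y v : Eu n) = (a : Eu n))
    (hb : (mfderiv (𝓡 n) (𝓡 n) (extChartAt (𝓡 n) x₀).symm y w : Eu n) = (b : Eu n)) :
    coordMetric h x₀ y v w = h x a b := by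
  subst hx
  subst ha
  subst hb
  rfl

end

end GlueMet

open GlueMet

theorem stGlueMet : StGlueMet := by
  intro n M _ _ _ h hs hsymm hpos
  refine ⟨⟨h, hsymm, hpos, ?_, ?_⟩, rfl⟩
  · intro p
    exact bdd (E := Eu n) (h p) (hpos p)
  · intro x₀
    rw [contMDiffAt_hom_bundle]
    refine ⟨contMDiffAt_id, ?_⟩
    have h1 : (fun x => ContinuousLinearMap.inCoordinates (Eu n) (fun x : M => TangentSpace (𝓡 n) x)
        (Eu n →L[ℝ] ℝ) (fun x : M => TangentSpace (𝓡 n) x →L[ℝ] ℝ) x₀ x x₀ x (h x)) =ᶠ[𝓝 x₀]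
        fun x => coordMetric h x₀ (extChartAt (𝓡 n) x₀ x) := by
      filter_upwards [(chartAt (Eu n) x₀).open_source.mem_nhds (mem_chart_source (Eu n) x₀)]
        with x hx
      have hx' : x ∈ (extChartAt (𝓡 n) x₀).source := by
        rwa [extChartAt_source]
      ext v w
      rw [inCoordinates_apply_eq₂ (F₃ := ℝ) (E₃ := fun _ : M => ℝ) (by simpa using hx) (by simpa using hx) (by simp)]
      have hsymm' : ∀ v : Eu n, ((trivializationAt (Eu n) (TangentSpace (𝓡 n)) x₀).symm x v : Eu n)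
          = (mfderiv (𝓡 n) (𝓡 n) (extChartAt (𝓡 n) x₀).symm (extChartAt (𝓡 n) x₀ x) v : Eu n) := by
        intro v
        have e1 := TangentBundle.symmL_trivializationAt (I := 𝓡 n) hx
        have e2 : Set.range (𝓡 n) = Set.univ := by
          simp
        have e3 := congrArg (fun L => L v) e1
        simp only [e2, mfderivWithin_univ] at e3
        have e4 := Trivialization.symmL_apply (R := ℝ)
          (trivializationAt (EuclideanSpace ℝ (Fin n)) (TangentSpace (𝓡 n)) x₀) (b := x)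
          (by simpa using hx) v
        exact e4.symm.trans e3
      rw [coordMetric_congr h x₀ (extChartAt (𝓡 n) x₀ x) x ((extChartAt (𝓡 n) x₀).left_inv hx') v w
        _ _ (hsymm' v).symm (hsymm' w).symm]
      rw [Trivialization.coe_linearMapAt_of_mem _ (by simp)]
      rfl
    have h2 : ContMDiffAt (𝓡 n) 𝓘(ℝ, Eu n →L[ℝ] Eu n →L[ℝ] ℝ) ∞
        (fun x => coordMetric h x₀ (extChartAt (𝓡 n) x₀ x)) x₀ := by
      have h3 : ContDiffAt ℝ ∞ (coordMetric h x₀) (extChartAt (𝓡 n) x₀ x₀) :=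
        (hs x₀).contDiffAt ((isOpen_extChartAt_target x₀).mem_nhds (mem_extChartAt_target x₀))
      exact h3.contMDiffAt.comp x₀ contMDiffAt_extChartAt
    exact h2.congr_of_eventuallyEq h1

end Pool.Agent.Lib.MP_2795bc_gt.SOL
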