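import Pool.Agent.Lib.MP_2795bc_gt.SOL.HL

/-!
# MP_2795bc_gt: the check of one column
-/

open PowerSeries

noncomputable section

namespace Pool.Agent.Lib.MP_2795bc_gt.SOL

open WS

/-- element of `X7` -/
def toX (r : ℝ) (h : Fin 7 → List ℤ) : X7 := WithLp.toLp 1 fun i => r • toW (h i)

theorem toX_apply (r : ℝ) (h : Fin 7 → List ℤ) (i : Fin 7) : toX r h i = r • toW (h i) := rfl

/-- rows times column -/
def gL (P : Fin 7 → Fin 7 → List ℤ) (h : Fin 7 → List ℤ) (k : Fin 7) : List ℤ :=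
  addL (mulL (h 0) (P k 0)) (addL (mulL (h 1) (P k 1)) (addL (mulL (h 2) (P k 2))
    (addL (mulL (h 3) (P k 3)) (addL (mulL (h 4) (P k 4)) (addL (mulL (h 5) (P k 5))
      (mulL (h 6) (P k 6)))))))

theorem toW_gL (P : Fin 7 → Fin 7 → List ℤ) (h : Fin 7 → List ℤ) (k : Fin 7) :
    toW (gL P h k) = ∑ i, toW (P k i) * toW (h i) := by
  rw [Fin.sum_univ_seven, gL]
  simp only [toW_add, toW_mul]
  ring

/-- components `0, 1, 2` -/
def cA (S : ℤ) (h g : List ℤ) : List ℤ := addL (sclL S h) (sufL (wtL 0 g)).tail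

/-- components `3, .., 6` -/
def cB (S a : ℤ) (h g : List ℤ) : List ℤ := a :: addL (sclL S h.tail) (sclL (-1) (wtL 0 g))

/-- mean value -/
def muL (g : List ℤ) : ℤ := (sufL (wtL 0 g)).headD 0

/-- the list of the components of `blk` -/
def cL (S : ℤ) (P : Fin 7 → Fin 7 → List ℤ) (h : Fin 7 → List ℤ) : Fin 7 → List ℤ := ![
  cA S (h 0) (gL P h 0), cA S (h 1) (gL P h 1), cA S (h 2) (gL P h 2),
  cB S (S * (h 0).headD 0) (h 3) (gL P h 3), cB S (muL (gL P h 1)) (h 4) (gL P h 4),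
  cB S (muL (gL P h 0)) (h 5) (gL P h 5), cB S (muL (gL P h 2)) (h 6) (gL P h 6)]

theorem toW_cA (Sp : ℕ) (hSp : (Sp : ℝ) ≠ 0) (h g : List ℤ) (hg : g.length ≤ 60) :
    toW (cA (Lc * Sp) h g) = ((Lc : ℝ) * Sp) • (toW h - D ((1 / Sp : ℝ) • toW g)) := by
  rw [cA, toW_add, toW_scl, map_smul, smul_sub, smul_smul]
  have h1 := D_toW g hg
  rw [show ((Lc : ℝ) * Sp * (1 / Sp)) = Lc by field_simp, h1, sub_neg_eq_add]
  push_cast
  rfl

theorem toW_tail (l : List ℤ) : x * toW l.tail = toW l - cf (toW l) 0 • (1 : WS) := by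
  cases l with
  | nil => simp [toW_nil]
  | cons a l =>
    rw [cf_toW, toW_cons, List.tail_cons]
    simp

theorem toW_cB (Sp : ℕ) (hSp : (Sp : ℝ) ≠ 0) (a : ℤ) (b : ℝ) (h g : List ℤ) (hg : g.length ≤ 60)
    (hab : (a : ℝ) = Lc * Sp * b) :
    toW (cB (Lc * Sp) a h g) =
      ((Lc : ℝ) * Sp) • (J (toW h) - I ((1 / Sp : ℝ) • toW g) + b • (1 : WS)) := by
  rw [cB, toW_cons, toW_add, toW_scl, toW_scl, map_smul, smul_add, smul_sub, smul_smul, smul_smul,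
    mul_add, mul_smul_comm, mul_smul_comm, toW_tail, J_apply, hab]
  have h1 := I_toW g hg
  rw [toW_cons, Int.cast_zero, zero_smul, zero_add] at h1
  rw [show ((Lc : ℝ) * Sp * (1 / Sp)) = Lc by field_simp, h1]
  push_cast
  simp only [neg_smul, one_smul]
  abel

theorem toW_muL (Sp : ℕ) (hSp : (Sp : ℝ) ≠ 0) (g : List ℤ) (hg : g.length ≤ 60) :
    ((muL g : ℤ) : ℝ) = Lc * Sp * mu ((1 / Sp : ℝ) • toW g) := by
  rw [muL, ← mu_toW g hg, map_smul, smul_eq_mul]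
  field_simp

/-- the multipliers -/
def toP (Sp : ℕ) (P : Fin 7 → Fin 7 → List ℤ) (k i : Fin 7) : WS := (1 / Sp : ℝ) • toW (P k i)

theorem blk_toX (Sp : ℕ) (hSp : (Sp : ℝ) ≠ 0) (P : Fin 7 → Fin 7 → List ℤ) (h : Fin 7 → List ℤ)
    (hl : ∀ k, (gL P h k).length ≤ 60) (k : Fin 7) :
    toW (cL (Lc * Sp) P h k) = ((Lc : ℝ) * Sp) • blk (toP Sp P) (toX 1 h) k := by
  have hg : ∀ k, ∑ i, toP Sp P k i * toX 1 h i = (1 / Sp : ℝ) • toW (gL P h k) := by
    intro k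
    rw [toW_gL, Finset.smul_sum]
    refine Finset.sum_congr rfl fun i _ => ?_
    rw [toP, toX_apply, one_smul, smul_mul_assoc]
  have h0 : ∀ i, toX 1 h i = toW (h i) := fun i => by rw [toX_apply, one_smul]
  have hhead : ((((Lc * Sp : ℤ)) * (h 0).headD 0 : ℤ) : ℝ) = Lc * Sp * (cf (toX 1 h 0) 0 - 0) := by
    rw [h0, cf_toW, sub_zero]
    have : (h 0).headD 0 = (h 0).getD 0 0 := by cases h 0 <;> simp
    rw [this]; push_cast; rfl
  unfold blk asm
  simp only [hg]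
  fin_cases k
  · change toW (cA (Lc * Sp) (h 0) (gL P h 0)) = _
    rw [toW_cA Sp hSp _ _ (hl 0), ← h0]; rfl
  · change toW (cA (Lc * Sp) (h 1) (gL P h 1)) = _
    rw [toW_cA Sp hSp _ _ (hl 1), ← h0]; rfl
  · change toW (cA (Lc * Sp) (h 2) (gL P h 2)) = _
    rw [toW_cA Sp hSp _ _ (hl 2), ← h0]; rfl
  · change toW (cB (Lc * Sp) ((Lc * Sp) * (h 0).headD 0) (h 3) (gL P h 3)) = _
    rw [toW_cB Sp hSp _ _ _ _ (hl 3) hhead, ← h0]; rfl
  · change toW (cB (Lc * Sp) (muL (gL P h 1)) (h 4) (gL P h 4)) = _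
    rw [toW_cB Sp hSp _ _ _ _ (hl 4) (toW_muL Sp hSp _ (hl 1)), ← h0]; rfl
  · change toW (cB (Lc * Sp) (muL (gL P h 0)) (h 5) (gL P h 5)) = _
    rw [toW_cB Sp hSp _ _ _ _ (hl 5) (toW_muL Sp hSp _ (hl 0)), ← h0]; rfl
  · change toW (cB (Lc * Sp) (muL (gL P h 2)) (h 6) (gL P h 6)) = _
    rw [toW_cB Sp hSp _ _ _ _ (hl 6) (toW_muL Sp hSp _ (hl 2)), ← h0]; rfl

/-- `c x^j` -/
def unL : ℕ → ℤ → List ℤ
  | 0, c => [c]
  | j + 1, c => 0 :: unL j c

theorem toW_unL (j : ℕ) (c : ℤ) : toW (unL j c) = (c : ℝ) • x ^ j := by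
  induction j with
  | zero => simp [unL, toW_cons, toW_nil]
  | succ j ih => rw [unL, toW_cons, ih, Int.cast_zero, zero_smul, zero_add, mul_smul_comm, pow_succ']

/-- the residual of a column -/
def eL (S T : ℤ) (P : Fin 7 → Fin 7 → List ℤ) (h : Fin 7 → List ℤ) (i : Fin 7) (j : ℕ)
    (k : Fin 7) : List ℤ :=
  if k = i then addL (unL j (S * T)) (sclL (-1) (cL S P h k)) else cL S P h k

/-- the check of a column: `h` has the scale `T`, `P` the scale `Sp` -/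
def colOK (Sp T W : ℕ) (P : Fin 7 → Fin 7 → List ℤ) (i : Fin 7) (j : ℕ)
    (h : Fin 7 → List ℤ) : Bool :=
  decide (4 * 2 ^ j * (nrmW W (eL (Lc * Sp) T P h i j 0) + nrmW W (eL (Lc * Sp) T P h i j 1) +
    nrmW W (eL (Lc * Sp) T P h i j 2) + nrmW W (eL (Lc * Sp) T P h i j 3) +
    nrmW W (eL (Lc * Sp) T P h i j 4) + nrmW W (eL (Lc * Sp) T P h i j 5) +
    nrmW W (eL (Lc * Sp) T P h i j 6)) ≤ 3 * 3 ^ j * (Lc * Sp * T) * W) &&
  decide (2 ^ j * (nrmW W (h 0) + nrmW W (h 1) + nrmW W (h 2) + nrmW W (h 3) + nrmW W (h 4) +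
    nrmW W (h 5) + nrmW W (h 6)) ≤ 2600 * 3 ^ j * T * W) &&
  decide (∀ k, (gL P h k).length ≤ 60)

theorem normX (h : X7) : ‖h‖ = ∑ i, ‖h i‖ := PiLp.norm_eq_of_L1 h

theorem bs_apply (i : Fin 7) (j : ℕ) (k : Fin 7) : bs i j k = if k = i then x ^ j else 0 := by
  unfold bs
  by_cases h : k = i
  · subst h; simp
  · simp [h]

theorem blk_smul (p : Fin 7 → Fin 7 → WS) (r : ℝ) (h : X7) : blk p (r • h) = r • blk p h := by
  have hg : ∀ k, ∑ i, p k i * (r • h) i = r • ∑ i, p k i * h i := by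
    intro k
    rw [Finset.smul_sum]
    refine Finset.sum_congr rfl fun i _ => ?_
    rw [PiLp.smul_apply, mul_smul_comm]
  unfold blk asm
  simp only [hg]
  ext k
  fin_cases k <;>
    simp [map_smul, smul_sub, smul_add, smul_smul, cf_smul, mul_comm]

theorem colOK_spec {Sp T W : ℕ} {P : Fin 7 → Fin 7 → List ℤ} {i : Fin 7} {j : ℕ}
    {h : Fin 7 → List ℤ} (hSp : 0 < Sp) (hT : 0 < T) (hW : 0 < W)
    (hc : colOK Sp T W P i j h = true) :
    ‖toX (1 / T) h‖ ≤ 2600 * (3 / 2 : ℝ) ^ j ∧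
    ‖bs i j - blk (toP Sp P) (toX (1 / T) h)‖ ≤ 3 / 4 * (3 / 2 : ℝ) ^ j := by
  rw [colOK, Bool.and_eq_true, Bool.and_eq_true, decide_eq_true_eq, decide_eq_true_eq,
    decide_eq_true_eq] at hc
  obtain ⟨⟨h1, h2⟩, h3⟩ := hc
  have hSp' : (Sp : ℝ) ≠ 0 := by positivity
  have hLc : (0 : ℝ) < Lc := by unfold Lc; norm_num
  have hSpp : (0 : ℝ) < Sp := by exact_mod_cast hSp
  have hTp : (0 : ℝ) < T := by exact_mod_cast hT
  have hWp : (0 : ℝ) < W := by exact_mod_cast hW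
  have h2j : (0 : ℝ) < 2 ^ j := by positivity
  have h32 : (3 / 2 : ℝ) ^ j = 3 ^ j / 2 ^ j := by rw [div_pow]
  constructor
  · rw [normX]
    have e : ∀ i, ‖toX (1 / T) h i‖ ≤ (1 / (T * W) : ℝ) * nrmW W (h i) := by
      intro i
      rw [toX_apply, norm_smul, Real.norm_of_nonneg (by positivity)]
      have := nrmW_spec (h i) W
      calc 1 / (T : ℝ) * ‖toW (h i)‖ = 1 / (T * W) * (W * ‖toW (h i)‖) := by field_simp
        _ ≤ _ := by gcongr
    refine (Finset.sum_le_sum fun i _ => e i).trans ?_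
    rw [← Finset.mul_sum, Fin.sum_univ_seven, h32]
    have h2' : (2 ^ j * (nrmW W (h 0) + nrmW W (h 1) + nrmW W (h 2) + nrmW W (h 3) + nrmW W (h 4) +
      nrmW W (h 5) + nrmW W (h 6)) : ℝ) ≤ 2600 * 3 ^ j * T * W := by exact_mod_cast h2
    rw [one_div, inv_mul_le_iff₀ (by positivity), ← mul_div_assoc, ← mul_div_assoc,
      le_div_iff₀ h2j]
    calc _ = (2 ^ j * (nrmW W (h 0) + nrmW W (h 1) + nrmW W (h 2) + nrmW W (h 3) + nrmW W (h 4) +
      nrmW W (h 5) + nrmW W (h 6)) : ℝ) := by ring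
      _ ≤ _ := h2'
      _ = _ := by ring
  · have hX : toX (1 / T) h = (1 / T : ℝ) • toX 1 h := by
      ext k
      rw [toX_apply, PiLp.smul_apply, toX_apply, one_smul]
    have e : ∀ k, ‖(bs i j - blk (toP Sp P) (toX (1 / T) h)) k‖ ≤
        (1 / (Lc * Sp * T * W) : ℝ) * nrmW W (eL (Lc * Sp) T P h i j k) := by
      intro k
      have hb := blk_toX Sp hSp' P h h3 k
      have hk : ((Lc : ℝ) * Sp * T) • (bs i j - blk (toP Sp P) (toX (1 / T) h)) k =
          (if k = i then (1 : ℝ) else -1) • toW (eL (Lc * Sp) T P h i j k) := by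
        rw [hX, blk_smul, PiLp.sub_apply, PiLp.smul_apply, smul_sub, smul_smul,
          show ((Lc : ℝ) * Sp * T * (1 / T)) = Lc * Sp by field_simp, ← hb, bs_apply, eL]
        by_cases hki : k = i
        · rw [if_pos hki, if_pos hki, if_pos hki, toW_add, toW_unL, toW_scl, one_smul]
          push_cast
          simp only [neg_smul, one_smul]
          rw [sub_eq_add_neg]
        · rw [if_neg hki, if_neg hki, if_neg hki, smul_zero, zero_sub, neg_smul, one_smul]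
      have hn : ((Lc : ℝ) * Sp * T) * ‖(bs i j - blk (toP Sp P) (toX (1 / T) h)) k‖ =
          ‖toW (eL (Lc * Sp) T P h i j k)‖ := by
        have := congrArg norm hk
        rw [norm_smul, norm_smul, Real.norm_of_nonneg (by positivity)] at this
        rw [this]
        split_ifs <;> simp
      have := nrmW_spec (eL (Lc * Sp) T P h i j k) W
      rw [← hn] at this
      rw [div_mul_eq_mul_div, one_mul, le_div_iff₀ (by positivity)]
      calc _ = (W : ℝ) * ((Lc : ℝ) * Sp * T * ‖(bs i j - blk (toP Sp P) (toX (1 / T) h)) k‖) := by ring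
        _ ≤ _ := this
    rw [normX]
    refine (Finset.sum_le_sum fun k _ => e k).trans ?_
    rw [← Finset.mul_sum, Fin.sum_univ_seven, h32]
    have h1' : (4 * 2 ^ j * (nrmW W (eL (Lc * Sp) T P h i j 0) + nrmW W (eL (Lc * Sp) T P h i j 1) +
      nrmW W (eL (Lc * Sp) T P h i j 2) + nrmW W (eL (Lc * Sp) T P h i j 3) +
      nrmW W (eL (Lc * Sp) T P h i j 4) + nrmW W (eL (Lc * Sp) T P h i j 5) +
      nrmW W (eL (Lc * Sp) T P h i j 6)) : ℝ) ≤ 3 * 3 ^ j * (Lc * Sp * T) * W := by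
      exact_mod_cast h1
    rw [one_div, inv_mul_le_iff₀ (by positivity)]
    rw [show (Lc * Sp * T * W * (3 / 4 * (3 ^ j / 2 ^ j)) : ℝ) =
      3 * 3 ^ j * (Lc * Sp * T) * W / (4 * 2 ^ j) by ring, le_div_iff₀ (by positivity)]
    calc _ = (4 * 2 ^ j * (nrmW W (eL (Lc * Sp) T P h i j 0) + nrmW W (eL (Lc * Sp) T P h i j 1) +
      nrmW W (eL (Lc * Sp) T P h i j 2) + nrmW W (eL (Lc * Sp) T P h i j 3) +
      nrmW W (eL (Lc * Sp) T P h i j 4) + nrmW W (eL (Lc * Sp) T P h i j 5) +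
      nrmW W (eL (Lc * Sp) T P h i j 6)) : ℝ) := by ring
      _ ≤ _ := h1'

end Pool.Agent.Lib.MP_2795bc_gt.SOL
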