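import Pool.Agent.Lib.MP_2795bc_gt.SOL.HZ

/-!
# MP_2795bc_gt: the residual of the approximate solution
-/

open PowerSeries

noncomputable section

namespace Pool.Agent.Lib.MP_2795bc_gt.SOL

open WS

/-- right hand sides at the approximate solution, times `3200 * 10^32` -/
def gz : Fin 7 → List ℤ := ![
  addL [6400 * 10 ^ 32] (addL (sclL (-8) (mulL (mulL lS (zl 3))
    (addL (mulL lP (zl 0)) [0, -(2 * 10 ^ 16)])))
    (addL (sclL 2 (mulL (mulL lP lS) (mulL (zl 4) (zl 4)))) (sclL (-(16 * 10 ^ 16)) (mulL lS (zl 5))))),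
  addL (sclL (-8) (mulL (mulL lS (zl 3)) (mulL lP (zl 1)))) (addL (sclL (16 * 10 ^ 16)
    (mulL lS (zl 4))) (addL (sclL (-2) (mulL (mulL lP lS) (mulL (zl 4) (zl 4))))
      (sclL (-(16 * 10 ^ 16)) (mulL lS (zl 5))))),
  addL (sclL (-8) (mulL (mulL lS (zl 3)) (mulL lP (zl 2)))) (addL (sclL (16 * 10 ^ 16)
    (mulL lS (zl 6))) (sclL (-(16 * 10 ^ 16)) (mulL lS (zl 5)))),
  addL (sclL (-(16 * 10 ^ 16)) (mulL lX (zl 3))) (mulL lS (addL (sclL 8 (mulL (zl 0) (zl 3)))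
    (addL (sclL (-1) (mulL (zl 4) (zl 4))) (addL (sclL (-4) (mulL (zl 1) (zl 1)))
      (sclL (-6) (mulL (zl 2) (zl 2))))))),
  mulL (addL (addL (sclL 8 (mulL lS (zl 0))) (sclL (-(16 * 10 ^ 16)) lX))
    (sclL (-8) (mulL lS (zl 1)))) (zl 4),
  mulL (addL (sclL 8 (mulL lS (zl 0))) (sclL (-(16 * 10 ^ 16)) lX)) (zl 5),
  mulL (addL (addL (sclL 8 (mulL lS (zl 0))) (sclL (-(16 * 10 ^ 16)) lX))
    (sclL (-8) (mulL lS (zl 2)))) (zl 6)]

theorem two_eq : (2 : WS) = (2 : ℝ) • (1 : WS) := by rw [two_smul]; norm_num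

theorem gF_Z (k : Fin 7) : gF Zz k = (1 / (3200 * 10 ^ 32 : ℕ) : ℝ) • toW (gz k) := by
  have s0 : toW [6400 * 10 ^ 32] = (6400 * 10 ^ 32 : ℝ) • (1 : WS) := by
    rw [toW_cons, toW_nil, mul_zero, add_zero]; norm_num
  have h0 : SG * Zz 3 * (PG * Zz 0 - 2 * x) = (1 / (400 * 10 ^ 32 : ℕ) : ℝ) •
      (toW lS * toW (zl 3) * (toW lP * toW (zl 0) + toW [0, -(2 * 10 ^ 16)])) := by
    simp only [SG_eq, PG_eq, Zz_apply, two_mul', toW_lin]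
    simp only [smul_mul_assoc, mul_smul_comm, smul_smul, mul_assoc, mul_sub, mul_add, smul_sub,
      smul_add]
    push_cast
    module
  have h1 : PG * SG * (Zz 4 * Zz 4) = (1 / (400 * 10 ^ 32 : ℕ) : ℝ) •
      (toW lP * toW lS * (toW (zl 4) * toW (zl 4))) := by
    simp only [SG_eq, PG_eq, Zz_apply]
    simp only [smul_mul_assoc, mul_smul_comm, smul_smul]
    push_cast
    module
  have h2 : ∀ j, 2 * (SG * Zz j) = (1 / (200 * 10 ^ 16 : ℕ) : ℝ) • (toW lS * toW (zl j)) := by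
    intro j
    simp only [SG_eq, Zz_apply, two_mul']
    simp only [smul_mul_assoc, mul_smul_comm, smul_smul]
    push_cast
    module
  have h3 : ∀ j, SG * Zz 3 * (PG * Zz j) = (1 / (400 * 10 ^ 32 : ℕ) : ℝ) •
      (toW lS * toW (zl 3) * (toW lP * toW (zl j))) := by
    intro j
    simp only [SG_eq, PG_eq, Zz_apply]
    simp only [smul_mul_assoc, mul_smul_comm, smul_smul]
    push_cast
    module
  have h4 : 2 * (x * KG * Zz 3) = (1 / (200 * 10 ^ 16 : ℕ) : ℝ) • (toW lX * toW (zl 3)) := by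
    simp only [XK_eq, Zz_apply, two_mul']
    simp only [smul_mul_assoc, mul_smul_comm, smul_smul]
    push_cast
    module
  have h5 : SG * (Zz 0 * Zz 3 - (1 / 8 : ℝ) • (Zz 4 * Zz 4) - (1 / 2 : ℝ) • (Zz 1 * Zz 1)
      - (3 / 4 : ℝ) • (Zz 2 * Zz 2)) = (1 / (3200 * 10 ^ 32 : ℕ) : ℝ) •
      (toW lS * ((8 : ℝ) • (toW (zl 0) * toW (zl 3)) + ((-1 : ℝ) • (toW (zl 4) * toW (zl 4)) +
        ((-4 : ℝ) • (toW (zl 1) * toW (zl 1)) + (-6 : ℝ) • (toW (zl 2) * toW (zl 2)))))) := by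
    simp only [SG_eq, Zz_apply]
    simp only [smul_mul_assoc, mul_smul_comm, smul_smul, mul_sub, mul_add, smul_sub,
      smul_add]
    push_cast
    module
  have h6 : SG * Zz 0 - 2 * (x * KG) = (1 / (3200 * 10 ^ 16 : ℕ) : ℝ) •
      ((8 : ℝ) • (toW lS * toW (zl 0)) + (-(16 * 10 ^ 16) : ℝ) • toW lX) := by
    simp only [SG_eq, XK_eq, Zz_apply, two_mul']
    simp only [smul_mul_assoc, mul_smul_comm, smul_smul, smul_add]
    push_cast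
    module
  have h7 : ∀ j, SG * Zz 0 - 2 * (x * KG) - SG * Zz j = (1 / (3200 * 10 ^ 16 : ℕ) : ℝ) •
      (((8 : ℝ) • (toW lS * toW (zl 0)) + (-(16 * 10 ^ 16) : ℝ) • toW lX) +
        (-8 : ℝ) • (toW lS * toW (zl j))) := by
    intro j
    rw [h6]
    simp only [SG_eq, Zz_apply]
    simp only [smul_mul_assoc, mul_smul_comm, smul_smul, smul_add]
    push_cast
    module
  fin_cases k
  · change 2 - SG * Zz 3 * (PG * Zz 0 - 2 * x) + (1 / 4 : ℝ) • (PG * SG * (Zz 4 * Zz 4))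
      - 2 * (SG * Zz 5) = _ • toW (addL [6400 * 10 ^ 32] (addL (sclL (-8) (mulL (mulL lS (zl 3))
    (addL (mulL lP (zl 0)) [0, -(2 * 10 ^ 16)])))
    (addL (sclL 2 (mulL (mulL lP lS) (mulL (zl 4) (zl 4)))) (sclL (-(16 * 10 ^ 16)) (mulL lS (zl 5))))))
    rw [h0, h1, h2 5, two_eq]
    simp only [toW_add, toW_scl, toW_mul, s0]
    push_cast
    module
  · change -(SG * Zz 3 * (PG * Zz 1)) + 2 * (SG * Zz 4) - (1 / 4 : ℝ) • (PG * SG * (Zz 4 * Zz 4))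
      - 2 * (SG * Zz 5) = _ • toW (addL (sclL (-8) (mulL (mulL lS (zl 3)) (mulL lP (zl 1))))
      (addL (sclL (16 * 10 ^ 16)
    (mulL lS (zl 4))) (addL (sclL (-2) (mulL (mulL lP lS) (mulL (zl 4) (zl 4))))
      (sclL (-(16 * 10 ^ 16)) (mulL lS (zl 5))))))
    rw [h3, h1, h2 5, h2 4]
    simp only [toW_add, toW_scl, toW_mul]
    push_cast
    module
  · change -(SG * Zz 3 * (PG * Zz 2)) + 2 * (SG * Zz 6) - 2 * (SG * Zz 5) = _ •
      toW (addL (sclL (-8) (mulL (mulL lS (zl 3)) (mulL lP (zl 2)))) (addL (sclL (16 * 10 ^ 16)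
    (mulL lS (zl 6))) (sclL (-(16 * 10 ^ 16)) (mulL lS (zl 5)))))
    rw [h3, h2 5, h2 6]
    simp only [toW_add, toW_scl, toW_mul]
    push_cast
    module
  · change -(2 * (x * KG * Zz 3)) + SG * (Zz 0 * Zz 3 - (1 / 8 : ℝ) • (Zz 4 * Zz 4)
      - (1 / 2 : ℝ) • (Zz 1 * Zz 1) - (3 / 4 : ℝ) • (Zz 2 * Zz 2)) = _ •
      toW (addL (sclL (-(16 * 10 ^ 16)) (mulL lX (zl 3))) (mulL lS (addL (sclL 8 (mulL (zl 0) (zl 3)))
    (addL (sclL (-1) (mulL (zl 4) (zl 4))) (addL (sclL (-4) (mulL (zl 1) (zl 1)))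
      (sclL (-6) (mulL (zl 2) (zl 2))))))))
    rw [h4, h5]
    simp only [toW_add, toW_scl, toW_mul]
    push_cast
    module
  · change (SG * Zz 0 - 2 * (x * KG) - SG * Zz 1) * Zz 4 = _ • toW (mulL (addL (addL (sclL 8
      (mulL lS (zl 0))) (sclL (-(16 * 10 ^ 16)) lX)) (sclL (-8) (mulL lS (zl 1)))) (zl 4))
    rw [h7 1, Zz_apply]
    simp only [toW_add, toW_scl, toW_mul]
    simp only [smul_mul_assoc, mul_smul_comm, smul_smul, smul_add, add_mul]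
    push_cast
    module
  · change (SG * Zz 0 - 2 * (x * KG)) * Zz 5 = _ • toW (mulL (addL (sclL 8
      (mulL lS (zl 0))) (sclL (-(16 * 10 ^ 16)) lX)) (zl 5))
    rw [h6, Zz_apply]
    simp only [toW_add, toW_scl, toW_mul]
    simp only [smul_mul_assoc, mul_smul_comm, smul_smul, smul_add, add_mul]
    push_cast
    module
  · change (SG * Zz 0 - 2 * (x * KG) - SG * Zz 2) * Zz 6 = _ • toW (mulL (addL (addL (sclL 8
      (mulL lS (zl 0))) (sclL (-(16 * 10 ^ 16)) lX)) (sclL (-8) (mulL lS (zl 2)))) (zl 6))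
    rw [h7 2, Zz_apply]
    simp only [toW_add, toW_scl, toW_mul]
    simp only [smul_mul_assoc, mul_smul_comm, smul_smul, smul_add, add_mul]
    push_cast
    module

/-- the components of the residual -/
def fz : Fin 7 → List ℤ := ![
  cA ((Lc : ℤ) * (3200 * 10 ^ 16 : ℕ)) (zl 0) (gz 0), cA ((Lc : ℤ) * (3200 * 10 ^ 16 : ℕ)) (zl 1) (gz 1),
  cA ((Lc : ℤ) * (3200 * 10 ^ 16 : ℕ)) (zl 2) (gz 2),
  cB ((Lc : ℤ) * (3200 * 10 ^ 16 : ℕ)) 0 (zl 3) (gz 3),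
  cB ((Lc : ℤ) * (3200 * 10 ^ 16 : ℕ)) (muL (gz 1)) (zl 4) (gz 4),
  cB ((Lc : ℤ) * (3200 * 10 ^ 16 : ℕ)) (muL (gz 0)) (zl 5) (gz 5),
  cB ((Lc : ℤ) * (3200 * 10 ^ 16 : ℕ)) (muL (gz 2)) (zl 6) (gz 6)]

theorem gz_len : ∀ k, (gz k).length ≤ 60 := by decide +kernel

theorem head_zl : (zl 0).headD 0 = 12 * 10 ^ 14 := by decide +kernel

theorem fz_check : (nrmW (10 ^ 6) (fz 0) + nrmW (10 ^ 6) (fz 1) + nrmW (10 ^ 6) (fz 2) +
    nrmW (10 ^ 6) (fz 3) + nrmW (10 ^ 6) (fz 4) + nrmW (10 ^ 6) (fz 5) + nrmW (10 ^ 6) (fz 6)) *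
      10 ^ 10 ≤ 10 ^ 16 * Lc * (3200 * 10 ^ 16) * 10 ^ 6 := by decide +kernel

theorem cf_Z0 : cf (Zz 0) 0 = 3 / 25 := by
  rw [Zz_apply, cf_smul, cf_toW]
  have : (zl 0).getD 0 0 = 12 * 10 ^ 14 := by rw [← head_zl]; cases zl 0 <;> simp
  rw [this]; norm_num

theorem FF_comp (k : Fin 7) :
    toW (fz k) = ((Lc : ℝ) * (3200 * 10 ^ 16 : ℕ) * (10 ^ 16 : ℕ)) • FF Zz k := by
  have hS : ((3200 * 10 ^ 16 : ℕ) : ℝ) ≠ 0 := by norm_num
  have hg : ∀ k, gF Zz k = (1 / (10 ^ 16 : ℕ) : ℝ) • ((1 / (3200 * 10 ^ 16 : ℕ) : ℝ) • toW (gz k)) := by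
    intro k
    rw [gF_Z, smul_smul]
    congr 1
    norm_num
  have key : ∀ (a b : WS), a = (1 / (10 ^ 16 : ℕ) : ℝ) • b →
      ((Lc : ℝ) * (3200 * 10 ^ 16 : ℕ)) • b =
        ((Lc : ℝ) * (3200 * 10 ^ 16 : ℕ) * (10 ^ 16 : ℕ)) • a := by
    intro a b h
    rw [h, smul_smul]
    congr 1
    rw [mul_assoc, mul_one_div_cancel (by norm_num), mul_one]
  have hJ : ∀ j, J (Zz j) = (1 / (10 ^ 16 : ℕ) : ℝ) • J (toW (zl j)) := by
    intro j; rw [Zz_apply, map_smul]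
  fin_cases k
  · change toW (cA ((Lc : ℤ) * (3200 * 10 ^ 16 : ℕ)) (zl 0) (gz 0)) = _
    rw [toW_cA _ hS _ _ (gz_len 0)]
    apply key
    change Zz 0 - D (gF Zz 0) = _
    rw [hg, map_smul, Zz_apply, ← smul_sub]
  · change toW (cA ((Lc : ℤ) * (3200 * 10 ^ 16 : ℕ)) (zl 1) (gz 1)) = _
    rw [toW_cA _ hS _ _ (gz_len 1)]
    apply key
    change Zz 1 - D (gF Zz 1) = _
    rw [hg, map_smul, Zz_apply, ← smul_sub]
  · change toW (cA ((Lc : ℤ) * (3200 * 10 ^ 16 : ℕ)) (zl 2) (gz 2)) = _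
    rw [toW_cA _ hS _ _ (gz_len 2)]
    apply key
    change Zz 2 - D (gF Zz 2) = _
    rw [hg, map_smul, Zz_apply, ← smul_sub]
  · change toW (cB ((Lc : ℤ) * (3200 * 10 ^ 16 : ℕ)) 0 (zl 3) (gz 3)) = _
    rw [toW_cB _ hS 0 0 _ _ (gz_len 3) (by simp)]
    apply key
    change J (Zz 3) - I (gF Zz 3) + (cf (Zz 0) 0 - 3 / 25) • (1 : WS) = _
    rw [hg, map_smul, hJ, cf_Z0, sub_self, zero_smul, add_zero, add_zero, ← smul_sub]
  · change toW (cB ((Lc : ℤ) * (3200 * 10 ^ 16 : ℕ)) (muL (gz 1)) (zl 4) (gz 4)) = _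
    rw [toW_cB _ hS _ _ _ _ (gz_len 4) (toW_muL _ hS _ (gz_len 1))]
    apply key
    change J (Zz 4) - I (gF Zz 4) + mu (gF Zz 1) • (1 : WS) = _
    rw [hg, hg, map_smul, hJ, map_smul mu, smul_assoc, ← smul_sub, ← smul_add]
  · change toW (cB ((Lc : ℤ) * (3200 * 10 ^ 16 : ℕ)) (muL (gz 0)) (zl 5) (gz 5)) = _
    rw [toW_cB _ hS _ _ _ _ (gz_len 5) (toW_muL _ hS _ (gz_len 0))]
    apply key
    change J (Zz 5) - I (gF Zz 5) + mu (gF Zz 0) • (1 : WS) = _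
    rw [hg, hg, map_smul, hJ, map_smul mu, smul_assoc, ← smul_sub, ← smul_add]
  · change toW (cB ((Lc : ℤ) * (3200 * 10 ^ 16 : ℕ)) (muL (gz 2)) (zl 6) (gz 6)) = _
    rw [toW_cB _ hS _ _ _ _ (gz_len 6) (toW_muL _ hS _ (gz_len 2))]
    apply key
    change J (Zz 6) - I (gF Zz 6) + mu (gF Zz 2) • (1 : WS) = _
    rw [hg, hg, map_smul, hJ, map_smul mu, smul_assoc, ← smul_sub, ← smul_add]

theorem FF_small : ‖FF Zz‖ ≤ 1 / 10 ^ 10 := by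
  have hLc : (0 : ℝ) < Lc := by unfold Lc; norm_num
  have e : ∀ k, ‖FF Zz k‖ ≤ (1 / (Lc * (3200 * 10 ^ 16) * 10 ^ 16 * 10 ^ 6) : ℝ) *
      nrmW (10 ^ 6) (fz k) := by
    intro k
    have h1 := nrmW_spec (fz k) (10 ^ 6)
    rw [FF_comp k, norm_smul, Real.norm_of_nonneg (by positivity)] at h1
    rw [div_mul_eq_mul_div, one_mul, le_div_iff₀ (by positivity)]
    rw [show ((10 ^ 6 : ℕ) : ℝ) = 10 ^ 6 by norm_num,
      show ((3200 * 10 ^ 16 : ℕ) : ℝ) = 3200 * 10 ^ 16 by norm_num,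
      show ((10 ^ 16 : ℕ) : ℝ) = 10 ^ 16 by norm_num] at h1
    linarith
  rw [normX]
  refine (Finset.sum_le_sum fun k _ => e k).trans ?_
  rw [← Finset.mul_sum, Fin.sum_univ_seven, div_mul_eq_mul_div, one_mul,
    div_le_div_iff₀ (by positivity) (by positivity)]
  have h2 : ((nrmW (10 ^ 6) (fz 0) + nrmW (10 ^ 6) (fz 1) + nrmW (10 ^ 6) (fz 2) +
    nrmW (10 ^ 6) (fz 3) + nrmW (10 ^ 6) (fz 4) + nrmW (10 ^ 6) (fz 5) + nrmW (10 ^ 6) (fz 6)) *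
      10 ^ 10 : ℝ) ≤ 10 ^ 16 * Lc * (3200 * 10 ^ 16) * 10 ^ 6 := by exact_mod_cast fz_check
  linarith

end Pool.Agent.Lib.MP_2795bc_gt.SOL
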