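import Pool.Agent.Lib.MP_2795bc_gt.SOL.AStmts

/-!
# MP_2795bc_gt: arithmetic of integer lists as elements of `WS`
-/

open PowerSeries

noncomputable section

namespace Pool.Agent.Lib.MP_2795bc_gt.SOL

open WS

/-- the polynomial with the coefficients `l` -/
def toW : List ℤ → WS
  | [] => 0
  | a :: l => (a : ℝ) • (1 : WS) + x * toW l

/-- sum -/
def addL : List ℤ → List ℤ → List ℤ
  | [], m => m
  | a :: l, [] => a :: l
  | a :: l, b :: m => (a + b) :: addL l m

/-- multiple -/
def sclL (c : ℤ) : List ℤ → List ℤ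
  | [] => []
  | a :: l => c * a :: sclL c l

/-- `c * l + m` -/
def fmaL (c : ℤ) : List ℤ → List ℤ → List ℤ
  | [], m => m
  | a :: l, [] => c * a :: fmaL c l []
  | a :: l, b :: m => (c * a + b) :: fmaL c l m

/-- product -/
def mulL : List ℤ → List ℤ → List ℤ
  | [], _ => []
  | a :: l, m => fmaL a m (0 :: mulL l m)

theorem toW_nil : toW [] = 0 := rfl
theorem toW_cons (a : ℤ) (l : List ℤ) : toW (a :: l) = (a : ℝ) • (1 : WS) + x * toW l := rfl

theorem toW_add (l m : List ℤ) : toW (addL l m) = toW l + toW m := by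
  induction l generalizing m with
  | nil => simp [addL, toW_nil]
  | cons a l ih =>
    cases m with
    | nil => simp [addL, toW_nil]
    | cons b m =>
      rw [addL, toW_cons, toW_cons, toW_cons, ih, Int.cast_add, add_smul]
      ring

theorem toW_scl (c : ℤ) (l : List ℤ) : toW (sclL c l) = (c : ℝ) • toW l := by
  induction l with
  | nil => simp [sclL, toW_nil]
  | cons a l ih =>
    rw [sclL, toW_cons, toW_cons, ih, smul_add, smul_smul, Int.cast_mul, mul_smul_comm]

theorem toW_fma (c : ℤ) (l m : List ℤ) : toW (fmaL c l m) = (c : ℝ) • toW l + toW m := by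
  induction l generalizing m with
  | nil => simp [fmaL, toW_nil]
  | cons a l ih =>
    cases m with
    | nil =>
      rw [fmaL, toW_cons, toW_cons, ih, toW_nil, smul_add, smul_smul, Int.cast_mul,
        add_zero, add_zero, mul_smul_comm]
    | cons b m =>
      rw [fmaL, toW_cons, toW_cons, toW_cons, ih, smul_add, smul_smul, Int.cast_add, Int.cast_mul,
        add_smul, mul_add, mul_smul_comm]
      abel

theorem toW_mul (l m : List ℤ) : toW (mulL l m) = toW l * toW m := by
  induction l with
  | nil => simp [mulL, toW_nil]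
  | cons a l ih =>
    rw [mulL, toW_fma, toW_cons, toW_cons, ih, add_mul, smul_mul_assoc, one_mul, Int.cast_zero,
      zero_smul, zero_add, mul_assoc]

theorem cf_toW (l : List ℤ) (n : ℕ) : cf (toW l) n = ((l.getD n 0 : ℤ) : ℝ) := by
  induction l generalizing n with
  | nil => simp [toW_nil]
  | cons a l ih =>
    rw [toW_cons, cf_add, cf_smul, cf_x_mul, cf_one]
    cases n with
    | zero => simp
    | succ n => simp [ih n]

/-! ### Norms -/

/-- weighted sum of absolute values -/
def nrmW : ℕ → List ℤ → ℕ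
  | _, [] => 0
  | w, a :: l => a.natAbs * w + nrmW ((3 * w + 1) / 2) l

theorem norm_x_mul (f : WS) : ‖x * f‖ ≤ 3 / 2 * ‖f‖ := by
  refine (norm_mul_le _ _).trans ?_
  have : ‖(x : WS)‖ = 3 / 2 := by
    have := norm_x_pow 1
    rwa [pow_one, pow_one] at this
  rw [this]

theorem nrmW_spec (l : List ℤ) (w : ℕ) : (w : ℝ) * ‖toW l‖ ≤ nrmW w l := by
  induction l generalizing w with
  | nil => simp [toW_nil, nrmW]
  | cons a l ih =>
    rw [toW_cons, nrmW]
    have h1 : ‖(a : ℝ) • (1 : WS) + x * toW l‖ ≤ (a.natAbs : ℝ) + 3 / 2 * ‖toW l‖ := by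
      refine (norm_add_le _ _).trans (add_le_add ?_ (norm_x_mul _))
      rw [norm_smul, Real.norm_eq_abs, Nat.cast_natAbs, Int.cast_abs]
      have : ‖(1 : WS)‖ = 1 := by
        have := norm_x_pow 0
        rwa [pow_zero, pow_zero] at this
      rw [this, mul_one]
    have h2 := ih ((3 * w + 1) / 2)
    have h3 : (3 / 2 : ℝ) * w ≤ (((3 * w + 1) / 2 : ℕ) : ℝ) := by
      have : 3 * w ≤ 2 * ((3 * w + 1) / 2) := by omega
      have : (3 * w : ℝ) ≤ 2 * (((3 * w + 1) / 2 : ℕ) : ℝ) := by exact_mod_cast this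
      linarith
    push_cast
    calc (w : ℝ) * ‖(a : ℝ) • (1 : WS) + x * toW l‖
        ≤ w * ((a.natAbs : ℝ) + 3 / 2 * ‖toW l‖) := by gcongr
      _ = (a.natAbs : ℝ) * w + (3 / 2 * w) * ‖toW l‖ := by ring
      _ ≤ (a.natAbs : ℝ) * w + (((3 * w + 1) / 2 : ℕ) : ℝ) * ‖toW l‖ := by gcongr
      _ ≤ _ := by
        have := h2
        linarith

/-! ### The operators -/

/-- a multiple of `1, 2, .., 60` -/
def Lc : ℕ := 9690712164777231700912800

/-- `l_n * (Lc / (n + 1))` -/
def wtL : ℕ → List ℤ → List ℤ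
  | _, [] => []
  | j, a :: l => a * ((Lc / (j + 1) : ℕ) : ℤ) :: wtL (j + 1) l

/-- sums over the same parity -/
def sufL : List ℤ → List ℤ
  | [] => []
  | a :: l => let s := sufL l; (a + s.tail.headD 0) :: s

theorem getD_cons_succ' (a : ℤ) (l : List ℤ) (n : ℕ) : (a :: l).getD (n + 1) 0 = l.getD n 0 := by
  simp

theorem wtL_length (j : ℕ) (l : List ℤ) : (wtL j l).length = l.length := by
  induction l generalizing j with
  | nil => rfl
  | cons a l ih => simp [wtL, ih]

theorem Lc_dvd : ∀ m < 60, (m + 1) ∣ Lc := by decide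

theorem wtL_getD (l : List ℤ) (j : ℕ) (h : j + l.length ≤ 60) (n : ℕ) :
    (((wtL j l).getD n 0 : ℤ) : ℝ) = ((l.getD n 0 : ℤ) : ℝ) * (Lc / ((j + n : ℕ) + 1 : ℝ)) := by
  induction l generalizing j n with
  | nil => simp [wtL]
  | cons a l ih =>
    rw [List.length_cons] at h
    cases n with
    | zero =>
      simp only [wtL, List.getD_cons_zero, Int.cast_mul, Int.cast_natCast, Nat.add_zero]
      rw [Nat.cast_div (Lc_dvd j (by omega)) (by positivity)]
      push_cast; rfl
    | succ n =>
      rw [wtL, getD_cons_succ', getD_cons_succ', ih (j + 1) (by omega)]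
      push_cast
      congr 2
      ring

theorem sufL_getD (w : List ℤ) (k : ℕ) : (sufL w).getD k 0 =
    ∑ n ∈ Finset.range w.length, if k ≤ n ∧ (n - k) % 2 = 0 then w.getD n 0 else 0 := by
  induction w generalizing k with
  | nil => simp [sufL]
  | cons a l ih =>
    rw [List.length_cons, Finset.sum_range_succ']
    cases k with
    | zero =>
      have h1 : (sufL (a :: l)).getD 0 0 = a + (sufL l).getD 1 0 := by
        simp only [sufL, List.getD_cons_zero]
        cases sufL l with
        | nil => simp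
        | cons b m => cases m <;> simp
      rw [h1, ih 1]
      simp only [List.getD_cons_zero, getD_cons_succ', Nat.zero_le, true_and, Nat.sub_zero,
        Nat.zero_mod, if_true]
      rw [add_comm]
      congr 1
      refine Finset.sum_congr rfl fun n _ => ?_
      by_cases hn : 1 ≤ n ∧ (n - 1) % 2 = 0
      · rw [if_pos hn, if_pos (by omega)]
      · rw [if_neg hn]
        by_cases hn2 : (n + 1) % 2 = 0
        · exfalso; apply hn; omega
        · rw [if_neg hn2]
    | succ k =>
      have h1 : (sufL (a :: l)).getD (k + 1) 0 = (sufL l).getD k 0 := by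
        simp only [sufL, getD_cons_succ']
      rw [h1, ih k]
      simp only [getD_cons_succ']
      rw [if_neg (by omega), add_zero]
      refine Finset.sum_congr rfl fun n _ => ?_
      by_cases hn : k ≤ n ∧ (n - k) % 2 = 0
      · rw [if_pos hn, if_pos (by omega)]
      · rw [if_neg hn, if_neg (by omega)]

theorem toW_sum (l : List ℤ) :
    toW l = ∑ n ∈ Finset.range l.length, ((l.getD n 0 : ℤ) : ℝ) • x ^ n := by
  induction l with
  | nil => simp [toW_nil]
  | cons a l ih =>
    rw [List.length_cons, Finset.sum_range_succ', toW_cons, ih, Finset.mul_sum]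
    simp only [getD_cons_succ', List.getD_cons_zero, pow_zero]
    rw [add_comm]
    congr 1
    refine Finset.sum_congr rfl fun n _ => ?_
    rw [mul_smul_comm, pow_succ']

theorem cf_sum (s : Finset ℕ) (f : ℕ → WS) (k : ℕ) : cf (∑ n ∈ s, f n) k = ∑ n ∈ s, cf (f n) k := by
  have := map_sum (cfL k) f s
  simpa only [cfL_apply] using this

theorem cf_dcol (n k : ℕ) : cf (dcol n) k =
    -(1 / (n + 1 : ℝ)) * (if k < n ∧ (n - k) % 2 = 1 then 1 else 0) := by
  rw [dcol, cf_smul, cf_sum]
  congr 1
  rw [Finset.sum_eq_single k]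
  · by_cases hk : k < n ∧ (n - k) % 2 = 1
    · rw [if_pos hk.2, if_pos hk, cf_x_pow, if_pos rfl]
    · rw [if_neg hk]
      split_ifs with h
      · exfalso; omega
      · rfl
  · intro m _ hm
    split_ifs
    · rw [cf_x_pow, if_neg (Ne.symm hm)]
    · rfl
  · intro hk
    rw [Finset.mem_range] at hk
    have : ¬ (n - k) % 2 = 1 := by omega
    rw [if_neg this]; rfl

theorem D_toW (l : List ℤ) (h : l.length ≤ 60) :
    (Lc : ℝ) • D (toW l) = -toW (sufL (wtL 0 l)).tail := by
  apply WS.ext
  intro k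
  rw [toW_sum l, map_sum, cf_smul, cf_sum, cf_neg, cf_toW]
  have h1 : (sufL (wtL 0 l)).tail.getD k 0 = (sufL (wtL 0 l)).getD (k + 1) 0 := by
    cases sufL (wtL 0 l) with
    | nil => simp
    | cons b m => simp
  rw [h1, sufL_getD, wtL_length, Int.cast_sum, Finset.mul_sum, ← Finset.sum_neg_distrib]
  refine Finset.sum_congr rfl fun n _ => ?_
  rw [map_smul, cf_smul, D_x_pow, cf_dcol]
  by_cases hk : k < n ∧ (n - k) % 2 = 1
  · rw [if_pos hk, if_pos (by omega), wtL_getD l 0 (by omega)]
    push_cast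
    field_simp
    ring
  · rw [if_neg hk, if_neg (by omega)]
    simp

theorem mu_toW (l : List ℤ) (h : l.length ≤ 60) :
    (Lc : ℝ) * mu (toW l) = (((sufL (wtL 0 l)).headD 0 : ℤ) : ℝ) := by
  have h1 : (sufL (wtL 0 l)).headD 0 = (sufL (wtL 0 l)).getD 0 0 := by
    cases sufL (wtL 0 l) <;> simp
  rw [h1, sufL_getD, wtL_length, Int.cast_sum, toW_sum l, map_sum, Finset.mul_sum]
  refine Finset.sum_congr rfl fun n _ => ?_
  rw [map_smul, mu_x_pow, smul_eq_mul]
  by_cases hn : n % 2 = 0
  · rw [if_pos hn, if_pos (by omega), wtL_getD l 0 (by omega)]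
    push_cast
    field_simp
    ring
  · rw [if_neg hn, if_neg (by omega)]
    simp

theorem I_toW (l : List ℤ) (h : l.length ≤ 60) : (Lc : ℝ) • I (toW l) = toW (0 :: wtL 0 l) := by
  rw [toW_cons, Int.cast_zero, zero_smul, zero_add, toW_sum (wtL 0 l), wtL_length, toW_sum l,
    map_sum, Finset.smul_sum, Finset.mul_sum]
  refine Finset.sum_congr rfl fun n _ => ?_
  rw [map_smul, I_x_pow, wtL_getD l 0 (by omega), mul_smul_comm, ← pow_succ', smul_smul, smul_smul]
  congr 1
  push_cast
  field_simp
  ring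

end Pool.Agent.Lib.MP_2795bc_gt.SOL
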