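import Pool.Agent.Lib.MP_2795bc_gt.SOL.HD

/-!
# MP_2795bc_gt: the multipliers at the approximate solution
-/

open PowerSeries

noncomputable section

namespace Pool.Agent.Lib.MP_2795bc_gt.SOL

open WS

/-- the approximate solution -/
def Zz : X7 := toX (1 / (10 ^ 16 : ℕ)) zl

def lS : List ℤ := [437, 0, -38, 0, 1]
def lP : List ℤ := [1, 0, -1]
def lX : List ℤ := [0, 37, 0, -1]

theorem two_mul' (y : WS) : (2 : WS) * y = (2 : ℝ) • y := by
  rw [two_mul, two_smul]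

theorem PG_eq : PG = toW lP := by
  simp only [PG, lP, toW_cons, toW_nil, Int.cast_zero, Int.cast_one, Int.cast_neg, zero_smul,
    one_smul, neg_smul, mul_zero, add_zero, zero_add]
  ring

theorem SG_eq : SG = (1 / 400 : ℝ) • toW lS := by
  have e : PG * KG = (37 / 400 : ℝ) • 1 - (38 / 400 : ℝ) • x ^ 2 + (1 / 400 : ℝ) • x ^ 4 := by
    unfold PG KG
    rw [sub_mul, one_mul, mul_sub, mul_smul_comm, mul_smul_comm, mul_one, ← pow_add]
    module
  have f : toW lS = (437 : ℝ) • 1 - (38 : ℝ) • x ^ 2 + x ^ 4 := by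
    simp only [lS, toW_cons, toW_nil, Int.cast_zero, Int.cast_one, Int.cast_neg, Int.cast_ofNat,
      zero_smul, one_smul, neg_smul, mul_zero, add_zero, zero_add]
    simp only [mul_add, mul_neg, mul_smul_comm, mul_one]
    rw [show x * (x * (x * x)) = (x : WS) ^ 4 by ring, show x * x = (x : WS) ^ 2 by ring]
    abel
  unfold SG
  rw [e, f]
  module

theorem XK_eq : x * KG = (1 / 400 : ℝ) • toW lX := by
  have f : toW lX = (37 : ℝ) • x - x ^ 3 := by
    simp only [lX, toW_cons, toW_nil, Int.cast_zero, Int.cast_one, Int.cast_neg, Int.cast_ofNat,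
      zero_smul, one_smul, neg_smul, mul_zero, add_zero, zero_add]
    simp only [mul_add, mul_neg, mul_smul_comm, mul_one]
    rw [show x * (x * x) = (x : WS) ^ 3 by ring]
    abel
  rw [f, KG, mul_sub, mul_smul_comm, mul_smul_comm, mul_one, ← pow_succ']
  module

theorem Zz_apply (i : Fin 7) : Zz i = (1 / (10 ^ 16 : ℕ) : ℝ) • toW (zl i) := rfl

/-- the list expressions of the multipliers -/
def Pe : Fin 7 → Fin 7 → List ℤ := ![
  ![sclL (-4) (mulL lS (mulL lP (zl 3))), [], [],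
    sclL (-4) (mulL lS (addL (mulL lP (zl 0)) [0, -(2 * 10 ^ 16)])),
    sclL 2 (mulL lS (mulL lP (zl 4))), sclL (-(8 * 10 ^ 16)) lS, []],
  ![[], sclL (-4) (mulL lS (mulL lP (zl 3))), [], sclL (-4) (mulL lS (mulL lP (zl 1))),
    addL (sclL (8 * 10 ^ 16) lS) (sclL (-2) (mulL lS (mulL lP (zl 4)))),
    sclL (-(8 * 10 ^ 16)) lS, []],
  ![[], [], sclL (-4) (mulL lS (mulL lP (zl 3))), sclL (-4) (mulL lS (mulL lP (zl 2))), [],
    sclL (-(8 * 10 ^ 16)) lS, sclL (8 * 10 ^ 16) lS],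
  ![sclL 4 (mulL lS (zl 3)), sclL (-4) (mulL lS (zl 1)), sclL (-6) (mulL lS (zl 2)),
    addL (sclL 4 (mulL lS (zl 0))) (sclL (-(8 * 10 ^ 16)) lX), sclL (-1) (mulL lS (zl 4)), [], []],
  ![sclL 4 (mulL lS (zl 4)), sclL (-4) (mulL lS (zl 4)), [], [],
    addL (addL (sclL 4 (mulL lS (zl 0))) (sclL (-(8 * 10 ^ 16)) lX)) (sclL (-4) (mulL lS (zl 1))),
    [], []],
  ![sclL 4 (mulL lS (zl 5)), [], [], [], [],
    addL (sclL 4 (mulL lS (zl 0))) (sclL (-(8 * 10 ^ 16)) lX), []],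
  ![sclL 4 (mulL lS (zl 6)), [], sclL (-4) (mulL lS (zl 6)), [], [], [],
    addL (addL (sclL 4 (mulL lS (zl 0))) (sclL (-(8 * 10 ^ 16)) lX)) (sclL (-4) (mulL lS (zl 2)))]]

theorem Pl_eq : ∀ k i, Pl k i = Pe k i := by decide +kernel

theorem toW_lin (c : ℤ) : toW [0, c] = (c : ℝ) • x := by
  simp [toW_cons, toW_nil]

theorem pM_Z (k i : Fin 7) : pM Zz k i = toP (1600 * 10 ^ 16) Pl k i := by
  rw [toP, Pl_eq]
  have r1 : -(SG * PG * Zz 3) = (1 / (1600 * 10 ^ 16 : ℕ) : ℝ) •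
      toW (sclL (-4) (mulL lS (mulL lP (zl 3)))) := by
    simp only [toW_add, toW_scl, toW_mul, SG_eq, PG_eq, XK_eq, Zz_apply, two_mul', toW_lin]
    simp only [smul_mul_assoc, mul_smul_comm, smul_smul, mul_assoc, ← neg_smul]
    push_cast
    module
  have r2 : -(SG * (PG * Zz 0 - 2 * x)) = (1 / (1600 * 10 ^ 16 : ℕ) : ℝ) •
      toW (sclL (-4) (mulL lS (addL (mulL lP (zl 0)) [0, -(2 * 10 ^ 16)]))) := by
    simp only [toW_add, toW_scl, toW_mul, SG_eq, PG_eq, XK_eq, Zz_apply, two_mul', toW_lin]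
    simp only [smul_mul_assoc, mul_smul_comm, smul_smul, mul_assoc, mul_sub, mul_add, smul_sub,
      smul_add]
    push_cast
    module
  have r3 : (1 / 2 : ℝ) • (PG * SG * Zz 4) = (1 / (1600 * 10 ^ 16 : ℕ) : ℝ) •
      toW (sclL 2 (mulL lS (mulL lP (zl 4)))) := by
    rw [mul_comm PG SG]
    simp only [toW_add, toW_scl, toW_mul, SG_eq, PG_eq, XK_eq, Zz_apply, two_mul', toW_lin]
    simp only [smul_mul_assoc, mul_smul_comm, smul_smul, mul_assoc]
    push_cast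
    module
  have r4 : -(2 * SG) = (1 / (1600 * 10 ^ 16 : ℕ) : ℝ) • toW (sclL (-(8 * 10 ^ 16)) lS) := by
    simp only [toW_add, toW_scl, toW_mul, SG_eq, PG_eq, XK_eq, Zz_apply, two_mul', toW_lin]
    push_cast
    module
  have r4' : 2 * SG = (1 / (1600 * 10 ^ 16 : ℕ) : ℝ) • toW (sclL (8 * 10 ^ 16) lS) := by
    simp only [toW_add, toW_scl, toW_mul, SG_eq, PG_eq, XK_eq, Zz_apply, two_mul', toW_lin]
    push_cast
    module
  have r5 : ∀ j, -(SG * PG * Zz j) = (1 / (1600 * 10 ^ 16 : ℕ) : ℝ) •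
      toW (sclL (-4) (mulL lS (mulL lP (zl j)))) := by
    intro j
    simp only [toW_add, toW_scl, toW_mul, SG_eq, PG_eq, XK_eq, Zz_apply, two_mul', toW_lin]
    simp only [smul_mul_assoc, mul_smul_comm, smul_smul, mul_assoc, ← neg_smul]
    push_cast
    module
  have r8 : ∀ j, SG * Zz j = (1 / (1600 * 10 ^ 16 : ℕ) : ℝ) • toW (sclL 4 (mulL lS (zl j))) := by
    intro j
    simp only [toW_add, toW_scl, toW_mul, SG_eq, PG_eq, XK_eq, Zz_apply, two_mul', toW_lin]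
    simp only [smul_mul_assoc, mul_smul_comm, smul_smul]
    push_cast
    module
  have r9 : ∀ j, -(SG * Zz j) = (1 / (1600 * 10 ^ 16 : ℕ) : ℝ) •
      toW (sclL (-4) (mulL lS (zl j))) := by
    intro j
    rw [r8 j]
    simp only [toW_scl]
    push_cast
    module
  have r11 : SG * Zz 0 - 2 * (x * KG) = (1 / (1600 * 10 ^ 16 : ℕ) : ℝ) •
      toW (addL (sclL 4 (mulL lS (zl 0))) (sclL (-(8 * 10 ^ 16)) lX)) := by
    rw [r8 0, XK_eq, two_mul', toW_add]
    simp only [toW_scl]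
    push_cast
    module
  have r10 : (-(3 / 2) : ℝ) • (SG * Zz 2) = (1 / (1600 * 10 ^ 16 : ℕ) : ℝ) •
      toW (sclL (-6) (mulL lS (zl 2))) := by
    rw [r8 2]
    simp only [toW_scl]
    push_cast
    module
  have r12 : (-(1 / 4) : ℝ) • (SG * Zz 4) = (1 / (1600 * 10 ^ 16 : ℕ) : ℝ) •
      toW (sclL (-1) (mulL lS (zl 4))) := by
    rw [r8 4]
    simp only [toW_scl]
    push_cast
    module
  have r6 : 2 * SG - (1 / 2 : ℝ) • (PG * SG * Zz 4) = (1 / (1600 * 10 ^ 16 : ℕ) : ℝ) •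
      toW (addL (sclL (8 * 10 ^ 16) lS) (sclL (-2) (mulL lS (mulL lP (zl 4))))) := by
    rw [r3, r4', toW_add]
    simp only [toW_scl]
    push_cast
    module
  have r13 : ∀ j, SG * Zz 0 - 2 * (x * KG) - SG * Zz j = (1 / (1600 * 10 ^ 16 : ℕ) : ℝ) •
      toW (addL (addL (sclL 4 (mulL lS (zl 0))) (sclL (-(8 * 10 ^ 16)) lX))
        (sclL (-4) (mulL lS (zl j)))) := by
    intro j
    rw [r11, r8 j, toW_add (addL _ _)]
    simp only [toW_scl]
    push_cast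
    module
  have r0 : (0 : WS) = (1 / (1600 * 10 ^ 16 : ℕ) : ℝ) • toW [] := by rw [toW_nil, smul_zero]
  fin_cases k <;> fin_cases i
  exacts [r5 3, r0, r0, r2, r3, r4, r0,
    r0, r5 3, r0, r5 1, r6, r4, r0,
    r0, r0, r5 3, r5 2, r0, r4, r4',
    r8 3, r9 1, r10, r11, r12, r0, r0,
    r8 4, r9 4, r0, r0, r13 1, r0, r0,
    r8 5, r0, r0, r0, r0, r11, r0,
    r8 6, r0, r9 6, r0, r0, r0, r13 2]

end Pool.Agent.Lib.MP_2795bc_gt.SOL
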