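import Pool.Agent.Lib.MP_2795bc_gt.SOL.GStmts2

/-!
# MP_2795bc_gt: in a Riemannian product some non-scalar endomorphism commutes with the curvature
-/

open scoped Manifold ContDiff Topology Quaternion
open Bundle

noncomputable section

namespace Pool.Agent.Lib.MP_2795bc_gt.SOL

namespace NatAux

theorem chr_zero {E : Type*} [NormedAddCommGroup E] [NormedSpace ℝ E]
    (G : E → E →L[ℝ] E →L[ℝ] ℝ) (x u : E) : chr G x u 0 = 0 := by
  unfold chr
  generalize fderiv ℝ G x = D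
  have h : D u 0 + D 0 u - (D.flip u).flip 0 = 0 := by
    rw [map_zero, map_zero, map_zero]
    ext w
    simp
  rw [h, smul_zero, map_zero]

theorem riem_zero {E : Type*} [NormedAddCommGroup E] [NormedSpace ℝ E]
    (G : E → E →L[ℝ] E →L[ℝ] ℝ) (x u v : E) : riem G x u v 0 = 0 := by
  unfold riem
  simp only [chr_zero]
  simp

end NatAux

open NatAux

theorem stNat (hA : StNatA) (hB : StNatB) : StNat := by
  intro k l n hk hl hkl U₁ U₂ G₁ G₂ U' ψ G h₁ h₂ hU' hsub hψ hG hiso y hy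
  obtain ⟨H, hH, hHf, hHr⟩ := hB k l U₁ U₂ G₁ G₂ h₁ h₂
  have hfin : Module.finrank ℝ (Eu k × Eu l) = Module.finrank ℝ (Eu n) := by
    rw [Module.finrank_prod, finrank_euclideanSpace_fin, finrank_euclideanSpace_fin,
      finrank_euclideanSpace_fin, hkl]
  have hpos : ∀ y ∈ U', ∀ u, u ≠ 0 → 0 < H y u u := by
    intro y hy u hu
    rw [hHf]
    obtain ⟨hy1, hy2⟩ := hsub hy
    have p1 := (h₁.2.2 y.1 hy1).2 u.1
    have p2 := (h₂.2.2 y.2 hy2).2 u.2
    by_cases h1 : u.1 = 0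
    · have h2 : u.2 ≠ 0 := fun h2 => hu (Prod.ext h1 h2)
      rw [h1, map_zero, zero_add]
      exact p2 h2
    · by_cases h2 : u.2 = 0
      · rw [h2, map_zero, add_zero]
        exact p1 h1
      · exact add_pos (p1 h1) (p2 h2)
  have hsymm : ∀ y ∈ U', ∀ u v, H y u v = H y v u := by
    intro y hy u v
    obtain ⟨hy1, hy2⟩ := hsub hy
    rw [hHf, hHf, (h₁.2.2 y.1 hy1).1, (h₂.2.2 y.2 hy2).1]
  have hnat := hA (Eu k × Eu l) (Eu n) U' Set.univ ψ H G hfin hU' isOpen_univ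
    (fun _ _ => Set.mem_univ _) hψ (hH.mono hsub) hG.2.1 hsymm hpos
    (fun y hy => (hG.2.2 y hy).1) (fun y hy => (hG.2.2 y hy).2)
    (fun y hy u v => by rw [hHf]; exact hiso y hy u v) y hy
  have hR := hHr y (hsub hy)
  have hinj : Function.Injective (fderiv ℝ ψ y) := by
    rw [injective_iff_map_eq_zero]
    intro u hu
    by_contra hne
    have h1 := hpos y hy u hne
    rw [hHf, ← hiso y hy u u, hu, map_zero] at h1
    exact lt_irrefl _ h1
  generalize fderiv ℝ ψ y = D at hnat hinj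
  obtain ⟨D', hD'⟩ : ∃ D' : (Eu k × Eu l) ≃ₗ[ℝ] Eu n, ∀ z, D' z = D z :=
    ⟨LinearEquiv.ofInjectiveOfFinrankEq D.toLinearMap hinj hfin, fun z => rfl⟩
  refine ⟨D'.toLinearMap ∘ₗ ((LinearMap.inl ℝ (Eu k) (Eu l)) ∘ₗ (LinearMap.fst ℝ (Eu k) (Eu l))) ∘ₗ
    D'.symm.toLinearMap, ?_, ?_⟩
  · intro u v w
    obtain ⟨a, rfl⟩ := D'.surjective u
    obtain ⟨b, rfl⟩ := D'.surjective v
    obtain ⟨c, rfl⟩ := D'.surjective w
    change D' (((D'.symm (riem G (ψ y) (D' a) (D' b) (D' c))).1, 0)) =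
      riem G (ψ y) (D' a) (D' b) (D' (((D'.symm (D' c)).1, 0)))
    rw [LinearEquiv.symm_apply_apply, hD' a, hD' b, hD' c, hD' ((c.1, 0)), hnat, hnat, ← hD' _,
      LinearEquiv.symm_apply_apply, hR, hR, riem_zero, hD']
  · rintro ⟨μ, hμ⟩
    have key : ∀ z : Eu k × Eu l, D' ((z.1, 0)) = μ • D' z := by
      intro z
      have := hμ (D' z)
      change D' (((D'.symm (D' z)).1, 0)) = μ • D' z at this
      rwa [LinearEquiv.symm_apply_apply] at this
    have : Nonempty (Fin k) := ⟨⟨0, hk⟩⟩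
    have : Nonempty (Fin l) := ⟨⟨0, hl⟩⟩
    obtain ⟨e, he⟩ := exists_ne (0 : Eu k)
    obtain ⟨e', he'⟩ := exists_ne (0 : Eu l)
    have k1 := key (e, 0)
    have k2 := key (0, e')
    rw [← map_smul] at k1 k2
    have k3 := D'.injective k1
    have k4 := D'.injective k2
    have k5 : e = μ • e := congrArg Prod.fst k3
    have k6 : (0 : Eu l) = μ • e' := congrArg Prod.snd k4
    have k7 : μ = 0 := (smul_eq_zero.1 k6.symm).resolve_right he'
    rw [k7, zero_smul] at k5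
    exact he k5

end Pool.Agent.Lib.MP_2795bc_gt.SOL
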