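import Pool.Agent.Lib.MP_2795bc_gt.SOL.GStmts2

/-!
# MP_2795bc_gt: regularity of the coefficient functions
-/

open scoped Manifold ContDiff Topology Quaternion
open Bundle

noncomputable section

namespace Pool.Agent.Lib.MP_2795bc_gt.SOL

namespace QReg

/-- the entries of the table -/
theorem cls (a b c : Fin 7) (P : (ℝ → ℝ → ℝ → ℝ → ℝ → ℝ → ℝ → ℝ → ℝ → ℝ → ℝ) → Prop)
    (h0 : P fun _ _ _ _ _ _ _ _ _ _ => 0) (hA0 : P fun _ _ A0 _ _ _ _ _ _ _ => A0)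
    (hA1 : P fun _ _ _ A1 _ _ _ _ _ _ => A1) (hA2 : P fun _ _ _ _ A2 _ _ _ _ _ => A2)
    (hA4 : P fun _ _ _ _ _ A4 _ _ _ _ => A4) (hB1 : P fun _ _ _ _ _ _ B1 _ _ _ => -B1)
    (hB2 : P fun _ _ _ _ _ _ _ B2 _ _ => -B2) (hB4 : P fun _ _ _ _ _ _ _ _ B4 _ => -B4)
    (h1 : P fun two _ _ _ _ _ _ _ _ t => two - t) (h2 : P fun two _ _ _ _ _ _ _ _ t => t - two)
    (h3 : P fun _ _ _ _ _ _ _ _ _ t => t) (h4 : P fun _ _ _ _ _ _ _ _ _ t => -t)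
    (h5 : P fun _ one _ _ _ _ _ _ _ _ => one) (h6 : P fun _ one _ _ _ _ _ _ _ _ => -one) :
    P fun two one A0 A1 A2 A4 B1 B2 B4 t => tab two one A0 A1 A2 A4 B1 B2 B4 t a b c := by
  fin_cases a <;> fin_cases b <;> fin_cases c <;> first
    | exact h0 | exact hA0 | exact hA1 | exact hA2 | exact hA4 | exact hB1 | exact hB2 | exact hB4
    | exact h1 | exact h2 | exact h3 | exact h4 | exact h5 | exact h6

theorem poly_P : ContDiffOn ℝ ∞ (fun x : ℝ => 1 - x ^ 2) (Set.Ioo (-1 : ℝ) 1) :=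
  ContDiff.contDiffOn (by fun_prop)

theorem poly_sp : ContDiffOn ℝ ∞ sp (Set.Ioo (-1 : ℝ) 1) := by
  have h : ContDiff ℝ ∞ fun x : ℝ => 1 + (1 - x ^ 2) * ((37 - x ^ 2) / 400) := by fun_prop
  exact h.contDiffOn

end QReg

open QReg in
/-- regularity of the coefficient functions on `(-1, 1)` -/
theorem stQReg (hAB : StAB) : StQReg := by
  intro f hf
  have hab := hAB f hf
  obtain ⟨⟨hnu, hal, hga, hsg, hb, hc, he⟩, -, hpos, -⟩ := hf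
  have hsub : Set.Ioo (-1 : ℝ) 1 ⊆ Jv := by
    intro x hx
    exact ⟨by linarith [hx.1], by linarith [hx.2]⟩
  have hcc : Set.Ioo (-1 : ℝ) 1 ⊆ Set.Icc (-1) 1 := Set.Ioo_subset_Icc_self
  replace hal := hal.mono hsub
  replace hga := hga.mono hsub
  replace hsg := hsg.mono hsub
  replace hb := hb.mono hsub
  replace hc := hc.mono hsub
  replace he := he.mono hsub
  have hb0 : ∀ x ∈ Set.Ioo (-1 : ℝ) 1, f.b x ≠ 0 := fun x hx => (hpos x (hcc hx)).1.ne'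
  have hc0 : ∀ x ∈ Set.Ioo (-1 : ℝ) 1, f.c x ≠ 0 := fun x hx => (hpos x (hcc hx)).2.1.ne'
  have he0 : ∀ x ∈ Set.Ioo (-1 : ℝ) 1, f.e x ≠ 0 := fun x hx => (hpos x (hcc hx)).2.2.1.ne'
  have q0 : ContDiffOn ℝ ∞ (fun x => f.c x * sp x ^ 2 * (1 - x ^ 2)) (Set.Ioo (-1 : ℝ) 1) :=
    (hc.mul (poly_sp.pow 2)).mul poly_P
  have q1 : ContDiffOn ℝ ∞ (fun x => f.c x * (1 - x ^ 2)) (Set.Ioo (-1 : ℝ) 1) := hc.mul poly_P
  have q2 : ContDiffOn ℝ ∞ (fun x => 4 * f.c x / f.b x) (Set.Ioo (-1 : ℝ) 1) :=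
    (contDiffOn_const.mul hc).div hb hb0
  have q4 : ContDiffOn ℝ ∞ (fun x => 2 * f.c x / f.e x) (Set.Ioo (-1 : ℝ) 1) :=
    (contDiffOn_const.mul hc).div he he0
  have hq : ∀ a, ContDiffOn ℝ ∞ (fun x => qf f x a) (Set.Ioo (-1 : ℝ) 1) := by
    intro a
    fin_cases a
    · exact q0
    · exact q1
    · exact q2
    · exact q2
    · exact q4
    · exact q4
    · exact q4
  have hq0 : ∀ a, ∀ x ∈ Set.Ioo (-1 : ℝ) 1, 2 * qf f x a ≠ 0 := fun a x hx =>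
    mul_ne_zero two_ne_zero ((hab x hx).2.1 a).ne'
  have hd : ∀ a, ContDiffOn ℝ ∞ (fun x => (1 - x ^ 2) * deriv (fun y => qf f y a) x)
      (Set.Ioo (-1 : ℝ) 1) := fun a =>
    poly_P.mul ((hq a).deriv_of_isOpen isOpen_Ioo le_rfl)
  have hA : ∀ a, ContDiffOn ℝ ∞ (Aq f a) (Set.Ioo (-1 : ℝ) 1) := fun a =>
    (hd a).div (contDiffOn_const.mul (hq a)) (hq0 a)
  have hB : ∀ a, ContDiffOn ℝ ∞ (Bq f a) (Set.Ioo (-1 : ℝ) 1) := fun a =>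
    (hd a).div (contDiffOn_const.mul (hq 0)) (hq0 0)
  have ht : ContDiffOn ℝ ∞ (tq f) (Set.Ioo (-1 : ℝ) 1) :=
    (hq 1).div (hq 2) fun x hx => ((hab x hx).2.1 2).ne'
  have hpsi : ContDiffOn ℝ ∞ (psi f) (Set.Ioo (-1 : ℝ) 1) :=
    ((hal.add (contDiffOn_const.mul hga)).sub hsg).div (hc.mul poly_sp) fun x hx =>
      mul_ne_zero (hc0 x hx) (hab x hx).1.ne'
  refine ⟨hq, hA, hB, ht, hpsi, fun a b c => ?_, fun x hx a b c => ?_⟩
  · exact cls a b c (fun F => ContDiffOn ℝ ∞ (fun x => F 2 1 (Aq f 0 x) (Aq f 1 x) (Aq f 2 x)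
      (Aq f 4 x) (Bq f 1 x) (Bq f 2 x) (Bq f 4 x) (tq f x)) (Set.Ioo (-1 : ℝ) 1))
      contDiffOn_const (hA 0) (hA 1) (hA 2) (hA 4) (hB 1).neg (hB 2).neg (hB 4).neg
      (contDiffOn_const.sub ht) (ht.sub contDiffOn_const) ht ht.neg contDiffOn_const
      contDiffOn_const
  · exact cls a b c (fun F => deriv (fun y => F 2 1 (Aq f 0 y) (Aq f 1 y) (Aq f 2 y)
      (Aq f 4 y) (Bq f 1 y) (Bq f 2 y) (Bq f 4 y) (tq f y)) x =
        F 0 0 (deriv (Aq f 0) x) (deriv (Aq f 1) x) (deriv (Aq f 2) x) (deriv (Aq f 4) x)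
          (deriv (Bq f 1) x) (deriv (Bq f 2) x) (deriv (Bq f 4) x) (deriv (tq f) x))
      (deriv_const x 0) rfl rfl rfl rfl deriv.fun_neg deriv.fun_neg deriv.fun_neg
      ((deriv_const_sub 2).trans (zero_sub _).symm) ((deriv_sub_const 2).trans (sub_zero _).symm)
      rfl deriv.fun_neg (deriv_const x 1) ((deriv_const x (-1)).trans neg_zero.symm)

end Pool.Agent.Lib.MP_2795bc_gt.SOL
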