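import Mathlib

/-!
# MP_2795bc_gt: the Banach algebra of power series with `∑ |aₙ| (3/2)ⁿ < ∞`
-/

open PowerSeries

noncomputable section

namespace Pool.Agent.Lib.MP_2795bc_gt.SOL

/-- weighted summability -/
def wOK (f : ℝ⟦X⟧) : Prop := Summable fun n => |coeff n f| * (3 / 2 : ℝ) ^ n

theorem wOK_add {f g : ℝ⟦X⟧} (hf : wOK f) (hg : wOK g) : wOK (f + g) := by
  refine Summable.of_nonneg_of_le (fun n => by positivity) (fun n => ?_) (hf.add hg)
  rw [map_add, ← add_mul]
  exact mul_le_mul_of_nonneg_right (abs_add_le _ _) (by positivity)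

theorem wOK_antidiag {f g : ℝ⟦X⟧} (hf : wOK f) (hg : wOK g) :
    Summable fun n => ∑ p ∈ Finset.HasAntidiagonal.antidiagonal n,
      (|coeff p.1 f| * (3 / 2 : ℝ) ^ p.1) * (|coeff p.2 g| * (3 / 2 : ℝ) ^ p.2) := by
  have := summable_norm_sum_mul_antidiagonal_of_summable_norm (R := ℝ)
    (f := fun n => |coeff n f| * (3 / 2 : ℝ) ^ n) (g := fun n => |coeff n g| * (3 / 2 : ℝ) ^ n)
    (by simpa [abs_mul] using hf.norm) (by simpa [abs_mul] using hg.norm)
  refine this.congr (fun n => ?_)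
  rw [Real.norm_of_nonneg]
  exact Finset.sum_nonneg fun p _ => by positivity

theorem coeff_mul_le (f g : ℝ⟦X⟧) (n : ℕ) : |coeff n (f * g)| * (3 / 2 : ℝ) ^ n ≤
    ∑ p ∈ Finset.HasAntidiagonal.antidiagonal n,
      (|coeff p.1 f| * (3 / 2 : ℝ) ^ p.1) * (|coeff p.2 g| * (3 / 2 : ℝ) ^ p.2) := by
  rw [coeff_mul]
  calc |∑ p ∈ Finset.HasAntidiagonal.antidiagonal n, coeff p.1 f * coeff p.2 g| * (3 / 2 : ℝ) ^ n
      ≤ (∑ p ∈ Finset.HasAntidiagonal.antidiagonal n, |coeff p.1 f * coeff p.2 g|) * (3 / 2 : ℝ) ^ n := by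
        gcongr; exact Finset.abs_sum_le_sum_abs _ _
    _ = _ := by
        rw [Finset.sum_mul]
        refine Finset.sum_congr rfl fun p hp => ?_
        rw [Finset.HasAntidiagonal.mem_antidiagonal] at hp
        rw [abs_mul, ← hp, pow_add]; ring

theorem wOK_mul {f g : ℝ⟦X⟧} (hf : wOK f) (hg : wOK g) : wOK (f * g) :=
  Summable.of_nonneg_of_le (fun n => by positivity) (fun n => coeff_mul_le f g n)
    (wOK_antidiag hf hg)

theorem wOK_C (r : ℝ) : wOK (algebraMap ℝ ℝ⟦X⟧ r) := by
  refine summable_of_ne_finset_zero (s := {0}) fun n hn => ?_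
  have : n ≠ 0 := by simpa using hn
  rw [PowerSeries.algebraMap_apply, coeff_C, if_neg this]; simp

/-- The subalgebra of `ℝ⟦X⟧`. -/
def WSub : Subalgebra ℝ ℝ⟦X⟧ where
  carrier := {f | wOK f}
  mul_mem' hf hg := wOK_mul hf hg
  add_mem' hf hg := wOK_add hf hg
  algebraMap_mem' r := wOK_C r

/-- The Banach algebra. -/
def WS : Type := WSub

namespace WS

instance : CommRing WS := inferInstanceAs (CommRing WSub)
instance : Algebra ℝ WS := inferInstanceAs (Algebra ℝ WSub)

/-- `n`-th coefficient -/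
def cf (f : WS) (n : ℕ) : ℝ := coeff n f.1

theorem cf_summable (f : WS) : Summable fun n => |cf f n| * (3 / 2 : ℝ) ^ n := f.2

/-- build an element from its coefficients -/
def mk (a : ℕ → ℝ) (h : Summable fun n => |a n| * (3 / 2 : ℝ) ^ n) : WS :=
  ⟨PowerSeries.mk a, by
    change wOK _
    unfold wOK
    simpa using h⟩

@[simp] theorem cf_mk (a : ℕ → ℝ) (h) (n : ℕ) : cf (mk a h) n = a n := by
  change coeff n (PowerSeries.mk a) = a n
  simp

@[ext] theorem ext {f g : WS} (h : ∀ n, cf f n = cf g n) : f = g :=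
  Subtype.ext (PowerSeries.ext h)

@[simp] theorem cf_add (f g : WS) (n : ℕ) : cf (f + g) n = cf f n + cf g n := rfl
@[simp] theorem cf_zero (n : ℕ) : cf 0 n = 0 := rfl
@[simp] theorem cf_neg (f : WS) (n : ℕ) : cf (-f) n = - cf f n := rfl
@[simp] theorem cf_sub (f g : WS) (n : ℕ) : cf (f - g) n = cf f n - cf g n := rfl
@[simp] theorem cf_smul (r : ℝ) (f : WS) (n : ℕ) : cf (r • f) n = r * cf f n := rfl
theorem cf_mul (f g : WS) (n : ℕ) :
    cf (f * g) n = ∑ p ∈ Finset.HasAntidiagonal.antidiagonal n, cf f p.1 * cf g p.2 :=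
  coeff_mul n f.1 g.1
theorem cf_one (n : ℕ) : cf 1 n = if n = 0 then 1 else 0 := coeff_one n
theorem cf_algebraMap (r : ℝ) (n : ℕ) : cf (algebraMap ℝ WS r) n = if n = 0 then r else 0 := by
  change coeff n (algebraMap ℝ ℝ⟦X⟧ r) = _
  rw [PowerSeries.algebraMap_apply, coeff_C]; rfl

/-- the variable -/
def x : WS := mk (fun n => if n = 1 then 1 else 0)
  (summable_of_ne_finset_zero (s := {1}) fun n hn => by
    have : n ≠ 1 := by simpa using hn
    simp [this])

theorem x_val : x.1 = (PowerSeries.X : ℝ⟦X⟧) := by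
  apply PowerSeries.ext; intro n
  change coeff n (PowerSeries.mk (fun n => if n = 1 then (1 : ℝ) else 0)) = _
  rw [coeff_mk, coeff_X]

theorem cf_x_pow (k n : ℕ) : cf (x ^ k) n = if n = k then 1 else 0 := by
  have : (x ^ k).1 = (PowerSeries.X : ℝ⟦X⟧) ^ k := by
    rw [← x_val]; rfl
  change coeff n (x ^ k).1 = (if n = k then (1 : ℝ) else 0)
  rw [this, coeff_X_pow]

theorem cf_x_mul (f : WS) (n : ℕ) : cf (x * f) n = if n = 0 then 0 else cf f (n - 1) := by
  change coeff n (x.1 * f.1) = _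
  rw [x_val, mul_comm]
  cases n with
  | zero => simp
  | succ n => simp [coeff_succ_mul_X, cf]

instance : Norm WS := ⟨fun f => ∑' n, |cf f n| * (3 / 2 : ℝ) ^ n⟩

theorem norm_def (f : WS) : ‖f‖ = ∑' n, |cf f n| * (3 / 2 : ℝ) ^ n := rfl

theorem core : NormedSpace.Core ℝ WS where
  norm_nonneg f := tsum_nonneg fun n => by positivity
  norm_smul c f := by
    rw [norm_def, norm_def, ← tsum_mul_left]
    congr 1; ext n; rw [cf_smul, abs_mul, Real.norm_eq_abs]; ring
  norm_triangle f g := by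
    rw [norm_def, norm_def, norm_def, ← (cf_summable f).tsum_add (cf_summable g)]
    refine (cf_summable (f + g)).tsum_le_tsum (fun n => ?_) ((cf_summable f).add (cf_summable g))
    rw [cf_add, ← add_mul]
    exact mul_le_mul_of_nonneg_right (abs_add_le _ _) (by positivity)
  norm_eq_zero_iff f := by
    constructor
    · intro h
      rw [norm_def] at h
      have h2 := (cf_summable f).hasSum
      rw [h, hasSum_zero_iff_of_nonneg (fun n => by positivity)] at h2
      ext n
      have := congrFun h2 n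
      simp only [Pi.zero_apply, mul_eq_zero, abs_eq_zero] at this
      rcases this with h | h
      · simpa using h
      · exact absurd h (by positivity)
    · rintro rfl
      simp [norm_def]

instance : NormedAddCommGroup WS := NormedAddCommGroup.ofCore core
instance : NormedSpace ℝ WS := NormedSpace.ofCore core

theorem norm_mul_le' (f g : WS) : ‖f * g‖ ≤ ‖f‖ * ‖g‖ := by
  have hf := cf_summable f
  have hg := cf_summable g
  have h1 := tsum_mul_tsum_eq_tsum_sum_antidiagonal_of_summable_norm (R := ℝ)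
    (f := fun n => |cf f n| * (3 / 2 : ℝ) ^ n) (g := fun n => |cf g n| * (3 / 2 : ℝ) ^ n)
    (by simpa [abs_mul] using hf.norm) (by simpa [abs_mul] using hg.norm)
  rw [norm_def f, norm_def g, h1, norm_def]
  refine (cf_summable (f * g)).tsum_le_tsum (fun n => coeff_mul_le f.1 g.1 n) ?_
  exact wOK_antidiag hf hg

instance : NormedCommRing WS :=
  { (inferInstance : NormedAddCommGroup WS), (inferInstance : CommRing WS) with
    norm_mul_le := norm_mul_le' }

theorem norm_mk_le {f : WS} {C : ℝ} (h : ∑' n, |cf f n| * (3 / 2 : ℝ) ^ n ≤ C) : ‖f‖ ≤ C := h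

theorem norm_x_pow (k : ℕ) : ‖x ^ k‖ = (3 / 2 : ℝ) ^ k := by
  rw [norm_def, tsum_eq_single k]
  · simp [cf_x_pow]
  · intro n hn; simp [cf_x_pow, hn]

theorem norm_one' : ‖(1 : WS)‖ = 1 := by
  have := norm_x_pow 0
  simpa using this

instance : NormOneClass WS := ⟨norm_one'⟩

instance : NormedAlgebra ℝ WS where
  norm_smul_le r f := (core.norm_smul r f).le

theorem abs_cf_le (f : WS) (n : ℕ) : |cf f n| * (3 / 2 : ℝ) ^ n ≤ ‖f‖ :=
  (cf_summable f).le_tsum n fun m _ => by positivity

/-- The linear isometry onto `ℓ¹`. -/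
def toL : WS ≃ₗᵢ[ℝ] lp (fun _ : ℕ => ℝ) 1 where
  toFun f := ⟨fun n => cf f n * (3 / 2 : ℝ) ^ n, by
    change Memℓp _ _
    rw [memℓp_gen_iff (by norm_num)]
    simpa [abs_mul] using cf_summable f⟩
  invFun a := mk (fun n => a n * (2 / 3 : ℝ) ^ n) (by
    have h := lp.memℓp a
    rw [memℓp_gen_iff (by norm_num)] at h
    refine Summable.congr (f := fun n => ‖a n‖ ^ (ENNReal.toReal 1)) h fun n => ?_
    simp only [ENNReal.toReal_one, Real.rpow_one, Real.norm_eq_abs, abs_mul]
    rw [abs_of_pos (by positivity : (0:ℝ) < (2/3)^n), mul_assoc, ← mul_pow]; norm_num)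
  left_inv f := by
    ext n
    simp only [cf_mk]
    change cf f n * (3 / 2 : ℝ) ^ n * (2 / 3) ^ n = _
    rw [mul_assoc, ← mul_pow]; norm_num
  right_inv a := by
    apply lp.ext; funext n
    change cf (mk _ _) n * (3 / 2 : ℝ) ^ n = a n
    rw [cf_mk, mul_assoc, ← mul_pow]; norm_num
  map_add' f g := by
    apply lp.ext; funext n
    change cf (f + g) n * _ = cf f n * _ + cf g n * _
    rw [cf_add]; ring
  map_smul' r f := by
    apply lp.ext; funext n
    change cf (r • f) n * _ = r * (cf f n * _)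
    rw [cf_smul]; ring
  norm_map' f := by
    rw [lp.norm_eq_tsum_rpow (by norm_num), norm_def]
    simp only [ENNReal.toReal_one, Real.rpow_one, div_one]
    congr 1; ext n
    change ‖cf f n * (3 / 2 : ℝ) ^ n‖ = _
    rw [norm_mul, Real.norm_eq_abs, Real.norm_of_nonneg (by positivity : (0:ℝ) ≤ (3/2)^n)]

instance : CompleteSpace WS := by
  exact (toL.isometry.isUniformInducing.completeSpace_congr toL.surjective).mpr inferInstance

end WS
end Pool.Agent.Lib.MP_2795bc_gt.SOL
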