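import Pool.Agent.Lib.MP_2795bc_gt.SOL.WS

/-!
# MP_2795bc_gt: operators on `WS` given by their columns
-/

open PowerSeries

noncomputable section

namespace Pool.Agent.Lib.MP_2795bc_gt.SOL
namespace WS

section col
variable {Y : Type*} [NormedAddCommGroup Y] [NormedSpace ℝ Y] [CompleteSpace Y]

theorem col_summable (f : WS) {c : ℕ → Y} {C : ℝ} (h : ∀ n, ‖c n‖ ≤ C * (3 / 2 : ℝ) ^ n) :
    Summable fun n => cf f n • c n := by
  refine Summable.of_norm_bounded (g := fun n => C * (|cf f n| * (3 / 2 : ℝ) ^ n))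
    ((cf_summable f).mul_left C) fun n => ?_
  rw [norm_smul, Real.norm_eq_abs]
  calc |cf f n| * ‖c n‖ ≤ |cf f n| * (C * (3 / 2 : ℝ) ^ n) := by gcongr; exact h n
    _ = _ := by ring

/-- The operator with the columns `c n`. -/
def ofCol (c : ℕ → Y) (C : ℝ) (h : ∀ n, ‖c n‖ ≤ C * (3 / 2 : ℝ) ^ n) : WS →L[ℝ] Y :=
  LinearMap.mkContinuous
    { toFun := fun f => ∑' n, cf f n • c n
      map_add' := fun f g => by
        rw [← (col_summable f h).tsum_add (col_summable g h)]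
        congr 1; ext n; rw [cf_add, add_smul]
      map_smul' := fun r f => by
        simp only [RingHom.id_apply]
        rw [← (col_summable f h).tsum_const_smul r]
        congr 1; ext n; rw [cf_smul, mul_smul] } C (fun f => by
      have h1 : ‖∑' n, cf f n • c n‖ ≤ ∑' n, C * (|cf f n| * (3 / 2 : ℝ) ^ n) := by
        refine tsum_of_norm_bounded ((cf_summable f).mul_left C).hasSum fun n => ?_
        rw [norm_smul, Real.norm_eq_abs]
        calc |cf f n| * ‖c n‖ ≤ |cf f n| * (C * (3 / 2 : ℝ) ^ n) := by gcongr; exact h n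
          _ = _ := by ring
      rw [tsum_mul_left] at h1
      exact h1)

theorem ofCol_apply (c : ℕ → Y) (C : ℝ) (h : ∀ n, ‖c n‖ ≤ C * (3 / 2 : ℝ) ^ n) (f : WS) :
    ofCol c C h f = ∑' n, cf f n • c n := rfl

theorem ofCol_x_pow (c : ℕ → Y) (C : ℝ) (h : ∀ n, ‖c n‖ ≤ C * (3 / 2 : ℝ) ^ n) (n : ℕ) :
    ofCol c C h (x ^ n) = c n := by
  rw [ofCol_apply, tsum_eq_single n]
  · simp [cf_x_pow]
  · intro m hm; simp [cf_x_pow, hm]

theorem ofCol_norm (c : ℕ → Y) (C : ℝ) (h : ∀ n, ‖c n‖ ≤ C * (3 / 2 : ℝ) ^ n) (f : WS) :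
    ‖ofCol c C h f‖ ≤ C * ‖f‖ := by
  have h1 : ‖∑' n, cf f n • c n‖ ≤ ∑' n, C * (|cf f n| * (3 / 2 : ℝ) ^ n) := by
    refine tsum_of_norm_bounded ((cf_summable f).mul_left C).hasSum fun n => ?_
    rw [norm_smul, Real.norm_eq_abs]
    calc |cf f n| * ‖c n‖ ≤ |cf f n| * (C * (3 / 2 : ℝ) ^ n) := by gcongr; exact h n
      _ = _ := by ring
  rw [tsum_mul_left] at h1
  exact h1

end col

theorem hasSum_x_pow (f : WS) : HasSum (fun n => cf f n • x ^ n) f := by
  have hs : Summable fun n => cf f n • x ^ n :=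
    col_summable (Y := WS) f (C := 1) (c := fun n => x ^ n) fun n => by rw [norm_x_pow, one_mul]
  have hc : ∀ k, cf (∑' n, cf f n • x ^ n) k = cf f k := by
    intro k
    -- `cf · k` is a continuous linear functional
    let L : WS →L[ℝ] ℝ := LinearMap.mkContinuous
      { toFun := fun g => cf g k, map_add' := fun _ _ => rfl, map_smul' := fun _ _ => rfl }
      ((2 / 3 : ℝ) ^ k) (fun g => by
        have := abs_cf_le g k
        have h2 : (2 / 3 : ℝ) ^ k * (3 / 2 : ℝ) ^ k = 1 := by rw [← mul_pow]; norm_num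
        have h3 : (0 : ℝ) < (2 / 3) ^ k := by positivity
        change |cf g k| ≤ _
        calc |cf g k| = (2 / 3 : ℝ) ^ k * (|cf g k| * (3 / 2 : ℝ) ^ k) := by
              rw [mul_comm |cf g k|, ← mul_assoc, h2, one_mul]
          _ ≤ _ := by gcongr)
    have h1 : L (∑' n, cf f n • x ^ n) = ∑' n, L (cf f n • x ^ n) := L.map_tsum hs
    have h2 : ∀ n, L (cf f n • x ^ n) = if n = k then cf f k else 0 := by
      intro n
      change cf (cf f n • x ^ n) k = _
      rw [cf_smul, cf_x_pow]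
      by_cases hnk : n = k
      · subst hnk; simp
      · rw [if_neg (Ne.symm hnk), if_neg hnk, mul_zero]
    change L (∑' n, cf f n • x ^ n) = _
    rw [h1, tsum_eq_single k]
    · rw [h2, if_pos rfl]
    · intro m hm; rw [h2, if_neg hm]
  have : ∑' n, cf f n • x ^ n = f := ext hc
  rw [← this]
  simpa [this] using hs.hasSum

/-- the coefficient functional -/
def cfL (k : ℕ) : WS →L[ℝ] ℝ := LinearMap.mkContinuous
  { toFun := fun g => cf g k, map_add' := fun _ _ => rfl, map_smul' := fun _ _ => rfl }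
  ((2 / 3 : ℝ) ^ k) (fun g => by
    have := abs_cf_le g k
    have h2 : (2 / 3 : ℝ) ^ k * (3 / 2 : ℝ) ^ k = 1 := by rw [← mul_pow]; norm_num
    have h3 : (0 : ℝ) < (2 / 3) ^ k := by positivity
    change |cf g k| ≤ _
    calc |cf g k| = (2 / 3 : ℝ) ^ k * (|cf g k| * (3 / 2 : ℝ) ^ k) := by
          rw [mul_comm |cf g k|, ← mul_assoc, h2, one_mul]
      _ ≤ _ := by gcongr)

@[simp] theorem cfL_apply (k : ℕ) (g : WS) : cfL k g = cf g k := rfl

/-- Two continuous linear maps which agree on the powers of `x` are equal. -/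
theorem ext_x_pow {Y : Type*} [NormedAddCommGroup Y] [NormedSpace ℝ Y] {S T : WS →L[ℝ] Y}
    (h : ∀ n, S (x ^ n) = T (x ^ n)) : S = T := by
  ext f
  have hS := S.hasSum (hasSum_x_pow f)
  have hT := T.hasSum (hasSum_x_pow f)
  simp only [map_smul, h] at hS hT
  exact hS.unique hT

/-- Norm bound by columns. -/
theorem norm_le_col {Y : Type*} [NormedAddCommGroup Y] [NormedSpace ℝ Y] (T : WS →L[ℝ] Y) (C : ℝ)
    (h : ∀ n, ‖T (x ^ n)‖ ≤ C * (3 / 2 : ℝ) ^ n) (f : WS) : ‖T f‖ ≤ C * ‖f‖ := by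
  have hT := T.hasSum (hasSum_x_pow f)
  simp only [map_smul] at hT
  have hs : Summable fun n => C * (|cf f n| * (3 / 2 : ℝ) ^ n) := (cf_summable f).mul_left C
  rw [← hT.tsum_eq, norm_def, ← tsum_mul_left]
  refine tsum_of_norm_bounded hs.hasSum fun n => ?_
  rw [norm_smul, Real.norm_eq_abs]
  calc |cf f n| * ‖T (x ^ n)‖ ≤ |cf f n| * (C * (3 / 2 : ℝ) ^ n) := by gcongr; exact h n
    _ = _ := by ring

/-! ### The three operators -/

/-- Column `n` of `D`: `-(1/(n+1)) (x^(n-1) + x^(n-3) + ...)`. -/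
def dcol (n : ℕ) : WS :=
  (-(1 / (n + 1 : ℝ))) • ∑ k ∈ Finset.range n, if (n - k) % 2 = 1 then x ^ k else 0

theorem dcol_norm (n : ℕ) : ‖dcol n‖ ≤ (6 / 5 / (n + 1 : ℝ)) * (3 / 2 : ℝ) ^ n := by
  have key : ∀ n : ℕ, (∑ k ∈ Finset.range n, if (n - k) % 2 = 1 then (3 / 2 : ℝ) ^ k else 0)
      ≤ 6 / 5 * (3 / 2 : ℝ) ^ n := by
    intro n
    induction n using Nat.strong_induction_on with
    | _ n ih =>
      match n, ih with
      | 0, _ => norm_num
      | 1, _ => norm_num [Finset.sum_range_succ]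
      | n + 2, ih =>
        have h1 := ih n (by omega)
        rw [Finset.sum_range_succ, Finset.sum_range_succ]
        have h2 : ∀ k ∈ Finset.range n, (if (n + 2 - k) % 2 = 1 then (3 / 2 : ℝ) ^ k else 0)
            = if (n - k) % 2 = 1 then (3 / 2 : ℝ) ^ k else 0 := by
          intro k hk
          have hk' : k < n := Finset.mem_range.mp hk
          have : (n + 2 - k) % 2 = (n - k) % 2 := by omega
          rw [this]
        rw [Finset.sum_congr rfl h2]
        have h3 : (n + 2 - n) % 2 = 0 := by omega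
        have h4 : (n + 2 - (n + 1)) % 2 = 1 := by omega
        rw [h3, h4]
        simp only [zero_ne_one, if_false, add_zero, if_true]
        have e1 : (3 / 2 : ℝ) ^ (n + 1) = (3 / 2 : ℝ) ^ n * (3 / 2) := pow_succ _ _
        have e2 : (3 / 2 : ℝ) ^ (n + 2) = (3 / 2 : ℝ) ^ n * (9 / 4) := by rw [pow_add]; norm_num
        rw [e1, e2]
        linarith
  unfold dcol
  rw [norm_smul, norm_neg, Real.norm_of_nonneg (by positivity)]
  have h1 : ‖∑ k ∈ Finset.range n, if (n - k) % 2 = 1 then x ^ k else (0 : WS)‖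
      ≤ 6 / 5 * (3 / 2 : ℝ) ^ n := by
    refine (norm_sum_le _ _).trans (le_trans (Finset.sum_le_sum fun k _ => ?_) (key n))
    split_ifs
    · rw [norm_x_pow]
    · simp
  calc 1 / (n + 1 : ℝ) * _ ≤ 1 / (n + 1 : ℝ) * (6 / 5 * (3 / 2 : ℝ) ^ n) := by gcongr
    _ = _ := by ring

theorem dcol_norm' (n : ℕ) : ‖dcol n‖ ≤ (1 / 3) * (3 / 2 : ℝ) ^ n := by
  rcases Nat.lt_or_ge n 3 with h | h
  · interval_cases n
    · simp [dcol]
    · have : dcol 1 = (-(1 / 2 : ℝ)) • (x ^ 0) := by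
        unfold dcol; norm_num [Finset.sum_range_succ]
      rw [this, norm_smul, norm_x_pow]; norm_num
    · have : dcol 2 = (-(1 / 3 : ℝ)) • (x ^ 1) := by
        unfold dcol; norm_num [Finset.sum_range_succ]
      rw [this, norm_smul, norm_x_pow]; norm_num
  · refine (dcol_norm n).trans ?_
    have h3 : (3 : ℝ) ≤ n := by exact_mod_cast h
    have h4 : 6 / 5 / (n + 1 : ℝ) ≤ 1 / 3 := by
      rw [div_le_iff₀ (by positivity)]; linarith
    exact mul_le_mul_of_nonneg_right h4 (by positivity)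

/-- `D f = (1/(1-x²)) ∫ (f - mean f)`. -/
def D : WS →L[ℝ] WS := ofCol dcol (1 / 3) dcol_norm'

/-- `I f = ∫₀ˣ f`. -/
def I : WS →L[ℝ] WS := ofCol (fun n => (1 / (n + 1 : ℝ)) • x ^ (n + 1)) (3 / 2) fun n => by
  rw [norm_smul, norm_x_pow, Real.norm_of_nonneg (by positivity), pow_succ]
  have : 1 / (n + 1 : ℝ) ≤ 1 := by
    rw [div_le_one (by positivity)]; linarith [(Nat.cast_nonneg n : (0 : ℝ) ≤ n)]
  calc 1 / (n + 1 : ℝ) * ((3 / 2 : ℝ) ^ n * (3 / 2)) ≤ 1 * ((3 / 2 : ℝ) ^ n * (3 / 2)) := by gcongr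
    _ = _ := by ring

/-- `mu f` = mean value of `f` on `[-1, 1]`. -/
def mu : WS →L[ℝ] ℝ := ofCol (fun n => if n % 2 = 0 then 1 / (n + 1 : ℝ) else 0) 1 fun n => by
  have h1 : (1 : ℝ) ≤ (3 / 2) ^ n := one_le_pow₀ (by norm_num)
  have : 1 / (n + 1 : ℝ) ≤ 1 := by
    rw [div_le_one (by positivity)]; linarith [(Nat.cast_nonneg n : (0 : ℝ) ≤ n)]
  split_ifs
  · rw [Real.norm_of_nonneg (by positivity)]; linarith
  · rw [norm_zero]; positivity

/-- `J f = f - f(0)`. -/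
def J : WS →L[ℝ] WS := ContinuousLinearMap.id ℝ WS - (cfL 0).smulRight (1 : WS)

theorem D_x_pow (n : ℕ) : D (x ^ n) = dcol n := ofCol_x_pow _ _ _ n
theorem I_x_pow (n : ℕ) : I (x ^ n) = (1 / (n + 1 : ℝ)) • x ^ (n + 1) := ofCol_x_pow _ _ _ n
theorem mu_x_pow (n : ℕ) : mu (x ^ n) = if n % 2 = 0 then 1 / (n + 1 : ℝ) else 0 :=
  ofCol_x_pow _ _ _ n
theorem J_apply (f : WS) : J f = f - cf f 0 • 1 := rfl

theorem D_norm (f : WS) : ‖D f‖ ≤ 1 / 3 * ‖f‖ := ofCol_norm _ _ _ f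
theorem I_norm (f : WS) : ‖I f‖ ≤ 3 / 2 * ‖f‖ := ofCol_norm _ _ _ f
theorem mu_norm (f : WS) : |mu f| ≤ ‖f‖ := by
  have h : ‖mu f‖ ≤ 1 * ‖f‖ := ofCol_norm _ _ _ f
  rw [one_mul] at h
  exact h

end WS
end Pool.Agent.Lib.MP_2795bc_gt.SOL
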